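import Mathlib

/-! Basic set-system notions for list colouring `K_{a,b} + K_t`. -/

namespace Pool.Agent.P.MP_a09be5_co
open Finset

variable {ι : Type} [DecidableEq ι]

/-- The colours can be split into `X` and its complement so that every `E u` (`u ∈ A`) meets `X`
and every `H v` (`v ∈ B`) meets the complement. -/
def Split (A B : Finset ι) (E H : ι → Finset ℕ) : Prop :=
  ∃ X : Set ℕ, (∀ u ∈ A, ∃ c ∈ E u, c ∈ X) ∧ (∀ v ∈ B, ∃ c ∈ H v, c ∉ X)

/-- List colourability of the join of `K_{A,B}` with the clique `I`. -/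
def Col (I A B : Finset ι) (F E H : ι → Finset ℕ) : Prop :=
  ∃ f : ι → ℕ, (∀ s ∈ I, f s ∈ F s) ∧ Set.InjOn f I ∧
    Split A B (fun u => E u \ I.image f) (fun v => H v \ I.image f)

/-- All but two colours of `S` are reserved, and the rest can be split. -/
def Good (S : Finset ℕ) (A B : Finset ι) (E H : ι → Finset ℕ) : Prop :=
  ∃ P ⊆ S, P.card = 2 ∧ Split A B (fun u => E u \ (S \ P)) (fun v => H v \ (S \ P))

/-- The clique vertices in `I` can be coloured from `R` avoiding any prescribed pair. -/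
def Cluster (I : Finset ι) (R : Finset ℕ) (F : ι → Finset ℕ) : Prop :=
  R.card = I.card + 2 ∧ ∀ P ⊆ R, P.card = 2 →
    ∃ g : ι → ℕ, (∀ s ∈ I, g s ∈ F s ∧ g s ∈ R \ P) ∧ Set.InjOn g I

/-- Total weight `∑ 1 / |E u|`. -/
def wt (A : Finset ι) (E : ι → Finset ℕ) : ℚ := ∑ u ∈ A, 1 / ((E u).card : ℚ)

/-- Weight of the sets containing the colour `c`. -/
def deg (A : Finset ι) (E : ι → Finset ℕ) (c : ℕ) : ℚ := wt (A.filter fun u => c ∈ E u) E

/-- Probability of a conflict in a random order. -/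
def W (e h : ℕ) : ℚ := ((e - 1).factorial * (h - 1).factorial : ℚ) / (e + h - 1).factorial

/-- Two pairs with a common colour. -/
def Star2 (A : Finset ι) (E : ι → Finset ℕ) : Prop :=
  A.card = 2 ∧ (∀ u ∈ A, (E u).card = 2) ∧ ∃ f, ∀ u ∈ A, f ∈ E u

def lamS (h : ℕ) : ℚ :=
  if h = 0 then 1 else if h ≤ 2 then 1 / 2 else if h = 3 then 9 / 32 else 7 / (12 * h)

def lamH (h : ℕ) : ℚ := if h = 0 then 1 else 1 / (2 * h)

def lamF (h : ℕ) : ℚ := if h = 0 then 1 else if h ≤ 2 then 1 / 2 else 1 / (2 * h)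

def lamB (h : ℕ) : ℚ := if h = 0 then 1 else (h + 5) / ((h + 1) * (h + 2))

/-- Probability that a random `a`-subset of an `n`-set lies in a given `d`-subset. -/
def rho (d n a : ℕ) : ℚ := (d.descFactorial a : ℚ) / (n.descFactorial a : ℚ)

/-- Failure weight of a list `L` for a plan of blocks. -/
def val (y : ℚ) : List (Finset ℕ × ℕ) → Finset ℕ → ℚ
  | [], L => y ^ L.card
  | b :: bs, L => rho (b.1 \ L).card b.1.card b.2 * val y bs (L \ b.1)

/-- Effective bias after `j` sequential uniform picks among `N, N-1, ...` candidates. -/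
def ySeq (p : ℚ) (N j : ℕ) : ℚ := 1 - (1 - p) * ((N : ℚ) - j) / N

/-- Union of a list of finite sets. -/
def unionL (l : List (Finset ℕ)) : Finset ℕ := l.foldr (· ∪ ·) ∅

omit [DecidableEq ι] in
theorem Split.symm {A B : Finset ι} {E H : ι → Finset ℕ} (h : Split A B E H) : Split B A H E := by
  obtain ⟨X, h1, h2⟩ := h
  refine ⟨Xᶜ, fun v hv => ?_, fun u hu => ?_⟩
  · obtain ⟨c, hc, hx⟩ := h2 v hv
    exact ⟨c, hc, hx⟩
  · obtain ⟨c, hc, hx⟩ := h1 u hu
    exact ⟨c, hc, fun h => h hx⟩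

omit [DecidableEq ι] in
theorem Split.mono {A B A' B' : Finset ι} {E H E' H' : ι → Finset ℕ} (h : Split A B E H)
    (hA : A' ⊆ A) (hB : B' ⊆ B) (hE : ∀ u ∈ A', E u ⊆ E' u) (hH : ∀ v ∈ B', H v ⊆ H' v) :
    Split A' B' E' H' := by
  obtain ⟨X, h1, h2⟩ := h
  refine ⟨X, fun u hu => ?_, fun v hv => ?_⟩
  · obtain ⟨c, hc, hx⟩ := h1 u (hA hu)
    exact ⟨c, hE u hu hc, hx⟩
  · obtain ⟨c, hc, hx⟩ := h2 v (hB hv)
    exact ⟨c, hH v hv hc, hx⟩

omit [DecidableEq ι] in
/-- Give the colours of `K` to the side `A`. -/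
theorem split_takeA {A B : Finset ι} {E H : ι → Finset ℕ} (K : Finset ℕ)
    (h : Split (A.filter fun u => Disjoint (E u) K) B E (fun v => H v \ K)) : Split A B E H := by
  obtain ⟨X, h1, h2⟩ := h
  refine ⟨X ∪ (K : Set ℕ), fun u hu => ?_, fun v hv => ?_⟩
  · by_cases hd : Disjoint (E u) K
    · obtain ⟨c, hc, hx⟩ := h1 u (mem_filter.2 ⟨hu, hd⟩)
      exact ⟨c, hc, Or.inl hx⟩
    · obtain ⟨c, hc, hk⟩ := not_disjoint_iff.1 hd
      exact ⟨c, hc, Or.inr hk⟩
  · obtain ⟨c, hc, hx⟩ := h2 v hv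
    rw [mem_sdiff] at hc
    exact ⟨c, hc.1, fun h => h.elim hx fun h => hc.2 h⟩

omit [DecidableEq ι] in
/-- Give the colours of `K` to the side `B`. -/
theorem split_takeB {A B : Finset ι} {E H : ι → Finset ℕ} (K : Finset ℕ)
    (h : Split A (B.filter fun v => Disjoint (H v) K) (fun u => E u \ K) H) : Split A B E H :=
  (split_takeA K h.symm).symm

omit [DecidableEq ι] in
/-- Give one colour to the side `A`. -/
theorem split_takeA1 {A B : Finset ι} {E H : ι → Finset ℕ} (c : ℕ)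
    (h : Split (A.filter fun u => c ∉ E u) B E (fun v => (H v).erase c)) : Split A B E H := by
  apply split_takeA {c}
  refine h.mono ?_ Subset.rfl (fun _ _ => Subset.rfl) ?_
  · intro u hu
    simp only [mem_filter, disjoint_singleton_right] at hu ⊢
    exact hu
  · intro v _
    rw [sdiff_singleton_eq_erase]

omit [DecidableEq ι] in
/-- Give one colour to the side `B`. -/
theorem split_takeB1 {A B : Finset ι} {E H : ι → Finset ℕ} (c : ℕ)
    (h : Split A (B.filter fun v => c ∉ H v) (fun u => (E u).erase c) H) : Split A B E H :=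
  (split_takeA1 c h.symm).symm

omit [DecidableEq ι] in
theorem split_of_transversal {A B : Finset ι} {E H : ι → Finset ℕ} (X : Finset ℕ)
    (hA : ∀ u ∈ A, ∃ c ∈ E u, c ∈ X) (hB : ∀ v ∈ B, ¬ H v ⊆ X) : Split A B E H := by
  refine ⟨(X : Set ℕ), hA, fun v hv => ?_⟩
  obtain ⟨c, hc, hx⟩ := not_subset.1 (hB v hv)
  exact ⟨c, hc, hx⟩

omit [DecidableEq ι] in
theorem Good.symm {S : Finset ℕ} {A B : Finset ι} {E H : ι → Finset ℕ} (h : Good S A B E H) :
    Good S B A H E := by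
  obtain ⟨P, h1, h2, h3⟩ := h
  exact ⟨P, h1, h2, h3.symm⟩

omit [DecidableEq ι] in
theorem Col.symm {I A B : Finset ι} {F E H : ι → Finset ℕ} (h : Col I A B F E H) :
    Col I B A F H E := by
  obtain ⟨f, h1, h2, h3⟩ := h
  exact ⟨f, h1, h2, h3.symm⟩

omit [DecidableEq ι] in
theorem col_of_good {I A B : Finset ι} {F E H : ι → Finset ℕ} {S : Finset ℕ}
    (hc : Cluster I S F) (h : Good S A B E H) : Col I A B F E H := by
  obtain ⟨P, hP, hP2, hs⟩ := h
  obtain ⟨g, hg, hinj⟩ := hc.2 P hP hP2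
  refine ⟨g, fun s hs => (hg s hs).1, hinj, ?_⟩
  have hsub : I.image g ⊆ S \ P := by
    intro c hc
    obtain ⟨s, hs, rfl⟩ := mem_image.1 hc
    exact (hg s hs).2
  exact hs.mono Subset.rfl Subset.rfl (fun _ _ => sdiff_subset_sdiff Subset.rfl hsub)
    (fun _ _ => sdiff_subset_sdiff Subset.rfl hsub)

theorem mem_unionL {l : List (Finset ℕ)} {c : ℕ} : c ∈ unionL l ↔ ∃ R ∈ l, c ∈ R := by
  induction l with
  | nil => simp [unionL]
  | cons R l ih =>
    have : unionL (R :: l) = R ∪ unionL l := rfl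
    rw [this, mem_union, ih]
    simp

@[simp] theorem unionL_nil : unionL [] = ∅ := rfl

@[simp] theorem unionL_cons (R : Finset ℕ) (l : List (Finset ℕ)) :
    unionL (R :: l) = R ∪ unionL l := rfl

omit [DecidableEq ι] in
theorem wt_nonneg (A : Finset ι) (E : ι → Finset ℕ) : 0 ≤ wt A E :=
  sum_nonneg fun _ _ => by positivity

omit [DecidableEq ι] in
theorem wt_mono {A A' : Finset ι} (h : A' ⊆ A) (E : ι → Finset ℕ) : wt A' E ≤ wt A E :=
  sum_le_sum_of_subset_of_nonneg h fun _ _ _ => by positivity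

omit [DecidableEq ι] in
theorem wt_filter_add (A : Finset ι) (E : ι → Finset ℕ) (q : ι → Prop) [DecidablePred q] :
    wt (A.filter q) E + wt (A.filter fun u => ¬ q u) E = wt A E :=
  sum_filter_add_sum_filter_not A q _

omit [DecidableEq ι] in
theorem deg_le_wt (A : Finset ι) (E : ι → Finset ℕ) (c : ℕ) : deg A E c ≤ wt A E :=
  wt_mono (filter_subset _ _) E

end Pool.Agent.P.MP_a09be5_co
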