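import Pool.Agent.P.MP_a09be5_co.Setup

namespace Pool.Agent.P.MP_a09be5_co
open Finset

variable {ι : Type} [DecidableEq ι]

theorem Bias_term (L : Finset ℕ) (c : ℕ) (q : ℚ) :
    (1 - q) * (if c ∉ L then q ^ L.card else 0) + q * q ^ (L.erase c).card = q ^ L.card := by
  by_cases h : c ∈ L
  · have h1 := card_erase_add_one h
    rw [if_neg (not_not.2 h), ← h1, pow_succ]
    ring
  · rw [if_pos h, erase_eq_of_notMem h]
    ring

omit [DecidableEq ι] in
theorem Bias_aux {p : ℚ} (hp0 : 0 ≤ p) (hp1 : p ≤ 1) (Ω : Finset ℕ) :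
    ∀ (A B : Finset ι) (E H : ι → Finset ℕ), (∀ u ∈ A, E u ⊆ Ω) → (∀ v ∈ B, H v ⊆ Ω) →
      ∑ u ∈ A, p ^ (E u).card + ∑ v ∈ B, (1 - p) ^ (H v).card < 1 → Split A B E H := by
  induction Ω using Finset.induction_on with
  | empty =>
    intro A B E H hA hB h
    have hq : (0 : ℚ) ≤ 1 - p := by linarith
    have hsA : 0 ≤ ∑ u ∈ A, p ^ (E u).card := sum_nonneg fun _ _ => by positivity
    have hsB : 0 ≤ ∑ v ∈ B, (1 - p) ^ (H v).card := sum_nonneg fun _ _ => by positivity
    refine ⟨∅, fun u hu => ?_, fun v hv => ?_⟩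
    · exfalso
      have h1 : p ^ (E u).card ≤ ∑ u ∈ A, p ^ (E u).card :=
        single_le_sum (f := fun u => p ^ (E u).card) (fun _ _ => by positivity) hu
      rw [subset_empty.1 (hA u hu)] at h1
      simp only [card_empty, pow_zero] at h1
      linarith
    · exfalso
      have h1 : (1 - p) ^ (H v).card ≤ ∑ v ∈ B, (1 - p) ^ (H v).card :=
        single_le_sum (f := fun v => (1 - p) ^ (H v).card) (fun _ _ => by positivity) hv
      rw [subset_empty.1 (hB v hv)] at h1
      simp only [card_empty, pow_zero] at h1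
      linarith
  | insert c Ω _ ih =>
    intro A B E H hA hB h
    have hq : (0 : ℚ) ≤ 1 - p := by linarith
    have key : (1 - p) * (∑ u ∈ A.filter (fun u => c ∉ E u), p ^ (E u).card +
          ∑ v ∈ B, (1 - p) ^ ((H v).erase c).card) +
        p * (∑ u ∈ A, p ^ ((E u).erase c).card +
          ∑ v ∈ B.filter (fun v => c ∉ H v), (1 - p) ^ (H v).card) =
        ∑ u ∈ A, p ^ (E u).card + ∑ v ∈ B, (1 - p) ^ (H v).card := by
      have e1 : ∑ u ∈ A, p ^ (E u).card =
          (1 - p) * ∑ u ∈ A.filter (fun u => c ∉ E u), p ^ (E u).card +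
            p * ∑ u ∈ A, p ^ ((E u).erase c).card := by
        rw [sum_filter, mul_sum, mul_sum, ← sum_add_distrib]
        exact sum_congr rfl fun u _ => (Bias_term (E u) c p).symm
      have e2 : ∑ v ∈ B, (1 - p) ^ (H v).card =
          (1 - (1 - p)) * ∑ v ∈ B.filter (fun v => c ∉ H v), (1 - p) ^ (H v).card +
            (1 - p) * ∑ v ∈ B, (1 - p) ^ ((H v).erase c).card := by
        rw [sum_filter, mul_sum, mul_sum, ← sum_add_distrib]
        exact sum_congr rfl fun v _ => (Bias_term (H v) c (1 - p)).symm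
      rw [e1, e2]
      ring
    have hsub : ∀ L : Finset ℕ, L ⊆ insert c Ω → L.erase c ⊆ Ω := fun L hL =>
      subset_insert_iff.1 hL
    have hsub2 : ∀ L : Finset ℕ, L ⊆ insert c Ω → c ∉ L → L ⊆ Ω := fun L hL hc =>
      (subset_insert_iff_of_notMem hc).1 hL
    by_cases ha : ∑ u ∈ A.filter (fun u => c ∉ E u), p ^ (E u).card +
          ∑ v ∈ B, (1 - p) ^ ((H v).erase c).card < 1
    · exact split_takeA1 c (ih _ _ _ _
        (fun u hu => hsub2 _ (hA u (mem_filter.1 hu).1) (mem_filter.1 hu).2)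
        (fun v hv => hsub _ (hB v hv)) ha)
    · by_cases hb : ∑ u ∈ A, p ^ ((E u).erase c).card +
          ∑ v ∈ B.filter (fun v => c ∉ H v), (1 - p) ^ (H v).card < 1
      · exact split_takeB1 c (ih _ _ _ _ (fun u hu => hsub _ (hA u hu))
          (fun v hv => hsub2 _ (hB v (mem_filter.1 hv).1) (mem_filter.1 hv).2) hb)
      · exfalso
        rw [not_lt] at ha hb
        have h1 := mul_le_mul_of_nonneg_left ha hq
        have h2 := mul_le_mul_of_nonneg_left hb hp0
        linarith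

theorem split_bias {A B : Finset ι} {E H : ι → Finset ℕ} {p : ℚ} (hp0 : 0 ≤ p) (hp1 : p ≤ 1)
    (h : ∑ u ∈ A, p ^ (E u).card + ∑ v ∈ B, (1 - p) ^ (H v).card < 1) : Split A B E H :=
  Bias_aux hp0 hp1 (A.biUnion E ∪ B.biUnion H) A B E H
    (fun _ hu => (subset_biUnion_of_mem E hu).trans subset_union_left)
    (fun _ hv => (subset_biUnion_of_mem H hv).trans subset_union_right) h

/-- New weight of a set when `x` is given to its own side and `y` to the other side. -/
def Bias_w (Ps : Finset (Finset ℕ)) (x y : ℕ) (L : Finset ℕ) : ℚ :=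
  if x ∉ L ∧ L.erase y ∉ Ps then (1 / 2 : ℚ) ^ (L.erase y).card else 0

theorem Bias_w_one {Ps : Finset (Finset ℕ)} {x y : ℕ} {L : Finset ℕ} (hx : x ∈ L) (hy : y ∉ L)
    (hd : ∀ Q ∈ Ps, x ∉ Q) :
    Bias_w Ps x y L + Bias_w Ps y x L ≤
      2 * (if L ∉ insert ({x, y} : Finset ℕ) Ps then (1 / 2 : ℚ) ^ L.card else 0) := by
  have h1 : L ∉ insert ({x, y} : Finset ℕ) Ps := by
    rw [mem_insert, not_or]
    refine ⟨fun h => hy (by rw [h]; simp), fun h => hd L h hx⟩
  have h2 : Bias_w Ps x y L = 0 := by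
    unfold Bias_w
    rw [if_neg fun h => h.1 hx]
  have h3 : Bias_w Ps y x L ≤ (1 / 2 : ℚ) ^ (L.erase x).card := by
    unfold Bias_w
    split_ifs
    · exact le_rfl
    · positivity
  rw [if_pos h1, h2, ← card_erase_add_one hx, pow_succ]
  linarith

theorem Bias_w_le {Ps : Finset (Finset ℕ)} {x y : ℕ} (L : Finset ℕ)
    (hdx : ∀ Q ∈ Ps, x ∉ Q) (hdy : ∀ Q ∈ Ps, y ∉ Q) :
    Bias_w Ps x y L + Bias_w Ps y x L ≤
      2 * (if L ∉ insert ({x, y} : Finset ℕ) Ps then (1 / 2 : ℚ) ^ L.card else 0) := by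
  by_cases hx : x ∈ L
  · by_cases hy : y ∈ L
    · have h2 : Bias_w Ps x y L = 0 := by
        unfold Bias_w
        rw [if_neg fun h => h.1 hx]
      have h3 : Bias_w Ps y x L = 0 := by
        unfold Bias_w
        rw [if_neg fun h => h.1 hy]
      rw [h2, h3, add_zero]
      split_ifs <;> positivity
    · exact Bias_w_one hx hy hdx
  · by_cases hy : y ∈ L
    · have h := Bias_w_one (x := y) (y := x) hy hx hdy
      rw [pair_comm y x] at h
      linarith
    · unfold Bias_w
      rw [erase_eq_of_notMem hx, erase_eq_of_notMem hy]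
      have h1 : L ≠ ({x, y} : Finset ℕ) := fun h => hx (by rw [h]; simp)
      by_cases hL : L ∈ Ps
      · simp [hL]
      · simp only [hx, hy, hL, h1, mem_insert, not_false_eq_true, and_self, or_self, if_true]
        linarith

omit [DecidableEq ι] in
theorem Bias_pair {Ps : Finset (Finset ℕ)} {x y : ℕ} (hxy : x ≠ y)
    (ih : ∀ (A B : Finset ι) (E H : ι → Finset ℕ),
      ∑ u ∈ A.filter (fun u => E u ∉ Ps), (1 / 2 : ℚ) ^ (E u).card +
        ∑ v ∈ B.filter (fun v => H v ∉ Ps), (1 / 2 : ℚ) ^ (H v).card < 1 → Split A B E H)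
    (A B : Finset ι) (E H : ι → Finset ℕ)
    (h : ∑ u ∈ A, Bias_w Ps x y (E u) + ∑ v ∈ B, Bias_w Ps y x (H v) < 1) : Split A B E H := by
  apply split_takeA1 x
  apply split_takeB1 y
  apply ih
  rw [filter_filter, filter_filter, sum_filter, sum_filter]
  have e : ∀ v, (if y ∉ (H v).erase x ∧ (H v).erase x ∉ Ps then
      (1 / 2 : ℚ) ^ ((H v).erase x).card else 0) = Bias_w Ps y x (H v) := by
    intro v
    unfold Bias_w
    have : y ∈ (H v).erase x ↔ y ∈ H v := by simp [hxy.symm]
    simp only [this]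
  simp only [e]
  exact h

theorem lemmaU {A B : Finset ι} {E H : ι → Finset ℕ} (Ps : Finset (Finset ℕ))
    (h2 : ∀ P ∈ Ps, P.card = 2) (hd : ∀ P ∈ Ps, ∀ Q ∈ Ps, P ≠ Q → Disjoint P Q)
    (h : ∑ u ∈ A.filter (fun u => E u ∉ Ps), (1 / 2 : ℚ) ^ (E u).card +
      ∑ v ∈ B.filter (fun v => H v ∉ Ps), (1 / 2 : ℚ) ^ (H v).card < 1) : Split A B E H := by
  induction Ps using Finset.induction_on generalizing A B E H with
  | empty =>
    apply split_bias (p := 1 / 2) (by norm_num) (by norm_num)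
    simp only [notMem_empty, not_false_eq_true, filter_true_of_mem, implies_true] at h
    have e : (1 - 1 / 2 : ℚ) = 1 / 2 := by norm_num
    rw [e]
    exact h
  | insert P Ps hP ih =>
    obtain ⟨x, y, hxy, rfl⟩ := card_eq_two.1 (h2 P (mem_insert_self _ _))
    have ih' : ∀ (A B : Finset ι) (E H : ι → Finset ℕ),
        ∑ u ∈ A.filter (fun u => E u ∉ Ps), (1 / 2 : ℚ) ^ (E u).card +
          ∑ v ∈ B.filter (fun v => H v ∉ Ps), (1 / 2 : ℚ) ^ (H v).card < 1 → Split A B E H :=
      fun A B E H h => ih (fun P hP => h2 P (mem_insert_of_mem hP))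
        (fun P hP Q hQ => hd P (mem_insert_of_mem hP) Q (mem_insert_of_mem hQ)) h
    have hdis : ∀ Q ∈ Ps, Disjoint ({x, y} : Finset ℕ) Q := fun Q hQ =>
      hd _ (mem_insert_self _ _) Q (mem_insert_of_mem hQ) fun h => hP (h ▸ hQ)
    have hdx : ∀ Q ∈ Ps, x ∉ Q := fun Q hQ => disjoint_left.1 (hdis Q hQ) (by simp)
    have hdy : ∀ Q ∈ Ps, y ∉ Q := fun Q hQ => disjoint_left.1 (hdis Q hQ) (by simp)
    rw [sum_filter, sum_filter] at h
    have hA : ∑ u ∈ A, Bias_w Ps x y (E u) + ∑ u ∈ A, Bias_w Ps y x (E u) ≤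
        2 * ∑ u ∈ A, (if E u ∉ insert ({x, y} : Finset ℕ) Ps then
          (1 / 2 : ℚ) ^ (E u).card else 0) := by
      rw [← sum_add_distrib, mul_sum]
      exact sum_le_sum fun u _ => Bias_w_le (E u) hdx hdy
    have hB : ∑ u ∈ B, Bias_w Ps x y (H u) + ∑ u ∈ B, Bias_w Ps y x (H u) ≤
        2 * ∑ u ∈ B, (if H u ∉ insert ({x, y} : Finset ℕ) Ps then
          (1 / 2 : ℚ) ^ (H u).card else 0) := by
      rw [← sum_add_distrib, mul_sum]
      exact sum_le_sum fun u _ => Bias_w_le (H u) hdx hdy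
    by_cases ha : ∑ u ∈ A, Bias_w Ps x y (E u) + ∑ v ∈ B, Bias_w Ps y x (H v) < 1
    · exact Bias_pair hxy ih' A B E H ha
    · apply Bias_pair hxy.symm ih' A B E H
      rw [not_lt] at ha
      linarith

theorem Bias_avg {y : ℚ} (hy0 : 0 ≤ y) (hy1 : y ≤ 1) (G L : Finset ℕ) (hG : 0 < G.card) :
    ∑ c ∈ G, y ^ (L.erase c).card ≤ G.card * (y + (1 - y) / G.card) ^ L.card := by
  have hN : (0 : ℚ) < G.card := by exact_mod_cast hG
  have hq : 0 ≤ 1 - y := by linarith
  have e : ∀ c, y ^ (L.erase c).card =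
      y ^ L.card + if c ∈ L then y ^ (L.card - 1) * (1 - y) else 0 := by
    intro c
    by_cases hc : c ∈ L
    · rw [if_pos hc, card_erase_of_mem hc]
      obtain ⟨k, hk⟩ : ∃ k, L.card = k + 1 := ⟨_, (card_erase_add_one hc).symm⟩
      rw [hk, Nat.add_sub_cancel, pow_succ]
      ring
    · rw [if_neg hc, erase_eq_of_notMem hc, add_zero]
  simp only [e]
  rw [sum_add_distrib, sum_const, nsmul_eq_mul, ← sum_filter, sum_const, nsmul_eq_mul]
  have h1 : ((G.filter fun c => c ∈ L).card : ℚ) ≤ L.card := by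
    exact_mod_cast card_le_card fun c hc => (mem_filter.1 hc).2
  have h2 := pow_add_mul_le_add_pow (a := y) (b := (1 - y) / G.card) hy0
    (by positivity) L.card
  have h3 : (0 : ℚ) ≤ y ^ (L.card - 1) * (1 - y) := by positivity
  have h4 := mul_le_mul_of_nonneg_left h2 hN.le
  have h5 := mul_le_mul_of_nonneg_right h1 h3
  have h6 : (G.card : ℚ) * (y ^ L.card + L.card * y ^ (L.card - 1) * ((1 - y) / G.card)) =
      G.card * y ^ L.card + L.card * (y ^ (L.card - 1) * (1 - y)) := by
    field_simp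
  linarith

theorem Bias_ySeq_mem {p : ℚ} (hp0 : 0 ≤ p) (hp1 : p ≤ 1) {N j : ℕ} (h : j < N) :
    0 ≤ ySeq p N j ∧ ySeq p N j ≤ 1 := by
  have hN : (0 : ℚ) < N := by exact_mod_cast (Nat.zero_lt_of_lt h)
  have hj : (j : ℚ) ≤ N := by exact_mod_cast h.le
  have hj0 : (0 : ℚ) ≤ j := by positivity
  have hq : 0 ≤ 1 - p := by linarith
  unfold ySeq
  constructor
  · rw [sub_nonneg, div_le_one hN]
    nlinarith
  · have : 0 ≤ (1 - p) * ((N : ℚ) - j) / N := by
      have : (0 : ℚ) ≤ N - j := by linarith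
      positivity
    linarith

theorem Bias_ySeq_succ (p : ℚ) {M j : ℕ} (hM : 0 < M) :
    ySeq p (M + 1) (j + 1) = ySeq p M j + (1 - ySeq p M j) / ((M + 1 : ℕ) : ℚ) := by
  have hN : (0 : ℚ) < M := by exact_mod_cast hM
  unfold ySeq
  push_cast
  field_simp
  ring

theorem seq_core {J A B : Finset ι} {F E H : ι → Finset ℕ} {N : ℕ} {p : ℚ}
    (hp0 : 0 ≤ p) (hp1 : p ≤ 1) (hJ : J.card < N) (hF : ∀ s ∈ J, N ≤ (F s).card)
    (h : ∑ u ∈ A, ySeq p N J.card ^ (E u).card +
      ∑ v ∈ B, ySeq (1 - p) N J.card ^ (H v).card < 1) : Col J A B F E H := by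
  induction J using Finset.induction_on generalizing N F E H with
  | empty =>
    have hN : (0 : ℚ) < N := by exact_mod_cast hJ
    have e : ∀ q : ℚ, ySeq q N (∅ : Finset ι).card = q := by
      intro q
      unfold ySeq
      simp only [card_empty, Nat.cast_zero, sub_zero]
      field_simp
      ring
    rw [e, e] at h
    refine ⟨fun _ => 0, by simp, by simp, ?_⟩
    simpa using split_bias hp0 hp1 h
  | insert s J hs ih =>
    rw [card_insert_of_notMem hs] at hJ h
    obtain ⟨M, rfl⟩ : ∃ M, N = M + 1 := ⟨N - 1, by omega⟩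
    have hJM : J.card < M := by omega
    have hM : 0 < M := by omega
    obtain ⟨G, hGF, hG⟩ := exists_subset_card_eq (hF s (mem_insert_self _ _))
    have hq0 : (0 : ℚ) ≤ 1 - p := by linarith
    have hq1 : (1 - p : ℚ) ≤ 1 := by linarith
    obtain ⟨hy0, hy1⟩ := Bias_ySeq_mem hp0 hp1 hJM
    obtain ⟨hz0, hz1⟩ := Bias_ySeq_mem hq0 hq1 hJM
    rw [Bias_ySeq_succ p hM, Bias_ySeq_succ (1 - p) hM, ← hG] at h
    have hGpos : 0 < G.card := by omega
    have hGq : (0 : ℚ) < G.card := by exact_mod_cast hGpos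
    have hsum : ∑ c ∈ G, (∑ u ∈ A, ySeq p M J.card ^ ((E u).erase c).card +
        ∑ v ∈ B, ySeq (1 - p) M J.card ^ ((H v).erase c).card) < ∑ _c ∈ G, (1 : ℚ) := by
      rw [sum_add_distrib, sum_comm, sum_comm (s := G), sum_const, nsmul_eq_mul]
      have h1 := sum_le_sum fun u (_ : u ∈ A) => Bias_avg hy0 hy1 G (E u) hGpos
      have h2 := sum_le_sum fun v (_ : v ∈ B) => Bias_avg hz0 hz1 G (H v) hGpos
      rw [← mul_sum] at h1 h2
      have h3 := mul_lt_mul_of_pos_left h hGq
      linarith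
    obtain ⟨c, hcG, hc⟩ := exists_lt_of_sum_lt hsum
    obtain ⟨g, hg1, hg2, hg3⟩ := ih (N := M) (F := fun t => (F t).erase c)
      (E := fun u => (E u).erase c) (H := fun v => (H v).erase c) hJM
      (fun t ht => by
        have h1 := hF t (mem_insert_of_mem ht)
        have h2 := pred_card_le_card_erase (s := F t) (a := c)
        omega) hc
    have hne : ∀ t ∈ J, t ≠ s := fun t ht h => hs (h ▸ ht)
    have hup : ∀ t ∈ J, Function.update g s c t = g t := fun t ht =>
      Function.update_of_ne (hne t ht) _ _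
    have himg : (insert s J).image (Function.update g s c) = insert c (J.image g) := by
      rw [image_insert, Function.update_self, image_congr hup]
    refine ⟨Function.update g s c, fun t ht => ?_, ?_, ?_⟩
    · rcases mem_insert.1 ht with rfl | ht
      · rw [Function.update_self]
        exact hGF hcG
      · rw [hup t ht]
        exact mem_of_mem_erase (hg1 t ht)
    · intro a ha b hb hab
      rw [coe_insert, Set.mem_insert_iff, mem_coe] at ha hb
      rcases ha with rfl | ha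
      · rcases hb with rfl | hb
        · rfl
        · rw [Function.update_self, hup b hb] at hab
          exact absurd hab.symm (ne_of_mem_erase (hg1 b hb))
      · rcases hb with rfl | hb
        · rw [Function.update_self, hup a ha] at hab
          exact absurd hab (ne_of_mem_erase (hg1 a ha))
        · rw [hup a ha, hup b hb] at hab
          exact hg2 ha hb hab
    · rw [himg]
      refine hg3.mono Subset.rfl Subset.rfl (fun u _ => ?_) (fun v _ => ?_)
      · intro a ha
        simp only [mem_sdiff, mem_erase, mem_insert, not_or] at ha ⊢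
        exact ⟨ha.1.2, ha.1.1, ha.2⟩
      · intro a ha
        simp only [mem_sdiff, mem_erase, mem_insert, not_or] at ha ⊢
        exact ⟨ha.1.2, ha.1.1, ha.2⟩

end Pool.Agent.P.MP_a09be5_co
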