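import Pool.Agent.P.MP_a09be5_co.Bias

namespace Pool.Agent.P.MP_a09be5_co
open Finset

variable {ι : Type} [DecidableEq ι]

theorem Blocks_desc1 (d a : ℕ) :
    (d : ℚ) * ((d - 1).descFactorial a : ℚ) = (d.descFactorial (a + 1) : ℚ) := by
  cases d with
  | zero => simp
  | succ d => rw [Nat.succ_descFactorial_succ]; simp

theorem Blocks_desc2 (d b : ℕ) :
    (d.descFactorial (b + 1) : ℚ) = ((d : ℚ) - b) * (d.descFactorial b : ℚ) := by
  rcases le_or_gt b d with h | h
  · rw [Nat.descFactorial_succ, Nat.cast_mul, Nat.cast_sub h]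
  · rw [Nat.descFactorial_of_lt h, Nat.descFactorial_of_lt (by omega)]; simp

theorem Blocks_rho1 {d n a : ℕ} (h : a + 1 ≤ n) :
    (d : ℚ) * rho (d - 1) (n - 1) a = n * rho d n (a + 1) := by
  unfold rho
  have h1 : ((n - 1).descFactorial a : ℚ) ≠ 0 := by
    exact_mod_cast (Nat.descFactorial_pos.2 (by omega)).ne'
  have h2 : (n : ℚ) ≠ 0 := by exact_mod_cast (by omega : n ≠ 0)
  rw [← Blocks_desc1 n a, ← Blocks_desc1 d a]
  field_simp

theorem Blocks_rho2 {d n b : ℕ} (h : b + 1 ≤ n) :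
    (d : ℚ) * rho (d - 1) (n - 1) b + ((n : ℚ) - d) * rho d (n - 1) b = n * rho d n b := by
  unfold rho
  have h1 : ((n - 1).descFactorial b : ℚ) ≠ 0 := by
    exact_mod_cast (Nat.descFactorial_pos.2 (by omega)).ne'
  have h2 : (n.descFactorial b : ℚ) ≠ 0 := by
    exact_mod_cast (Nat.descFactorial_pos.2 (by omega)).ne'
  have e1 := (Blocks_desc1 n b).trans (Blocks_desc2 n b)
  have e2 := (Blocks_desc1 d b).trans (Blocks_desc2 d b)
  field_simp
  linear_combination (n.descFactorial b : ℚ) * e2 - (d.descFactorial b : ℚ) * e1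

theorem Blocks_card1 {R L : Finset ℕ} {x : ℕ} (hx : x ∈ R \ L) :
    (R.erase x \ L).card = (R \ L).card - 1 := by
  rw [← card_erase_of_mem hx]
  congr 1
  ext y
  simp only [mem_sdiff, mem_erase]
  tauto

theorem Blocks_card2 {R L : Finset ℕ} {x : ℕ} (hx : x ∈ L) : R.erase x \ L = R \ L := by
  ext y
  simp only [mem_sdiff, mem_erase]
  constructor
  · tauto
  · rintro ⟨h1, h2⟩
    exact ⟨⟨fun h => h2 (h ▸ hx), h1⟩, h2⟩

theorem Blocks_sum1 (R L : Finset ℕ) {a : ℕ} (h : a + 1 ≤ R.card) :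
    ∑ x ∈ R, (if x ∉ L then rho (R.erase x \ L).card (R.card - 1) a else 0) =
      R.card * rho (R \ L).card R.card (a + 1) := by
  rw [← sum_filter, ← Blocks_rho1 h, filter_notMem_eq_sdiff,
    sum_congr rfl fun x hx => by rw [Blocks_card1 hx], sum_const, nsmul_eq_mul]

theorem Blocks_sum2 (R L : Finset ℕ) {b : ℕ} (h : b + 1 ≤ R.card) :
    ∑ x ∈ R, rho (R.erase x \ L).card (R.card - 1) b = R.card * rho (R \ L).card R.card b := by
  rw [← Blocks_rho2 h, ← sum_sdiff (inter_subset_left : R ∩ L ⊆ R), sdiff_inter_self_left,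
    sum_congr rfl fun x hx => by rw [Blocks_card1 hx], sum_const, nsmul_eq_mul,
    sum_congr rfl fun x (hx : x ∈ R ∩ L) => by rw [Blocks_card2 (mem_inter.1 hx).2], sum_const,
    nsmul_eq_mul]
  have e : ((R ∩ L).card : ℚ) = R.card - (R \ L).card := by
    rw [← card_sdiff_add_card_inter R L]; push_cast; ring
  rw [e]

/-- The statement of `block_avg` for given sizes. -/
def BlocksP (ι : Type) (a b : ℕ) : Prop :=
  ∀ (R : Finset ℕ), a + b ≤ R.card → ∀ (A B : Finset ι) (E H : ι → Finset ℕ) (fA fB : ι → ℚ),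
    ∃ X ⊆ R, ∃ Y ⊆ R, Disjoint X Y ∧ X.card = a ∧ Y.card = b ∧
      ∑ u ∈ A.filter (fun u => Disjoint (E u) X), fA u +
        ∑ v ∈ B.filter (fun v => Disjoint (H v) Y), fB v ≤
      ∑ u ∈ A, rho (R \ E u).card R.card a * fA u +
        ∑ v ∈ B, rho (R \ H v).card R.card b * fB v

omit [DecidableEq ι] in
theorem Blocks_symm {a b : ℕ} (h : BlocksP ι a b) : BlocksP ι b a := by
  intro R hR A B E H fA fB
  obtain ⟨X, hX, Y, hY, h1, h2, h3, h4⟩ := h R (by omega) B A H E fB fA
  exact ⟨Y, hY, X, hX, h1.symm, h3, h2, by linarith⟩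

omit [DecidableEq ι] in
theorem Blocks_zero : BlocksP ι 0 0 := by
  intro R _ A B E H fA fB
  refine ⟨∅, empty_subset _, ∅, empty_subset _, by simp, rfl, rfl, ?_⟩
  simp [rho]

omit [DecidableEq ι] in
theorem Blocks_step {a b : ℕ} (h : BlocksP ι a b) : BlocksP ι (a + 1) b := by
  intro R hR A B E H fA fB
  have hne : R.Nonempty := card_pos.1 (by omega)
  have hsum : ∑ x ∈ R, (∑ u ∈ A.filter (fun u => x ∉ E u),
        rho (R.erase x \ E u).card (R.card - 1) a * fA u +
      ∑ v ∈ B, rho (R.erase x \ H v).card (R.card - 1) b * fB v) ≤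
      ∑ _x ∈ R, (∑ u ∈ A, rho (R \ E u).card R.card (a + 1) * fA u +
        ∑ v ∈ B, rho (R \ H v).card R.card b * fB v) := by
    rw [sum_const, nsmul_eq_mul, sum_add_distrib, mul_add, mul_sum, mul_sum]
    refine le_of_eq ?_
    congr 1
    · simp only [sum_filter]
      rw [sum_comm]
      refine sum_congr rfl fun u _ => ?_
      rw [← mul_assoc, ← Blocks_sum1 R (E u) (by omega), sum_mul]
      refine sum_congr rfl fun x _ => ?_
      split_ifs <;> simp
    · rw [sum_comm]
      refine sum_congr rfl fun v _ => ?_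
      rw [← mul_assoc, ← Blocks_sum2 R (H v) (by omega), sum_mul]
  obtain ⟨x, hx, hle⟩ := exists_le_of_sum_le hne hsum
  have hc : (R.erase x).card = R.card - 1 := card_erase_of_mem hx
  obtain ⟨X, hX, Y, hY, h1, h2, h3, h4⟩ :=
    h (R.erase x) (by omega) (A.filter fun u => x ∉ E u) B E H fA fB
  have hxX : x ∉ X := fun hh => by simpa using hX hh
  have hxY : x ∉ Y := fun hh => by simpa using hY hh
  refine ⟨insert x X, insert_subset hx (hX.trans (erase_subset _ _)), Y,
    hY.trans (erase_subset _ _), disjoint_insert_left.2 ⟨hxY, h1⟩,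
    by rw [card_insert_of_notMem hxX, h2], h3, ?_⟩
  rw [hc, filter_filter] at h4
  simp only [disjoint_insert_right]
  exact h4.trans hle

omit [DecidableEq ι] in
theorem Blocks_all (a b : ℕ) : BlocksP ι a b := by
  induction a with
  | zero =>
    apply Blocks_symm
    induction b with
    | zero => exact Blocks_zero
    | succ b ih => exact Blocks_step ih
  | succ a ih => exact Blocks_step ih

theorem block_avg (R : Finset ℕ) (a b : ℕ) (hab : a + b ≤ R.card) (A B : Finset ι)
    (E H : ι → Finset ℕ) (fA fB : ι → ℚ) (hfA : ∀ u ∈ A, 0 ≤ fA u) (hfB : ∀ v ∈ B, 0 ≤ fB v) :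
    ∃ X ⊆ R, ∃ Y ⊆ R, Disjoint X Y ∧ X.card = a ∧ Y.card = b ∧
      ∑ u ∈ A.filter (fun u => Disjoint (E u) X), fA u +
        ∑ v ∈ B.filter (fun v => Disjoint (H v) Y), fB v ≤
      ∑ u ∈ A, rho (R \ E u).card R.card a * fA u +
        ∑ v ∈ B, rho (R \ H v).card R.card b * fB v :=
  Blocks_all a b R hab A B E H fA fB

theorem additive_core (bl : List (Finset ℕ × ℕ × ℕ))
    (hd : bl.Pairwise fun b c => Disjoint b.1 c.1) (hab : ∀ b ∈ bl, b.2.1 + b.2.2 ≤ b.1.card)
    {J A B : Finset ι} {F E H : ι → Finset ℕ} {N : ℕ} {p : ℚ} (hp0 : 0 ≤ p) (hp1 : p ≤ 1)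
    (hJ : J.card < N) (hF : ∀ s ∈ J, N ≤ (F s \ unionL (bl.map fun b => b.1)).card)
    (h : ∑ u ∈ A, val (ySeq p N J.card) (bl.map fun b => (b.1, b.2.1)) (E u) +
      ∑ v ∈ B, val (ySeq (1 - p) N J.card) (bl.map fun b => (b.1, b.2.2)) (H v) < 1) :
    ∃ (Z : Finset ℕ) (g : ι → ℕ), (∀ b ∈ bl, (Z ∩ b.1).card = b.2.1 + b.2.2) ∧
      (∀ s ∈ J, g s ∈ F s ∧ g s ∉ unionL (bl.map fun b => b.1)) ∧ Set.InjOn g J ∧
      ∀ T : Finset ℕ, T ⊆ unionL (bl.map fun b => b.1) → Disjoint T Z →
        Split A B (fun u => E u \ (T ∪ J.image g)) (fun v => H v \ (T ∪ J.image g)) := by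
  induction bl generalizing A B F E H with
  | nil =>
    simp only [List.map_nil, unionL_nil, sdiff_empty, val] at hF h
    obtain ⟨g, h1, h2, h3⟩ := seq_core hp0 hp1 hJ hF h
    refine ⟨∅, g, by simp, fun s hs => ⟨h1 s hs, by simp⟩, h2, fun T hT _ => ?_⟩
    have : T = ∅ := by simpa using hT
    subst this
    simpa using h3
  | cons c bl ih =>
    obtain ⟨R, a, b⟩ := c
    rw [List.pairwise_cons] at hd
    simp only [List.map_cons, unionL_cons, val] at hF h ⊢
    obtain ⟨X, hX, Y, hY, hXY, hXa, hYb, hle⟩ := Blocks_all a b R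
      (hab (R, a, b) List.mem_cons_self) A B E H
      (fun u => val (ySeq p N J.card) (bl.map fun b => (b.1, b.2.1)) (E u \ R))
      (fun v => val (ySeq (1 - p) N J.card) (bl.map fun b => (b.1, b.2.2)) (H v \ R))
    obtain ⟨Z, g, z1, z2, z3, z4⟩ := ih hd.2 (fun c hc => hab c (List.mem_cons_of_mem _ hc))
      (A := A.filter fun u => Disjoint (E u) X) (B := B.filter fun v => Disjoint (H v) Y)
      (F := fun s => F s \ R) (E := fun u => E u \ R) (H := fun v => H v \ R)
      (fun s hs => by rw [sdiff_sdiff_left]; exact hF s hs) (hle.trans_lt h)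
    have hXYR : X ∪ Y ⊆ R := union_subset hX hY
    refine ⟨X ∪ Y ∪ (Z \ R), g, ?_, fun s hs => ?_, z3, fun T hT hTZ => ?_⟩
    · intro c hc
      rcases List.mem_cons.1 hc with rfl | hc
      · have e : (X ∪ Y ∪ (Z \ R)) ∩ R = X ∪ Y := by
          ext y
          have := @hXYR y
          simp only [mem_inter, mem_union, mem_sdiff] at this ⊢
          tauto
        simp only [e]
        rw [card_union_of_disjoint hXY, hXa, hYb]
      · have hdis : Disjoint R c.1 := hd.1 c hc
        rw [← z1 c hc]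
        congr 1
        ext y
        have h1 := @hXYR y
        have h2 := fun hy : y ∈ R => disjoint_left.1 hdis hy
        simp only [mem_inter, mem_union, mem_sdiff] at h1 ⊢
        tauto
    · obtain ⟨h1, h2⟩ := z2 s hs
      rw [mem_sdiff] at h1
      exact ⟨h1.1, fun hh => (mem_union.1 hh).elim h1.2 h2⟩
    · have hT' : T \ R ⊆ unionL (bl.map fun b => b.1) := by
        intro y hy
        rw [mem_sdiff] at hy
        exact (mem_union.1 (hT hy.1)).resolve_left hy.2
      have hTZ' : Disjoint (T \ R) Z := by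
        rw [disjoint_left] at hTZ ⊢
        intro y hy hz
        rw [mem_sdiff] at hy
        exact hTZ hy.1 (mem_union_right _ (mem_sdiff.2 ⟨hz, hy.2⟩))
      obtain ⟨X', x1, x2⟩ := z4 (T \ R) hT' hTZ'
      have hfree : ∀ y ∈ X ∪ Y, y ∉ T ∪ J.image g := by
        intro y hy hh
        rcases mem_union.1 hh with hh | hh
        · exact disjoint_left.1 hTZ hh (mem_union_left _ hy)
        · obtain ⟨s, hs, rfl⟩ := mem_image.1 hh
          exact (mem_sdiff.1 (z2 s hs).1).2 (hXYR hy)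
      refine ⟨(X' \ (Y : Set ℕ)) ∪ (X : Set ℕ), fun u hu => ?_, fun v hv => ?_⟩
      · by_cases hu' : Disjoint (E u) X
        · obtain ⟨y, hy, hy'⟩ := x1 u (mem_filter.2 ⟨hu, hu'⟩)
          simp only [mem_sdiff, mem_union, not_or, not_and, not_not] at hy
          refine ⟨y, mem_sdiff.2 ⟨hy.1.1, fun hh => ?_⟩, Or.inl ⟨hy', fun hh => hy.1.2 (hY hh)⟩⟩
          rcases mem_union.1 hh with hh | hh
          · exact hy.1.2 (hy.2.1 hh)
          · exact hy.2.2 hh
        · obtain ⟨y, hy, hy'⟩ := not_disjoint_iff.1 hu'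
          exact ⟨y, mem_sdiff.2 ⟨hy, hfree y (mem_union_left _ hy')⟩, Or.inr hy'⟩
      · by_cases hv' : Disjoint (H v) Y
        · obtain ⟨y, hy, hy'⟩ := x2 v (mem_filter.2 ⟨hv, hv'⟩)
          simp only [mem_sdiff, mem_union, not_or, not_and, not_not] at hy
          refine ⟨y, mem_sdiff.2 ⟨hy.1.1, fun hh => ?_⟩, fun hh => ?_⟩
          · rcases mem_union.1 hh with hh | hh
            · exact hy.1.2 (hy.2.1 hh)
            · exact hy.2.2 hh
          · rcases hh with hh | hh
            · exact hy' hh.1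
            · exact hy.1.2 (hX hh)
        · obtain ⟨y, hy, hy'⟩ := not_disjoint_iff.1 hv'
          refine ⟨y, mem_sdiff.2 ⟨hy, hfree y (mem_union_right _ hy')⟩, fun hh => ?_⟩
          rcases hh with hh | hh
          · exact hh.2 hy'
          · exact disjoint_left.1 hXY hh hy'

end Pool.Agent.P.MP_a09be5_co
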