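import Pool.Agent.P.MP_a09be5_co.Setup

namespace Pool.Agent.P.MP_a09be5_co
open Finset

variable {ι : Type} [DecidableEq ι]

omit [DecidableEq ι] in
theorem Extend_inter (L : Finset ℕ) (cs : List (Finset ι × Finset ℕ))
    (h : ∀ c ∈ cs, (L ∩ c.2).card ≤ 1) : (L ∩ unionL (cs.map fun c => c.2)).card ≤ cs.length := by
  induction cs with
  | nil => simp
  | cons c cs ih =>
    rw [List.map_cons, unionL_cons, inter_union_distrib_left, List.length_cons]
    have h1 := h c List.mem_cons_self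
    have h2 := ih fun d hd => h d (List.mem_cons_of_mem _ hd)
    have h3 := card_union_le (L ∩ c.2) (L ∩ unionL (cs.map fun c => c.2))
    omega

theorem Extend_update {I : Finset ι} {s : ι} (hs : s ∉ I) {F : ι → Finset ℕ} {Q : Finset ℕ}
    {g : ι → ℕ} {y : ℕ} (hy : y ∈ F s ∧ y ∈ Q) (hg : ∀ t ∈ I, g t ∈ F t ∧ g t ∈ Q ∧ g t ≠ y)
    (hinj : Set.InjOn g I) :
    ∃ g : ι → ℕ, (∀ t ∈ insert s I, g t ∈ F t ∧ g t ∈ Q) ∧ Set.InjOn g (insert s I : Finset ι) := by
  have hne : ∀ t ∈ I, t ≠ s := fun t ht e => hs (e ▸ ht)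
  refine ⟨Function.update g s y, fun t ht => ?_, fun t ht u hu e => ?_⟩
  · rcases mem_insert.1 ht with rfl | ht
    · simpa using hy
    · rw [Function.update_of_ne (hne t ht)]
      exact ⟨(hg t ht).1, (hg t ht).2.1⟩
  · rcases mem_insert.1 (mem_coe.1 ht) with rfl | ht' <;>
      rcases mem_insert.1 (mem_coe.1 hu) with rfl | hu'
    · rfl
    · rw [Function.update_self, Function.update_of_ne (hne u hu')] at e
      exact absurd e.symm (hg u hu').2.2
    · rw [Function.update_self, Function.update_of_ne (hne t ht')] at e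
      exact absurd e (hg t ht').2.2
    · rw [Function.update_of_ne (hne t ht'), Function.update_of_ne (hne u hu')] at e
      exact hinj ht' hu' e

theorem Extend_grow {I : Finset ι} {R : Finset ℕ} {F : ι → Finset ℕ} (h : Cluster I R F) {s : ι}
    (hs : s ∉ I) (h2 : 1 < (F s ∩ R).card) {c : ℕ} (hc : c ∈ F s) (hcR : c ∉ R) :
    Cluster (insert s I) (insert c R) F := by
  refine ⟨by rw [card_insert_of_notMem hs, card_insert_of_notMem hcR, h.1], fun P hP hP2 => ?_⟩
  by_cases hcP : c ∈ P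
  · have h1 : (P.erase c).card = 1 := by rw [card_erase_of_mem hcP, hP2]
    obtain ⟨x, hx⟩ := card_eq_one.1 h1
    have hxP : x ∈ P.erase c := hx ▸ mem_singleton_self x
    have hxR : x ∈ R := (mem_insert.1 (hP (mem_of_mem_erase hxP))).resolve_left
      (ne_of_mem_erase hxP)
    have hPx : ∀ z ∈ P, z = c ∨ z = x := fun z hz => by
      by_cases e : z = c
      · exact Or.inl e
      · exact Or.inr (mem_singleton.1 (hx ▸ mem_erase.2 ⟨e, hz⟩))
    obtain ⟨y, hy, hyx⟩ := exists_mem_ne h2 x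
    rw [mem_inter] at hy
    obtain ⟨g, hg, hinj⟩ := h.2 {x, y} (insert_subset hxR (singleton_subset_iff.2 hy.2))
      (card_pair hyx.symm)
    refine Extend_update hs (y := y) ⟨hy.1, mem_sdiff.2 ⟨mem_insert_of_mem hy.2, fun hh => ?_⟩⟩
      (fun t ht => ?_) hinj
    · rcases hPx y hh with e | e
      · exact hcR (e ▸ hy.2)
      · exact hyx e
    · obtain ⟨g1, g2⟩ := hg t ht
      simp only [mem_sdiff, mem_insert, mem_singleton, not_or] at g2
      refine ⟨g1, mem_sdiff.2 ⟨mem_insert_of_mem g2.1, fun hh => ?_⟩, g2.2.2⟩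
      rcases hPx _ hh with e | e
      · exact hcR (e ▸ g2.1)
      · exact g2.2.1 e
  · obtain ⟨g, hg, hinj⟩ := h.2 P ((subset_insert_iff_of_notMem hcP).1 hP) hP2
    refine Extend_update hs (y := c) ⟨hc, mem_sdiff.2 ⟨mem_insert_self _ _, hcP⟩⟩
      (fun t ht => ?_) hinj
    obtain ⟨g1, g2⟩ := hg t ht
    rw [mem_sdiff] at g2
    exact ⟨g1, mem_sdiff.2 ⟨mem_insert_of_mem g2.1, g2.2⟩, fun e => hcR (e ▸ g2.1)⟩

omit [DecidableEq ι] in
theorem Extend_single {s : ι} {R : Finset ℕ} {F : ι → Finset ℕ} (hR : R ⊆ F s) (h3 : R.card = 3) :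
    Cluster {s} R F := by
  refine ⟨by simp [h3], fun P hP hP2 => ?_⟩
  have : (R \ P).Nonempty := by
    rw [← card_pos, card_sdiff_of_subset hP]; omega
  obtain ⟨y, hy⟩ := this
  refine ⟨fun _ => y, fun t ht => ?_, by simp⟩
  rw [mem_singleton.1 ht]
  exact ⟨hR (mem_sdiff.1 hy).1, hy⟩

theorem Pre.extend {k m : ℕ} {cs : List (Finset ι × Finset ℕ)} {J I : Finset ι}
    {F : ι → Finset ℕ} (h : Pre k m cs J I F) (hJ : J.Nonempty) :
    ∃ I' ⊆ J, ∃ R : Finset ℕ, 1 ≤ I'.card ∧ I'.card ≤ m ∧ R.card = I'.card + 2 ∧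
      Pre k I'.card ((I', R) :: cs) (J \ I') I F := by
  classical
  set U := unionL (cs.map fun c => c.2) with hU
  have hUd : ∀ R : Finset ℕ, Disjoint R U → ∀ c ∈ cs, Disjoint R c.2 := fun R hR c hc =>
    hR.mono_right fun y hy => mem_unionL.2 ⟨c.2, List.mem_map.2 ⟨c, hc, rfl⟩, hy⟩
  have hfree : ∀ s ∈ J, J.card + 2 ≤ (F s \ U).card := fun s hs => by
    have h1 := Extend_inter (F s) cs (h.thin s hs)
    have h2 := card_sdiff_add_card_inter (F s) U
    have h3 := h.size s hs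
    have h4 := h.len
    rw [← hU] at h1
    omega
  set S := J.powerset.filter fun I' => ∃ R : Finset ℕ, (∀ c ∈ cs, Disjoint R c.2) ∧ Cluster I' R F
    with hS
  obtain ⟨s₀, hs₀⟩ := hJ
  have hs₀S : ({s₀} : Finset ι) ∈ S := by
    have h3 : 3 ≤ (F s₀ \ U).card := by
      have := hfree s₀ hs₀
      have := card_pos.2 ⟨s₀, hs₀⟩
      omega
    obtain ⟨R, hR, hR3⟩ := exists_subset_card_eq h3
    refine mem_filter.2 ⟨mem_powerset.2 (singleton_subset_iff.2 hs₀), R, hUd R ?_,
      Extend_single (hR.trans sdiff_subset) hR3⟩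
    exact disjoint_left.2 fun y hy => (mem_sdiff.1 (hR hy)).2
  obtain ⟨I', hI', hmax⟩ := exists_max_image S card ⟨_, hs₀S⟩
  obtain ⟨hI'J, R, hRd, hcl⟩ := mem_filter.1 hI'
  rw [mem_powerset] at hI'J
  have h1 : 1 ≤ I'.card := by simpa using hmax _ hs₀S
  have hc := card_sdiff_add_card_eq_card hI'J
  refine ⟨I', hI'J, R, h1, h.mx I' hI'J R hRd hcl, hcl.1, ?_⟩
  refine ⟨?_, ?_, ?_, ?_, fun s hs => h.size s (mem_sdiff.1 hs).1, ?_, ?_, ?_, ?_⟩
  · intro c hc
    rcases List.mem_cons.1 hc with rfl | hc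
    · exact hcl
    · exact h.cl c hc
  · exact List.pairwise_cons.2 ⟨fun c hc => ⟨((h.dj c hc).mono_right hI'J).symm, hRd c hc⟩, h.pw⟩
  · intro c hc
    rcases List.mem_cons.1 hc with rfl | hc
    · exact disjoint_sdiff
    · exact (h.dj c hc).mono_right sdiff_subset
  · intro s hs
    rcases h.cover s hs with hs | ⟨c, hc, hs⟩
    · by_cases hsI : s ∈ I'
      · exact Or.inr ⟨(I', R), List.mem_cons_self, hsI⟩
      · exact Or.inl (mem_sdiff.2 ⟨hs, hsI⟩)
    · exact Or.inr ⟨c, List.mem_cons_of_mem _ hc, hs⟩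
  · intro s hs c hc
    rw [mem_sdiff] at hs
    rcases List.mem_cons.1 hc with rfl | hc
    · by_contra hlt
      have h2 : 1 < (F s ∩ R).card := not_le.1 hlt
      have h3 : I'.card < J.card := card_lt_card (Finset.ssubset_iff_subset_ne.2
        ⟨hI'J, fun e => hs.2 (e ▸ hs.1)⟩)
      have h4 : R.card < (F s \ U).card := by
        have := hfree s hs.1
        have := hcl.1
        omega
      obtain ⟨c, hc1, hc2⟩ := exists_mem_notMem_of_card_lt_card h4
      rw [mem_sdiff] at hc1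
      have h5 : insert s I' ∈ S := by
        refine mem_filter.2 ⟨mem_powerset.2 (insert_subset hs.1 hI'J), insert c R, fun d hd => ?_,
          Extend_grow hcl hs.2 h2 hc1.1 hc2⟩
        refine disjoint_insert_left.2 ⟨fun hh => hc1.2 ?_, hRd d hd⟩
        exact mem_unionL.2 ⟨d.2, List.mem_map.2 ⟨d, hd, rfl⟩, hh⟩
      have h6 := hmax _ h5
      rw [card_insert_of_notMem hs.2] at h6
      omega
    · exact h.thin s hs.1 c hc
  · have := h.len
    rw [List.length_cons]
    omega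
  · have := h.total
    rw [List.map_cons, List.sum_cons]
    simp only
    omega
  · intro I'' hI'' R' hR' hcl'
    exact hmax _ (mem_filter.2 ⟨mem_powerset.2 (hI''.trans sdiff_subset), R',
      fun c hc => hR' c (List.mem_cons_of_mem _ hc), hcl'⟩)

/-- The starting state. -/
theorem Pre.root {k : ℕ} {I : Finset ι} {F : ι → Finset ℕ} (hI : I.card + 2 = k)
    (hF : ∀ s ∈ I, (F s).card = k) (h : ∀ R, ¬ Cluster I R F) : Pre k (k - 3) [] I I F := by
  refine ⟨by simp, List.Pairwise.nil, by simp, fun s hs => Or.inl hs, hF, by simp,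
    by simp [hI], by simp [hI], fun I' hI' R _ hcl => ?_⟩
  have h3 : I'.card < I.card := card_lt_card (Finset.ssubset_iff_subset_ne.2
    ⟨hI', fun e => h R (e ▸ hcl)⟩)
  omega

theorem cluster_four {s1 s2 : ι} (hne : s1 ≠ s2) {F : ι → Finset ℕ} (h1 : (F s1).card = 4)
    (h2 : (F s2).card = 4) (h : 2 ≤ (F s1 ∩ F s2).card) : ∃ R, Cluster {s1, s2} R F := by
  obtain ⟨C, hC, hC2⟩ := exists_subset_card_eq h
  obtain ⟨q, hq, hqC⟩ := exists_mem_notMem_of_card_lt_card (s := C) (t := F s2) (by omega)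
  have hR : insert q C ⊆ F s2 := insert_subset hq (hC.trans inter_subset_right)
  have hR3 : (insert q C).card = 3 := by rw [card_insert_of_notMem hqC, hC2]
  obtain ⟨p, hp, hpC⟩ := exists_mem_notMem_of_card_lt_card (s := insert q C) (t := F s1)
    (by omega)
  refine ⟨insert p (insert q C), Extend_grow (Extend_single hR hR3) (by simpa using hne) ?_ hp hpC⟩
  have : C ⊆ F s1 ∩ insert q C :=
    subset_inter (hC.trans inter_subset_left) (subset_insert _ _)
  have := card_le_card this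
  omega

end Pool.Agent.P.MP_a09be5_co
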