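import Pool.Agent.P.MP_a09be5_co.Setup

namespace Pool.Agent.P.MP_a09be5_co
open Finset

variable {ι : Type} [DecidableEq ι]

theorem Mix_le_foldr {l : List ℚ} {x : ℚ} (hx : x ∈ l) : x ≤ l.foldr max 0 := by
  induction l with
  | nil => simp at hx
  | cons y l ih =>
    rw [List.foldr_cons]
    rcases List.mem_cons.1 hx with rfl | h
    · exact le_max_left _ _
    · exact (ih h).trans (le_max_right _ _)

theorem Mix_foldr_nonneg (l : List ℚ) : 0 ≤ l.foldr max 0 := by
  induction l with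
  | nil => simp
  | cons y l ih =>
    rw [List.foldr_cons]
    exact ih.trans (le_max_right _ _)

theorem Mix_nonneg (ns : List ℕ) (qs : List (ℚ × List ℕ × ℚ))
    (h : ∀ q ∈ qs, 0 ≤ q.1 ∧ 0 ≤ q.2.2) (e : ℕ) : 0 ≤ mixMax ns qs e := by
  cases ns with
  | nil =>
    unfold mixMax
    refine List.sum_nonneg fun x hx => ?_
    obtain ⟨q, hq, rfl⟩ := List.mem_map.1 hx
    exact mul_nonneg (h q hq).1 (pow_nonneg (h q hq).2 _)
  | cons n ns =>
    unfold mixMax
    exact Mix_foldr_nonneg _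

omit [DecidableEq ι] in
theorem Mix_swap {α : Type} (ps : List α) (A : Finset ι) (w : α → ℚ) (f : α → ι → ℚ) :
    (ps.map fun q => w q * ∑ u ∈ A, f q u).sum = ∑ u ∈ A, (ps.map fun q => w q * f q u).sum := by
  induction ps with
  | nil => simp
  | cons q ps ih =>
    rw [List.map_cons, List.sum_cons, ih, mul_sum, ← sum_add_distrib]
    simp only [List.map_cons, List.sum_cons]

omit [DecidableEq ι] in
theorem Mix_side {α : Type} (Rs : List (Finset ℕ)) (ps : List α) (g : α → ℚ × List ℕ × ℚ)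
    (hm : ∀ L : Finset ℕ,
      ((ps.map g).map fun q => q.1 * val q.2.2 (Rs.zip q.2.1) L).sum ≤
        mixMax (Rs.map Finset.card) (ps.map g) L.card)
    (hg : ∀ q ∈ ps, 0 ≤ (g q).1 ∧ 0 ≤ (g q).2.2) {k a : ℕ} {A : Finset ι} {E : ι → Finset ℕ}
    (hA : A.card ≤ a) (hE : ∀ u ∈ A, (E u).card = k) :
    (ps.map fun q => (g q).1 * ∑ u ∈ A, val (g q).2.2 (Rs.zip (g q).2.1) (E u)).sum ≤
      (a : ℚ) * mixMax (Rs.map Finset.card) (ps.map g) k := by
  rw [Mix_swap ps A (fun q => (g q).1) (fun q u => val (g q).2.2 (Rs.zip (g q).2.1) (E u))]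
  have h0 : 0 ≤ mixMax (Rs.map Finset.card) (ps.map g) k := by
    apply Mix_nonneg
    intro q hq
    obtain ⟨q', hq', rfl⟩ := List.mem_map.1 hq
    exact hg q' hq'
  calc ∑ u ∈ A, (ps.map fun q => (g q).1 * val (g q).2.2 (Rs.zip (g q).2.1) (E u)).sum
      ≤ ∑ u ∈ A, mixMax (Rs.map Finset.card) (ps.map g) k := by
        refine sum_le_sum fun u hu => ?_
        have := hm (E u)
        rw [List.map_map, hE u hu] at this
        exact this
    _ = (A.card : ℚ) * mixMax (Rs.map Finset.card) (ps.map g) k := by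
        rw [sum_const, nsmul_eq_mul]
    _ ≤ _ := mul_le_mul_of_nonneg_right (by exact_mod_cast hA) h0

/- SKETCH.  Induct on Rs (generalising qs, L).  For R :: Rs take t = |L ∩ R| ≤ min |R| |L|; then
|R \ L| = |R| - t, |L \ R| = |L| - t; each q.2.1 is a cons, so the left side equals the left side for
the mapped list and L \ R; finish with: a member of a list is ≤ its foldr max 0. -/
theorem mix_le (Rs : List (Finset ℕ)) (qs : List (ℚ × List ℕ × ℚ))
    (hlen : ∀ q ∈ qs, q.2.1.length = Rs.length) (L : Finset ℕ) :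
    (qs.map fun q => q.1 * val q.2.2 (Rs.zip q.2.1) L).sum ≤
      mixMax (Rs.map Finset.card) qs L.card := by
  induction Rs generalizing qs L with
  | nil =>
    simp only [List.zip_nil_left, List.map_nil]
    unfold mixMax val
    exact le_rfl
  | cons R Rs ih =>
    rw [List.map_cons]
    unfold mixMax
    have ht : (L ∩ R).card ∈ List.range (min R.card L.card + 1) := by
      rw [List.mem_range, Nat.lt_succ_iff]
      exact le_min (card_le_card inter_subset_right) (card_le_card inter_subset_left)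
    refine le_trans ?_ (Mix_le_foldr (List.mem_map.2 ⟨_, ht, rfl⟩))
    have h1 : (R \ L).card = R.card - (L ∩ R).card := card_sdiff
    have h2 : (L \ R).card = L.card - (L ∩ R).card := by
      rw [card_sdiff, inter_comm]
    rw [← h1, ← h2]
    refine le_trans (le_of_eq ?_) (ih _ ?_ (L \ R))
    · rw [List.map_map]
      congr 1
      refine List.map_congr_left fun q hq => ?_
      have h3 := hlen q hq
      obtain ⟨w, l, y⟩ := q
      cases l with
      | nil => simp at h3
      | cons x l =>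
        simp only [List.zip_cons_cons, Function.comp, List.headD_cons, List.tail_cons]
        rw [val, mul_assoc]
    · intro q hq
      obtain ⟨q', hq', rfl⟩ := List.mem_map.1 hq
      have h3 := hlen q' hq'
      simp only [List.length_tail, List.length_cons] at h3 ⊢
      omega

/- SKETCH.  If every plan had value ≥ 1 then ∑ wt ≤ ∑ wt * value = ∑_u (mixture) + ∑_v (mixture)
≤ |A| mixMax + |B| mixMax ≤ a mixMax + b mixMax.  (mixMax ≥ 0: for ns = [] note
0 ≤ ySeq when j < N, see the hypothesis; for a cons it is a foldr max 0.) -/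
theorem cert_pick {k a b N j : ℕ} {ps : List Pat} (Rs : List (Finset ℕ)) (hj : j < N)
    (hc : certOK k a b (Rs.map Finset.card) N j ps = true)
    {A B : Finset ι} {E H : ι → Finset ℕ} (hA : A.card ≤ a) (hB : B.card ≤ b)
    (hE : ∀ u ∈ A, (E u).card = k) (hH : ∀ v ∈ B, (H v).card = k) :
    ∃ q ∈ ps, 0 ≤ q.p ∧ q.p ≤ 1 ∧ q.as.length = Rs.length ∧ q.bs.length = Rs.length ∧
      ∑ u ∈ A, val (ySeq q.p N j) (Rs.zip q.as) (E u) +
        ∑ v ∈ B, val (ySeq (1 - q.p) N j) (Rs.zip q.bs) (H v) < 1 := by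
  unfold certOK at hc
  rw [Bool.and_eq_true, List.all_eq_true, decide_eq_true_iff] at hc
  obtain ⟨hall, hlt⟩ := hc
  have hq : ∀ q ∈ ps, 0 ≤ q.wt ∧ 0 ≤ q.p ∧ q.p ≤ 1 ∧ q.as.length = Rs.length ∧
      q.bs.length = Rs.length := by
    intro q hq
    have := hall q hq
    simp only [Bool.and_eq_true, decide_eq_true_iff, List.length_map] at this
    obtain ⟨⟨⟨⟨h1, h2⟩, h3⟩, h4⟩, h5⟩ := this
    exact ⟨h1, h2, h3, h4, h5⟩
  by_contra hno
  have hge : ∀ q ∈ ps, 1 ≤ ∑ u ∈ A, val (ySeq q.p N j) (Rs.zip q.as) (E u) +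
      ∑ v ∈ B, val (ySeq (1 - q.p) N j) (Rs.zip q.bs) (H v) := by
    intro q hqp
    by_contra h
    obtain ⟨_, h2, h3, h4, h5⟩ := hq q hqp
    exact hno ⟨q, hqp, h2, h3, h4, h5, not_le.1 h⟩
  have hA' := Mix_side Rs ps (fun q => (q.wt, q.as, ySeq q.p N j))
    (fun L => mix_le Rs _ (by
      intro q hq'
      obtain ⟨q', hq'', rfl⟩ := List.mem_map.1 hq'
      exact (hq q' hq'').2.2.2.1) L)
    (fun q hq' => ⟨(hq q hq').1, ySeq_nonneg (hq q hq').2.1 (hq q hq').2.2.1 hj⟩) hA hE
  have hB' := Mix_side Rs ps (fun q => (q.wt, q.bs, ySeq (1 - q.p) N j))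
    (fun L => mix_le Rs _ (by
      intro q hq'
      obtain ⟨q', hq'', rfl⟩ := List.mem_map.1 hq'
      exact (hq q' hq'').2.2.2.2) L)
    (fun q hq' => ⟨(hq q hq').1, ySeq_nonneg (by linarith [(hq q hq').2.2.1])
      (by linarith [(hq q hq').2.1]) hj⟩) hB hH
  have hsum : (ps.map fun q => q.wt).sum ≤
      (ps.map fun q => q.wt * ∑ u ∈ A, val (ySeq q.p N j) (Rs.zip q.as) (E u)).sum +
      (ps.map fun q => q.wt * ∑ v ∈ B, val (ySeq (1 - q.p) N j) (Rs.zip q.bs) (H v)).sum := by
    rw [← List.sum_map_add]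
    refine List.sum_le_sum fun q hqp => ?_
    rw [← mul_add]
    exact le_mul_of_one_le_right (hq q hqp).1 (hge q hqp)
  linarith

end Pool.Agent.P.MP_a09be5_co
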