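import Pool.Agent.P.MP_a09be5_co.Blocks
import Pool.Agent.P.MP_a09be5_co.Mix
import Pool.Agent.P.MP_a09be5_co.Extend

namespace Pool.Agent.P.MP_a09be5_co
open Finset

variable {ι : Type} [DecidableEq ι]

omit [DecidableEq ι] in
theorem Cert_zip (cs : List (Finset ι × Finset ℕ)) (as : List ℕ) (hlen : as.length = cs.length) :
    ((List.zipWith (fun (c : Finset ι × Finset ℕ) (a : ℕ) => (c.2, a, 2 - a)) cs as).map
        fun b => b.1) = (cs.map fun c => c.2) ∧
    ((List.zipWith (fun (c : Finset ι × Finset ℕ) (a : ℕ) => (c.2, a, 2 - a)) cs as).map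
        fun b => (b.1, b.2.1)) = (cs.map fun c => c.2).zip as ∧
    ((List.zipWith (fun (c : Finset ι × Finset ℕ) (a : ℕ) => (c.2, a, 2 - a)) cs as).map
        fun b => (b.1, b.2.2)) = (cs.map fun c => c.2).zip (as.map (2 - ·)) ∧
    (∀ b ∈ List.zipWith (fun (c : Finset ι × Finset ℕ) (a : ℕ) => (c.2, a, 2 - a)) cs as,
      b.2.1 ∈ as ∧ b.2.2 = 2 - b.2.1) := by
  induction cs generalizing as with
  | nil => simp
  | cons c cs ih =>
    cases as with
    | nil => simp at hlen
    | cons a as =>
      have hl : as.length = cs.length := by simpa using hlen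
      obtain ⟨h1, h2, h3, h4⟩ := ih as hl
      refine ⟨?_, ?_, ?_, ?_⟩
      · simp only [List.zipWith_cons_cons, List.map_cons, h1]
      · simp only [List.zipWith_cons_cons, List.map_cons, h2, List.zip_cons_cons]
      · simp only [List.zipWith_cons_cons, List.map_cons, h3, List.zip_cons_cons]
      · intro b hb
        rw [List.zipWith_cons_cons, List.mem_cons] at hb
        rcases hb with rfl | hb
        · exact ⟨List.mem_cons_self, rfl⟩
        · exact ⟨List.mem_cons_of_mem _ (h4 b hb).1, (h4 b hb).2⟩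

omit [DecidableEq ι] in
theorem Cert_inter (cs : List (Finset ι × Finset ℕ)) (L : Finset ℕ)
    (h : ∀ c ∈ cs, (L ∩ c.2).card ≤ 1) :
    (L ∩ unionL (cs.map fun c => c.2)).card ≤ cs.length := by
  induction cs with
  | nil => simp
  | cons c cs ih =>
    rw [List.map_cons, unionL_cons, inter_union_distrib_left, List.length_cons]
    have h1 := h c List.mem_cons_self
    have h2 := ih fun d hd => h d (List.mem_cons_of_mem _ hd)
    have h3 := card_union_le (L ∩ c.2) (L ∩ unionL (cs.map fun c => c.2))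
    omega

theorem Cert_glue (cs : List (Finset ι × Finset ℕ)) (J : Finset ι) (F : ι → Finset ℕ)
    (Z : Finset ℕ) (g : ι → ℕ)
    (pw : cs.Pairwise fun c d => Disjoint c.1 d.1 ∧ Disjoint c.2 d.2)
    (dj : ∀ c ∈ cs, Disjoint c.1 J)
    (hc : ∀ c ∈ cs, ∃ g' : ι → ℕ, (∀ s ∈ c.1, g' s ∈ F s ∧ g' s ∈ c.2 \ Z) ∧ Set.InjOn g' c.1) :
    ∃ f : ι → ℕ, (∀ s ∈ J, f s = g s) ∧
      (∀ c ∈ cs, (∀ s ∈ c.1, f s ∈ F s ∧ f s ∈ c.2 \ Z) ∧ Set.InjOn f c.1) := by
  induction cs with
  | nil => exact ⟨g, fun _ _ => rfl, fun c hc => absurd hc List.not_mem_nil⟩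
  | cons c cs ih =>
    rw [List.pairwise_cons] at pw
    obtain ⟨f', hf1, hf2⟩ := ih pw.2 (fun d hd => dj d (List.mem_cons_of_mem _ hd))
      (fun d hd => hc d (List.mem_cons_of_mem _ hd))
    obtain ⟨g', hg1, hg2⟩ := hc c List.mem_cons_self
    refine ⟨fun s => if s ∈ c.1 then g' s else f' s, fun s hs => ?_, fun d hd => ?_⟩
    · have : s ∉ c.1 := fun h => disjoint_left.1 (dj c List.mem_cons_self) h hs
      simp only [this, if_false]
      exact hf1 s hs
    · rcases List.mem_cons.1 hd with rfl | hd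
      · refine ⟨fun s hs => ?_, fun s hs t ht hst => ?_⟩
        · simp only [hs, if_true]
          exact hg1 s hs
        · have hs' : s ∈ d.1 := hs
          have ht' : t ∈ d.1 := ht
          simp only [hs', ht', if_true] at hst
          exact hg2 hs ht hst
      · have hn : ∀ s ∈ d.1, s ∉ c.1 := fun s hs h => disjoint_left.1 (pw.1 d hd).1 h hs
        refine ⟨fun s hs => ?_, fun s hs t ht hst => ?_⟩
        · simp only [hn s hs, if_false]
          exact (hf2 d hd).1 s hs
        · have hs' : s ∈ d.1 := hs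
          have ht' : t ∈ d.1 := ht
          simp only [hn s hs', hn t ht', if_false] at hst
          exact (hf2 d hd).2 hs ht hst

theorem Pre.cert {k m : ℕ} {cs : List (Finset ι × Finset ℕ)} {J I A B : Finset ι}
    {F E H : ι → Finset ℕ} (hP : Pre k m cs J I F) (as : List ℕ) (hlen : as.length = cs.length)
    (has : ∀ a ∈ as, a ≤ 2) {p : ℚ} (hp0 : 0 ≤ p) (hp1 : p ≤ 1)
    (h : ∑ u ∈ A, val (ySeq p (k - cs.length) J.card) ((cs.map fun c => c.2).zip as) (E u) +
      ∑ v ∈ B, val (ySeq (1 - p) (k - cs.length) J.card)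
        ((cs.map fun c => c.2).zip (as.map (2 - ·))) (H v) < 1) : Col I A B F E H := by
  obtain ⟨h1, h2, h3, h4⟩ := Cert_zip cs as hlen
  set bl := List.zipWith (fun (c : Finset ι × Finset ℕ) (a : ℕ) => (c.2, a, 2 - a)) cs as
    with hbl
  have htwo : ∀ b ∈ bl, b.2.1 + b.2.2 = 2 := fun b hb => by
    have := has _ (h4 b hb).1
    have := (h4 b hb).2
    omega
  have hmem : ∀ b ∈ bl, ∃ c ∈ cs, c.2 = b.1 := fun b hb => by
    have : b.1 ∈ bl.map fun b => b.1 := List.mem_map_of_mem hb
    rw [h1] at this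
    exact List.mem_map.1 this
  have hmem' : ∀ c ∈ cs, ∃ b ∈ bl, b.1 = c.2 := fun c hc => by
    have : c.2 ∈ cs.map fun c => c.2 := List.mem_map_of_mem hc
    rw [← h1] at this
    exact List.mem_map.1 this
  have hd : bl.Pairwise fun b c => Disjoint b.1 c.1 := by
    have : (cs.map fun c => c.2).Pairwise fun R S => Disjoint R S :=
      List.pairwise_map.2 (hP.pw.imp fun h => h.2)
    rw [← h1] at this
    exact List.pairwise_map.1 this
  have hab : ∀ b ∈ bl, b.2.1 + b.2.2 ≤ b.1.card := fun b hb => by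
    obtain ⟨c, hc, hcb⟩ := hmem b hb
    rw [htwo b hb, ← hcb, (hP.cl c hc).1]
    omega
  have hlenP := hP.len
  have hJ : J.card < k - cs.length := by omega
  have hF : ∀ s ∈ J, k - cs.length ≤ (F s \ unionL (bl.map fun b => b.1)).card := fun s hs => by
    rw [h1]
    have e1 := Cert_inter cs (F s) (hP.thin s hs)
    have e2 := card_sdiff_add_card_inter (F s) (unionL (cs.map fun c => c.2))
    have e3 := hP.size s hs
    omega
  obtain ⟨Z, g, hZ, hg1, hg2, hT⟩ := additive_core bl hd hab hp0 hp1 hJ hF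
    (A := A) (B := B) (E := E) (H := H) (by rw [h2, h3]; exact h)
  rw [h1] at hg1 hT
  have hc : ∀ c ∈ cs, ∃ g' : ι → ℕ,
      (∀ s ∈ c.1, g' s ∈ F s ∧ g' s ∈ c.2 \ Z) ∧ Set.InjOn g' c.1 := fun c hc => by
    obtain ⟨b, hb, hbc⟩ := hmem' c hc
    have hcard : (Z ∩ c.2).card = 2 := by rw [← hbc, hZ b hb, htwo b hb]
    obtain ⟨g', hg', hinj⟩ := (hP.cl c hc).2 (Z ∩ c.2) inter_subset_right hcard
    refine ⟨g', fun s hs => ⟨(hg' s hs).1, ?_⟩, hinj⟩
    have := (hg' s hs).2
    simp only [mem_sdiff, mem_inter, not_and] at this ⊢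
    exact ⟨this.1, fun hz => this.2 hz this.1⟩
  obtain ⟨f, hf1, hf2⟩ := Cert_glue cs J F Z g hP.pw hP.dj hc
  have hU : ∀ c ∈ cs, ∀ s ∈ c.1, f s ∈ unionL (cs.map fun c => c.2) := fun c hc s hs =>
    mem_unionL.2 ⟨c.2, List.mem_map_of_mem hc, (mem_sdiff.1 ((hf2 c hc).1 s hs).2).1⟩
  have hcc : ∀ c ∈ cs, ∀ d ∈ cs, ∀ s ∈ c.1, ∀ t ∈ d.1, f s = f t → s = t := by
    have hpw : cs.Pairwise fun c d => ∀ s ∈ c.1, ∀ t ∈ d.1, f s = f t → s = t := by
      refine hP.pw.imp_of_mem fun {c d} hc hd hcd s hs t ht hst => ?_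
      have e1 := (mem_sdiff.1 ((hf2 c hc).1 s hs).2).1
      have e2 := (mem_sdiff.1 ((hf2 d hd).1 t ht).2).1
      rw [hst] at e1
      exact absurd e2 (disjoint_left.1 hcd.2 e1)
    have : Std.Symm fun (c d : Finset ι × Finset ℕ) =>
        ∀ s ∈ c.1, ∀ t ∈ d.1, f s = f t → s = t :=
      ⟨fun x y hxy s hs t ht hst => (hxy t ht s hs hst.symm).symm⟩
    intro c hc d hd
    exact List.Pairwise.forall_of_forall
      (R := fun (c d : Finset ι × Finset ℕ) => ∀ s ∈ c.1, ∀ t ∈ d.1, f s = f t → s = t)
      (fun x hx s hs t ht hst => (hf2 x hx).2 hs ht hst) hpw hc hd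
  refine ⟨f, fun s hs => ?_, fun s hs t ht hst => ?_, ?_⟩
  · rcases hP.cover s hs with hs | ⟨c, hc, hs⟩
    · rw [hf1 s hs]
      exact (hg1 s hs).1
    · exact ((hf2 c hc).1 s hs).1
  · rcases hP.cover s hs with hs | ⟨c, hc, hs⟩ <;> rcases hP.cover t ht with ht | ⟨d, hd, ht⟩
    · rw [hf1 s hs, hf1 t ht] at hst
      exact hg2 hs ht hst
    · have := hU d hd t ht
      rw [← hst, hf1 s hs] at this
      exact absurd this (hg1 s hs).2
    · have := hU c hc s hs
      rw [hst, hf1 t ht] at this
      exact absurd this (hg1 t ht).2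
    · exact hcc c hc d hd s hs t ht hst
  · have hs := hT (unionL (cs.map fun c => c.2) \ Z) sdiff_subset sdiff_disjoint
    have hsub : I.image f ⊆ (unionL (cs.map fun c => c.2) \ Z) ∪ J.image g := by
      intro x hx
      obtain ⟨s, hs, rfl⟩ := mem_image.1 hx
      rcases hP.cover s hs with hs | ⟨c, hc, hs⟩
      · exact mem_union_right _ (mem_image.2 ⟨s, hs, (hf1 s hs).symm⟩)
      · exact mem_union_left _
          (mem_sdiff.2 ⟨hU c hc s hs, (mem_sdiff.1 ((hf2 c hc).1 s hs).2).2⟩)
    exact hs.mono Subset.rfl Subset.rfl (fun _ _ => sdiff_subset_sdiff Subset.rfl hsub)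
      (fun _ _ => sdiff_subset_sdiff Subset.rfl hsub)

theorem Cert_two_mul_le (d : ℕ) : 2 * d ≤ 2 ^ d := by
  cases d with
  | zero => simp
  | succ d =>
    have := Nat.lt_two_pow_self (n := d)
    rw [pow_succ]
    omega

theorem val_half (Rs : List (Finset ℕ)) (hne : ∀ R ∈ Rs, R.Nonempty) (L : Finset ℕ) :
    val (1 / 2) (Rs.zip (List.replicate Rs.length 1)) L * (2 ^ Rs.length * 2 ^ L.card *
      ((Rs.map Finset.card).prod : ℕ)) ≤ 2 ^ (Rs.map Finset.card).sum := by
  induction Rs generalizing L with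
  | nil => simp [val]
  | cons R Rs ih =>
    have ih' := ih (fun S hS => hne S (List.mem_cons_of_mem _ hS)) (L \ R)
    have hR : 0 < R.card := (hne R List.mem_cons_self).card_pos
    have hRq : (R.card : ℚ) ≠ 0 := by exact_mod_cast hR.ne'
    simp only [List.length_cons, List.replicate_succ, List.zip_cons_cons, val, List.map_cons,
      List.prod_cons, List.sum_cons, rho, Nat.descFactorial_one]
    set v := val (1 / 2) (Rs.zip (List.replicate Rs.length 1)) (L \ R) with hv
    have hv0 : 0 ≤ v := val_nonneg (by norm_num) _ _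
    have hcard : (L \ R).card + R.card = L.card + (R \ L).card := by
      rw [card_sdiff_add_card, add_comm L.card, card_sdiff_add_card, union_comm]
    have hpow : (2 : ℚ) ^ (L \ R).card * 2 ^ R.card = 2 ^ L.card * 2 ^ (R \ L).card := by
      rw [← pow_add, ← pow_add, hcard]
    have hd : (2 : ℚ) * (R \ L).card ≤ 2 ^ (R \ L).card := by
      exact_mod_cast Cert_two_mul_le (R \ L).card
    have hP0 : (0 : ℚ) ≤ v * (2 ^ Rs.length * ((Rs.map Finset.card).prod : ℕ)) := by positivity
    calc ((R \ L).card : ℚ) / R.card * v *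
          (2 ^ (Rs.length + 1) * 2 ^ L.card * ((R.card * (Rs.map Finset.card).prod : ℕ) : ℚ))
        = (2 ^ L.card * (2 * (R \ L).card)) *
            (v * (2 ^ Rs.length * ((Rs.map Finset.card).prod : ℕ))) := by
          push_cast
          field_simp
          ring
      _ ≤ (2 ^ L.card * 2 ^ (R \ L).card) *
            (v * (2 ^ Rs.length * ((Rs.map Finset.card).prod : ℕ))) := by
          gcongr
      _ = 2 ^ R.card * (v * (2 ^ Rs.length * 2 ^ (L \ R).card *
            ((Rs.map Finset.card).prod : ℕ))) := by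
          rw [← hpow]
          ring
      _ ≤ 2 ^ R.card * 2 ^ (Rs.map Finset.card).sum := by gcongr
      _ = 2 ^ (R.card + (Rs.map Finset.card).sum) := (pow_add _ _ _).symm

theorem amgm_step {t m : ℕ} (ht : t ≤ m) : (m + 2) ^ t * 2 ^ (m - t) ≤ (t + 2) ^ m := by
  rcases Nat.eq_zero_or_pos m with rfl | hm
  · obtain rfl : t = 0 := by omega
    simp
  obtain ⟨s, hs⟩ := Nat.exists_eq_add_of_le ht
  have hs' : m - t = s := by omega
  rw [hs']
  have hm0 : (0 : ℝ) < m := by exact_mod_cast hm
  have hsum : (t : ℝ) + s = m := by exact_mod_cast hs.symm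
  have key := Real.geom_mean_le_arith_mean2_weighted (w₁ := (t : ℝ) / m) (w₂ := (s : ℝ) / m)
    (p₁ := (m : ℝ) + 2) (p₂ := 2) (by positivity) (by positivity) (by positivity) (by norm_num)
    (by rw [← add_div, hsum, div_self hm0.ne'])
  have e : (t : ℝ) / m * (m + 2) + s / m * 2 = t + 2 := by
    field_simp
    linear_combination 2 * hsum
  rw [e] at key
  have key2 := pow_le_pow_left₀ (by positivity) key m
  rw [mul_pow, ← Real.rpow_natCast, ← Real.rpow_natCast (_ ^ ((s : ℝ) / m)),
    ← Real.rpow_mul (by positivity), ← Real.rpow_mul (by norm_num),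
    div_mul_cancel₀ _ hm0.ne', div_mul_cancel₀ _ hm0.ne', Real.rpow_natCast,
    Real.rpow_natCast] at key2
  exact_mod_cast key2

omit [DecidableEq ι] in
theorem Cert_sum (cs : List (Finset ι × Finset ℕ)) (h : ∀ c ∈ cs, c.2.card = c.1.card + 2) :
    (cs.map fun c => c.2.card).sum = (cs.map fun c => c.1.card).sum + 2 * cs.length := by
  induction cs with
  | nil => simp
  | cons c cs ih =>
    have h1 := h c List.mem_cons_self
    have h2 := ih fun d hd => h d (List.mem_cons_of_mem _ hd)
    simp only [List.map_cons, List.sum_cons, List.length_cons]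
    omega

theorem Cert_base {k m a b : ℕ} {cs : List (Finset ι × Finset ℕ)} {I A B : Finset ι}
    {F E H : ι → Finset ℕ} (hP : Pre k m cs ∅ I F)
    (hA : A.card ≤ a) (hB : B.card ≤ b)
    (hE : ∀ u ∈ A, (E u).card = k) (hH : ∀ v ∈ B, (H v).card = k)
    (h : (a + b) * 2 ^ cs.length < 4 * (cs.map fun c => c.2.card).prod) : Col I A B F E H := by
  have hlenP := hP.len
  have htot := hP.total
  rw [card_empty] at hlenP htot
  have hsum := Cert_sum cs fun c hc => (hP.cl c hc).1
  have hN : ((k - cs.length : ℕ) : ℚ) ≠ 0 := by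
    have : k - cs.length ≠ 0 := by omega
    exact_mod_cast this
  have hy : ySeq (1 / 2) (k - cs.length) 0 = 1 / 2 := by
    unfold ySeq
    rw [Nat.cast_zero, sub_zero, mul_div_assoc, div_self hN]
    norm_num
  set P : ℕ := (cs.map fun c => c.2.card).prod with hPdef
  have hP0 : (0 : ℚ) < P := by
    have : 0 < P := by
      rcases Nat.eq_zero_or_pos P with h0 | h0
      · rw [h0] at h
        omega
      · exact h0
    exact_mod_cast this
  have hval : ∀ L : Finset ℕ, L.card = k →
      val (1 / 2) ((cs.map fun c => c.2).zip (List.replicate cs.length 1)) L ≤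
        2 ^ cs.length / (4 * P) := fun L hL => by
    have hv := val_half (cs.map fun c => c.2) (fun R hR => by
      obtain ⟨c, hc, rfl⟩ := List.mem_map.1 hR
      have := (hP.cl c hc).1
      exact card_pos.1 (by omega)) L
    rw [List.length_map, List.map_map, hL] at hv
    have e1 : (cs.map (Finset.card ∘ fun c => c.2)) = cs.map fun c => c.2.card := rfl
    rw [e1, ← hPdef, hsum] at hv
    set S := (cs.map fun c => c.1.card).sum with hS
    have hk : k = S + 2 := by omega
    rw [hk, pow_add, pow_add, two_mul, pow_add] at hv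
    rw [le_div_iff₀ (by positivity)]
    have hpos : (0 : ℚ) < 2 ^ S * 2 ^ cs.length := by positivity
    refine le_of_mul_le_mul_left ?_ hpos
    calc 2 ^ S * 2 ^ cs.length *
          (val (1 / 2) ((cs.map fun c => c.2).zip (List.replicate cs.length 1)) L * (4 * P))
        = val (1 / 2) ((cs.map fun c => c.2).zip (List.replicate cs.length 1)) L *
            (2 ^ cs.length * (2 ^ S * 2 ^ 2) * P) := by ring
      _ ≤ 2 ^ S * (2 ^ cs.length * 2 ^ cs.length) := hv
      _ = 2 ^ S * 2 ^ cs.length * 2 ^ cs.length := by ring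
  refine hP.cert (List.replicate cs.length 1) List.length_replicate
    (fun x hx => by rw [List.eq_of_mem_replicate hx]; norm_num) (p := 1 / 2) (by norm_num)
    (by norm_num) ?_
  have e2 : (List.replicate cs.length 1).map (2 - ·) = List.replicate cs.length 1 := by
    rw [List.map_replicate]
  have e3 : (1 : ℚ) - 1 / 2 = 1 / 2 := by norm_num
  rw [e2, e3, card_empty, hy]
  have s1 := sum_le_card_nsmul A _ _ fun u hu => hval (E u) (hE u hu)
  have s2 := sum_le_card_nsmul B _ _ fun v hv => hval (H v) (hH v hv)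
  rw [nsmul_eq_mul] at s1 s2
  have hA' : (A.card : ℚ) ≤ a := by exact_mod_cast hA
  have hB' : (B.card : ℚ) ≤ b := by exact_mod_cast hB
  have hq : (0 : ℚ) ≤ 2 ^ cs.length / (4 * P) := by positivity
  have h' : ((a : ℚ) + b) * 2 ^ cs.length < 4 * P := by exact_mod_cast h
  have hfin : ((a : ℚ) + b) * (2 ^ cs.length / (4 * P)) < 1 := by
    rw [← mul_div_assoc, div_lt_one (by positivity)]
    exact h'
  have t1 := mul_le_mul_of_nonneg_right hA' hq
  have t2 := mul_le_mul_of_nonneg_right hB' hq
  linarith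

theorem Pre.lbound {k m a b : ℕ} {cs : List (Finset ι × Finset ℕ)} {J I A B : Finset ι}
    {F E H : ι → Finset ℕ} (hP : Pre k m cs J I F) (hm : 1 ≤ m)
    (hA : A.card ≤ a) (hB : B.card ≤ b)
    (hE : ∀ u ∈ A, (E u).card = k) (hH : ∀ v ∈ B, (H v).card = k)
    (h : (a + b) ^ m * 2 ^ (cs.length * m + J.card) <
      (4 * (cs.map fun c => c.2.card).prod) ^ m * (m + 2) ^ J.card) : Col I A B F E H := by
  induction hj : J.card using Nat.strong_induction_on generalizing cs J with
  | _ j ih =>
    rcases J.eq_empty_or_nonempty with rfl | hJ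
    · refine Cert_base hP hA hB hE hH ?_
      rw [card_empty, add_zero, pow_zero, mul_one, pow_mul, ← mul_pow] at h
      have _ := hm
      exact lt_of_pow_lt_pow_left₀ m (Nat.zero_le _) h
    · obtain ⟨I', hI', R, ht1, htm, hR, hP'⟩ := hP.extend hJ
      have hle : I'.card ≤ J.card := card_le_card hI'
      have hcard : (J \ I').card = J.card - I'.card := card_sdiff_of_subset hI'
      refine ih (J \ I').card (by omega) (hP'.mono htm) ?_ rfl
      rw [hcard, List.map_cons, List.prod_cons, List.length_cons]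
      simp only [hR]
      set t := I'.card with ht
      set P : ℕ := (cs.map fun c => c.2.card).prod with hPdef
      have e1 : (cs.length + 1) * m + (J.card - t) = (cs.length * m + J.card) + (m - t) := by
        rw [add_mul, one_mul]
        omega
      have e2 : J.card = (J.card - t) + t := by omega
      have hs := amgm_step htm
      calc (a + b) ^ m * 2 ^ ((cs.length + 1) * m + (J.card - t))
          = (a + b) ^ m * 2 ^ (cs.length * m + J.card) * 2 ^ (m - t) := by
            rw [e1, pow_add 2 _ (m - t), mul_assoc]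
        _ < (4 * P) ^ m * (m + 2) ^ J.card * 2 ^ (m - t) :=
            Nat.mul_lt_mul_of_pos_right h (by positivity)
        _ = (4 * P) ^ m * (m + 2) ^ (J.card - t) * ((m + 2) ^ t * 2 ^ (m - t)) := by
            conv_lhs => rw [e2, pow_add]
            ring
        _ ≤ (4 * P) ^ m * (m + 2) ^ (J.card - t) * (t + 2) ^ m := Nat.mul_le_mul_left _ hs
        _ = (4 * ((t + 2) * P)) ^ m * (m + 2) ^ (J.card - t) := by
            rw [mul_pow, mul_pow, mul_pow]
            ring

theorem tree_sound {k a b : ℕ} {db : List (List ℕ × List (ℕ × List ℕ × ℕ))} {I A B : Finset ι}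
    {F E H : ι → Finset ℕ} (hA : A.card ≤ a) (hB : B.card ≤ b)
    (hE : ∀ u ∈ A, (E u).card = k) (hH : ∀ v ∈ B, (H v).card = k) (fuel : ℕ) {m : ℕ}
    {cs : List (Finset ι × Finset ℕ)} {J : Finset ι} (hP : Pre k m cs J I F)
    (h : tree k a b db fuel (cs.map fun c => c.2.card) J.card m = true) : Col I A B F E H := by
  induction fuel generalizing m cs J with
  | zero => simp [tree] at h
  | succ fuel ih =>
    rw [tree, Bool.or_eq_true] at h
    rcases h with h | h
    · rw [Lok, decide_eq_true_eq, List.length_map] at h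
      exact (hP.min.mono (le_max_right 1 _)).lbound (le_max_left 1 _) hA hB hE hH h
    · split at h
      · rename_i ps _
        rw [Bool.and_eq_true, List.length_map] at h
        obtain ⟨hall, hc⟩ := h
        have hlenP := hP.len
        have hj : J.card < k - cs.length := by omega
        have e1 : (cs.map fun c => c.2.card) = (cs.map fun c => c.2).map Finset.card := by
          rw [List.map_map]
          rfl
        rw [e1] at hc
        obtain ⟨q, hq, hp0, hp1, hl1, -, hlt⟩ := cert_pick _ hj hc hA hB hE hH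
        obtain ⟨q0, hq0, rfl⟩ := List.mem_map.1 hq
        rw [List.length_map] at hl1
        refine hP.cert (toPat q0).as hl1 (fun x hx => ?_) hp0 hp1 hlt
        have := List.all_eq_true.1 (List.all_eq_true.1 hall q0 hq0) x hx
        exact of_decide_eq_true this
      · rw [Bool.and_eq_true, decide_eq_true_eq, List.all_eq_true] at h
        obtain ⟨hj, hall⟩ := h
        obtain ⟨I', hI', R, ht1, htm, hR, hP'⟩ := hP.extend (card_pos.1 hj)
        have hle : I'.card ≤ J.card := card_le_card hI'
        have hcard : (J \ I').card = J.card - I'.card := card_sdiff_of_subset hI'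
        have hmem : I'.card ∈ List.range' 1 (min J.card m) := by
          rw [List.mem_range'_1]
          have := le_min hle htm
          omega
        refine ih hP' ?_
        rw [hcard, List.map_cons]
        simp only [hR]
        exact hall _ hmem

end Pool.Agent.P.MP_a09be5_co
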