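import Mathlib

/-! Definitions used in the statement on joins `K_{a,b} + K_t`. -/

namespace Pool.Agent.P.MP_a09be5_co

/-- The join `G + H`: disjoint copies of `G` and `H` with all edges between them. -/
def graphJoin {V W : Type} (G : SimpleGraph V) (H : SimpleGraph W) : SimpleGraph (V ⊕ W) where
  Adj x y :=
    match x, y with
    | Sum.inl u, Sum.inl v => G.Adj u v
    | Sum.inr u, Sum.inr v => H.Adj u v
    | Sum.inl _, Sum.inr _ => True
    | Sum.inr _, Sum.inl _ => True
  symm := ⟨by
    rintro (u | u) (v | v) h
    · exact G.adj_symm h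
    · trivial
    · trivial
    · exact H.adj_symm h⟩
  loopless := ⟨by
    rintro (u | u) h
    · exact G.irrefl h
    · exact H.irrefl h⟩

/-- `G` is `k`-choosable: every assignment of lists of `k` colours admits a proper colouring
from the lists. -/
def Choosable {V : Type} (G : SimpleGraph V) (k : ℕ) : Prop :=
  ∀ L : V → Finset ℕ, (∀ v, (L v).card = k) →
    ∃ c : V → ℕ, (∀ v, c v ∈ L v) ∧ ∀ u v, G.Adj u v → c u ≠ c v

/-- The list chromatic number: the least `k` such that `G` is `k`-choosable. -/
noncomputable def listChromaticNumber {V : Type} (G : SimpleGraph V) : ℕ :=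
  sInf {k | Choosable G k}

/-- The graph `K_{a,b} + K_t`. -/
def KK (a b t : ℕ) : SimpleGraph ((Fin a ⊕ Fin b) ⊕ Fin t) :=
  graphJoin (completeBipartiteGraph (Fin a) (Fin b)) (SimpleGraph.completeGraph (Fin t))

/-- `G` is chromatic-choosable: list chromatic number equals chromatic number. -/
def ChromaticChoosable {V : Type} (G : SimpleGraph V) : Prop :=
  (listChromaticNumber G : ℕ∞) = G.chromaticNumber

/-- `phi a b`: the least `t` such that `K_{a,b} + K_t` is chromatic-choosable. -/
noncomputable def phi (a b : ℕ) : ℕ := sInf {t | ChromaticChoosable (KK a b t)}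

end Pool.Agent.P.MP_a09be5_co
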