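import Pool.Agent.P.MP_a09be5_co.Basic

/-! Structures shared by the modules of the proof. -/

namespace Pool.Agent.P.MP_a09be5_co
open Finset

variable {ι : Type} [DecidableEq ι]

/-- A partial decomposition of the clique `I` into clusters `cs` and a rest `J`; every cluster
inside the rest that avoids the colours of `cs` has at most `m` vertices. -/
structure Pre (k m : ℕ) (cs : List (Finset ι × Finset ℕ)) (J I : Finset ι)
    (F : ι → Finset ℕ) : Prop where
  cl : ∀ c ∈ cs, Cluster c.1 c.2 F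
  pw : cs.Pairwise fun c d => Disjoint c.1 d.1 ∧ Disjoint c.2 d.2
  dj : ∀ c ∈ cs, Disjoint c.1 J
  cover : ∀ s ∈ I, s ∈ J ∨ ∃ c ∈ cs, s ∈ c.1
  size : ∀ s ∈ J, (F s).card = k
  thin : ∀ s ∈ J, ∀ c ∈ cs, (F s ∩ c.2).card ≤ 1
  len : cs.length + J.card + 2 ≤ k
  total : (cs.map fun c => c.1.card).sum + J.card + 2 = k
  mx : ∀ I' ⊆ J, ∀ R : Finset ℕ, (∀ c ∈ cs, Disjoint R c.2) → Cluster I' R F → I'.card ≤ m

/-- A counterexample to the statement of case one. -/
structure Bad (k w : ℕ) (S : Finset ℕ) (A B : Finset ι) (L M : ι → Finset ℕ) : Prop where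
  hS : S.card = k
  hk : 3 ≤ k
  hw : 2 ≤ w
  hwk : 2 * w ≤ k + 1
  hL : ∀ u ∈ A, (L u).card = k
  hM : ∀ v ∈ B, (M v).card = k
  hA : A.card ≤ k * w
  hB : (B.card - 1) * (w - 1) ≤ k - 1
  bad : ¬ Good S A B L M

/-- The vertices whose list misses the colour `x`. -/
def miss (A : Finset ι) (L : ι → Finset ℕ) (x : ℕ) : Finset ι := A.filter fun u => x ∉ L u

/-- The part of each list outside `S`. -/
def out (S : Finset ℕ) (L : ι → Finset ℕ) : ι → Finset ℕ := fun u => L u \ S

/-- The vertices of `A` whose set avoids `K`. -/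
def rest (A : Finset ι) (E : ι → Finset ℕ) (K : Finset ℕ) : Finset ι :=
  A.filter fun u => Disjoint (E u) K

/-- The easy case: few vertices of `B` have a list different from `S`. -/
def Easy (k w : ℕ) (S : Finset ℕ) (B : Finset ι) (M : ι → Finset ℕ) : Prop :=
  (B.filter fun v => (out S M v).Nonempty).card * (w - 1) ≤ k - 1

/-- Type C: the sets are singletons with at least `w` different colours. -/
def TypeC (w : ℕ) (A : Finset ι) (E : ι → Finset ℕ) : Prop :=
  ∃ K : Finset ℕ, K.card = w ∧ ∀ c ∈ K, ∃ u ∈ A, E u = {c}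

/-- Type star: after one colour `y` is used, two pairs with a common colour remain. -/
def TypeS (A : Finset ι) (E : ι → Finset ℕ) : Prop :=
  ∃ y : ℕ, Star2 (rest A E {y}) E ∧ 1 ≤ deg A E y

/-- A weighted plan: colours given to side `A` and to side `B` in each block, and a bias. -/
structure Pat where
  wt : ℚ
  as : List ℕ
  bs : List ℕ
  p : ℚ

/-- Maximum of a mixture of failure weights over all ways a list of size `e` can meet blocks of
sizes `ns`. -/
def mixMax : List ℕ → List (ℚ × List ℕ × ℚ) → ℕ → ℚ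
  | [], qs, e => (qs.map fun q => q.1 * q.2.2 ^ e).sum
  | n :: ns, qs, e => ((List.range (min n e + 1)).map fun t =>
      mixMax ns (qs.map fun q => (q.1 * rho (n - t) n (q.2.1.headD 0), q.2.1.tail, q.2.2))
        (e - t)).foldr max 0

/-- Check of a mixed certificate. -/
def certOK (k a b : ℕ) (ns : List ℕ) (N j : ℕ) (ps : List Pat) : Bool :=
  ps.all (fun q => decide (0 ≤ q.wt) && decide (0 ≤ q.p) && decide (q.p ≤ 1) &&
    decide (q.as.length = ns.length) && decide (q.bs.length = ns.length)) &&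
  decide ((a : ℚ) * mixMax ns (ps.map fun q => (q.wt, q.as, ySeq q.p N j)) k +
    (b : ℚ) * mixMax ns (ps.map fun q => (q.wt, q.bs, ySeq (1 - q.p) N j)) k <
      (ps.map fun q => q.wt).sum)

/-- The product bound. -/
def Lok (a b : ℕ) (ns : List ℕ) (j m : ℕ) : Bool :=
  decide ((a + b) ^ (max 1 (min j m)) * 2 ^ (ns.length * (max 1 (min j m)) + j) <
    (4 * ns.prod) ^ (max 1 (min j m)) * (max 1 (min j m) + 2) ^ j)

/-- A plan for clusters: weight, colours to side `A` per cluster, bias in twentieths. -/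
def toPat (q : ℕ × List ℕ × ℕ) : Pat :=
  ⟨(q.1 : ℚ), q.2.1, q.2.1.map (2 - ·), (q.2.2 : ℚ) / 20⟩

/-- Search tree over the sizes of the clusters. -/
def tree (k a b : ℕ) (db : List (List ℕ × List (ℕ × List ℕ × ℕ))) :
    ℕ → List ℕ → ℕ → ℕ → Bool
  | 0, _, _, _ => false
  | fuel + 1, ns, j, m =>
    Lok a b ns j m ||
    (match db.lookup ns with
     | some ps => ps.all (fun q => q.2.1.all fun x => decide (x ≤ 2)) &&
        certOK k a b ns (k - ns.length) j (ps.map toPat)
     | none => decide (0 < j) &&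
        (List.range' 1 (min j m)).all fun t => tree k a b db fuel ((t + 2) :: ns) (j - t) t)

omit [DecidableEq ι] in
@[simp] theorem mem_miss {A : Finset ι} {L : ι → Finset ℕ} {x : ℕ} {u : ι} :
    u ∈ miss A L x ↔ u ∈ A ∧ x ∉ L u := mem_filter

omit [DecidableEq ι] in
@[simp] theorem mem_out {S : Finset ℕ} {L : ι → Finset ℕ} {u : ι} {c : ℕ} :
    c ∈ out S L u ↔ c ∈ L u ∧ c ∉ S := mem_sdiff

omit [DecidableEq ι] in
@[simp] theorem mem_rest {A : Finset ι} {E : ι → Finset ℕ} {K : Finset ℕ} {u : ι} :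
    u ∈ rest A E K ↔ u ∈ A ∧ Disjoint (E u) K := mem_filter

omit [DecidableEq ι] in
theorem Pre.mono {k m m' : ℕ} {cs : List (Finset ι × Finset ℕ)} {J I : Finset ι}
    {F : ι → Finset ℕ} (h : Pre k m cs J I F) (hm : m ≤ m') : Pre k m' cs J I F :=
  { h with mx := fun I' h1 R h2 h3 => (h.mx I' h1 R h2 h3).trans hm }

omit [DecidableEq ι] in
theorem Pre.min {k m : ℕ} {cs : List (Finset ι × Finset ℕ)} {J I : Finset ι}
    {F : ι → Finset ℕ} (h : Pre k m cs J I F) : Pre k (min J.card m) cs J I F :=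
  { h with mx := fun I' h1 R h2 h3 => le_min (card_le_card h1) (h.mx I' h1 R h2 h3) }

theorem W_nonneg (e h : ℕ) : 0 ≤ W e h := by
  unfold W; positivity

theorem rho_nonneg (d n a : ℕ) : 0 ≤ rho d n a := by
  unfold rho; positivity

theorem val_nonneg {y : ℚ} (hy : 0 ≤ y) (bs : List (Finset ℕ × ℕ)) (L : Finset ℕ) :
    0 ≤ val y bs L := by
  induction bs generalizing L with
  | nil => exact pow_nonneg hy _
  | cons b bs ih => exact mul_nonneg (rho_nonneg _ _ _) (ih _)

theorem ySeq_nonneg {p : ℚ} {N j : ℕ} (hp0 : 0 ≤ p) (hp1 : p ≤ 1) (hj : j < N) :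
    0 ≤ ySeq p N j := by
  unfold ySeq
  have hN : (0 : ℚ) < N := by exact_mod_cast (Nat.zero_le j).trans_lt hj
  have hj0 : (0 : ℚ) ≤ j := Nat.cast_nonneg j
  have hjN : (j : ℚ) < N := by exact_mod_cast hj
  rw [sub_nonneg, div_le_one hN]
  nlinarith

theorem ySeq_le_one {p : ℚ} {N j : ℕ} (hp1 : p ≤ 1) (hj : j < N) : ySeq p N j ≤ 1 := by
  unfold ySeq
  have hN : (0 : ℚ) < N := by exact_mod_cast (Nat.zero_le j).trans_lt hj
  have hjN : (j : ℚ) < N := by exact_mod_cast hj
  have : 0 ≤ (1 - p) * ((N : ℚ) - j) / N :=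
    div_nonneg (mul_nonneg (by linarith) (by linarith)) hN.le
  linarith

end Pool.Agent.P.MP_a09be5_co
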