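import Pool.Agent.P.MP_a09be5_co.Defs
import Pool.Agent.P.MP_a09be5_co.Setup

namespace Pool.Agent.P.MP_a09be5_co
open Finset

/-- A proper colouring of `KK a b t` in terms of its three parts. -/
theorem Graph_proper {a b t : ℕ} (cA : Fin a → ℕ) (cB : Fin b → ℕ) (cT : Fin t → ℕ)
    (hAB : ∀ i j, cA i ≠ cB j) (hAT : ∀ i s, cA i ≠ cT s) (hBT : ∀ j s, cB j ≠ cT s)
    (hT : Function.Injective cT) (u v : (Fin a ⊕ Fin b) ⊕ Fin t) (h : (KK a b t).Adj u v) :
    Sum.elim (Sum.elim cA cB) cT u ≠ Sum.elim (Sum.elim cA cB) cT v := by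
  rcases u with (u | u) | u <;> rcases v with (v | v) | v
  · exact absurd h (by simp [KK, graphJoin])
  · exact hAB u v
  · exact hAT u v
  · exact (hAB v u).symm
  · exact absurd h (by simp [KK, graphJoin])
  · exact hBT u v
  · exact (hAT v u).symm
  · exact (hBT v u).symm
  · have huv : u ≠ v := by simpa [KK, graphJoin] using h
    exact fun e => huv (hT e)

theorem Graph_parts {a b t : ℕ} (c : (Fin a ⊕ Fin b) ⊕ Fin t → ℕ)
    (hc : ∀ u v, (KK a b t).Adj u v → c u ≠ c v) :
    (∀ i j, c (Sum.inl (Sum.inl i)) ≠ c (Sum.inl (Sum.inr j))) ∧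
    (∀ i s, c (Sum.inl (Sum.inl i)) ≠ c (Sum.inr s)) ∧
    (∀ j s, c (Sum.inl (Sum.inr j)) ≠ c (Sum.inr s)) ∧
    Function.Injective fun s => c (Sum.inr s) := by
  refine ⟨fun i j => hc _ _ (by simp [KK, graphJoin]), fun i s => hc _ _ (by simp [KK, graphJoin]),
    fun j s => hc _ _ (by simp [KK, graphJoin]), fun s s' e => ?_⟩
  by_contra hn
  exact hc _ _ (by simpa [KK, graphJoin] using hn) e

/-- Choosability of `KK a b t` in terms of its three parts. -/
theorem Graph_iff {a b t k : ℕ} : Choosable (KK a b t) k ↔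
    ∀ (LA : Fin a → Finset ℕ) (LB : Fin b → Finset ℕ) (LT : Fin t → Finset ℕ),
      (∀ i, (LA i).card = k) → (∀ j, (LB j).card = k) → (∀ s, (LT s).card = k) →
      ∃ (cA : Fin a → ℕ) (cB : Fin b → ℕ) (cT : Fin t → ℕ),
        (∀ i, cA i ∈ LA i) ∧ (∀ j, cB j ∈ LB j) ∧ (∀ s, cT s ∈ LT s) ∧
        (∀ i j, cA i ≠ cB j) ∧ (∀ i s, cA i ≠ cT s) ∧ (∀ j s, cB j ≠ cT s) ∧
        Function.Injective cT := by
  constructor
  · intro h LA LB LT hA hB hT
    obtain ⟨c, hc1, hc2⟩ := h (Sum.elim (Sum.elim LA LB) LT) (by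
      rintro ((v | v) | v)
      · exact hA v
      · exact hB v
      · exact hT v)
    obtain ⟨h1, h2, h3, h4⟩ := Graph_parts c hc2
    exact ⟨_, _, _, fun i => hc1 (Sum.inl (Sum.inl i)), fun j => hc1 (Sum.inl (Sum.inr j)),
      fun s => hc1 (Sum.inr s), h1, h2, h3, h4⟩
  · intro h L hL
    obtain ⟨cA, cB, cT, h1, h2, h3, h4, h5, h6, h7⟩ := h (fun i => L (Sum.inl (Sum.inl i)))
      (fun j => L (Sum.inl (Sum.inr j))) (fun s => L (Sum.inr s)) (fun _ => hL _) (fun _ => hL _)
      (fun _ => hL _)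
    refine ⟨Sum.elim (Sum.elim cA cB) cT, ?_, Graph_proper cA cB cT h4 h5 h6 h7⟩
    rintro ((v | v) | v)
    · exact h1 v
    · exact h2 v
    · exact h3 v

theorem choosable_of_col {a b t k : ℕ}
    (h : ∀ L : (Fin a ⊕ Fin b) ⊕ Fin t → Finset ℕ, (∀ v, (L v).card = k) →
      Col (univ.image Sum.inr) (univ.image fun i => Sum.inl (Sum.inl i))
        (univ.image fun i => Sum.inl (Sum.inr i)) L L L) : Choosable (KK a b t) k := by
  intro L hL
  obtain ⟨f, hf, hinj, X, hA, hB⟩ := h L hL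
  have hA' : ∀ i : Fin a, ∃ c, (c ∈ L (Sum.inl (Sum.inl i)) ∧ ∀ s : Fin t, c ≠ f (Sum.inr s)) ∧
      c ∈ X := by
    intro i
    obtain ⟨c, hc, hx⟩ := hA (Sum.inl (Sum.inl i)) (mem_image.2 ⟨i, mem_univ _, rfl⟩)
    rw [mem_sdiff] at hc
    refine ⟨c, ⟨hc.1, fun s e => hc.2 ?_⟩, hx⟩
    exact mem_image.2 ⟨Sum.inr s, mem_image.2 ⟨s, mem_univ _, rfl⟩, e.symm⟩
  have hB' : ∀ i : Fin b, ∃ c, (c ∈ L (Sum.inl (Sum.inr i)) ∧ ∀ s : Fin t, c ≠ f (Sum.inr s)) ∧
      c ∉ X := by
    intro i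
    obtain ⟨c, hc, hx⟩ := hB (Sum.inl (Sum.inr i)) (mem_image.2 ⟨i, mem_univ _, rfl⟩)
    rw [mem_sdiff] at hc
    refine ⟨c, ⟨hc.1, fun s e => hc.2 ?_⟩, hx⟩
    exact mem_image.2 ⟨Sum.inr s, mem_image.2 ⟨s, mem_univ _, rfl⟩, e.symm⟩
  choose cA hcA using hA'
  choose cB hcB using hB'
  refine ⟨Sum.elim (Sum.elim cA cB) fun s => f (Sum.inr s), ?_,
    Graph_proper cA cB _ (fun i j e => (hcB j).2 (e ▸ (hcA i).2)) (fun i s => (hcA i).1.2 s)
      (fun j s => (hcB j).1.2 s) ?_⟩
  · rintro ((v | v) | v)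
    · exact (hcA v).1.1
    · exact (hcB v).1.1
    · exact hf _ (mem_image.2 ⟨v, mem_univ _, rfl⟩)
  · intro s s' e
    have := hinj (mem_coe.2 (mem_image.2 ⟨s, mem_univ _, rfl⟩))
      (mem_coe.2 (mem_image.2 ⟨s', mem_univ _, rfl⟩)) e
    exact Sum.inr_injective this

theorem choosable_symm {a b t k : ℕ} (h : Choosable (KK a b t) k) : Choosable (KK b a t) k := by
  rw [Graph_iff] at h ⊢
  intro LA LB LT hA hB hT
  obtain ⟨cA, cB, cT, h1, h2, h3, h4, h5, h6, h7⟩ := h LB LA LT hB hA hT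
  exact ⟨cB, cA, cT, h2, h1, h3, fun i j => (h4 j i).symm, h6, h5, h7⟩

theorem Graph_card1 {t : ℕ} (cT : Fin t → ℕ) (y : ℕ) (hy : ∀ s, y ≠ cT s)
    (hT : Function.Injective cT) : (insert y (univ.image cT)).card = t + 1 := by
  rw [card_insert_of_notMem, card_image_of_injective _ hT]
  · simp
  · intro h
    obtain ⟨s, _, e⟩ := mem_image.1 h
    exact hy s e.symm

theorem Graph_card2 {t : ℕ} (cT : Fin t → ℕ) (x y : ℕ) (hxy : x ≠ y) (hx : ∀ s, x ≠ cT s)
    (hy : ∀ s, y ≠ cT s) (hT : Function.Injective cT) :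
    (insert x (insert y (univ.image cT))).card = t + 2 := by
  rw [card_insert_of_notMem, Graph_card1 cT y hy hT]
  intro h
  rcases mem_insert.1 h with h | h
  · exact hxy h
  · obtain ⟨s, _, e⟩ := mem_image.1 h
    exact hx s e.symm

theorem Graph_lower {a b t k : ℕ} (ha : 1 ≤ a) (hb : 1 ≤ b)
    (c : (Fin a ⊕ Fin b) ⊕ Fin t → ℕ) (hc : ∀ u v, (KK a b t).Adj u v → c u ≠ c v)
    (hk : ∀ v, c v < k) : t + 2 ≤ k := by
  obtain ⟨h1, h2, h3, h4⟩ := Graph_parts c hc
  have h5 := Graph_card2 _ _ _ (h1 ⟨0, ha⟩ ⟨0, hb⟩) (h2 ⟨0, ha⟩) (h3 ⟨0, hb⟩) h4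
  rw [← h5, ← card_range k]
  apply card_le_card
  intro z hz
  rw [mem_range]
  rcases mem_insert.1 hz with rfl | hz
  · exact hk _
  rcases mem_insert.1 hz with rfl | hz
  · exact hk _
  obtain ⟨s, _, rfl⟩ := mem_image.1 hz
  exact hk _

theorem Graph_chi {a b t : ℕ} (ha : 1 ≤ a) (hb : 1 ≤ b) :
    (KK a b t).chromaticNumber = ((t + 2 : ℕ) : ℕ∞) := by
  have h1 : (KK a b t).Colorable (t + 2) := by
    rw [SimpleGraph.colorable_iff_exists_bdd_nat_coloring]
    refine ⟨SimpleGraph.Coloring.mk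
      (Sum.elim (Sum.elim (fun _ => t) (fun _ => t + 1)) fun s => (s : ℕ))
      (fun {u v} h => Graph_proper _ _ _ (fun _ _ => by omega) (fun _ s => by have := s.2; omega)
        (fun _ s => by have := s.2; omega) Fin.val_injective u v h), ?_⟩
    rintro ((v | v) | v)
    · change t < t + 2
      omega
    · change t + 1 < t + 2
      omega
    · change (v : ℕ) < t + 2
      have := v.2
      omega
  have h2 : ¬ (KK a b t).Colorable (t + 1) := by
    rw [SimpleGraph.colorable_iff_exists_bdd_nat_coloring]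
    rintro ⟨C, hC⟩
    have := Graph_lower ha hb C (fun u v h => C.valid h) hC
    omega
  have h3 := (SimpleGraph.chromaticNumber_eq_iff_colorable_not_colorable
    (G := KK a b t) (n := t + 1)).2 ⟨h1, h2⟩
  rw [h3]
  norm_cast

theorem cc_iff {a b t : ℕ} (ha : 1 ≤ a) (hb : 1 ≤ b) :
    ChromaticChoosable (KK a b t) ↔ Choosable (KK a b t) (t + 2) := by
  unfold ChromaticChoosable
  rw [Graph_chi ha hb, Nat.cast_inj]
  unfold listChromaticNumber
  constructor
  · intro h
    have hne : {k | Choosable (KK a b t) k}.Nonempty := by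
      by_contra hn
      rw [Set.not_nonempty_iff_eq_empty] at hn
      rw [hn, Nat.sInf_empty] at h
      omega
    have := Nat.sInf_mem hne
    rw [h] at this
    exact this
  · intro h
    apply IsLeast.csInf_eq
    refine ⟨h, fun k hk => ?_⟩
    obtain ⟨c, hc1, hc2⟩ := hk (fun _ => range k) (fun _ => card_range k)
    exact Graph_lower ha hb c hc2 fun v => mem_range.1 (hc1 v)

theorem Graph_cardA (k w i : ℕ) :
    (if i < k * w then insert (k + i % w) ((range k).erase (i / w)) else range k).card = k := by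
  split_ifs with h
  · have h1 : i / w < k := Nat.div_lt_of_lt_mul (by rwa [mul_comm] at h)
    rw [card_insert_of_notMem, card_erase_of_mem (mem_range.2 h1), card_range]
    · exact Nat.sub_add_cancel (Nat.zero_lt_of_lt h1)
    · simp
  · exact card_range k

theorem Graph_stuck {k w x z c : ℕ} (hx : x < k) (hz : z < w)
    (hc : c ∈ (if x * w + z < k * w then
      insert (k + (x * w + z) % w) ((range k).erase ((x * w + z) / w)) else range k)) :
    c = k + z ∨ (c ≠ x ∧ c < k) := by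
  have h1 : x * w + z < k * w := by
    have : (x + 1) * w ≤ k * w := Nat.mul_le_mul_right _ hx
    rw [add_mul, one_mul] at this
    omega
  have h2 : (x * w + z) % w = z := by
    rw [Nat.mul_add_mod', Nat.mod_eq_of_lt hz]
  have h3 : (x * w + z) / w = x := by
    rw [add_comm, Nat.add_mul_div_right _ _ (by omega), Nat.div_eq_of_lt hz, zero_add]
  rw [if_pos h1, h2, h3] at hc
  simpa using hc

theorem not_choosable_three {a b t w : ℕ} (hw : t + 2 ≤ (b - 1) * w) (ha : (t + 2) * w < a) :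
    ¬ Choosable (KK a b t) (t + 2) := by
  intro h
  rw [Graph_iff] at h
  have hw0 : 0 < w := by
    rcases Nat.eq_zero_or_pos w with rfl | h0
    · simp at hw
    · exact h0
  have hb0 : 0 < b - 1 := by
    rcases Nat.eq_zero_or_pos (b - 1) with h0 | h0
    · rw [h0] at hw
      simp at hw
    · exact h0
  set k := t + 2 with hk
  obtain ⟨cA, cB, cT, h1, h2, h3, h4, h5, h6, h7⟩ := h
    (fun i => if (i : ℕ) < k * w then insert (k + (i : ℕ) % w) ((range k).erase ((i : ℕ) / w))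
      else range k)
    (fun j => if (j : ℕ) < b - 1 then
      (range k).image (fun x => if x / w = (j : ℕ) then k + x % w else x) else range k)
    (fun _ => range k) (fun i => Graph_cardA k w i)
    (fun j => by
      by_cases hj : (j : ℕ) < b - 1
      · simp only [if_pos hj]
        rw [card_image_of_injOn, card_range]
        intro x hx y hy e
        have hx' : x < k := by simpa using hx
        have hy' : y < k := by simpa using hy
        simp only at e
        split_ifs at e with e1 e2 e2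
        · rw [← Nat.div_add_mod x w, ← Nat.div_add_mod y w, e1, e2]
          omega
        · omega
        · omega
        · exact e
      · simp only [if_neg hj]
        exact card_range k)
    (fun _ => card_range k)
  have hx : cA ⟨k * w, ha⟩ < k := by simpa using h1 ⟨k * w, ha⟩
  have hy : cB ⟨b - 1, by omega⟩ < k := by simpa using h2 ⟨b - 1, by omega⟩
  set x := cA ⟨k * w, ha⟩ with hxd
  set y := cB ⟨b - 1, by omega⟩ with hyd
  have hS : insert x (insert y (univ.image cT)) = range k := by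
    apply eq_of_subset_of_card_le
    · intro z hz
      rcases mem_insert.1 hz with rfl | hz
      · exact mem_range.2 hx
      rcases mem_insert.1 hz with rfl | hz
      · exact mem_range.2 hy
      obtain ⟨s, _, rfl⟩ := mem_image.1 hz
      exact h3 s
    · rw [Graph_card2 cT x y (h4 _ _) (h5 _) (h6 _) h7, card_range]
  have hall : ∀ z < k, z = x ∨ z = y ∨ ∃ s, cT s = z := by
    intro z hz
    have : z ∈ insert x (insert y (univ.image cT)) := hS ▸ mem_range.2 hz
    simpa using this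
  have hi : y / w < b - 1 := Nat.div_lt_of_lt_mul (by rw [mul_comm]; omega)
  have hB := h2 ⟨y / w, by omega⟩
  simp only [if_pos hi] at hB
  obtain ⟨z, hz, e⟩ := mem_image.1 hB
  have hz' : z < k := mem_range.1 hz
  split_ifs at e with e1
  · have hr : z % w < w := Nat.mod_lt _ hw0
    have hu : x * w + z % w < a := by
      have : (x + 1) * w ≤ k * w := Nat.mul_le_mul_right _ hx
      rw [add_mul, one_mul] at this
      omega
    rcases Graph_stuck hx hr (h1 ⟨x * w + z % w, hu⟩) with h8 | ⟨h8, h9⟩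
    · exact h4 _ _ (h8.trans e)
    · rcases hall _ h9 with h10 | h10 | ⟨s, h10⟩
      · exact h8 h10
      · exact h4 _ _ h10
      · exact h5 _ _ h10.symm
  · rcases hall z hz' with h10 | h10 | ⟨s, h10⟩
    · exact h4 _ _ (h10.symm.trans e)
    · exact e1 (by rw [h10])
    · exact h6 _ _ (h10.trans e).symm

theorem not_choosable_two {a b t : ℕ} (hb : 2 ≤ b) (ha : (t + 2) ^ 2 ≤ a) :
    ¬ Choosable (KK a b t) (t + 2) := by
  intro h
  rw [Graph_iff] at h
  rw [sq] at ha
  set k := t + 2 with hk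
  obtain ⟨cA, cB, cT, h1, h2, h3, h4, h5, h6, h7⟩ := h
    (fun i => if (i : ℕ) < k * k then insert (k + (i : ℕ) % k) ((range k).erase ((i : ℕ) / k))
      else range k)
    (fun j => if (j : ℕ) = 1 then Ico k (2 * k) else range k)
    (fun _ => range k) (fun i => Graph_cardA k k i)
    (fun j => by
      by_cases hj : (j : ℕ) = 1
      · simp only [if_pos hj]
        rw [Nat.card_Ico]
        omega
      · simp only [if_neg hj]
        exact card_range k)
    (fun _ => card_range k)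
  have hy : cB ⟨0, by omega⟩ < k := by simpa using h2 ⟨0, by omega⟩
  have hv : k ≤ cB ⟨1, by omega⟩ ∧ cB ⟨1, by omega⟩ < 2 * k := by simpa using h2 ⟨1, by omega⟩
  set y := cB ⟨0, by omega⟩ with hyd
  have hsub : insert y (univ.image cT) ⊆ range k := by
    intro z hz
    rcases mem_insert.1 hz with rfl | hz
    · exact mem_range.2 hy
    obtain ⟨s, _, rfl⟩ := mem_image.1 hz
    exact h3 s
  have hone : (range k \ insert y (univ.image cT)).card = 1 := by
    rw [card_sdiff_of_subset hsub, Graph_card1 cT y (h6 _) h7, card_range]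
    omega
  obtain ⟨x, hx⟩ := card_eq_one.1 hone
  have hxk : x < k := by
    have : x ∈ range k \ insert y (univ.image cT) := hx ▸ mem_singleton_self x
    exact mem_range.1 (mem_sdiff.1 this).1
  have hall : ∀ z < k, z = x ∨ z = y ∨ ∃ s, cT s = z := by
    intro z hz
    by_cases hm : z ∈ insert y (univ.image cT)
    · right
      simpa using hm
    · left
      have : z ∈ range k \ insert y (univ.image cT) := mem_sdiff.2 ⟨mem_range.2 hz, hm⟩
      rw [hx] at this
      exact mem_singleton.1 this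
  have hr : cB ⟨1, by omega⟩ - k < k := by omega
  have hu : x * k + (cB ⟨1, by omega⟩ - k) < a := by
    have : (x + 1) * k ≤ k * k := Nat.mul_le_mul_right _ hxk
    rw [add_mul, one_mul] at this
    omega
  rcases Graph_stuck hxk hr (h1 ⟨_, hu⟩) with h8 | ⟨h8, h9⟩
  · exact h4 _ ⟨1, by omega⟩ (h8.trans (by omega))
  · rcases hall _ h9 with h10 | h10 | ⟨s, h10⟩
    · exact h8 h10
    · exact h4 _ _ h10
    · exact h5 _ _ h10.symm

theorem arith_two {M : ℕ} (hM : 2 ≤ M) : sInf {t : ℕ | M < (t + 2) ^ 2} = Nat.sqrt M - 1 := by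
  have h1 : 0 < Nat.sqrt M := Nat.sqrt_pos.2 (by omega)
  apply IsLeast.csInf_eq
  refine ⟨?_, fun t ht => ?_⟩
  · change M < (Nat.sqrt M - 1 + 2) ^ 2
    rw [← Nat.sqrt_lt']
    omega
  · change M < (t + 2) ^ 2 at ht
    rw [← Nat.sqrt_lt'] at ht
    omega

theorem arith_three {M m : ℕ} (hm : 3 ≤ m) (hM : m ≤ M) :
    sInf {t : ℕ | M ≤ (t + 2) * ((t + 2) ⌈/⌉ (m - 1))} =
      max (Nat.sqrt ((M - 1) / (m - 1)) * (m - 1) + 1)
        (M ⌈/⌉ (Nat.sqrt ((M - 1) / (m - 1)) + 1)) - 2 := by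
  obtain ⟨β, rfl⟩ : ∃ β, m = β + 1 := ⟨m - 1, by omega⟩
  rw [Nat.add_sub_cancel]
  have hβ : 0 < β := by omega
  set s := Nat.sqrt ((M - 1) / β) with hs
  have hs1 : 0 < s := Nat.sqrt_pos.2 (Nat.div_pos (by omega) hβ)
  have hlo : s * s * β ≤ M - 1 := (Nat.le_div_iff_mul_le hβ).1 (Nat.sqrt_le _)
  have hhi : M - 1 < (s + 1) * (s + 1) * β :=
    (Nat.div_lt_iff_lt_mul hβ).1 (Nat.lt_succ_sqrt _)
  have hsb : 2 ≤ s * β := le_trans (by omega : 2 ≤ 1 * β) (Nat.mul_le_mul_right _ hs1)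
  apply IsLeast.csInf_eq
  refine ⟨?_, fun t ht => ?_⟩
  · set k := max (s * β + 1) (M ⌈/⌉ (s + 1)) with hk
    have hk1 : s * β + 1 ≤ k := le_max_left _ _
    have hk2 : M ⌈/⌉ (s + 1) ≤ k := le_max_right _ _
    change M ≤ (k - 2 + 2) * ((k - 2 + 2) ⌈/⌉ β)
    rw [show k - 2 + 2 = k by omega]
    have h1 : s + 1 ≤ k ⌈/⌉ β := by
      by_contra hn
      have h2 : k ⌈/⌉ β ≤ s := by omega
      rw [ceilDiv_le_iff_le_mul hβ, mul_comm] at h2
      omega
    rw [ceilDiv_le_iff_le_mul (Nat.succ_pos s)] at hk2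
    calc M ≤ (s + 1) * k := hk2
      _ ≤ (k ⌈/⌉ β) * k := Nat.mul_le_mul_right _ h1
      _ = _ := mul_comm _ _
  · change M ≤ (t + 2) * ((t + 2) ⌈/⌉ β) at ht
    set k := t + 2 with hk
    have h1 : s * β + 1 ≤ k := by
      by_contra hn
      have h2 : k ≤ s * β := by omega
      have h3 : k ⌈/⌉ β ≤ s := by
        rw [ceilDiv_le_iff_le_mul hβ, mul_comm]
        exact h2
      have h4 : k * (k ⌈/⌉ β) ≤ s * β * s := Nat.mul_le_mul h2 h3
      have h5 : s * β * s = s * s * β := by ring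
      omega
    have h2 : M ⌈/⌉ (s + 1) ≤ k := by
      rw [ceilDiv_le_iff_le_mul (Nat.succ_pos s)]
      by_cases h3 : k ⌈/⌉ β ≤ s + 1
      · calc M ≤ k * (k ⌈/⌉ β) := ht
          _ ≤ k * (s + 1) := Nat.mul_le_mul_left _ h3
          _ = _ := mul_comm _ _
      · rw [ceilDiv_le_iff_le_mul hβ] at h3
        have h4 : (s + 1) * (β * (s + 1)) ≤ (s + 1) * k := Nat.mul_le_mul_left _ (by omega)
        have h5 : (s + 1) * (β * (s + 1)) = (s + 1) * (s + 1) * β := by ring
        change M ≤ (s + 1) * k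
        omega
    have h3 := max_le h1 h2
    omega

end Pool.Agent.P.MP_a09be5_co
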