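import Pool.Agent.P.MP_a09be5_co.Blocks
import Pool.Agent.P.MP_a09be5_co.Mix

/-! The case of two clique vertices whose lists share at most one colour. -/

namespace Pool.Agent.P.MP_a09be5_co
open Finset

variable {ι : Type} [DecidableEq ι]

/-- Plans for disjoint lists. -/
def fourA : List Pat :=
  [⟨2, [3, 1], [0, 2], 12 / 20⟩,
   ⟨5, [2, 2], [1, 1], 11 / 20⟩,
   ⟨1, [1, 1], [2, 2], 4 / 20⟩,
   ⟨5, [1, 2], [2, 1], 7 / 20⟩,
   ⟨5, [2, 1], [1, 2], 7 / 20⟩,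
   ⟨1, [0, 3], [3, 0], 7 / 20⟩,
   ⟨1, [3, 0], [0, 3], 7 / 20⟩,
   ⟨2, [1, 3], [2, 0], 12 / 20⟩]

/-- Plans for lists with one common colour. -/
def fourB : List Pat :=
  [⟨15, [0, 1, 2], [1, 1, 0], 9 / 20⟩,
   ⟨1, [0, 1, 3], [0, 1, 0], 15 / 20⟩,
   ⟨1, [0, 2, 2], [0, 0, 1], 14 / 20⟩,
   ⟨8, [1, 2, 0], [0, 0, 2], 9 / 20⟩,
   ⟨1, [0, 0, 2], [1, 2, 0], 5 / 20⟩,
   ⟨3, [1, 1, 0], [0, 1, 2], 5 / 20⟩,
   ⟨1, [0, 3, 1], [0, 0, 1], 15 / 20⟩,
   ⟨15, [0, 2, 1], [1, 0, 1], 9 / 20⟩,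
   ⟨4, [0, 1, 1], [0, 2, 1], 5 / 20⟩,
   ⟨3, [0, 3, 0], [0, 0, 2], 9 / 20⟩,
   ⟨2, [1, 1, 2], [0, 1, 0], 15 / 20⟩,
   ⟨3, [0, 2, 0], [1, 0, 2], 4 / 20⟩,
   ⟨2, [0, 1, 2], [0, 2, 0], 9 / 20⟩,
   ⟨1, [1, 0, 2], [0, 2, 0], 10 / 20⟩,
   ⟨2, [0, 2, 1], [0, 0, 2], 9 / 20⟩,
   ⟨2, [0, 2, 2], [1, 0, 0], 14 / 20⟩,
   ⟨2, [1, 1, 0], [0, 1, 2], 4 / 20⟩,
   ⟨10, [0, 1, 2], [0, 1, 1], 9 / 20⟩,
   ⟨1, [1, 0, 1], [0, 2, 1], 5 / 20⟩,
   ⟨2, [0, 0, 2], [1, 2, 0], 4 / 20⟩,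
   ⟨10, [1, 0, 2], [0, 2, 0], 9 / 20⟩,
   ⟨3, [0, 0, 3], [0, 2, 0], 9 / 20⟩,
   ⟨25, [1, 1, 1], [0, 1, 1], 9 / 20⟩,
   ⟨2, [1, 2, 0], [0, 0, 2], 10 / 20⟩,
   ⟨9, [0, 1, 1], [1, 1, 1], 5 / 20⟩,
   ⟨10, [0, 2, 1], [0, 1, 1], 9 / 20⟩,
   ⟨4, [1, 0, 1], [0, 2, 1], 4 / 20⟩,
   ⟨4, [1, 2, 1], [0, 0, 1], 14 / 20⟩,
   ⟨1, [1, 1, 2], [0, 1, 0], 14 / 20⟩,
   ⟨1, [0, 2, 2], [0, 1, 0], 14 / 20⟩,
   ⟨4, [0, 1, 1], [0, 1, 2], 5 / 20⟩,
   ⟨1, [0, 2, 0], [0, 0, 3], 5 / 20⟩]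

theorem fourA_ok : certOK 4 8 4 [4, 4] 1 0 fourA = true := by decide +kernel

theorem fourB_ok : certOK 4 8 4 [1, 3, 3] 1 0 fourB = true := by decide +kernel

theorem fourA_sum : ∀ q ∈ fourA, List.zipWith (· + ·) q.as q.bs = [3, 3] := by decide +kernel

theorem fourB_sum : ∀ q ∈ fourB, List.zipWith (· + ·) q.as q.bs = [0, 3, 2] ∨
    List.zipWith (· + ·) q.as q.bs = [0, 2, 3] ∨ List.zipWith (· + ·) q.as q.bs = [1, 2, 2] := by
  decide +kernel

theorem four_left {Z R : Finset ℕ} (h : (Z ∩ R).card < R.card) : ∃ c ∈ R, c ∉ Z := by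
  by_contra hn
  push Not at hn
  have : R ⊆ Z ∩ R := fun c hc => mem_inter.2 ⟨hn c hc, hc⟩
  have := card_le_card this
  omega

theorem col_pair {s1 s2 : ι} (hne : s1 ≠ s2) {A B : Finset ι} {F E H : ι → Finset ℕ} {c1 c2 : ℕ}
    (h1 : c1 ∈ F s1) (h2 : c2 ∈ F s2) (hc : c1 ≠ c2) {g : ι → ℕ}
    (h : Split A B (fun u => E u \ ({c1, c2} ∪ (∅ : Finset ι).image g))
      (fun v => H v \ ({c1, c2} ∪ (∅ : Finset ι).image g))) : Col {s1, s2} A B F E H := by
  have himg : ({s1, s2} : Finset ι).image (fun s => if s = s1 then c1 else c2) = {c1, c2} := by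
    simp [hne.symm]
  refine ⟨fun s => if s = s1 then c1 else c2, ?_, ?_, ?_⟩
  · intro s hs
    simp only [mem_insert, mem_singleton] at hs
    rcases hs with rfl | rfl
    · simpa using h1
    · simpa [hne.symm] using h2
  · intro s hs s' hs' he
    simp only [coe_insert, coe_singleton, Set.mem_insert_iff, Set.mem_singleton_iff] at hs hs'
    rcases hs with rfl | rfl <;> rcases hs' with rfl | rfl
    · rfl
    · simp [hne.symm, hc] at he
    · simp [hne.symm, hc.symm] at he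
    · rfl
  · rw [himg]
    simpa using h

theorem col_four {s1 s2 : ι} (hne : s1 ≠ s2) {A B : Finset ι} {F E H : ι → Finset ℕ}
    (h1 : (F s1).card = 4) (h2 : (F s2).card = 4) (h : (F s1 ∩ F s2).card ≤ 1)
    (hE : ∀ u ∈ A, (E u).card = 4) (hH : ∀ v ∈ B, (H v).card = 4)
    (hA : A.card ≤ 8) (hB : B.card ≤ 4) : Col {s1, s2} A B F E H := by
  rcases Nat.lt_or_ge (F s1 ∩ F s2).card 1 with h0 | h0
  · have hd : Disjoint (F s1) (F s2) := by
      rw [disjoint_iff_inter_eq_empty, ← card_eq_zero]; omega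
    obtain ⟨q, hq, hp0, hp1, hla, hlb, hlt⟩ := cert_pick (k := 4) (a := 8) (b := 4) (N := 1) (j := 0)
      (ps := fourA) [F s1, F s2] (by norm_num) (by simpa [h1, h2] using fourA_ok) hA hB hE hH
    have hs := fourA_sum q hq
    obtain ⟨a1, a2, ha⟩ := List.length_eq_two.1 hla
    obtain ⟨b1, b2, hb⟩ := List.length_eq_two.1 hlb
    rw [ha, hb] at hs hlt
    simp only [List.zipWith_cons_cons, List.zipWith_nil_right, List.cons.injEq, and_true] at hs
    obtain ⟨Z, g, hZ, -, -, hT⟩ := additive_core [(F s1, a1, b1), (F s2, a2, b2)] (by simpa using hd)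
      (by simp [h1, h2, hs.1, hs.2]) (J := ∅) (A := A) (B := B) (F := F) (E := E) (H := H) (N := 1)
      hp0 hp1 (by simp) (by simp) (by simpa using hlt)
    obtain ⟨c1, hc1, hz1⟩ := four_left (Z := Z) (R := F s1) (by
      have := hZ (F s1, a1, b1) (by simp); simp only at this; omega)
    obtain ⟨c2, hc2, hz2⟩ := four_left (Z := Z) (R := F s2) (by
      have := hZ (F s2, a2, b2) (by simp); simp only at this; omega)
    refine col_pair hne hc1 hc2 (fun e => disjoint_left.1 hd hc1 (e ▸ hc2)) (hT _ ?_ ?_)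
    · intro c hc
      simp only [mem_insert, mem_singleton] at hc
      rcases hc with rfl | rfl <;> simp [hc1, hc2]
    · simp [hz1, hz2]
  · obtain ⟨c, hc⟩ := card_eq_one.1 (le_antisymm h h0)
    have hc1 : c ∈ F s1 := (mem_inter.1 (hc ▸ mem_singleton_self c)).1
    have hc2 : c ∈ F s2 := (mem_inter.1 (hc ▸ mem_singleton_self c)).2
    have hP : ((F s1).erase c).card = 3 := by rw [card_erase_of_mem hc1, h1]
    have hQ : ((F s2).erase c).card = 3 := by rw [card_erase_of_mem hc2, h2]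
    have hd : Disjoint ((F s1).erase c) ((F s2).erase c) := by
      rw [disjoint_left]
      intro x hx hx'
      have : x ∈ F s1 ∩ F s2 := mem_inter.2 ⟨mem_of_mem_erase hx, mem_of_mem_erase hx'⟩
      rw [hc, mem_singleton] at this
      exact ne_of_mem_erase hx this
    obtain ⟨q, hq, hp0, hp1, hla, hlb, hlt⟩ := cert_pick (k := 4) (a := 8) (b := 4) (N := 1) (j := 0)
      (ps := fourB) [{c}, (F s1).erase c, (F s2).erase c] (by norm_num)
      (by simpa [hP, hQ] using fourB_ok) hA hB hE hH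
    have hs := fourB_sum q hq
    obtain ⟨a0, a1, a2, ha⟩ := List.length_eq_three.1 hla
    obtain ⟨b0, b1, b2, hb⟩ := List.length_eq_three.1 hlb
    rw [ha, hb] at hs hlt
    simp only [List.zipWith_cons_cons, List.zipWith_nil_right, List.cons.injEq, and_true] at hs
    obtain ⟨Z, g, hZ, -, -, hT⟩ := additive_core
      [({c}, a0, b0), ((F s1).erase c, a1, b1), ((F s2).erase c, a2, b2)] (by simpa using hd)
      (by simp only [List.mem_cons, List.not_mem_nil, or_false, forall_eq_or_imp, forall_eq,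
            card_singleton, hP, hQ]; omega)
      (J := ∅) (A := A) (B := B) (F := F) (E := E) (H := H) (N := 1)
      hp0 hp1 (by simp) (by simp) (by simpa using hlt)
    have z0 := hZ ({c}, a0, b0) (by simp)
    have z1 := hZ ((F s1).erase c, a1, b1) (by simp)
    have z2 := hZ ((F s2).erase c, a2, b2) (by simp)
    simp only at z0 z1 z2
    have key : ∃ c1 ∈ F s1, ∃ c2 ∈ F s2, c1 ≠ c2 ∧ c1 ∉ Z ∧ c2 ∉ Z := by
      rcases hs with hs | hs | hs
      · obtain ⟨x, hx, hxz⟩ := four_left (Z := Z) (R := {c}) (by rw [card_singleton]; omega)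
        obtain ⟨y, hy, hyz⟩ := four_left (Z := Z) (R := (F s2).erase c) (by omega)
        rw [mem_singleton] at hx
        subst hx
        exact ⟨x, hc1, y, mem_of_mem_erase hy, (ne_of_mem_erase hy).symm, hxz, hyz⟩
      · obtain ⟨x, hx, hxz⟩ := four_left (Z := Z) (R := {c}) (by rw [card_singleton]; omega)
        obtain ⟨y, hy, hyz⟩ := four_left (Z := Z) (R := (F s1).erase c) (by omega)
        rw [mem_singleton] at hx
        subst hx
        exact ⟨y, mem_of_mem_erase hy, x, hc2, ne_of_mem_erase hy, hyz, hxz⟩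
      · obtain ⟨x, hx, hxz⟩ := four_left (Z := Z) (R := (F s1).erase c) (by omega)
        obtain ⟨y, hy, hyz⟩ := four_left (Z := Z) (R := (F s2).erase c) (by omega)
        exact ⟨x, mem_of_mem_erase hx, y, mem_of_mem_erase hy,
          fun e => disjoint_left.1 hd hx (e ▸ hy), hxz, hyz⟩
    obtain ⟨c1, m1, c2, m2, hcc, hz1, hz2⟩ := key
    refine col_pair hne m1 m2 hcc (hT _ ?_ ?_)
    · intro x hx
      simp only [mem_insert, mem_singleton] at hx
      by_cases hxc : x = c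
      · simp [hxc]
      · rcases hx with rfl | rfl <;> simp [hxc, m1, m2]
    · simp [hz1, hz2]

end Pool.Agent.P.MP_a09be5_co
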