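import Pool.Agent.P.MP_a09be5_co.Setup

namespace Pool.Agent.P.MP_a09be5_co
open Finset

variable {ι : Type} [DecidableEq ι]

/-- `W` consists of a system of distinct representatives of `J`, one more colour of `P` and one
more colour of `Q`. -/
def Two_SDR (J : Finset ι) (F : ι → Finset ℕ) (P Q W : Finset ℕ) : Prop :=
  ∃ (g : ι → ℕ) (p q : ℕ), (∀ s ∈ J, g s ∈ F s) ∧ Set.InjOn g J ∧ p ∈ P ∧ q ∈ Q ∧
    p ∉ J.image g ∧ q ∉ J.image g ∧ W = insert p (insert q (J.image g))

/-- There are at least `n` such sets. -/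
def Two_Many (n : ℕ) (J : Finset ι) (F : ι → Finset ℕ) (P Q : Finset ℕ) : Prop :=
  ∃ T : Finset (Finset ℕ), n ≤ T.card ∧ ∀ W ∈ T, Two_SDR J F P Q W

omit [DecidableEq ι] in
theorem Two_symm {J : Finset ι} {F : ι → Finset ℕ} {P Q W : Finset ℕ} (h : Two_SDR J F P Q W) :
    Two_SDR J F Q P W := by
  obtain ⟨g, p, q, h1, h2, h3, h4, h5, h6, h7⟩ := h
  exact ⟨g, q, p, h1, h2, h4, h3, h6, h5, by rw [h7, insert_comm]⟩

omit [DecidableEq ι] in
theorem Two_Many_symm {n : ℕ} {J : Finset ι} {F : ι → Finset ℕ} {P Q : Finset ℕ}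
    (h : Two_Many n J F P Q) : Two_Many n J F Q P := by
  obtain ⟨T, h1, h2⟩ := h
  exact ⟨T, h1, fun W hW => Two_symm (h2 W hW)⟩

omit [DecidableEq ι] in
theorem Two_notMem {J : Finset ι} {F : ι → Finset ℕ} {P Q W : Finset ℕ} {c : ℕ}
    (h : Two_SDR J (fun s => (F s).erase c) (P.erase c) (Q.erase c) W) : c ∉ W := by
  obtain ⟨g, p, q, h1, -, h3, h4, -, -, h7⟩ := h
  rw [h7]
  simp only [mem_insert, mem_image, not_or, not_exists, not_and]
  refine ⟨fun h => (mem_erase.1 h3).1 h.symm, fun h => (mem_erase.1 h4).1 h.symm,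
    fun s hs h => (mem_erase.1 (h1 s hs)).1 h⟩

omit [DecidableEq ι] in
theorem Two_mono {J : Finset ι} {F : ι → Finset ℕ} {P Q W : Finset ℕ} {c : ℕ}
    (h : Two_SDR J (fun s => (F s).erase c) (P.erase c) (Q.erase c) W) : Two_SDR J F P Q W := by
  obtain ⟨g, p, q, h1, h2, h3, h4, h5, h6, h7⟩ := h
  exact ⟨g, p, q, fun s hs => mem_of_mem_erase (h1 s hs), h2, mem_of_mem_erase h3,
    mem_of_mem_erase h4, h5, h6, h7⟩

theorem Two_image_update {J : Finset ι} {s : ι} (hs : s ∉ J) (g : ι → ℕ) (c : ℕ) :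
    (insert s J).image (Function.update g s c) = insert c (J.image g) := by
  rw [image_insert, Function.update_self]
  congr 1
  apply image_congr
  intro t ht
  exact Function.update_of_ne (fun h : t = s => hs (h ▸ ht)) _ _

theorem Two_inj_update {J : Finset ι} {s : ι} (hs : s ∉ J) {g : ι → ℕ} {c : ℕ}
    (hg : Set.InjOn g J) (hc : c ∉ J.image g) :
    Set.InjOn (Function.update g s c) (insert s J : Finset ι) := by
  intro a ha b hb hab
  rw [coe_insert, Set.mem_insert_iff] at ha hb
  have key : ∀ t ∈ (J : Set ι), Function.update g s c t = g t := fun t ht =>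
    Function.update_of_ne (fun h : t = s => hs (h ▸ ht)) _ _
  rcases ha with rfl | ha <;> rcases hb with rfl | hb
  · rfl
  · rw [Function.update_self, key b hb] at hab
    exact absurd (mem_image.2 ⟨b, hb, hab.symm⟩) hc
  · rw [Function.update_self, key a ha] at hab
    exact absurd (mem_image.2 ⟨a, ha, hab⟩) hc
  · rw [key a ha, key b hb] at hab
    exact hg ha hb hab

theorem Two_lift {J : Finset ι} {F : ι → Finset ℕ} {P Q W : Finset ℕ} {c : ℕ} {s : ι}
    (hs : s ∉ J) (hc : c ∈ F s)
    (h : Two_SDR J (fun s => (F s).erase c) (P.erase c) (Q.erase c) W) :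
    Two_SDR (insert s J) F P Q (insert c W) := by
  obtain ⟨g, p, q, h1, h2, h3, h4, h5, h6, h7⟩ := h
  have hcJ : c ∉ J.image g := by
    intro h
    obtain ⟨t, ht, h⟩ := mem_image.1 h
    exact (mem_erase.1 (h1 t ht)).1 h
  refine ⟨Function.update g s c, p, q, ?_, Two_inj_update hs h2 hcJ, mem_of_mem_erase h3,
    mem_of_mem_erase h4, ?_, ?_, ?_⟩
  · intro t ht
    rcases mem_insert.1 ht with rfl | ht
    · rw [Function.update_self]; exact hc
    · rw [Function.update_of_ne (fun h : t = s => hs (h ▸ ht))]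
      exact mem_of_mem_erase (h1 t ht)
  · rw [Two_image_update hs, mem_insert, not_or]
    exact ⟨(mem_erase.1 h3).1, h5⟩
  · rw [Two_image_update hs, mem_insert, not_or]
    exact ⟨(mem_erase.1 h4).1, h6⟩
  · rw [Two_image_update hs, h7]
    ext x
    simp only [mem_insert]
    tauto

/-- Both families together. -/
theorem Two_step {m n : ℕ} {J : Finset ι} {F : ι → Finset ℕ} {P Q : Finset ℕ} {c : ℕ} {s : ι}
    (hs : s ∉ J) (hc : c ∈ F s)
    (h1 : Two_Many m J (fun s => (F s).erase c) (P.erase c) (Q.erase c))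
    (h2 : Two_Many n (insert s J) (fun s => (F s).erase c) (P.erase c) (Q.erase c)) :
    Two_Many (m + n) (insert s J) F P Q := by
  obtain ⟨T1, a1, b1⟩ := h1
  obtain ⟨T2, a2, b2⟩ := h2
  have hinj : Set.InjOn (fun W : Finset ℕ => insert c W) T1 := by
    intro W hW W' hW' h
    have e1 := erase_insert (Two_notMem (b1 W hW))
    have e2 := erase_insert (Two_notMem (b1 W' hW'))
    have h' : insert c W = insert c W' := h
    rw [← e1, ← e2, h']
  refine ⟨T1.image (fun W => insert c W) ∪ T2, ?_, ?_⟩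
  · rw [card_union_of_disjoint, card_image_of_injOn hinj]
    · omega
    · rw [disjoint_left]
      intro W hW hW2
      obtain ⟨W', -, rfl⟩ := mem_image.1 hW
      exact Two_notMem (b2 _ hW2) (mem_insert_self _ _)
  · intro W hW
    rcases mem_union.1 hW with hW | hW
    · obtain ⟨W', hW', rfl⟩ := mem_image.1 hW
      exact Two_lift hs hc (b1 W' hW')
    · exact Two_mono (b2 W hW)

omit [DecidableEq ι] in
theorem Two_zero (J : Finset ι) (F : ι → Finset ℕ) (P Q : Finset ℕ) : Two_Many 0 J F P Q :=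
  ⟨∅, Nat.zero_le _, fun W hW => absurd hW (notMem_empty W)⟩

theorem Two_greedy (J : Finset ι) (F : ι → Finset ℕ) (hF : ∀ s ∈ J, J.card ≤ (F s).card) :
    ∃ g : ι → ℕ, (∀ s ∈ J, g s ∈ F s) ∧ Set.InjOn g J := by
  induction J using Finset.induction_on with
  | empty => exact ⟨fun _ => 0, by simp, by simp⟩
  | insert s J hs ih =>
    rw [card_insert_of_notMem hs] at hF
    obtain ⟨g, h1, h2⟩ := ih fun t ht => by
      have := hF t (mem_insert_of_mem ht); omega
    have hlt : (J.image g).card < (F s).card := by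
      have := hF s (mem_insert_self _ _)
      have := card_image_le (s := J) (f := g)
      omega
    obtain ⟨c, hc, hcJ⟩ := exists_mem_notMem_of_card_lt_card hlt
    refine ⟨Function.update g s c, ?_, Two_inj_update hs h2 hcJ⟩
    intro t ht
    rcases mem_insert.1 ht with rfl | ht
    · rw [Function.update_self]; exact hc
    · rw [Function.update_of_ne (fun h : t = s => hs (h ▸ ht))]
      exact h1 t ht

theorem Two_one (J : Finset ι) (F : ι → Finset ℕ) (P Q : Finset ℕ)
    (hF : ∀ s ∈ J, J.card ≤ (F s).card) (hP : J.card + 1 ≤ P.card) (hQ : J.card + 1 ≤ Q.card) :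
    Two_Many 1 J F P Q := by
  obtain ⟨g, h1, h2⟩ := Two_greedy J F hF
  have hle := card_image_le (s := J) (f := g)
  obtain ⟨p, hp, hpJ⟩ := exists_mem_notMem_of_card_lt_card (s := J.image g) (t := P) (by omega)
  obtain ⟨q, hq, hqJ⟩ := exists_mem_notMem_of_card_lt_card (s := J.image g) (t := Q) (by omega)
  refine ⟨{insert p (insert q (J.image g))}, by simp, fun W hW => ?_⟩
  exact ⟨g, p, q, h1, h2, hp, hq, hpJ, hqJ, mem_singleton.1 hW⟩

omit [DecidableEq ι] in
theorem Two_base (F : ι → Finset ℕ) (P Q : Finset ℕ) (hd : Disjoint P Q) :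
    Two_Many (P.card * Q.card) (∅ : Finset ι) F P Q := by
  refine ⟨(P ×ˢ Q).image fun x => insert x.1 (insert x.2 ∅), ?_, ?_⟩
  · rw [card_image_of_injOn, card_product]
    rintro ⟨p, q⟩ hx ⟨p', q'⟩ hy h
    simp only [coe_product, Set.mem_prod, mem_coe] at hx hy
    have h' : (insert p (insert q ∅) : Finset ℕ) = insert p' (insert q' ∅) := h
    have e1 : p ∈ (insert p' (insert q' ∅) : Finset ℕ) := h' ▸ mem_insert_self _ _
    have e2 : q ∈ (insert p' (insert q' ∅) : Finset ℕ) :=
      h' ▸ mem_insert_of_mem (mem_insert_self _ _)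
    simp only [mem_insert, notMem_empty, or_false] at e1 e2
    have n1 : p ≠ q' := fun e => disjoint_left.1 hd hx.1 (e ▸ hy.2)
    have n2 : q ≠ p' := fun e => disjoint_left.1 hd hy.1 (e ▸ hx.2)
    rw [Prod.mk.injEq]
    tauto
  · intro W hW
    obtain ⟨⟨p, q⟩, hx, rfl⟩ := mem_image.1 hW
    rw [mem_product] at hx
    exact ⟨fun _ => 0, p, q, by simp, by simp, hx.1, hx.2, by simp, by simp, by simp⟩

omit [DecidableEq ι] in
theorem Two_Many_le {m n : ℕ} {J : Finset ι} {F : ι → Finset ℕ} {P Q : Finset ℕ} (h : m ≤ n)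
    (hn : Two_Many n J F P Q) : Two_Many m J F P Q := by
  obtain ⟨T, h1, h2⟩ := hn
  exact ⟨T, h.trans h1, h2⟩

theorem Two_aux (J : Finset ι) : ∀ (F : ι → Finset ℕ) (P Q : Finset ℕ), Disjoint P Q →
    (∀ s ∈ J, J.card + 1 ≤ (F s).card) → J.card + 1 ≤ P.card → J.card + 2 ≤ Q.card →
    Two_Many Q.card J F P Q := by
  induction J using Finset.induction_on with
  | empty =>
    intro F P Q hd _ hP _
    refine Two_Many_le ?_ (Two_base F P Q hd)
    rw [card_empty] at hP
    exact Nat.le_mul_of_pos_left _ (by omega)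
  | insert s J hs ih =>
    intro F P Q hd hF hP hQ
    have hcard := card_insert_of_notMem hs
    rw [hcard] at hF hP hQ
    have hpos : 0 < (F s).card := by
      have := hF s (mem_insert_self _ _); omega
    have hd' : ∀ c, Disjoint (P.erase c) (Q.erase c) := fun c =>
      hd.mono (erase_subset _ _) (erase_subset _ _)
    have hF' : ∀ c, ∀ t ∈ insert s J, J.card + 1 ≤ ((F t).erase c).card := fun c t ht => by
      have := hF t ht
      have := pred_card_le_card_erase (s := F t) (a := c)
      omega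
    have hP' : ∀ c, J.card + 1 ≤ (P.erase c).card := fun c => by
      have := pred_card_le_card_erase (s := P) (a := c)
      omega
    have hQ' : ∀ c, J.card + 2 ≤ (Q.erase c).card := fun c => by
      have := pred_card_le_card_erase (s := Q) (a := c)
      omega
    obtain ⟨c, hc⟩ := card_pos.1 hpos
    have h1 := ih (fun t => (F t).erase c) (P.erase c) (Q.erase c) (hd' c)
      (fun t ht => hF' c t (mem_insert_of_mem ht)) (hP' c) (hQ' c)
    by_cases hcQ : c ∈ Q
    · have hcP : c ∉ P := fun h => disjoint_left.1 hd h hcQ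
      have h2 := Two_one (insert s J) (fun t => (F t).erase c) (P.erase c) (Q.erase c)
        (fun t ht => by rw [hcard]; exact hF' c t ht)
        (by rw [hcard, erase_eq_of_notMem hcP]; exact hP) (by rw [hcard]; exact hQ' c)
      refine Two_Many_le ?_ (Two_step hs hc h1 h2)
      rw [card_erase_of_mem hcQ]; omega
    · refine Two_Many_le ?_ (Two_step hs hc h1 (Two_zero _ _ _ _))
      rw [erase_eq_of_notMem hcQ]; omega

theorem Two_main (J : Finset ι) : ∀ (F : ι → Finset ℕ) (P Q : Finset ℕ), Disjoint P Q →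
    (∀ s ∈ J, J.card + 2 ≤ (F s).card) → J.card + 2 ≤ P.card → J.card + 2 ≤ Q.card →
    Two_Many (P.card * Q.card) J F P Q := by
  induction J using Finset.induction_on with
  | empty =>
    intro F P Q hd _ _ _
    exact Two_base F P Q hd
  | insert s J hs ih =>
    intro F P Q hd hF hP hQ
    have hcard := card_insert_of_notMem hs
    rw [hcard] at hF hP hQ
    have hpos : 0 < (F s).card := by
      have := hF s (mem_insert_self _ _); omega
    have hd' : ∀ c, Disjoint (P.erase c) (Q.erase c) := fun c =>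
      hd.mono (erase_subset _ _) (erase_subset _ _)
    have hF' : ∀ c, ∀ t ∈ insert s J, J.card + 2 ≤ ((F t).erase c).card := fun c t ht => by
      have := hF t ht
      have := pred_card_le_card_erase (s := F t) (a := c)
      omega
    have hP' : ∀ c, J.card + 2 ≤ (P.erase c).card := fun c => by
      have := pred_card_le_card_erase (s := P) (a := c)
      omega
    have hQ' : ∀ c, J.card + 2 ≤ (Q.erase c).card := fun c => by
      have := pred_card_le_card_erase (s := Q) (a := c)
      omega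
    obtain ⟨c, hc⟩ := card_pos.1 hpos
    have h1 := ih (fun t => (F t).erase c) (P.erase c) (Q.erase c) (hd' c)
      (fun t ht => hF' c t (mem_insert_of_mem ht)) (hP' c) (hQ' c)
    by_cases hcQ : c ∈ Q
    · have hcP : c ∉ P := fun h => disjoint_left.1 hd h hcQ
      have h2 := Two_Many_symm (Two_aux (insert s J) (fun t => (F t).erase c) (Q.erase c)
        (P.erase c) (hd' c).symm (fun t ht => by rw [hcard]; exact hF' c t ht)
        (by rw [hcard]; exact hQ' c) (by rw [hcard, erase_eq_of_notMem hcP]; exact hP))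
      refine Two_Many_le ?_ (Two_step hs hc h1 h2)
      rw [card_erase_of_mem hcQ, erase_eq_of_notMem hcP]
      obtain ⟨b, hb⟩ : ∃ b, Q.card = b + 1 := ⟨Q.card - 1, by omega⟩
      rw [hb, Nat.add_sub_cancel, Nat.mul_succ]
    · by_cases hcP : c ∈ P
      · have h2 := Two_aux (insert s J) (fun t => (F t).erase c) (P.erase c)
          (Q.erase c) (hd' c) (fun t ht => by rw [hcard]; exact hF' c t ht)
          (by rw [hcard]; exact hP' c) (by rw [hcard, erase_eq_of_notMem hcQ]; exact hQ)
        refine Two_Many_le ?_ (Two_step hs hc h1 h2)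
        rw [card_erase_of_mem hcP, erase_eq_of_notMem hcQ]
        obtain ⟨b, hb⟩ : ∃ b, P.card = b + 1 := ⟨P.card - 1, by omega⟩
        rw [hb, Nat.add_sub_cancel, Nat.succ_mul]
      · refine Two_Many_le ?_ (Two_step hs hc h1 (Two_zero _ _ _ _))
        rw [erase_eq_of_notMem hcQ, erase_eq_of_notMem hcP]; omega

/- SKETCH.  B = {v1,v2}, P = H v1, Q = H v2.  If c ∈ P ∩ Q: colour I greedily avoiding c (lists of size
≥ k-1 > |I|); every u has a colour outside the k-1 used ones; X = complement of {c}.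
Let P, Q be disjoint.  Call W an SDR-set of (J,F,P,Q) if W = insert p (insert q (J.image g)) with g
injective on J, g s ∈ F s, p ∈ P, q ∈ Q, p, q ∉ J.image g.  With j = |J|, α = |P|, β = |Q|:
 one(j):  |F s| ≥ j, α ≥ j+1, β ≥ j+1  ⇒ an SDR-set exists (greedy);
 aux(j):  |F s| ≥ j+1, α ≥ j+1, β ≥ j+2  ⇒ at least β SDR-sets;
 main(j): |F s| ≥ j+2, α ≥ j+2, β ≥ j+2  ⇒ at least α β SDR-sets.
Induction on J = insert s J'.  For c ∈ F s, SDR-sets W' of (J', F erase c, P erase c, Q erase c) give
SDR-sets insert c W' containing c (injective, c ∉ W'); SDR-sets of (J, F erase c, P erase c, Q erase c)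
are SDR-sets not containing c.  aux: if c ∈ F s \ Q exists the first family has ≥ β members (aux);
else c ∈ Q: ≥ β - 1 (aux) plus ≥ 1 (one).  main: c ∉ P ∪ Q: ≥ α β; c ∈ P: ≥ (α-1) β (main) plus ≥ β (aux);
c ∈ Q symmetric.  There are k^2 > |A| SDR-sets, of size k, so some W differs from all E u; then every
E u has a colour outside W; X = complement of {p,q}. -/
theorem col_two {k : ℕ} {I A B : Finset ι} {F E H : ι → Finset ℕ} (hI : I.card + 2 = k)
    (hF : ∀ s ∈ I, (F s).card = k) (hE : ∀ u ∈ A, (E u).card = k) (hH : ∀ v ∈ B, (H v).card = k)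
    (hB : B.card = 2) (hA : A.card < k ^ 2) : Col I A B F E H := by
  obtain ⟨v1, v2, -, hB'⟩ := card_eq_two.1 hB
  have hv1 : v1 ∈ B := by rw [hB']; simp
  have hv2 : v2 ∈ B := by rw [hB']; simp
  by_cases hd : Disjoint (H v1) (H v2)
  · obtain ⟨T, hT, hW⟩ := Two_main I F (H v1) (H v2) hd (fun s hs => by rw [hF s hs, hI])
      (by rw [hH v1 hv1, hI]) (by rw [hH v2 hv2, hI])
    rw [hH v1 hv1, hH v2 hv2] at hT
    have hlt : (A.image E).card < T.card := by
      have := card_image_le (s := A) (f := E)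
      rw [pow_two] at hA
      omega
    obtain ⟨W, hWT, hWA⟩ := exists_mem_notMem_of_card_lt_card hlt
    obtain ⟨g, p, q, h1, h2, h3, h4, h5, h6, h7⟩ := hW W hWT
    have hWk : W.card ≤ k := by
      have a1 := card_insert_le p (insert q (I.image g))
      have a2 := card_insert_le q (I.image g)
      have a3 := card_image_le (s := I) (f := g)
      rw [h7]; omega
    refine ⟨g, h1, h2, {x | x ≠ p ∧ x ≠ q}, fun u hu => ?_, fun v hv => ?_⟩
    · have hns : ¬ E u ⊆ W := by
        intro hsub
        have := eq_of_subset_of_card_le hsub (by rw [hE u hu]; exact hWk)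
        exact hWA (mem_image.2 ⟨u, hu, this⟩)
      obtain ⟨c, hc, hcW⟩ := not_subset.1 hns
      rw [h7, mem_insert, mem_insert, not_or, not_or] at hcW
      exact ⟨c, mem_sdiff.2 ⟨hc, hcW.2.2⟩, hcW.1, hcW.2.1⟩
    · rw [hB', mem_insert, mem_singleton] at hv
      rcases hv with rfl | rfl
      · exact ⟨p, mem_sdiff.2 ⟨h3, h5⟩, fun h => h.1 rfl⟩
      · exact ⟨q, mem_sdiff.2 ⟨h4, h6⟩, fun h => h.2 rfl⟩
  · obtain ⟨c, hc1, hc2⟩ := not_disjoint_iff.1 hd
    obtain ⟨g, h1, h2⟩ := Two_greedy I (fun s => (F s).erase c) fun s hs => by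
      have := hF s hs
      have := pred_card_le_card_erase (s := F s) (a := c)
      omega
    have hcI : c ∉ I.image g := by
      intro h
      obtain ⟨t, ht, h⟩ := mem_image.1 h
      exact (mem_erase.1 (h1 t ht)).1 h
    refine ⟨g, fun s hs => mem_of_mem_erase (h1 s hs), h2, {x | x ≠ c}, fun u hu => ?_,
      fun v hv => ?_⟩
    · have hlt : (insert c (I.image g)).card < (E u).card := by
        have a2 := card_insert_le c (I.image g)
        have a3 := card_image_le (s := I) (f := g)
        rw [hE u hu]; omega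
      obtain ⟨x, hx, hxW⟩ := exists_mem_notMem_of_card_lt_card hlt
      rw [mem_insert, not_or] at hxW
      exact ⟨x, mem_sdiff.2 ⟨hx, hxW.2⟩, hxW.1⟩
    · rw [hB', mem_insert, mem_singleton] at hv
      rcases hv with rfl | rfl
      · exact ⟨c, mem_sdiff.2 ⟨hc1, hcI⟩, fun h => h rfl⟩
      · exact ⟨c, mem_sdiff.2 ⟨hc2, hcI⟩, fun h => h rfl⟩

end Pool.Agent.P.MP_a09be5_co
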