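import Pool.Agent.P.MP_a09be5_co.Upper
import Pool.Agent.P.MP_a09be5_co.Two
import Pool.Agent.P.MP_a09be5_co.Graph

/-! The criterion for `K_{a,b} + K_t`. -/

namespace Pool.Agent.P.MP_a09be5_co
open Finset

theorem card_parts (a b t : ℕ) :
    (univ.image (Sum.inr : Fin t → (Fin a ⊕ Fin b) ⊕ Fin t)).card = t ∧
    (univ.image fun i : Fin a => (Sum.inl (Sum.inl i) : (Fin a ⊕ Fin b) ⊕ Fin t)).card = a ∧
    (univ.image fun i : Fin b => (Sum.inl (Sum.inr i) : (Fin a ⊕ Fin b) ⊕ Fin t)).card = b := by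
  refine ⟨?_, ?_, ?_⟩
  · rw [card_image_of_injective _ Sum.inr_injective]; simp
  · rw [card_image_of_injective _ (fun i j h => by simpa using h)]; simp
  · rw [card_image_of_injective _ (fun i j h => by simpa using h)]; simp

theorem choosable_two_iff {a t : ℕ} : Choosable (KK a 2 t) (t + 2) ↔ a < (t + 2) ^ 2 := by
  constructor
  · intro h
    by_contra hn
    exact not_choosable_two le_rfl (by omega) h
  · intro h
    obtain ⟨h1, h2, h3⟩ := card_parts a 2 t
    exact choosable_of_col fun L hL =>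
      col_two (by rw [h1]) (fun _ _ => hL _) (fun _ _ => hL _) (fun _ _ => hL _) h3 (by rw [h2]; exact h)

theorem choosable_three_iff {a b t : ℕ} (hb : 3 ≤ b) (hab : b ≤ a) :
    Choosable (KK a b t) (t + 2) ↔ a ≤ (t + 2) * ((t + 2) ⌈/⌉ (b - 1)) := by
  have hb1 : 0 < b - 1 := by omega
  have hup : t + 2 ≤ (b - 1) * ((t + 2) ⌈/⌉ (b - 1)) := by
    simpa using le_smul_ceilDiv (b := t + 2) hb1
  constructor
  · intro h
    by_contra hn
    exact not_choosable_three hup (by omega) h
  · intro h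
    set w := (t + 2) ⌈/⌉ (b - 1) with hw
    have hlow : ∀ n, t + 2 ≤ (b - 1) * n → w ≤ n := fun n hn => by
      rw [hw, ceilDiv_le_iff_le_mul hb1]; exact hn
    have hw2 : 2 ≤ w := by
      by_contra hn
      have h1 : w ≤ 1 := by omega
      have h2 : (b - 1) * w ≤ (b - 1) * 1 := Nat.mul_le_mul_left _ h1
      have h3 : (t + 2) * w ≤ (t + 2) * 1 := Nat.mul_le_mul_left _ h1
      omega
    have hwk : 2 * w ≤ t + 2 + 1 := by
      have h1 := hlow ((t + 3) / 2) (by
        have : 2 * ((t + 3) / 2) ≤ (b - 1) * ((t + 3) / 2) := Nat.mul_le_mul_right _ (by omega)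
        omega)
      omega
    have hB : (b - 1) * (w - 1) ≤ t + 2 - 1 := by
      by_contra hn
      have := hlow (w - 1) (by omega)
      omega
    obtain ⟨h1, h2, h3⟩ := card_parts a b t
    exact choosable_of_col fun L hL =>
      upper (k := t + 2) (w := w) (by omega) hw2 hwk (by rw [h1]) (fun _ _ => hL _) (fun _ _ => hL _)
        (fun _ _ => hL _) (by rw [h2]; exact h) (by rw [h3]; exact hB)

theorem criterion_le {a b : ℕ} (hb : 2 ≤ b) (hab : b ≤ a) (t : ℕ) :
    Choosable (KK a b t) (t + 2) ↔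
      if b = 2 then a < (t + 2) ^ 2 else a ≤ (t + 2) * ((t + 2) ⌈/⌉ (b - 1)) := by
  split_ifs with h
  · subst h; exact choosable_two_iff
  · exact choosable_three_iff (by omega) hab

theorem criterion {a b : ℕ} (ha : 2 ≤ a) (hb : 2 ≤ b) (t : ℕ) :
    ChromaticChoosable (KK a b t) ↔
      if min a b = 2 then max a b < (t + 2) ^ 2
      else max a b ≤ (t + 2) * ((t + 2) ⌈/⌉ (min a b - 1)) := by
  rw [cc_iff (by omega) (by omega)]
  rcases le_total b a with h | h
  · rw [min_eq_right h, max_eq_left h]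
    exact criterion_le hb h t
  · rw [min_eq_left h, max_eq_right h, ← criterion_le ha h t]
    exact ⟨choosable_symm, choosable_symm⟩

end Pool.Agent.P.MP_a09be5_co
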