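import Pool.Agent.P.MP_a09be5_co.Setup

namespace Pool.Agent.P.MP_a09be5_co
open Finset

variable {ι : Type} [DecidableEq ι]

variable {k w : ℕ} {S : Finset ℕ} {A B : Finset ι} {L M : ι → Finset ℕ}

omit [DecidableEq ι] in
theorem OneA_pair {x y : ℕ} (hx : x ∈ S) (hy : y ∈ S) : ({x, y} : Finset ℕ) ⊆ S := by
  intro c hc
  rcases mem_insert.1 hc with rfl | hc
  · exact hx
  · rw [mem_singleton.1 hc]; exact hy

theorem optAB {x y : ℕ} (hx : x ∈ S) (hy : y ∈ S) (hxy : x ≠ y)
    (h : Split (miss A L x) (miss B M y) (out S L) (out S M)) : Good S A B L M := by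
  obtain ⟨X, h1, h2⟩ := h
  refine ⟨{x, y}, OneA_pair hx hy, card_pair hxy, (X ∪ {x}) \ {y}, fun u hu => ?_, fun v hv => ?_⟩
  · by_cases hu' : x ∈ L u
    · exact ⟨x, by simp [hu'], by simp [hxy]⟩
    · obtain ⟨c, hc, hX⟩ := h1 u (mem_miss.2 ⟨hu, hu'⟩)
      rw [mem_out] at hc
      exact ⟨c, by simp [hc.1, hc.2], ⟨Or.inl hX, fun e => hc.2 (by rw [e]; exact hy)⟩⟩
  · by_cases hv' : y ∈ M v
    · exact ⟨y, by simp [hv'], by simp⟩
    · obtain ⟨c, hc, hX⟩ := h2 v (mem_miss.2 ⟨hv, hv'⟩)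
      rw [mem_out] at hc
      refine ⟨c, by simp [hc.1, hc.2], fun e => ?_⟩
      rcases e.1 with e | e
      · exact hX e
      · exact hc.2 (by rw [e]; exact hx)

theorem optAA {x y : ℕ} (hx : x ∈ S) (hy : y ∈ S) (hxy : x ≠ y)
    (h : Split (miss (miss A L x) L y) B (out S L) (out S M)) : Good S A B L M := by
  obtain ⟨X, h1, h2⟩ := h
  refine ⟨{x, y}, OneA_pair hx hy, card_pair hxy, X ∪ {x, y}, fun u hu => ?_, fun v hv => ?_⟩
  · by_cases hu' : x ∈ L u
    · exact ⟨x, by simp [hu'], by simp⟩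
    by_cases hu'' : y ∈ L u
    · exact ⟨y, by simp [hu''], by simp⟩
    obtain ⟨c, hc, hX⟩ := h1 u (mem_miss.2 ⟨mem_miss.2 ⟨hu, hu'⟩, hu''⟩)
    rw [mem_out] at hc
    exact ⟨c, by simp [hc.1, hc.2], Or.inl hX⟩
  · obtain ⟨c, hc, hX⟩ := h2 v hv
    rw [mem_out] at hc
    refine ⟨c, by simp [hc.1, hc.2], fun e => ?_⟩
    rcases e with e | e | e
    · exact hX e
    · exact hc.2 (by rw [e]; exact hx)
    · exact hc.2 (by rw [e]; exact hy)

theorem optBB {x y : ℕ} (hx : x ∈ S) (hy : y ∈ S) (hxy : x ≠ y)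
    (h : Split A (miss (miss B M x) M y) (out S L) (out S M)) : Good S A B L M :=
  (optAA hx hy hxy h.symm).symm

theorem card_out {u : ι} (h : (L u).card = S.card) : (out S L u).card = (S \ L u).card :=
  card_sdiff_comm h

/-- Double counting. -/
theorem sum_miss (hM : ∀ v ∈ B, (M v).card = S.card) (f : ι → ℚ) :
    ∑ y ∈ S, ∑ v ∈ miss B M y, f v = ∑ v ∈ B, ((out S M v).card : ℚ) * f v := by
  simp only [miss, sum_filter]
  rw [sum_comm]
  refine sum_congr rfl fun v hv => ?_
  rw [← sum_filter, sum_const, nsmul_eq_mul, card_out (hM v hv), filter_notMem_eq_sdiff]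

theorem OneA_nc (hS : 2 ≤ S.card) (hM : ∀ v ∈ B, (M v).card = S.card) {c : ℕ}
    (hc : ∀ u ∈ A, c ∈ L u) : Good S A B L M := by
  by_cases hcS : c ∈ S
  · obtain ⟨y, hy, hyc⟩ := exists_mem_ne (by omega : 1 < S.card) c
    refine optAB hcS hy hyc.symm ⟨∅, fun u hu => ?_, fun v hv => ?_⟩
    · rw [mem_miss] at hu
      exact absurd (hc u hu.1) hu.2
    · rw [mem_miss] at hv
      have : (out S M v).Nonempty := by
        rw [← card_pos, card_out (hM v hv.1), card_pos]
        exact ⟨y, mem_sdiff.2 ⟨hy, hv.2⟩⟩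
      obtain ⟨d, hd⟩ := this
      exact ⟨d, hd, fun h => h⟩
  · obtain ⟨x, hx, y, hy, hxy⟩ := one_lt_card.1 (by omega : 1 < S.card)
    refine optBB hx hy hxy ⟨{c}, fun u hu => ⟨c, mem_out.2 ⟨hc u hu, hcS⟩, rfl⟩, fun v hv => ?_⟩
    simp only [mem_miss] at hv
    have : 1 < (out S M v).card := by
      rw [card_out (hM v hv.1.1)]
      exact one_lt_card.2 ⟨x, mem_sdiff.2 ⟨hx, hv.1.2⟩, y, mem_sdiff.2 ⟨hy, hv.2⟩, hxy⟩
    exact exists_mem_ne this c

theorem Bad.ncA (hb : Bad k w S A B L M) (c : ℕ) : ∃ u ∈ A, c ∉ L u := by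
  by_contra h
  push Not at h
  have := hb.hk
  exact hb.bad (OneA_nc (by rw [hb.hS]; omega) (fun v hv => by rw [hb.hM v hv, hb.hS]) h)

theorem Bad.ncB (hb : Bad k w S A B L M) (c : ℕ) : ∃ v ∈ B, c ∉ M v := by
  by_contra h
  push Not at h
  have := hb.hk
  exact hb.bad (OneA_nc (by rw [hb.hS]; omega) (fun v hv => by rw [hb.hL v hv, hb.hS]) h).symm

theorem Bad.cov (hb : Bad k w S A B L M) {x : ℕ} (hx : x ∈ S) (K : Finset ℕ) (lam : ℕ → ℚ)
    (hpos : ∀ h, 0 < lam h)
    (hW : ∀ B' ⊆ B, ∑ v ∈ B', lam (out S M v \ K).card < 1 →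
      Split (rest (miss A L x) (out S L) K) B' (out S L) (fun v => out S M v \ K)) :
    (k : ℚ) - 1 < ∑ v ∈ B, ((out S M v).card : ℚ) * lam (out S M v \ K).card := by
  rw [← sum_miss fun v hv => by rw [hb.hM v hv, hb.hS], ← add_sum_erase S _ hx]
  have h1 : 0 < ∑ v ∈ miss B M x, lam (out S M v \ K).card := by
    obtain ⟨v, hv, hxv⟩ := hb.ncB x
    exact sum_pos (fun v _ => hpos _) ⟨v, mem_miss.2 ⟨hv, hxv⟩⟩
  have h2 : ∀ y ∈ S.erase x, (1 : ℚ) ≤ ∑ v ∈ miss B M y, lam (out S M v \ K).card := by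
    intro y hy
    rw [mem_erase] at hy
    by_contra h
    exact hb.bad (optAB hx hy.2 hy.1.symm
      (split_takeA K (hW _ (filter_subset _ _) (not_le.1 h))))
  have h3 := card_nsmul_le_sum _ _ _ h2
  have hk := hb.hk
  rw [card_erase_of_mem hx, hb.hS, nsmul_eq_mul, Nat.cast_sub (by omega)] at h3
  push_cast at h3
  linarith

/-- In the easy case a bound `w - 1` on every term bounds the sum by `k - 1`. -/
theorem Bad.sum_easy (hb : Bad k w S A B L M) (he : Easy k w S B M) (f : ι → ℚ)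
    (hf : ∀ v ∈ B, ((out S M v).card : ℚ) * f v ≤ (w : ℚ) - 1) :
    ∑ v ∈ B, ((out S M v).card : ℚ) * f v ≤ (k : ℚ) - 1 := by
  have hk := hb.hk
  have hw := hb.hw
  rw [← sum_filter_of_ne (p := fun v => (out S M v).Nonempty) fun v _ h => by
    rw [← card_pos, pos_iff_ne_zero]
    intro e
    exact h (by rw [e]; simp)]
  have h1 := sum_le_card_nsmul (B.filter fun v => (out S M v).Nonempty) _ _
    fun v hv => hf v (mem_filter.1 hv).1
  have h2 : (((B.filter fun v => (out S M v).Nonempty).card * (w - 1) : ℕ) : ℚ) ≤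
      ((k - 1 : ℕ) : ℚ) := Nat.cast_le.2 he
  rw [Nat.cast_mul, Nat.cast_sub (by omega), Nat.cast_sub (by omega)] at h2
  rw [nsmul_eq_mul] at h1
  push_cast at h2
  exact h1.trans h2

/-- In the hard case no list of `B` equals `S`. -/
theorem Bad.hard_ne (hb : Bad k w S A B L M) (he : ¬ Easy k w S B M) :
    (∀ v ∈ B, (out S M v).Nonempty) ∧ k ≤ B.card * (w - 1) := by
  unfold Easy at he
  have h : ∀ v ∈ B, (out S M v).Nonempty := by
    intro v hv
    by_contra hn
    have h1 : (B.filter fun v => (out S M v).Nonempty).card < B.card :=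
      card_lt_card (filter_ssubset.2 ⟨v, hv, hn⟩)
    exact he ((Nat.mul_le_mul_right _ (by omega)).trans hb.hB)
  refine ⟨h, ?_⟩
  rw [filter_true_of_mem h] at he
  omega

theorem Bad.miss2 (hb : Bad k w S A B L M) (hne : ∀ v ∈ B, (out S M v).Nonempty) {c : ℕ}
    (hc : c ∉ S) : 2 ≤ (miss B M c).card := by
  by_contra hlt
  have hk := hb.hk
  have hwk := hb.hwk
  obtain ⟨v', hv', hcv⟩ := hb.ncB c
  have hall : ∀ v ∈ B, c ∉ M v → v = v' := fun v hv h =>
    card_le_one.1 (by omega) v (mem_miss.2 ⟨hv, h⟩) v' (mem_miss.2 ⟨hv', hcv⟩)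
  have hL : ∀ u ∈ A, (out S L u).card = (S \ L u).card := fun u hu =>
    card_out (by rw [hb.hL u hu, hb.hS])
  set A0 := A.filter fun u => c ∈ L u with hA0
  have hlt0 : A0.card < k * w := by
    obtain ⟨u, hu, hcu⟩ := hb.ncA c
    exact (card_lt_card (filter_ssubset.2 ⟨u, hu, hcu⟩)).trans_le hb.hA
  have h2 : ∀ P ∈ S.powersetCard 2, ∀ z ∈ out S M v',
      ∃ u ∈ A0, S \ L u = P ∧ (out S L u).erase c = {z} := by
    intro P hP z hz
    rw [mem_powersetCard] at hP
    obtain ⟨x, y, hxy, rfl⟩ := card_eq_two.1 hP.2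
    have hx : x ∈ S := hP.1 (by simp)
    have hy : y ∈ S := hP.1 (by simp)
    have hzc : c ≠ z := fun e => hcv (by rw [e]; exact (mem_out.1 hz).1)
    by_contra hno
    refine hb.bad (optAA hx hy hxy ⟨({c, z} : Set ℕ)ᶜ, fun u hu => ?_, fun v hv => ?_⟩)
    · simp only [mem_miss] at hu
      by_contra hsub
      have hs : out S L u ⊆ {c, z} := by
        intro d hd
        by_contra hd'
        exact hsub ⟨d, hd, by simpa using hd'⟩
      have hs' : ({x, y} : Finset ℕ) ⊆ S \ L u := by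
        intro d hd
        rcases mem_insert.1 hd with rfl | hd
        · exact mem_sdiff.2 ⟨hx, hu.1.2⟩
        · rw [mem_singleton.1 hd]; exact mem_sdiff.2 ⟨hy, hu.2⟩
      have c1 := card_le_card hs
      have c2 := card_le_card hs'
      have c3 := hL u hu.1.1
      rw [card_pair hzc] at c1
      rw [card_pair hxy] at c2
      have e1 : out S L u = {c, z} := eq_of_subset_of_card_le hs (by rw [card_pair hzc]; omega)
      have e2 := eq_of_subset_of_card_le hs' (by rw [card_pair hxy]; omega)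
      refine hno ⟨u, mem_filter.2 ⟨hu.1.1, ?_⟩, e2.symm, ?_⟩
      · exact (mem_out.1 (by rw [e1]; simp : c ∈ out S L u)).1
      · rw [e1, erase_insert (by simpa using hzc)]
    · by_cases h : c ∈ M v
      · exact ⟨c, mem_out.2 ⟨h, hc⟩, by simp⟩
      · rw [hall v hv h]
        exact ⟨z, hz, by simp⟩
  have hch : k.choose 2 * 2 = k * (k - 1) := by
    rw [Nat.choose_two_right]
    exact Nat.div_mul_cancel (Nat.even_mul_pred_self k).two_dvd
  by_cases h1 : 2 ≤ (out S M v').card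
  · have hsurj : Set.SurjOn (fun u => (S \ L u, (out S L u).erase c)) A0
        ((S.powersetCard 2 ×ˢ (out S M v').powersetCard 1 : Finset _) : Set _) := by
      rintro ⟨P, Z⟩ hPZ
      rw [mem_coe, mem_product] at hPZ
      obtain ⟨z, rfl⟩ := card_eq_one.1 (mem_powersetCard.1 hPZ.2).2
      obtain ⟨u, hu, e1, e2⟩ := h2 P hPZ.1 z ((mem_powersetCard.1 hPZ.2).1 (by simp))
      exact ⟨u, hu, Prod.ext e1 e2⟩
    have h3 := card_le_card_of_surjOn _ hsurj
    rw [card_product, card_powersetCard, card_powersetCard, hb.hS, Nat.choose_one_right] at h3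
    have h4 : k.choose 2 * 2 ≤ k.choose 2 * (out S M v').card := Nat.mul_le_mul_left _ h1
    have h5 : k * w ≤ k * (k - 1) := Nat.mul_le_mul_left _ (by omega)
    omega
  · obtain ⟨z, hz⟩ := hne v' hv'
    have hd : (S \ M v').card ≤ 1 := by
      rw [← card_out (by rw [hb.hM v' hv', hb.hS])]; omega
    have h3 : ∀ x ∈ S, ∃ u ∈ A0, S \ L u = {x} := by
      intro x hx
      have : ((S.erase x) \ (S \ M v')).Nonempty := by
        rw [← card_pos]
        have := le_card_sdiff (S \ M v') (S.erase x)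
        rw [card_erase_of_mem hx, hb.hS] at this
        omega
      obtain ⟨y, hy⟩ := this
      simp only [mem_sdiff, mem_erase] at hy
      by_contra hno
      refine hb.bad (optAB hx hy.1.2 hy.1.1.symm
        ⟨({c} : Set ℕ)ᶜ, fun u hu => ?_, fun v hv => ?_⟩)
      · rw [mem_miss] at hu
        by_contra hsub
        have hs : out S L u ⊆ {c} := by
          intro d hd
          by_contra hd'
          exact hsub ⟨d, hd, by simpa using hd'⟩
        have hs' : ({x} : Finset ℕ) ⊆ S \ L u := singleton_subset_iff.2 (mem_sdiff.2 ⟨hx, hu.2⟩)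
        have c1 := card_le_card hs
        have c2 := card_le_card hs'
        have c3 := hL u hu.1
        rw [card_singleton] at c1 c2
        have e1 : out S L u = {c} := eq_of_subset_of_card_le hs (by rw [card_singleton]; omega)
        have e2 := eq_of_subset_of_card_le hs' (by rw [card_singleton]; omega)
        exact hno ⟨u, mem_filter.2 ⟨hu.1, (mem_out.1 (by rw [e1]; simp : c ∈ out S L u)).1⟩,
          e2.symm⟩
      · rw [mem_miss] at hv
        by_cases h : c ∈ M v
        · exact ⟨c, mem_out.2 ⟨h, hc⟩, by simp⟩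
        · rw [hall v hv.1 h] at hv
          exact absurd ⟨hy.1.2, hv.2⟩ hy.2
    have hsurj : Set.SurjOn (fun u => S \ L u) A0
        ((S.powersetCard 2 ∪ S.powersetCard 1 : Finset _) : Set _) := by
      intro P hP
      rw [mem_coe, mem_union] at hP
      rcases hP with hP | hP
      · obtain ⟨u, hu, e1, -⟩ := h2 P hP z hz
        exact ⟨u, hu, e1⟩
      · obtain ⟨x, rfl⟩ := card_eq_one.1 (mem_powersetCard.1 hP).2
        exact h3 x ((mem_powersetCard.1 hP).1 (by simp))
    have h4 := card_le_card_of_surjOn _ hsurj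
    rw [card_union_of_disjoint (disjoint_left.2 fun P h1 h2 => by
        have := (mem_powersetCard.1 h1).2
        have := (mem_powersetCard.1 h2).2
        omega), card_powersetCard, card_powersetCard, hb.hS, Nat.choose_one_right] at h4
    have h5 : k * (2 * w) ≤ k * (k - 1 + 2) := Nat.mul_le_mul_left _ (by omega)
    rw [mul_add, mul_left_comm] at h5
    omega

/-- Consequence: there are at least three vertices in `B`. -/
theorem Bad.three_le (hb : Bad k w S A B L M) (hne : ∀ v ∈ B, (out S M v).Nonempty) :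
    3 ≤ B.card := by
  obtain ⟨v, hv, -⟩ := hb.ncB 0
  obtain ⟨z, hz⟩ := hne v hv
  rw [mem_out] at hz
  have h1 := hb.miss2 hne hz.2
  have h2 : (miss B M z).card < B.card :=
    card_lt_card (filter_ssubset.2 ⟨v, hv, fun h => h hz.1⟩)
  omega

/-- Consequence: a set `K` of outside colours is met at most `(|B| - 2) |K|` times. -/
theorem Bad.sum_inter (hb : Bad k w S A B L M) (hne : ∀ v ∈ B, (out S M v).Nonempty)
    {K : Finset ℕ} (hK : Disjoint K S) :
    ∑ v ∈ B, ((out S M v ∩ K).card : ℚ) ≤ ((B.card : ℚ) - 2) * K.card := by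
  have h1 : ∀ v ∈ B, ((out S M v ∩ K).card : ℚ) = ∑ c ∈ K, if c ∈ M v then 1 else 0 := by
    intro v _
    rw [sum_boole]
    congr 2
    ext c
    simp only [mem_inter, mem_out, mem_filter]
    exact ⟨fun h => ⟨h.2, h.1.1⟩, fun h => ⟨⟨h.2, disjoint_left.1 hK h.1⟩, h.1⟩⟩
  rw [sum_congr rfl h1, sum_comm, mul_comm, ← nsmul_eq_mul]
  refine sum_le_card_nsmul _ _ _ fun c hc => ?_
  have h2 := hb.miss2 hne (disjoint_left.1 hK hc)
  have h3 := card_filter_add_card_filter_not (s := B) fun v => c ∈ M v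
  rw [sum_boole, le_sub_iff_add_le]
  unfold miss at h2
  exact_mod_cast (by omega : (B.filter fun v => c ∈ M v).card + 2 ≤ B.card)

end Pool.Agent.P.MP_a09be5_co
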