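import Pool.Agent.P.MP_a09be5_co.WB

/-! Splitting lemmas for total weight at most one. -/

namespace Pool.Agent.P.MP_a09be5_co
open Finset

variable {ι : Type} [DecidableEq ι]

theorem WC_lamS_le {e : ℕ} (he : 2 ≤ e) : lamS e ≤ 1 / (e : ℚ) := by
  unfold lamS
  have h0 : (0 : ℚ) < e := by exact_mod_cast (by omega : 0 < e)
  split_ifs with h1 h2 h3
  · omega
  · have : e = 2 := by omega
    subst this; norm_num
  · subst h3; norm_num
  · rw [div_le_div_iff₀ (by positivity) h0]; linarith

theorem WC_lamS_lt {e : ℕ} (he : 3 ≤ e) : lamS e < 1 / (e : ℚ) := by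
  unfold lamS
  have h0 : (0 : ℚ) < e := by exact_mod_cast (by omega : 0 < e)
  split_ifs with h1 h2 h3
  · omega
  · omega
  · subst h3; norm_num
  · rw [div_lt_div_iff₀ (by positivity) h0]; linarith

theorem WC_lamH_nonneg (h : ℕ) : 0 ≤ lamH h := by
  unfold lamH; split_ifs <;> positivity

theorem WC_lamF_nonneg (h : ℕ) : 0 ≤ lamF h := by
  unfold lamF; split_ifs <;> positivity

theorem WC_lamH_le (h : ℕ) : lamH h ≤ lamF h := by
  unfold lamH lamF
  split_ifs with h1 h2
  · exact le_rfl
  · have : (1 : ℚ) ≤ h := by exact_mod_cast Nat.one_le_iff_ne_zero.2 h1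
    rw [div_le_div_iff₀ (by positivity) (by norm_num)]; linarith
  · exact le_rfl

omit [DecidableEq ι] in
theorem WC_rest_lt {B : Finset ι} {H : ι → Finset ℕ} {y : ℕ} (hβ : wt B H < 2)
    (hy : 1 ≤ deg B H y) : wt (B.filter fun v => y ∉ H v) H < 1 := by
  have := wt_filter_add B H fun v => y ∈ H v
  unfold deg at hy
  linarith

theorem WC_erase_mem {s : Finset ℕ} {y : ℕ} (hy : y ∈ s) :
    1 / (((s.erase y).card : ℚ) + 1) = 1 / (s.card : ℚ) := by
  rw [← card_erase_add_one hy]; push_cast; rfl

theorem WC_erase_not_mem {s : Finset ℕ} {y : ℕ} (hy : y ∉ s) (hs : s.Nonempty) :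
    1 / (((s.erase y).card : ℚ) + 1) < 1 / (s.card : ℚ) := by
  rw [erase_eq_of_notMem hy]
  have h0 : (0 : ℚ) < s.card := by exact_mod_cast hs.card_pos
  exact one_div_lt_one_div_of_lt h0 (by linarith)

theorem W1a {A B : Finset ι} {E H : ι → Finset ℕ} (hE : ∀ u ∈ A, (E u).Nonempty)
    (hα : wt A E ≤ 1) (hd : ∀ c, deg A E c < 1) (hH : ∀ v ∈ B, (H v).Nonempty)
    (hβ : wt B H < 2) : Split A B E H := by
  by_cases hy : ∃ y, 1 ≤ deg B H y
  · obtain ⟨y, hy⟩ := hy
    refine split_takeB1 y (Split.symm (W0 (fun v hv => hH v (mem_filter.1 hv).1)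
      (WC_rest_lt hβ hy) ?_))
    by_cases hall : ∀ u ∈ A, y ∈ E u
    · have h1 : deg A E y = wt A E := by
        unfold deg; rw [filter_true_of_mem hall]
      rw [sum_congr rfl fun u hu => WC_erase_mem (hall u hu)]
      have := hd y
      rw [h1] at this
      exact this
    · push Not at hall
      obtain ⟨u, hu, hyu⟩ := hall
      refine lt_of_lt_of_le (sum_lt_sum (fun u hu => ?_) ⟨u, hu, WC_erase_not_mem hyu (hE u hu)⟩) hα
      by_cases h : y ∈ E u
      · exact (WC_erase_mem h).le
      · exact (WC_erase_not_mem h (hE u hu)).le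
  · push Not at hy
    have h2 := two_le_of_deg hE hd
    by_cases hA : A.card ≤ 3
    · exact (R3 hH hβ.le hy hA h2).symm
    · refine (W2S hH hβ.le hy ?_).symm
      have h3 : ∃ u ∈ A, 3 ≤ (E u).card := by
        by_contra hn
        push Not at hn
        have : wt A E = ∑ _u ∈ A, (1 / 2 : ℚ) := by
          refine sum_congr rfl fun u hu => ?_
          have : (E u).card = 2 := by have := h2 u hu; have := hn u hu; omega
          rw [this]; norm_num
        rw [this, sum_const, nsmul_eq_mul] at hα
        have : (4 : ℚ) ≤ A.card := by exact_mod_cast (by omega : 4 ≤ A.card)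
        linarith
      obtain ⟨u, hu, h3⟩ := h3
      exact lt_of_lt_of_le
        (sum_lt_sum (fun u hu => WC_lamS_le (h2 u hu)) ⟨u, hu, WC_lamS_lt h3⟩) hα

theorem W1H {A B : Finset ι} {E H : ι → Finset ℕ} (hE : ∀ u ∈ A, 2 ≤ (E u).card)
    (hα : wt A E ≤ 1) (hs : ¬ Star2 A E) (hβ : ∑ v ∈ B, lamH (H v).card < 1) :
    Split A B E H := by
  have hE' : ∀ u ∈ A, (E u).Nonempty := fun u hu => card_pos.1 (by have := hE u hu; omega)
  have hH : ∀ v ∈ B, (H v).Nonempty := by
    intro v hv
    rw [nonempty_iff_ne_empty]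
    intro h0
    have := single_le_sum (f := fun v => lamH (H v).card) (fun v _ => WC_lamH_nonneg _) hv
    simp only [h0, card_empty, lamH, if_true] at this
    exact absurd hβ (not_lt.2 this)
  have hβ' : wt B H < 2 := by
    have : wt B H = 2 * ∑ v ∈ B, lamH (H v).card := by
      rw [mul_sum]
      refine sum_congr rfl fun v hv => ?_
      have h0 := (hH v hv).card_pos
      have h1 : (0 : ℚ) < (H v).card := by exact_mod_cast h0
      rw [lamH, if_neg h0.ne']
      field_simp
    linarith
  by_cases hd : ∀ c, deg A E c < 1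
  · exact W1a hE' hα hd hH hβ'
  push Not at hd
  obtain ⟨f, hf⟩ := hd
  have hall : ∀ u ∈ A, f ∈ E u := by
    intro u hu
    by_contra hn
    have h1 := wt_filter_add A E fun u => f ∈ E u
    have h2 : 1 / ((E u).card : ℚ) ≤ wt (A.filter fun u => ¬ f ∈ E u) E :=
      single_le_sum (f := fun u => 1 / ((E u).card : ℚ)) (fun _ _ => by positivity)
        (mem_filter.2 ⟨hu, hn⟩)
    have h3 : (0 : ℚ) < (E u).card := by exact_mod_cast (hE' u hu).card_pos
    have h4 : 0 < 1 / ((E u).card : ℚ) := by positivity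
    unfold deg at hf
    linarith
  by_cases hv : ∀ v ∈ B, ¬ H v ⊆ {f}
  · exact split_of_transversal {f} (fun u hu => ⟨f, hall u hu, mem_singleton_self f⟩) hv
  push Not at hv
  obtain ⟨v0, hv0, hsub⟩ := hv
  have heq : H v0 = {f} := (hH v0 hv0).subset_singleton_iff.1 hsub
  have hdeg : 1 ≤ deg B H f := by
    have := single_le_sum (s := B.filter fun v => f ∈ H v) (f := fun v => 1 / ((H v).card : ℚ))
      (fun _ _ => by positivity) (mem_filter.2 ⟨hv0, by rw [heq]; exact mem_singleton_self f⟩)
    simp only [heq, card_singleton, Nat.cast_one, div_one] at this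
    exact this
  refine split_takeB1 f (Split.symm (W0' (fun v hv => hH v (mem_filter.1 hv).1)
    (WC_rest_lt hβ' hdeg) (fun u hu => ?_) ?_ ?_))
  · rw [← card_pos, card_erase_of_mem (hall u hu)]
    have := hE u hu
    omega
  · rw [sum_congr rfl fun u hu => WC_erase_mem (hall u hu)]
    exact hα
  · intro u hu u' hu' h1 h1'
    by_contra hne
    rw [card_erase_of_mem (hall u hu)] at h1
    rw [card_erase_of_mem (hall u' hu')] at h1'
    have h2 : (E u).card = 2 := by omega
    have h2' : (E u').card = 2 := by omega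
    have hA : A = {u, u'} := by
      by_contra hA
      have hss : ({u, u'} : Finset ι) ⊆ A := by
        intro x hx
        rcases mem_insert.1 hx with rfl | hx
        · exact hu
        · rw [mem_singleton.1 hx]; exact hu'
      obtain ⟨x, hx, hx'⟩ := exists_of_ssubset (hss.ssubset_of_ne (Ne.symm hA))
      have h3 : (0 : ℚ) < (E x).card := by exact_mod_cast (hE' x hx).card_pos
      have h4 : 0 < 1 / ((E x).card : ℚ) := by positivity
      have h5 := wt_mono (insert_subset hx hss) E
      unfold wt at h5 hα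
      rw [sum_insert hx', sum_pair hne, h2, h2'] at h5
      push_cast at h5
      linarith
    refine hs ⟨by rw [hA, card_pair hne], fun x hx => ?_, f, hall⟩
    rw [hA] at hx
    rcases mem_insert.1 hx with rfl | hx
    · exact h2
    · rw [mem_singleton.1 hx]; exact h2'

theorem W1F {A B : Finset ι} {E H : ι → Finset ℕ} (hE : ∀ u ∈ A, 2 ≤ (E u).card)
    (hα : wt A E ≤ 1) (hβ : ∑ v ∈ B, lamF (H v).card < 1) : Split A B E H := by
  by_cases hs : Star2 A E
  swap
  · exact W1H hE hα hs (lt_of_le_of_lt (sum_le_sum fun v _ => WC_lamH_le _) hβ)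
  obtain ⟨hA, h2, f, hall⟩ := hs
  have hH : ∀ v ∈ B, (H v).Nonempty := by
    intro v hv
    rw [nonempty_iff_ne_empty]
    intro h0
    have := single_le_sum (f := fun v => lamF (H v).card) (fun v _ => WC_lamF_nonneg _) hv
    simp only [h0, card_empty, lamF, if_true] at this
    exact absurd hβ (not_lt.2 this)
  by_cases hv : ∀ v ∈ B, ¬ H v ⊆ {f}
  · exact split_of_transversal {f} (fun u hu => ⟨f, hall u hu, mem_singleton_self f⟩) hv
  push Not at hv
  obtain ⟨v0, hv0, hsub⟩ := hv
  have heq : H v0 = {f} := (hH v0 hv0).subset_singleton_iff.1 hsub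
  have hX : (A.biUnion fun u => (E u).erase f).card ≤ 2 := by
    refine card_biUnion_le.trans ?_
    rw [sum_congr rfl fun u hu => (card_erase_of_mem (hall u hu)).trans (by rw [h2 u hu])]
    simp [hA]
  refine split_of_transversal (A.biUnion fun u => (E u).erase f) (fun u hu => ?_) fun v hv hsb => ?_
  · obtain ⟨c, hc⟩ : ((E u).erase f).Nonempty := by
      rw [← card_pos, card_erase_of_mem (hall u hu), h2 u hu]
      norm_num
    exact ⟨c, mem_of_mem_erase hc, mem_biUnion.2 ⟨u, hu, hc⟩⟩
  · by_cases hvv : v = v0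
    · subst hvv
      obtain ⟨u, _, hu⟩ := mem_biUnion.1 (hsb (by rw [heq]; exact mem_singleton_self f))
      exact notMem_erase f _ hu
    · have hss : ({v, v0} : Finset ι) ⊆ B := insert_subset hv (singleton_subset_iff.2 hv0)
      have h5 := sum_le_sum_of_subset_of_nonneg (f := fun v => lamF (H v).card) hss
        fun _ _ _ => WC_lamF_nonneg _
      have h6 := (card_le_card hsb).trans hX
      have h7 := (hH v hv).card_pos
      rw [sum_pair hvv, heq, lamF, if_neg h7.ne', if_pos h6] at h5
      simp only [card_singleton, lamF] at h5 hβ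
      norm_num at h5 hβ
      linarith

end Pool.Agent.P.MP_a09be5_co
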