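import Pool.Agent.P.MP_a09be5_co.OneA
import Pool.Agent.P.MP_a09be5_co.WC

namespace Pool.Agent.P.MP_a09be5_co
open Finset

variable {ι : Type} [DecidableEq ι]

variable {k w : ℕ} {S : Finset ℕ} {A B : Finset ι} {L M : ι → Finset ℕ}

/-- Colours with their own singleton set contribute weight one each. -/
theorem OneB_card_le {A : Finset ι} {E : ι → Finset ℕ} {K : Finset ℕ}
    (h : ∀ c ∈ K, ∃ u ∈ A, E u = {c}) :
    (K.card : ℚ) ≤ wt (A.filter fun u => ∃ c ∈ K, E u = {c}) E := by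
  have h1 : wt (A.filter fun u => ∃ c ∈ K, E u = {c}) E =
      ((A.filter fun u => ∃ c ∈ K, E u = {c}).card : ℚ) := by
    unfold wt
    rw [card_eq_sum_ones, Nat.cast_sum]
    refine sum_congr rfl fun u hu => ?_
    obtain ⟨c, -, hc⟩ := (mem_filter.1 hu).2
    simp [hc]
  rw [h1, Nat.cast_le]
  refine le_trans (le_of_eq (card_image_of_injective K singleton_injective).symm)
    ((card_le_card fun T hT => ?_).trans (card_image_le (f := E)))
  obtain ⟨c, hc, rfl⟩ := mem_image.1 hT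
  obtain ⟨u, hu, h2⟩ := h c hc
  exact mem_image.2 ⟨u, mem_filter.2 ⟨hu, c, hc, h2⟩, h2⟩

omit [DecidableEq ι] in
theorem OneB_rest_insert (A : Finset ι) (E : ι → Finset ℕ) (K : Finset ℕ) (c : ℕ) :
    rest A E (insert c K) = (rest A E K).filter fun u => ¬ c ∈ E u := by
  ext u
  simp only [mem_rest, mem_filter, disjoint_insert_right]
  tauto

theorem greedy {A : Finset ι} {E : ι → Finset ℕ} {w : ℕ} (hw : 2 ≤ w)
    (hne : ∀ u ∈ A, (E u).Nonempty) :
    TypeC w A E ∨ ∃ K : Finset ℕ, (∀ c ∈ K, ∃ u ∈ A, c ∈ E u) ∧ K.card ≤ w - 1 ∧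
      wt (rest A E K) E + K.card ≤ wt A E ∧ (∀ u ∈ rest A E K, 2 ≤ (E u).card) ∧
      (K.card = w - 1 ∨ ∀ c, deg (rest A E K) E c < 1) := by
  have step : ∀ (d : ℕ) (K : Finset ℕ), K.card + d = w - 1 → (∀ c ∈ K, ∃ u ∈ A, c ∈ E u) →
      wt (rest A E K) E + K.card ≤ wt A E → (∀ u ∈ rest A E K, 2 ≤ (E u).card) →
      ∃ K : Finset ℕ, (∀ c ∈ K, ∃ u ∈ A, c ∈ E u) ∧ K.card ≤ w - 1 ∧
        wt (rest A E K) E + K.card ≤ wt A E ∧ (∀ u ∈ rest A E K, 2 ≤ (E u).card) ∧
        (K.card = w - 1 ∨ ∀ c, deg (rest A E K) E c < 1) := by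
    intro d
    induction d with
    | zero => exact fun K h0 h1 h2 h3 => ⟨K, h1, by omega, h2, h3, Or.inl (by omega)⟩
    | succ d ih =>
      intro K h0 h1 h2 h3
      by_cases hd : ∀ c, deg (rest A E K) E c < 1
      · exact ⟨K, h1, by omega, h2, h3, Or.inr hd⟩
      push Not at hd
      obtain ⟨c, hc⟩ := hd
      obtain ⟨u, hu⟩ : ((rest A E K).filter fun u => c ∈ E u).Nonempty := by
        rw [nonempty_iff_ne_empty]
        intro h
        rw [deg, h] at hc
        simp [wt] at hc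
        linarith
      rw [mem_filter, mem_rest] at hu
      have hcK : c ∉ K := disjoint_left.1 hu.1.2 hu.2
      refine ih (insert c K) (by rw [card_insert_of_notMem hcK]; omega) ?_ ?_ ?_
      · intro c' hc'
        rcases mem_insert.1 hc' with rfl | hc'
        · exact ⟨u, hu.1.1, hu.2⟩
        · exact h1 c' hc'
      · have := wt_filter_add (rest A E K) E fun u => c ∈ E u
        rw [OneB_rest_insert, card_insert_of_notMem hcK]
        rw [deg] at hc
        push_cast
        linarith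
      · intro u' hu'
        rw [OneB_rest_insert] at hu'
        exact h3 u' (mem_filter.1 hu').1
  set K0 : Finset ℕ := (A.biUnion E).filter fun c => ∃ u ∈ A, E u = {c} with hK0
  have hK : ∀ c ∈ K0, ∃ u ∈ A, E u = {c} := fun c hc => (mem_filter.1 hc).2
  by_cases h : w ≤ K0.card
  · obtain ⟨K, hK1, hK2⟩ := exists_subset_card_eq h
    exact Or.inl ⟨K, hK2, fun c hc => hK c (hK1 hc)⟩
  refine Or.inr (step (w - 1 - K0.card) K0 (by omega) (fun c hc => ?_) ?_ fun u hu => ?_)
  · obtain ⟨u, hu, h⟩ := hK c hc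
    exact ⟨u, hu, by simp [h]⟩
  · have h1 := wt_filter_add A E fun u => Disjoint (E u) K0
    have h2 := OneB_card_le hK
    have h3 : wt (A.filter fun u => ∃ c ∈ K0, E u = {c}) E ≤
        wt (A.filter fun u => ¬ Disjoint (E u) K0) E := by
      refine wt_mono (fun u hu => ?_) E
      rw [mem_filter] at hu ⊢
      obtain ⟨c, hc, h⟩ := hu.2
      exact ⟨hu.1, by simp [h, hc]⟩
    unfold rest
    linarith
  · rw [mem_rest] at hu
    by_contra h2
    have h3 : (E u).card = 1 := by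
      have := (hne u hu.1).card_pos
      omega
    obtain ⟨c, hc⟩ := card_eq_one.1 h3
    have hc0 : c ∈ K0 :=
      mem_filter.2 ⟨mem_biUnion.2 ⟨u, hu.1, by simp [hc]⟩, u, hu.1, hc⟩
    exact disjoint_left.1 hu.2 (by simp [hc]) hc0

theorem TypeC.le_wt {A : Finset ι} {E : ι → Finset ℕ} {w : ℕ} (h : TypeC w A E) :
    (w : ℚ) ≤ wt A E := by
  obtain ⟨K, rfl, hK⟩ := h
  exact (OneB_card_le hK).trans (wt_mono (filter_subset _ _) E)

/-- If the weight is at most `w`, type C means: only the `w` singletons. -/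
theorem TypeC.trans {A : Finset ι} {E : ι → Finset ℕ} {w : ℕ} (h : TypeC w A E)
    (hne : ∀ u ∈ A, (E u).Nonempty) (hα : wt A E ≤ w) :
    ∃ K : Finset ℕ, K.card = w ∧ ∀ u ∈ A, ∃ c ∈ K, E u = {c} := by
  obtain ⟨K, rfl, hK⟩ := h
  refine ⟨K, rfl, fun u hu => ?_⟩
  by_contra h
  have h1 := wt_filter_add A E fun u => ∃ c ∈ K, E u = {c}
  have h2 := OneB_card_le hK
  have h3 : wt {u} E ≤ wt (A.filter fun u => ¬ ∃ c ∈ K, E u = {c}) E :=
    wt_mono (singleton_subset_iff.2 (mem_filter.2 ⟨hu, h⟩)) E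
  have h4 : 0 < wt {u} E := by
    have : (0 : ℚ) < (E u).card := by exact_mod_cast (hne u hu).card_pos
    simp only [wt, sum_singleton]
    positivity
  linarith

theorem TypeS.le_wt {A : Finset ι} {E : ι → Finset ℕ} (h : TypeS A E) : 2 ≤ wt A E := by
  obtain ⟨y, ⟨h1, h2, -⟩, h3⟩ := h
  have h4 := wt_filter_add A E fun u => y ∈ E u
  have h5 : rest A E {y} = A.filter fun u => ¬ y ∈ E u := by
    ext u
    simp
  have h6 : wt (rest A E {y}) E = 1 := by
    unfold wt
    rw [sum_congr rfl fun u hu => by rw [h2 u hu], sum_const, h1]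
    norm_num
  rw [h5] at h6
  rw [deg] at h3
  linarith

theorem TypeS.trans {A : Finset ι} {E : ι → Finset ℕ} (h : TypeS A E) :
    ∃ K : Finset ℕ, K.card ≤ 2 ∧ ∀ u ∈ A, ∃ c ∈ E u, c ∈ K := by
  obtain ⟨y, ⟨-, -, f, hf⟩, -⟩ := h
  refine ⟨{y, f}, card_le_two, fun u hu => ?_⟩
  by_cases hy : y ∈ E u
  · exact ⟨y, hy, by simp⟩
  · exact ⟨f, hf u (by simp [hu, hy]), by simp⟩

/-- Lists missing a colour of `S` have a colour outside `S`. -/
theorem Bad.OneB_ne (hb : Bad k w S A B L M) {x : ℕ} (hx : x ∈ S) (K : Finset ℕ) :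
    ∀ u ∈ rest (miss A L x) (out S L) K, (out S L u).Nonempty := by
  intro u hu
  rw [mem_rest, mem_miss] at hu
  rw [← card_pos, card_out ((hb.hL u hu.1.1).trans hb.hS.symm), card_pos]
  exact ⟨x, mem_sdiff.2 ⟨hx, hu.1.2⟩⟩

/-- The common end of the four contradictions. -/
theorem Bad.OneB_finish (hb : Bad k w S A B L M) {K : Finset ℕ} (hK : Disjoint K S) (lam : ℕ → ℚ)
    (a b : ℚ) (hb0 : 0 ≤ b)
    (hγ : ∀ h κ : ℕ, κ ≤ K.card → ((h : ℚ) + κ) * lam h ≤ a + b * κ)
    (he : a + b * K.card ≤ (w : ℚ) - 1)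
    (hh : ¬ Easy k w S B M → ∀ n : ℚ, 3 ≤ n →
      n * a + b * ((n - 2) * K.card) ≤ (n - 1) * ((w : ℚ) - 1)) :
    ∑ v ∈ B, ((out S M v).card : ℚ) * lam (out S M v \ K).card ≤ (k : ℚ) - 1 := by
  have h1 : ∀ v, ((out S M v).card : ℚ) * lam (out S M v \ K).card ≤
      a + b * (out S M v ∩ K).card := by
    intro v
    have := hγ (out S M v \ K).card (out S M v ∩ K).card (card_le_card inter_subset_right)
    rwa [← Nat.cast_add, card_sdiff_add_card_inter] at this
  by_cases hE : Easy k w S B M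
  · refine hb.sum_easy hE _ fun v _ => (h1 v).trans (le_trans ?_ he)
    have : ((out S M v ∩ K).card : ℚ) ≤ K.card := by
      exact_mod_cast card_le_card inter_subset_right
    nlinarith
  · have hne := (hb.hard_ne hE).1
    have h3 := hb.three_le hne
    have h4 := hb.sum_inter hne hK
    have h5 := hh hE B.card (by exact_mod_cast h3)
    have h6 : ((B.card : ℚ) - 1) * ((w : ℚ) - 1) ≤ (k : ℚ) - 1 := by
      have h7 := hb.hB
      have h8 := hb.hw
      have h9 := hb.hk
      have : (((B.card - 1) * (w - 1) : ℕ) : ℚ) ≤ ((k - 1 : ℕ) : ℚ) := by exact_mod_cast h7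
      rwa [Nat.cast_mul, Nat.cast_sub (by omega), Nat.cast_sub (by omega),
        Nat.cast_sub (by omega), Nat.cast_one] at this
    refine (sum_le_sum fun v _ => h1 v).trans ?_
    rw [sum_add_distrib, sum_const, ← mul_sum, nsmul_eq_mul]
    have := mul_le_mul_of_nonneg_left h4 hb0
    linarith

theorem OneB_half {h κ : ℕ} (h0 : h ≠ 0) : ((h : ℚ) + κ) * (1 / (2 * h)) ≤ 1 / 2 + 1 / 2 * κ := by
  have h1 : (1 : ℚ) ≤ h := by exact_mod_cast Nat.pos_of_ne_zero h0
  have h2 : (0 : ℚ) ≤ κ := Nat.cast_nonneg κ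
  rw [mul_one_div, div_le_iff₀ (by positivity)]
  nlinarith

theorem Bad.noO1F (hb : Bad k w S A B L M) (hw : 3 ≤ w) {x : ℕ} (hx : x ∈ S) {K : Finset ℕ}
    (hK : Disjoint K S) (hc : K.card = w - 1)
    (h2 : ∀ u ∈ rest (miss A L x) (out S L) K, 2 ≤ (out S L u).card)
    (hα : wt (rest (miss A L x) (out S L) K) (out S L) ≤ 1) : False := by
  have hm : (K.card : ℚ) = (w : ℚ) - 1 := by rw [hc, Nat.cast_sub (by omega), Nat.cast_one]
  have hw' : (3 : ℚ) ≤ w := by exact_mod_cast hw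
  refine absurd (hb.cov hx K lamF (fun h => ?_) fun B' _ h => W1F h2 hα h)
    (not_lt.2 (hb.OneB_finish hK lamF (K.card / 2) (1 / 2) (by norm_num) ?_ ?_ ?_))
  · unfold lamF
    split_ifs with h0 h1
    · norm_num
    · norm_num
    · have : (0 : ℚ) < h := by exact_mod_cast Nat.pos_of_ne_zero h0
      positivity
  · intro h κ hκ
    have hκ' : (κ : ℚ) ≤ K.card := by exact_mod_cast hκ
    unfold lamF
    split_ifs with h0 h1
    · subst h0
      push_cast
      linarith
    · have : (h : ℚ) ≤ 2 := by exact_mod_cast h1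
      linarith
    · have := OneB_half (κ := κ) h0
      linarith
  · linarith
  · intro _ n _
    rw [← hm]
    exact le_of_eq (by ring)

theorem Bad.noO1H (hb : Bad k w S A B L M) (hw : w = 2) {x : ℕ} (hx : x ∈ S) {K : Finset ℕ}
    (hK : Disjoint K S) (hc : K.card = 1)
    (h2 : ∀ u ∈ rest (miss A L x) (out S L) K, 2 ≤ (out S L u).card)
    (hα : wt (rest (miss A L x) (out S L) K) (out S L) ≤ 1)
    (hs : ¬ Star2 (rest (miss A L x) (out S L) K) (out S L)) : False := by
  refine absurd (hb.cov hx K lamH (fun h => ?_) fun B' _ h => W1H h2 hα hs h)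
    (not_lt.2 (hb.OneB_finish hK lamH (1 / 2) (1 / 2) (by norm_num) ?_ ?_ ?_))
  · unfold lamH
    split_ifs with h0
    · norm_num
    · have : (0 : ℚ) < h := by exact_mod_cast Nat.pos_of_ne_zero h0
      positivity
  · intro h κ hκ
    have hκ' : (κ : ℚ) ≤ 1 := by exact_mod_cast hκ.trans hc.le
    unfold lamH
    split_ifs with h0
    · subst h0
      push_cast
      linarith
    · exact OneB_half h0
  · rw [hc, hw]
    norm_num
  · intro _ n _
    rw [hc, hw]
    push_cast
    linarith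

theorem Bad.noO2 (hb : Bad k w S A B L M) (hw : 3 ≤ w ∨ Easy k w S B M) {x : ℕ} (hx : x ∈ S)
    {K : Finset ℕ} (hK : Disjoint K S) (hc : K.card = w - 2)
    (hd : ∀ c, deg (rest (miss A L x) (out S L) K) (out S L) c < 1)
    (hα : wt (rest (miss A L x) (out S L) K) (out S L) ≤ 2) : False := by
  have hm : (K.card : ℚ) = (w : ℚ) - 2 := by rw [hc, Nat.cast_sub hb.hw, Nat.cast_two]
  refine absurd (hb.cov hx K lamS (fun h => ?_) fun B' _ h => W2S (hb.OneB_ne hx K) hα hd h)
    (not_lt.2 (hb.OneB_finish hK lamS 1 1 (by norm_num) ?_ ?_ ?_))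
  · unfold lamS
    split_ifs with h0 h1 h3
    · norm_num
    · norm_num
    · norm_num
    · have : (0 : ℚ) < h := by exact_mod_cast Nat.pos_of_ne_zero h0
      positivity
  · intro h κ _
    have hκ' : (0 : ℚ) ≤ κ := Nat.cast_nonneg κ
    unfold lamS
    split_ifs with h0 h1 h3
    · subst h0
      push_cast
      linarith
    · have : (h : ℚ) ≤ 2 := by exact_mod_cast h1
      linarith
    · subst h3
      push_cast
      linarith
    · have h4 : (1 : ℚ) ≤ h := by exact_mod_cast Nat.pos_of_ne_zero h0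
      rw [← mul_div_assoc, div_le_iff₀ (by positivity)]
      nlinarith
  · linarith
  · intro hE n hn
    have hw' : (3 : ℚ) ≤ w := by exact_mod_cast hw.resolve_right hE
    rw [hm]
    nlinarith

theorem Bad.noO3 (hb : Bad k w S A B L M) {x : ℕ} (hx : x ∈ S)
    {K : Finset ℕ} (hK : Disjoint K S) (hc : K.card + 3 ≤ w)
    (hd : ∀ c, deg (rest (miss A L x) (out S L) K) (out S L) c < 1) : False := by
  have hm : (K.card : ℚ) + 3 ≤ w := by exact_mod_cast hc
  refine absurd (hb.cov hx K lamB (fun h => ?_) fun B' _ h => W3 (hb.OneB_ne hx K) hd h)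
    (not_lt.2 (hb.OneB_finish hK lamB (6 / 5) 1 (by norm_num) ?_ ?_ ?_))
  · unfold lamB
    split_ifs with h0
    · norm_num
    · positivity
  · intro h κ _
    have hκ' : (0 : ℚ) ≤ κ := Nat.cast_nonneg κ
    unfold lamB
    split_ifs with h0
    · subst h0
      push_cast
      linarith
    · have h4 : (1 : ℚ) ≤ h := by exact_mod_cast Nat.pos_of_ne_zero h0
      have h5 : (0 : ℚ) ≤ ((h : ℚ) - 3) * ((h : ℚ) - 4) := by
        rcases le_or_gt h 3 with h6 | h6
        · have : (h : ℚ) ≤ 3 := by exact_mod_cast h6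
          exact mul_nonneg_of_nonpos_of_nonpos (by linarith) (by linarith)
        · have : (4 : ℚ) ≤ h := by exact_mod_cast h6
          exact mul_nonneg (by linarith) (by linarith)
      have h6 : (0 : ℚ) ≤ κ * (((h : ℚ) - 1) * (h + 3)) :=
        mul_nonneg hκ' (mul_nonneg (by linarith) (by linarith))
      rw [← mul_div_assoc, div_le_iff₀ (by positivity)]
      nlinarith
  · linarith
  · intro _ n hn
    have h0 : (0 : ℚ) ≤ K.card := Nat.cast_nonneg _
    nlinarith

end Pool.Agent.P.MP_a09be5_co
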