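import Pool.Agent.P.MP_a09be5_co.WA

namespace Pool.Agent.P.MP_a09be5_co
open Finset

variable {ι : Type} [DecidableEq ι]

theorem WB_lamS_nonneg (h : ℕ) : 0 ≤ lamS h := by
  unfold lamS
  split_ifs <;> positivity

theorem WB_lamS_ge (h : ℕ) (h4 : 4 ≤ h) : lamS h = 7 / (12 * h) := by
  unfold lamS
  rw [if_neg (by omega), if_neg (by omega), if_neg (by omega)]

theorem WB_lamS_three : lamS 3 = 9 / 32 := by
  unfold lamS
  norm_num

theorem WB_lamS_small {h : ℕ} (h2 : h ≤ 2) : 1 / 2 ≤ lamS h := by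
  unfold lamS
  split_ifs <;> norm_num

omit [DecidableEq ι] in
/-- Crude bound for the conflict weight. -/
theorem WB_conf_two {A : Finset ι} {E : ι → Finset ℕ} (K : Finset ℕ) (hK : 1 ≤ K.card)
    (hE : ∀ u ∈ A, 2 ≤ (E u).card) :
    ∑ u ∈ A.filter (fun u => (E u ∩ K).card = 1), W (E u).card K.card ≤
      wt A E * (2 / ((K.card : ℚ) * (K.card + 1))) := by
  calc ∑ u ∈ A.filter (fun u => (E u ∩ K).card = 1), W (E u).card K.card
      ≤ ∑ u ∈ A, W (E u).card K.card :=
        sum_le_sum_of_subset_of_nonneg (filter_subset _ _) fun _ _ _ => W_nonneg _ _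
    _ ≤ ∑ u ∈ A, 1 / ((E u).card : ℚ) * (2 / ((K.card : ℚ) * (K.card + 1))) :=
        sum_le_sum fun u hu => W_le_two (hE u hu) hK
    _ = _ := by rw [wt, sum_mul]

omit [DecidableEq ι] in
/-- Refined bound for the conflict weight, counting pairs separately. -/
theorem WB_conf_three {A : Finset ι} {E : ι → Finset ℕ} (K : Finset ℕ) (hK : 1 ≤ K.card)
    (hE : ∀ u ∈ A, 2 ≤ (E u).card) :
    ∑ u ∈ A.filter (fun u => (E u ∩ K).card = 1), W (E u).card K.card ≤
      wt A E * (6 / ((K.card : ℚ) * (K.card + 1) * (K.card + 2))) +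
        ((A.filter fun u => (E u).card = 2).card : ℚ) *
          (((K.card : ℚ) - 1) / ((K.card : ℚ) * (K.card + 1) * (K.card + 2))) := by
  have hk : (1 : ℚ) ≤ K.card := by exact_mod_cast hK
  calc ∑ u ∈ A.filter (fun u => (E u ∩ K).card = 1), W (E u).card K.card
      ≤ ∑ u ∈ A, W (E u).card K.card :=
        sum_le_sum_of_subset_of_nonneg (filter_subset _ _) fun _ _ _ => W_nonneg _ _
    _ ≤ ∑ u ∈ A, (1 / ((E u).card : ℚ) * (6 / ((K.card : ℚ) * (K.card + 1) * (K.card + 2))) +
          if (E u).card = 2 then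
            (((K.card : ℚ) - 1) / ((K.card : ℚ) * (K.card + 1) * (K.card + 2))) else 0) := by
        refine sum_le_sum fun u hu => ?_
        by_cases h2 : (E u).card = 2
        · rw [if_pos h2]
          refine (W_le_two (hE u hu) hK).trans (le_of_eq ?_)
          rw [h2]
          field_simp
          push_cast
          ring
        · rw [if_neg h2, add_zero]
          exact W_le_three (by have := hE u hu; omega) hK
    _ = _ := by
        rw [sum_add_distrib, wt, sum_mul, ← sum_filter, sum_const, nsmul_eq_mul]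

omit [DecidableEq ι] in
theorem WB_pairs_le {A : Finset ι} {E : ι → Finset ℕ} :
    ((A.filter fun u => (E u).card = 2).card : ℚ) / 2 =
      wt (A.filter fun u => (E u).card = 2) E := by
  rw [wt, sum_congr rfl (g := fun _ => (1 / 2 : ℚ)), sum_const, nsmul_eq_mul]
  · ring
  · intro u hu
    rw [(mem_filter.1 hu).2]
    norm_num

omit [DecidableEq ι] in
/-- Erasing a colour that lies in no pair. -/
theorem WB_wt_erase {A : Finset ι} {E : ι → Finset ℕ} (p : ℕ)
    (h3 : ∀ u ∈ A, p ∈ E u → 3 ≤ (E u).card) :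
    wt A (fun u => (E u).erase p) ≤ wt A E + deg A E p / 2 := by
  unfold deg wt
  rw [sum_filter, sum_div, ← sum_add_distrib]
  refine sum_le_sum fun u hu => ?_
  beta_reduce
  by_cases hp : p ∈ E u
  · rw [if_pos hp, card_erase_of_mem hp]
    have h := h3 u hu hp
    obtain ⟨n, hn⟩ : ∃ n, (E u).card = n + 3 := ⟨(E u).card - 3, by omega⟩
    rw [hn, show n + 3 - 1 = n + 2 by omega]
    push_cast
    have hn0 : (0 : ℚ) ≤ n := Nat.cast_nonneg n
    rw [div_div, div_add_div _ _ (by positivity) (by positivity), div_le_div_iff₀ (by positivity)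
      (by positivity)]
    nlinarith
  · rw [if_neg hp, erase_eq_of_notMem hp]
    simp

theorem WB_pow_three (e : ℕ) (he : 3 ≤ e) : (1 / 2 : ℚ) ^ e ≤ 3 / 8 * (1 / (e : ℚ)) := by
  induction e, he using Nat.le_induction with
  | base => norm_num
  | succ n hn ih =>
    have hn' : (3 : ℚ) ≤ n := by exact_mod_cast hn
    rw [pow_succ]
    push_cast
    have : 3 / 8 * (1 / (n : ℚ)) * (1 / 2) ≤ 3 / 8 * (1 / ((n : ℚ) + 1)) := by
      rw [mul_assoc]
      refine mul_le_mul_of_nonneg_left ?_ (by norm_num)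
      rw [div_mul_div_comm, div_le_div_iff₀ (by positivity) (by positivity)]
      nlinarith
    nlinarith

theorem WB_pow_lam (h : ℕ) (h3 : 3 ≤ h) : (1 / 2 : ℚ) ^ h ≤ 5 / 8 * lamS h := by
  rcases h3.eq_or_lt with rfl | h4
  · rw [WB_lamS_three]
    norm_num
  · rw [WB_lamS_ge h h4]
    have hq : (4 : ℚ) ≤ h := by exact_mod_cast h4
    obtain ⟨n, rfl⟩ : ∃ n, h = n + 1 := ⟨h - 1, by omega⟩
    have h1 := WB_pow_three n (by omega)
    have hn : (3 : ℚ) ≤ n := by push_cast at hq; linarith
    rw [pow_succ]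
    push_cast
    have : 3 / 8 * (1 / (n : ℚ)) * (1 / 2) ≤ 5 / 8 * (7 / (12 * ((n : ℚ) + 1))) := by
      rw [show 3 / 8 * (1 / (n : ℚ)) * (1 / 2) = 3 / (16 * n) by field_simp; ring,
        show 5 / 8 * (7 / (12 * ((n : ℚ) + 1))) = 35 / (96 * (n + 1)) by field_simp; ring,
        div_le_div_iff₀ (by positivity) (by positivity)]
      nlinarith
    nlinarith

theorem WB_num_a1 {h k : ℕ} (h3 : 3 ≤ h) (hk : 3 ≤ k) (hhk : h ≤ k + 1) {α : ℚ}
    (hα : α ≤ 7 / 4) : α * (2 / ((k : ℚ) * (k + 1))) ≤ 2 * lamS h := by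
  have hk' : (3 : ℚ) ≤ k := by exact_mod_cast hk
  have h1 : α * (2 / ((k : ℚ) * (k + 1))) ≤ 7 / (6 * ((k : ℚ) + 1)) := by
    refine (mul_le_mul_of_nonneg_right hα (by positivity)).trans ?_
    rw [div_mul_div_comm, div_le_div_iff₀ (by positivity) (by positivity)]
    nlinarith
  refine h1.trans ?_
  rcases h3.eq_or_lt with rfl | h4
  · rw [WB_lamS_three, div_le_iff₀ (by positivity)]
    nlinarith
  · rw [WB_lamS_ge h h4]
    have hq : (4 : ℚ) ≤ h := by exact_mod_cast h4
    have hhk' : (h : ℚ) ≤ k + 1 := by exact_mod_cast hhk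
    rw [show 2 * (7 / (12 * (h : ℚ))) = 7 / (6 * h) by field_simp; ring,
      div_le_div_iff₀ (by positivity) (by positivity)]
    nlinarith

theorem WB_num_a2 {h : ℕ} (h3 : 3 ≤ h) {α : ℚ} (hα : α ≤ 5 / 2) :
    α * (2 / ((h : ℚ) * (h + 1))) ≤ 2 * lamS h := by
  have hq : (3 : ℚ) ≤ h := by exact_mod_cast h3
  refine (mul_le_mul_of_nonneg_right hα (by positivity)).trans ?_
  rcases h3.eq_or_lt with rfl | h4
  · rw [WB_lamS_three]
    norm_num
  · rw [WB_lamS_ge h h4]
    have hq : (4 : ℚ) ≤ h := by exact_mod_cast h4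
    rw [show 2 * (7 / (12 * (h : ℚ))) = 7 / (6 * h) by field_simp; ring, div_mul_div_comm,
      div_le_div_iff₀ (by positivity) (by positivity)]
    nlinarith

theorem WB_num_b1 {h : ℕ} (h3 : 3 ≤ h) {α n : ℚ} (hα : α ≤ 2) (hn : n ≤ 1) :
    α * (6 / ((h : ℚ) * (h + 1) * (h + 2))) + n * (((h : ℚ) - 1) / ((h : ℚ) * (h + 1) * (h + 2)))
      ≤ lamS h := by
  have hq : (3 : ℚ) ≤ h := by exact_mod_cast h3
  have e1 : α * (6 / ((h : ℚ) * (h + 1) * (h + 2))) ≤ 2 * (6 / ((h : ℚ) * (h + 1) * (h + 2))) :=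
    mul_le_mul_of_nonneg_right hα (by positivity)
  have e2 : n * (((h : ℚ) - 1) / ((h : ℚ) * (h + 1) * (h + 2))) ≤
      1 * (((h : ℚ) - 1) / ((h : ℚ) * (h + 1) * (h + 2))) :=
    mul_le_mul_of_nonneg_right hn (div_nonneg (by linarith) (by positivity))
  refine (add_le_add e1 e2).trans ?_
  rcases h3.eq_or_lt with rfl | h4
  · rw [WB_lamS_three]
    norm_num
  · rw [WB_lamS_ge h h4]
    have hq : (4 : ℚ) ≤ h := by exact_mod_cast h4
    rw [show 2 * (6 / ((h : ℚ) * (h + 1) * (h + 2))) +
        1 * (((h : ℚ) - 1) / ((h : ℚ) * (h + 1) * (h + 2))) =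
        (h + 11) / ((h : ℚ) * ((h + 1) * (h + 2))) by field_simp; ring,
      div_le_div_iff₀ (by positivity) (by positivity)]
    have : 12 * ((h : ℚ) + 11) ≤ 7 * ((h + 1) * (h + 2)) := by nlinarith
    nlinarith

/-- Case (a): after the colour `p` went to side `B`. -/
theorem WB_case_a {A B : Finset ι} {E H : ι → Finset ℕ} (hE : ∀ u ∈ A, (E u).Nonempty)
    (hα : wt A E ≤ 2) (hd : ∀ c, deg A E c < 1) (hH : ∀ v ∈ B, 3 ≤ (H v).card)
    (hβ : ∑ v ∈ B, 2 * lamS (H v).card < 1) (p : ℕ) :
    Split A B (fun u => (E u).erase p) H := by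
  have h2 := two_le_of_deg hE hd
  by_cases hp : ∃ u0 ∈ A, (E u0).card = 2 ∧ p ∈ E u0
  · obtain ⟨u0, hu0, hc0, hp0⟩ := hp
    have hone : ((E u0).erase p).card = 1 := by rw [card_erase_of_mem hp0, hc0]
    obtain ⟨q, hq⟩ := card_eq_one.1 hone
    have hq0 : q ∈ (E u0).erase p := by rw [hq]; exact mem_singleton_self q
    apply split_takeA1 q
    set A2 := A.filter fun u => q ∉ (E u).erase p with hA2
    have hsub : A2 ⊆ A.erase u0 := by
      intro u hu
      rw [hA2, mem_filter] at hu
      refine mem_erase.2 ⟨?_, hu.1⟩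
      rintro rfl
      exact hu.2 hq0
    have h3 : ∀ u ∈ A2, p ∈ E u → 3 ≤ (E u).card := by
      intro u hu hpu
      have hu' := mem_erase.1 (hsub hu)
      by_contra hlt
      have := h2 u hu'.2
      exact hu'.1 (pair_unique hd hu'.2 hu0 (by omega) hc0 hpu hp0)
    have he : ∀ u ∈ A2, 2 ≤ ((E u).erase p).card := by
      intro u hu
      by_cases hpu : p ∈ E u
      · rw [card_erase_of_mem hpu]
        have := h3 u hu hpu
        omega
      · rw [erase_eq_of_notMem hpu]
        exact h2 u (mem_erase.1 (hsub hu)).2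
    have hw1 : wt A2 E ≤ 3 / 2 := by
      have e1 : wt A2 E ≤ wt (A.erase u0) E := wt_mono hsub E
      have e2 : wt (A.erase u0) E + 1 / ((E u0).card : ℚ) = wt A E := sum_erase_add _ _ hu0
      rw [hc0] at e2
      push_cast at e2
      linarith
    have hw2 : deg A2 E p < 1 / 2 := by
      have hu0' : u0 ∈ A.filter fun u => p ∈ E u := mem_filter.2 ⟨hu0, hp0⟩
      have e1 : deg A2 E p ≤ wt ((A.filter fun u => p ∈ E u).erase u0) E := by
        refine wt_mono ?_ E
        intro u hu
        rw [mem_filter] at hu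
        have hu' := mem_erase.1 (hsub hu.1)
        exact mem_erase.2 ⟨hu'.1, mem_filter.2 ⟨hu'.2, hu.2⟩⟩
      have e2 : wt ((A.filter fun u => p ∈ E u).erase u0) E + 1 / ((E u0).card : ℚ) =
          deg A E p := sum_erase_add _ _ hu0'
      rw [hc0] at e2
      push_cast at e2
      linarith [hd p]
    have hw : wt A2 (fun u => (E u).erase p) < 7 / 4 := by
      have := WB_wt_erase p h3
      linarith
    have hn : ((A2.filter fun u => ((E u).erase p).card = 2).card : ℚ) ≤ 3 := by
      have e1 := WB_pairs_le (A := A2) (E := fun u => (E u).erase p)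
      have e2 : wt (A2.filter fun u => ((E u).erase p).card = 2) (fun u => (E u).erase p) ≤
          wt A2 (fun u => (E u).erase p) := wt_mono (filter_subset _ _) _
      have e3 : ((A2.filter fun u => ((E u).erase p).card = 2).card : ℚ) < 4 := by linarith
      have e4 : (A2.filter fun u => ((E u).erase p).card = 2).card < 4 := by exact_mod_cast e3
      exact_mod_cast Nat.lt_succ_iff.1 e4
    have hk : ∀ v ∈ B, (H v).card ≤ ((H v).erase q).card + 1 := by
      intro v _
      have := pred_card_le_card_erase (s := H v) (a := q)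
      omega
    refine pluhar_of_le (fun u hu => card_pos.1 (by have := he u hu; omega))
      (fun v hv => card_pos.1 (by have := hk v hv; have := hH v hv; omega))
      (fun v => 2 * lamS (H v).card) (fun v hv => ?_) hβ
    have hk1 := hk v hv
    have hk2 := hH v hv
    by_cases hk3 : 3 ≤ ((H v).erase q).card
    · exact (WB_conf_two _ (by omega) he).trans (WB_num_a1 hk2 hk3 hk1 hw.le)
    · have e1 : ((H v).erase q).card = 2 := by omega
      have e2 : (H v).card = 3 := by omega
      refine (WB_conf_three _ (by omega) he).trans ?_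
      rw [e1, e2, WB_lamS_three]
      push_cast
      linarith
  · have h3 : ∀ u ∈ A, p ∈ E u → 3 ≤ (E u).card := by
      intro u hu hpu
      by_contra hlt
      have := h2 u hu
      exact hp ⟨u, hu, by omega, hpu⟩
    have he : ∀ u ∈ A, 2 ≤ ((E u).erase p).card := by
      intro u hu
      by_cases hpu : p ∈ E u
      · rw [card_erase_of_mem hpu]
        have := h3 u hu hpu
        omega
      · rw [erase_eq_of_notMem hpu]
        exact h2 u hu
    have hw : wt A (fun u => (E u).erase p) ≤ 5 / 2 := by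
      have := WB_wt_erase p h3
      linarith [hd p]
    refine pluhar_of_le (fun u hu => card_pos.1 (by have := he u hu; omega))
      (fun v hv => card_pos.1 (by have := hH v hv; omega))
      (fun v => 2 * lamS (H v).card) (fun v hv => ?_) hβ
    have hk2 := hH v hv
    exact (WB_conf_two _ (by omega) he).trans (WB_num_a2 hk2 hw)

/-- Case (b): all sets of side `B` have at least three colours. -/
theorem WB_case_b {A B : Finset ι} {E H : ι → Finset ℕ} (hE : ∀ u ∈ A, (E u).Nonempty)
    (hα : wt A E ≤ 2) (hd : ∀ c, deg A E c < 1) (hH : ∀ v ∈ B, 3 ≤ (H v).card)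
    (hβ : ∑ v ∈ B, lamS (H v).card < 1) : Split A B E H := by
  have h2 := two_le_of_deg hE hd
  by_cases hn : (A.filter fun u => (E u).card = 2).card ≤ 1
  · refine pluhar_of_le hE (fun v hv => card_pos.1 (by have := hH v hv; omega))
      (fun v => lamS (H v).card) (fun v hv => ?_) hβ
    have hk2 := hH v hv
    exact (WB_conf_three _ (by omega) h2).trans (WB_num_b1 hk2 hα (by exact_mod_cast hn))
  · have hn2 : (2 : ℚ) ≤ (A.filter fun u => (E u).card = 2).card := by
      exact_mod_cast Nat.succ_le_of_lt (not_le.1 hn)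
    refine lemmaU ((A.filter fun u => (E u).card = 2).image E) ?_ ?_ ?_
    · intro P hP
      obtain ⟨u, hu, rfl⟩ := mem_image.1 hP
      exact (mem_filter.1 hu).2
    · intro P hP Q hQ hPQ
      obtain ⟨u, hu, rfl⟩ := mem_image.1 hP
      obtain ⟨u', hu', rfl⟩ := mem_image.1 hQ
      rw [mem_filter] at hu hu'
      rw [disjoint_left]
      intro c hc hc'
      exact hPQ (congrArg E (pair_unique hd hu.1 hu'.1 hu.2 hu'.2 hc hc'))
    · have e1 : ∑ u ∈ A.filter (fun u => E u ∉ (A.filter fun u => (E u).card = 2).image E),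
          (1 / 2 : ℚ) ^ (E u).card ≤ 3 / 8 * wt (A.filter fun u => ¬ (E u).card = 2) E := by
        calc _ ≤ ∑ u ∈ A.filter (fun u => ¬ (E u).card = 2), (1 / 2 : ℚ) ^ (E u).card := by
              refine sum_le_sum_of_subset_of_nonneg ?_ fun _ _ _ => by positivity
              intro u hu
              rw [mem_filter] at hu ⊢
              exact ⟨hu.1, fun h => hu.2 (mem_image_of_mem E (mem_filter.2 ⟨hu.1, h⟩))⟩
          _ ≤ ∑ u ∈ A.filter (fun u => ¬ (E u).card = 2), 3 / 8 * (1 / ((E u).card : ℚ)) := by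
              refine sum_le_sum fun u hu => WB_pow_three _ ?_
              rw [mem_filter] at hu
              have := h2 u hu.1
              omega
          _ = _ := by rw [wt, mul_sum]
      have e2 : ∑ v ∈ B.filter (fun v => H v ∉ (A.filter fun u => (E u).card = 2).image E),
          (1 / 2 : ℚ) ^ (H v).card ≤ 5 / 8 * ∑ v ∈ B, lamS (H v).card := by
        calc _ ≤ ∑ v ∈ B, (1 / 2 : ℚ) ^ (H v).card :=
              sum_le_sum_of_subset_of_nonneg (filter_subset _ _) fun _ _ _ => by positivity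
          _ ≤ ∑ v ∈ B, 5 / 8 * lamS (H v).card :=
              sum_le_sum fun v hv => WB_pow_lam _ (hH v hv)
          _ = _ := by rw [mul_sum]
      have e3 := wt_filter_add A E fun u => (E u).card = 2
      have e4 := WB_pairs_le (A := A) (E := E)
      linarith

theorem W2S {A B : Finset ι} {E H : ι → Finset ℕ} (hE : ∀ u ∈ A, (E u).Nonempty)
    (hα : wt A E ≤ 2) (hd : ∀ c, deg A E c < 1) (hβ : ∑ v ∈ B, lamS (H v).card < 1) :
    Split A B E H := by
  by_cases h : ∃ v0 ∈ B, (H v0).card ≤ 2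
  · obtain ⟨v0, hv0, hc0⟩ := h
    have e0 : ∑ v ∈ B.erase v0, lamS (H v).card + lamS (H v0).card = ∑ v ∈ B, lamS (H v).card :=
      sum_erase_add _ _ hv0
    have e1 : 0 ≤ ∑ v ∈ B.erase v0, lamS (H v).card := sum_nonneg fun _ _ => WB_lamS_nonneg _
    have e2 := WB_lamS_small hc0
    have hne : (H v0).Nonempty := by
      rw [← card_pos]
      by_contra h0
      have h0' : (H v0).card = 0 := by omega
      rw [h0'] at e0
      have : lamS 0 = 1 := by simp [lamS]
      linarith
    obtain ⟨p, hp⟩ := hne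
    apply split_takeB1 p
    have hsub : (B.filter fun v => p ∉ H v) ⊆ B.erase v0 := by
      intro v hv
      rw [mem_filter] at hv
      refine mem_erase.2 ⟨?_, hv.1⟩
      rintro rfl
      exact hv.2 hp
    refine WB_case_a hE hα hd (fun v hv => ?_) ?_ p
    · by_contra hlt
      have e3 := WB_lamS_small (h := (H v).card) (by omega)
      have e4 : lamS (H v).card ≤ ∑ v ∈ B.erase v0, lamS (H v).card :=
        single_le_sum (f := fun v => lamS (H v).card) (fun _ _ => WB_lamS_nonneg _) (hsub hv)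
      linarith
    · rw [← mul_sum]
      have e4 : ∑ v ∈ B.filter (fun v => p ∉ H v), lamS (H v).card ≤
          ∑ v ∈ B.erase v0, lamS (H v).card :=
        sum_le_sum_of_subset_of_nonneg hsub fun _ _ _ => WB_lamS_nonneg _
      linarith
  · refine WB_case_b hE hα hd (fun v hv => ?_) hβ
    by_contra hlt
    exact h ⟨v, hv, by omega⟩

end Pool.Agent.P.MP_a09be5_co
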