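import Pool.Agent.P.MP_a09be5_co.OneA
import Pool.Agent.P.MP_a09be5_co.WB

namespace Pool.Agent.P.MP_a09be5_co
open Finset

variable {ι : Type} [DecidableEq ι]

variable {k w : ℕ} {S : Finset ℕ} {A B : Finset ι} {L M : ι → Finset ℕ}

theorem OneC_arith (k n1 n2 n3 n4 U : ℕ) (hk : 3 ≤ k) (hn : n1 + n2 + n3 + n4 = k)
    (hU : 1 ≤ U + n4)
    (h1 : (n1 : ℚ) / 2 + 5 * n3 / 32 + 5 * n4 / 12 + 7 / (12 * k) ≤ 1)
    (h2 : 4 * ((k : ℚ) - 1) ≤ 3 * n1 + 2 * n2 + 3 * n3 + ((k : ℚ) - 1) * n4 - U)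
    (h3 : k = 3 → (8 : ℚ) ≤ 3 * n1 + 2 * n2 + 2 * n3) : False := by
  have hk0 : (0 : ℚ) < k := by exact_mod_cast (by omega : 0 < k)
  have hpos : (0 : ℚ) < 7 / (12 * k) := by positivity
  have a1 : 48 * n1 + 15 * n3 + 40 * n4 < 96 := by
    have : (48 : ℚ) * n1 + 15 * n3 + 40 * n4 < 96 := by linarith
    exact_mod_cast this
  have a2 : k = 4 → 48 * n1 + 15 * n3 + 40 * n4 ≤ 82 := by
    intro h4
    rw [h4] at h1
    have : (48 : ℚ) * n1 + 15 * n3 + 40 * n4 ≤ 82 := by push_cast at h1; linarith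
    exact_mod_cast this
  have a3 : k = 3 → 8 ≤ 3 * n1 + 2 * n2 + 2 * n3 := fun h => by exact_mod_cast h3 h
  have hn4 : n4 = 0 ∨ n4 = 1 ∨ n4 = 2 := by omega
  rcases hn4 with h | h | h
  · subst h
    have : 4 * k + U ≤ 3 * n1 + 2 * n2 + 3 * n3 + 4 := by
      have : (4 : ℚ) * k + U ≤ 3 * n1 + 2 * n2 + 3 * n3 + 4 := by push_cast at h2; linarith
      exact_mod_cast this
    omega
  · subst h
    have : 3 * k + U ≤ 3 * n1 + 2 * n2 + 3 * n3 + 3 := by
      have : (3 : ℚ) * k + U ≤ 3 * n1 + 2 * n2 + 3 * n3 + 3 := by push_cast at h2; linarith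
      exact_mod_cast this
    omega
  · subst h
    have : 2 * k + U ≤ 3 * n1 + 2 * n2 + 3 * n3 + 2 := by
      have : (2 : ℚ) * k + U ≤ 3 * n1 + 2 * n2 + 3 * n3 + 2 := by push_cast at h2; linarith
      exact_mod_cast this
    omega

theorem OneC_lam_ge {h k : ℕ} (h1 : 1 ≤ h) (hk : h ≤ k) (h3 : 3 ≤ k) :
    (7 : ℚ) / (12 * k) ≤ lamS h := by
  have hk3 : (3 : ℚ) ≤ k := by exact_mod_cast h3
  have hb : (7 : ℚ) / (12 * k) ≤ 7 / 36 :=
    div_le_div_of_nonneg_left (by norm_num) (by norm_num) (by linarith)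
  unfold lamS
  split_ifs with a b c
  · linarith
  · linarith
  · linarith
  · have hh : (0 : ℚ) < h := by exact_mod_cast h1
    have hhk : (h : ℚ) ≤ k := by exact_mod_cast hk
    exact div_le_div_of_nonneg_left (by norm_num) (by positivity) (by linarith)

theorem OneC_mul_lam {h : ℕ} (h1 : 1 ≤ h) : (h : ℚ) * lamS h =
    1 - (if h = 1 then 1 else 0) / 2 - 5 * (if h = 3 then 1 else 0) / 32 -
      5 * (if 4 ≤ h then 1 else 0) / 12 := by
  rcases (by omega : h = 1 ∨ h = 2 ∨ h = 3 ∨ 4 ≤ h) with rfl | rfl | rfl | h4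
  · norm_num [lamS]
  · norm_num [lamS]
  · norm_num [lamS]
  · have hh : (h : ℚ) ≠ 0 := by exact_mod_cast (by omega : h ≠ 0)
    rw [lamS, if_neg (by omega), if_neg (by omega), if_neg (by omega), if_neg (by omega),
      if_neg (by omega), if_pos h4]
    field_simp
    norm_num

omit [DecidableEq ι] in
theorem OneC_sum (hx : ∀ v ∈ B, (M v).card = S.card) {x : ℕ} (hxS : x ∈ S) (f : ι → ℚ) (c : ℚ)
    (hc : ∀ y ∈ S.erase x, c ≤ ∑ v ∈ miss B M y, f v) :
    c * ((S.card : ℚ) - 1) ≤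
      ∑ v ∈ B, (((out S M v).card : ℚ) - if x ∉ M v then 1 else 0) * f v := by
  classical
  have e1 := sum_miss hx f
  rw [← add_sum_erase S _ hxS] at e1
  have e2 : ∑ v ∈ miss B M x, f v = ∑ v ∈ B, (if x ∉ M v then 1 else 0) * f v := by
    rw [miss, sum_filter]
    exact sum_congr rfl fun v _ => by split_ifs <;> simp
  have e3 := card_nsmul_le_sum (S.erase x) _ c hc
  rw [card_erase_of_mem hxS, nsmul_eq_mul, Nat.cast_sub (card_pos.2 ⟨x, hxS⟩)] at e3
  simp only [sub_mul, sum_sub_distrib]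
  rw [← e1, ← e2]
  push_cast at e3
  linarith

theorem Bad.noO2hard (hb : Bad k w S A B L M) (hw : w = 2) (he : ¬ Easy k w S B M) {x : ℕ}
    (hx : x ∈ S) (hd : ∀ c, deg (miss A L x) (out S L) c < 1)
    (hα : wt (miss A L x) (out S L) ≤ 2) : False := by
  obtain ⟨hne, hkB⟩ := hb.hard_ne he
  have hk := hb.hk
  have hBk : B.card = k := by
    have := hb.hB
    subst hw
    omega
  have hM : ∀ v ∈ B, (M v).card = S.card := fun v hv => by rw [hb.hM v hv, hb.hS]
  have h1 : ∀ v ∈ B, 1 ≤ (out S M v).card := fun v hv => card_pos.2 (hne v hv)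
  have hlt : ∀ v ∈ B, (out S M v).card ≤ k ∧ (x ∈ M v → (out S M v).card + 1 ≤ k) := by
    intro v hv
    rw [card_out (hM v hv), ← hb.hS]
    refine ⟨card_le_card sdiff_subset, fun hxv => card_lt_card ⟨sdiff_subset, fun hs => ?_⟩⟩
    exact (mem_sdiff.1 (hs hx)).2 hxv
  have hE : ∀ u ∈ miss A L x, (out S L u).Nonempty := by
    intro u hu
    rw [mem_miss] at hu
    rw [← card_pos, card_out (by rw [hb.hL u hu.1, hb.hS]), card_pos]
    exact ⟨x, mem_sdiff.2 ⟨hx, hu.2⟩⟩
  have hns : ∀ y ∈ S.erase x, ¬ Split (miss A L x) (miss B M y) (out S L) (out S M) := by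
    intro y hy hs
    rw [mem_erase] at hy
    exact hb.bad (optAB hx hy.2 hy.1.symm hs)
  have ha : ∀ y ∈ S.erase x, (1 : ℚ) ≤ ∑ v ∈ miss B M y, lamS (out S M v).card := by
    intro y hy
    by_contra hc
    exact hns y hy (W2S hE hα hd (not_le.1 hc))
  have hψ : ∀ y ∈ S.erase x,
      (4 : ℚ) ≤ ∑ v ∈ miss B M y, (if (out S M v).card = 1 then 3 else 1 : ℚ) := by
    intro y hy
    have hge : ∀ v ∈ miss B M y, (1 : ℚ) ≤ if (out S M v).card = 1 then 3 else 1 := by
      intro v _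
      split_ifs <;> norm_num
    by_cases hall : ∀ v ∈ miss B M y, 2 ≤ (out S M v).card
    · have h4 : 4 ≤ (miss B M y).card := by
        by_contra hc
        exact hns y hy (R3 hE hα hd (by omega) hall)
      have := card_nsmul_le_sum _ _ _ hge
      rw [nsmul_eq_mul, mul_one] at this
      have h4' : (4 : ℚ) ≤ (miss B M y).card := by exact_mod_cast h4
      linarith
    · push Not at hall
      obtain ⟨v0, hv0, hlt0⟩ := hall
      have e0 : (out S M v0).card = 1 := by
        have := h1 v0 (mem_miss.1 hv0).1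
        omega
      have hne' : ((miss B M y).erase v0).Nonempty := by
        rw [nonempty_iff_ne_empty]
        intro hem
        have := ha y hy
        rw [← add_sum_erase _ _ hv0, hem, e0] at this
        norm_num [lamS] at this
      rw [← add_sum_erase _ _ hv0, if_pos e0]
      have := card_nsmul_le_sum ((miss B M y).erase v0) _ _
        (fun v hv => hge v (mem_of_mem_erase hv))
      rw [nsmul_eq_mul, mul_one] at this
      have h1' : (1 : ℚ) ≤ ((miss B M y).erase v0).card := by exact_mod_cast card_pos.2 hne'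
      linarith
  have s1 := OneC_sum hM hx _ 1 ha
  have s2 := OneC_sum hM hx _ 4 hψ
  rw [hb.hS] at s1 s2
  obtain ⟨v0, hv0, hxv0⟩ := hb.ncB x
  have cnt : ∀ (q : ι → Prop) [DecidablePred q],
      ((B.filter q).card : ℚ) = ∑ v ∈ B, if q v then 1 else 0 := by
    intro q _
    rw [card_filter]
    push_cast
    rfl
  refine OneC_arith k (B.filter fun v => (out S M v).card = 1).card
    (B.filter fun v => (out S M v).card = 2).card (B.filter fun v => (out S M v).card = 3).card
    (B.filter fun v => 4 ≤ (out S M v).card).card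
    (B.filter fun v => x ∉ M v ∧ (out S M v).card ≤ 3).card hk ?_ ?_ ?_ ?_ ?_
  · rw [← hBk]
    simp only [card_filter, ← sum_add_distrib]
    rw [card_eq_sum_ones]
    refine sum_congr rfl fun v hv => ?_
    have := h1 v hv
    split_ifs <;> omega
  · by_cases h3 : (out S M v0).card ≤ 3
    · have : 0 < (B.filter fun v => x ∉ M v ∧ (out S M v).card ≤ 3).card :=
        card_pos.2 ⟨v0, mem_filter.2 ⟨hv0, hxv0, h3⟩⟩
      omega
    · have : 0 < (B.filter fun v => 4 ≤ (out S M v).card).card :=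
        card_pos.2 ⟨v0, mem_filter.2 ⟨hv0, by omega⟩⟩
      omega
  · simp only [cnt]
    have hl : ∀ v ∈ B, (7 : ℚ) / (12 * k) ≤ lamS (out S M v).card :=
      fun v hv => OneC_lam_ge (h1 v hv) (hlt v hv).1 hk
    have hpos : (0 : ℚ) ≤ 7 / (12 * k) := by positivity
    have t1 : (7 : ℚ) / (12 * k) ≤
        ∑ v ∈ B, (if x ∉ M v then 1 else 0 : ℚ) * lamS (out S M v).card := by
      refine le_trans ?_ (single_le_sum (f := fun v =>
        (if x ∉ M v then 1 else 0 : ℚ) * lamS (out S M v).card) (fun v hv => ?_) hv0)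
      · simpa [hxv0] using hl v0 hv0
      · exact mul_nonneg (by split_ifs <;> norm_num) (hpos.trans (hl v hv))
    simp only [sub_mul, sum_sub_distrib] at s1
    rw [sum_congr rfl fun v hv => OneC_mul_lam (h1 v hv)] at s1
    simp only [sum_sub_distrib, ← sum_div, ← mul_sum, sum_const, nsmul_eq_mul, hBk] at s1
    linarith
  · simp only [cnt]
    refine s2.trans ?_
    simp only [mul_sum, ← sum_add_distrib, ← sum_sub_distrib]
    refine sum_le_sum fun v hv => ?_
    have a1 := h1 v hv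
    obtain ⟨a2, a3⟩ := hlt v hv
    generalize (out S M v).card = h at a1 a2 a3
    rcases (by omega : h = 1 ∨ h = 2 ∨ h = 3 ∨ 4 ≤ h) with rfl | rfl | rfl | h4
    · by_cases hxv : x ∈ M v <;> norm_num [hxv]
    · by_cases hxv : x ∈ M v <;> norm_num [hxv]
    · by_cases hxv : x ∈ M v <;> norm_num [hxv]
    · have b1 : h ≠ 1 := by omega
      have b2 : h ≠ 2 := by omega
      have b3 : h ≠ 3 := by omega
      have b4 : ¬ h ≤ 3 := by omega
      by_cases hxv : x ∈ M v
      · have : (h : ℚ) + 1 ≤ k := by exact_mod_cast a3 hxv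
        simp [hxv, b1, b2, b3, h4]
        linarith
      · have : (h : ℚ) ≤ k := by exact_mod_cast a2
        simp [hxv, b1, b2, b3, b4, h4, this]
  · intro hk3
    simp only [cnt]
    rw [hk3] at s2 hlt
    refine le_trans (by norm_num) (s2.trans ?_)
    simp only [mul_sum, ← sum_add_distrib]
    refine sum_le_sum fun v hv => ?_
    have a1 := h1 v hv
    obtain ⟨a2, a3⟩ := hlt v hv
    generalize (out S M v).card = h at a1 a2 a3
    rcases (by omega : h = 1 ∨ h = 2 ∨ h = 3) with rfl | rfl | rfl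
    · by_cases hxv : x ∈ M v <;> norm_num [hxv]
    · by_cases hxv : x ∈ M v <;> norm_num [hxv]
    · by_cases hxv : x ∈ M v
      · exact absurd (a3 hxv) (by norm_num)
      · norm_num [hxv]

end Pool.Agent.P.MP_a09be5_co
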