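import Pool.Agent.P.MP_a09be5_co.OneA

/-! Covering arguments for case one. -/

namespace Pool.Agent.P.MP_a09be5_co
open Finset

variable {ι : Type} [DecidableEq ι]

variable {k w : ℕ} {S : Finset ℕ} {A B : Finset ι} {L M : ι → Finset ℕ}

theorem OneD_AB (hb : Bad k w S A B L M) {x y : ℕ} (hx : x ∈ S) (hy : y ∈ S) (hxy : x ≠ y)
    {X : Finset ℕ} (hX : ∀ u ∈ miss A L x, ∃ c ∈ out S L u, c ∈ X) :
    ∃ v ∈ B, y ∉ M v ∧ out S M v ⊆ X := by
  by_contra hn
  push Not at hn
  exact hb.bad (optAB hx hy hxy (split_of_transversal X hX fun v hv =>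
    hn v (mem_miss.1 hv).1 (mem_miss.1 hv).2))

theorem OneD_BB (hb : Bad k w S A B L M) {x y : ℕ} (hx : x ∈ S) (hy : y ∈ S) (hxy : x ≠ y)
    {X : Finset ℕ} (hX : ∀ u ∈ A, ∃ c ∈ out S L u, c ∈ X) :
    ∃ v ∈ B, x ∉ M v ∧ y ∉ M v ∧ out S M v ⊆ X := by
  by_contra hn
  push Not at hn
  exact hb.bad (optBB hx hy hxy (split_of_transversal X hX fun v hv =>
    hn v (mem_miss.1 (mem_miss.1 hv).1).1 (mem_miss.1 (mem_miss.1 hv).1).2 (mem_miss.1 hv).2))

theorem OneD_card (hb : Bad k w S A B L M) {v : ι} (hv : v ∈ B) :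
    (out S M v).card = (S \ M v).card := card_out ((hb.hM v hv).trans hb.hS.symm)

theorem OneD_cover (hb : Bad k w S A B L M) {T : Finset ℕ} (hT : T ⊆ S) {V : Finset ι} (hV : V ⊆ B)
    (h : ∀ y ∈ T, ∃ v ∈ V, y ∉ M v) : T.card ≤ ∑ v ∈ V, (out S M v).card := by
  rw [sum_congr rfl fun v hv => OneD_card hb (hV hv)]
  refine le_trans (card_le_card ?_) card_biUnion_le
  intro y hy
  obtain ⟨v, hv, hm⟩ := h y hy
  exact mem_biUnion.2 ⟨v, hv, mem_sdiff.2 ⟨hT hy, hm⟩⟩

theorem Bad.rest_easy (hb : Bad k w S A B L M) (he : Easy k w S B M)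
    (h0 : ∀ u ∈ A, (out S L u).Nonempty) (K : ℕ → Finset ℕ)
    (hK : ∀ x ∈ S, (K x).card ≤ w ∧ ∀ u ∈ miss A L x, ∃ c ∈ out S L u, c ∈ K x) : False := by
  have hk := hb.hk
  have hw := hb.hw
  have hwk := hb.hwk
  unfold Easy at he
  set B' := B.filter fun v => (out S M v).Nonempty with hB'
  set V : ℕ → Finset ι := fun x => B'.filter fun v => out S M v ⊆ K x with hV
  set N : ℕ → Finset ι := fun x => (V x).filter fun v => (out S M v).card = w with hN
  set G := B'.filter fun v => w < (out S M v).card with hG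
  have hcov : ∀ x ∈ S, k - 1 ≤ (w - 1) * (V x).card + (N x).card := by
    intro x hx
    have h1 := OneD_cover hb (erase_subset x S) (V := V x)
      ((filter_subset _ _).trans (filter_subset _ _)) (by
        intro y hy
        obtain ⟨v, hv, hm, hs⟩ := OneD_AB hb hx (mem_of_mem_erase hy) (ne_of_mem_erase hy).symm
          (hK x hx).2
        refine ⟨v, mem_filter.2 ⟨mem_filter.2 ⟨hv, ?_⟩, hs⟩, hm⟩
        rw [← card_pos, OneD_card hb hv, card_pos]
        exact ⟨y, mem_sdiff.2 ⟨mem_of_mem_erase hy, hm⟩⟩)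
    rw [card_erase_of_mem hx, hb.hS] at h1
    refine h1.trans ?_
    have eN : (N x).card = ∑ v ∈ V x, if (out S M v).card = w then 1 else 0 := card_filter _ _
    rw [eN, mul_comm, ← smul_eq_mul, ← sum_const, ← sum_add_distrib]
    refine sum_le_sum fun v hv => ?_
    have := (card_le_card (mem_filter.1 hv).2).trans (hK x hx).1
    split_ifs <;> omega
  have hpair : ∀ x ∈ S, ∀ x' ∈ S, K x ≠ K x' → G.card + (N x').card ≤ (N x).card := by
    intro x hx x' hx' hne
    have d1 : Disjoint (V x) G := by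
      rw [disjoint_left]
      intro v h1 h2
      have := (card_le_card (mem_filter.1 h1).2).trans (hK x hx).1
      have := (mem_filter.1 h2).2
      omega
    have d2 : Disjoint (V x ∪ G) (N x') := by
      rw [disjoint_left]
      intro v h1 h2
      have e1 := (mem_filter.1 h2).2
      rcases mem_union.1 h1 with h1 | h1
      · have a1 := eq_of_subset_of_card_le (mem_filter.1 h1).2 (by rw [e1]; exact (hK x hx).1)
        have a2 := eq_of_subset_of_card_le (mem_filter.1 (mem_filter.1 h2).1).2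
          (by rw [e1]; exact (hK x' hx').1)
        exact hne (a1.symm.trans a2)
      · have := (mem_filter.1 h1).2
        omega
    have s : (V x ∪ G ∪ N x').card ≤ B'.card := card_le_card (union_subset
      (union_subset (filter_subset _ _) (filter_subset _ _))
      ((filter_subset _ _).trans (filter_subset _ _)))
    rw [card_union_of_disjoint d2, card_union_of_disjoint d1] at s
    have h1 := hcov x hx
    have h2 : ((V x).card + G.card + (N x').card) * (w - 1) ≤ B'.card * (w - 1) :=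
      Nat.mul_le_mul_right _ s
    have h3 : (G.card + (N x').card) * 1 ≤ (G.card + (N x').card) * (w - 1) :=
      Nat.mul_le_mul_left _ (by omega)
    rw [add_assoc, add_mul, mul_comm (V x).card] at h2
    omega
  have hT : ∀ v ∈ B', out S M v ⊆ S.biUnion K → (out S M v).card ≤ w := by
    intro v hv hs
    by_cases hall : ∀ x ∈ S, ∀ x' ∈ S, K x = K x'
    · obtain ⟨x, hx⟩ : S.Nonempty := card_pos.1 (by rw [hb.hS]; omega)
      refine (card_le_card (hs.trans ?_)).trans (hK x hx).1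
      exact biUnion_subset.2 fun y hy => (hall y hy x hx).le
    · push Not at hall
      obtain ⟨x, hx, x', hx', hne⟩ := hall
      have h1 := hpair x hx x' hx' hne
      have h2 := hpair x' hx' x hx hne.symm
      by_contra hn
      have : 0 < G.card := card_pos.2 ⟨v, mem_filter.2 ⟨hv, by omega⟩⟩
      omega
  have htr : ∀ u ∈ A, ∃ c ∈ out S L u, c ∈ S.biUnion K := by
    intro u hu
    have := h0 u hu
    rw [← card_pos, card_out ((hb.hL u hu).trans hb.hS.symm), card_pos] at this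
    obtain ⟨x, hx⟩ := this
    rw [mem_sdiff] at hx
    obtain ⟨c, hc, hc'⟩ := (hK x hx.1).2 u (mem_miss.2 ⟨hu, hx.2⟩)
    exact ⟨c, hc, mem_biUnion.2 ⟨x, hx.1, hc'⟩⟩
  have hoff : S.offDiag ⊆ (B'.filter fun v => (out S M v).card ≤ w).biUnion
      fun v => (S \ M v).offDiag := by
    intro p hp
    rw [mem_offDiag] at hp
    obtain ⟨v, hv, h1, h2, hs⟩ := OneD_BB hb hp.1 hp.2.1 hp.2.2 htr
    have hv' : v ∈ B' := by
      refine mem_filter.2 ⟨hv, ?_⟩
      rw [← card_pos, OneD_card hb hv, card_pos]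
      exact ⟨p.1, mem_sdiff.2 ⟨hp.1, h1⟩⟩
    exact mem_biUnion.2 ⟨v, mem_filter.2 ⟨hv', hT v hv' hs⟩,
      mem_offDiag.2 ⟨mem_sdiff.2 ⟨hp.1, h1⟩, mem_sdiff.2 ⟨hp.2.1, h2⟩, hp.2.2⟩⟩
  have c1 := (card_le_card hoff).trans card_biUnion_le
  have c2 : ∑ v ∈ B'.filter (fun v => (out S M v).card ≤ w), (S \ M v).offDiag.card ≤
      (B'.filter fun v => (out S M v).card ≤ w).card • (w * (w - 1)) := by
    refine sum_le_card_nsmul _ _ _ fun v hv => ?_
    rw [mem_filter] at hv
    rw [offDiag_card, ← OneD_card hb (mem_filter.1 hv.1).1, ← Nat.mul_sub_one]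
    exact Nat.mul_le_mul hv.2 (by omega)
  have c3 : (B'.filter fun v => (out S M v).card ≤ w).card * (w * (w - 1)) ≤
      B'.card * (w * (w - 1)) := Nat.mul_le_mul_right _ (card_filter_le _ _)
  rw [offDiag_card, hb.hS, ← Nat.mul_sub_one] at c1
  rw [smul_eq_mul] at c2
  have c4 : B'.card * (w * (w - 1)) ≤ w * (k - 1) := by
    rw [mul_left_comm]; exact Nat.mul_le_mul_left _ he
  have c5 : w * (k - 1) < k * (k - 1) := Nat.mul_lt_mul_of_pos_right (by omega) (by omega)
  omega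

theorem Bad.lemmaZ (hb : Bad k w S A B L M) (hB : B.card = k)
    (hne : ∀ v ∈ B, (out S M v).Nonempty) (h0 : ∀ u ∈ A, (out S L u).Nonempty)
    (X1 X2 : ℕ → Finset ℕ)
    (hX : ∀ x ∈ S, (X1 x).card ≤ 2 ∧ (X2 x).card ≤ 3 ∧ (X1 x ∩ X2 x).card ≤ 1 ∧
      (∀ u ∈ miss A L x, ∃ c ∈ out S L u, c ∈ X1 x) ∧
      (∀ u ∈ miss A L x, ∃ c ∈ out S L u, c ∈ X2 x))
    (h2 : 2 ≤ (B.filter fun v => (out S M v).card = 1).card)
    (hk2 : k ≤ (B.filter fun v => (out S M v).card = 1).card + 2) : False := by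
  have hk := hb.hk
  set N1 := B.filter fun v => (out S M v).card = 1 with hN1
  set N2 := B.filter fun v => ¬ (out S M v).card = 1 with hN2
  have hsum : N1.card + N2.card = k := by rw [← hB]; exact card_filter_add_card_filter_not _
  have hpair : ∀ z ∈ S, ∀ z' ∈ S, z ≠ z' → ∃ v ∈ N2, z ∉ M v ∧ z' ∉ M v := by
    intro z hz z' hz' hzz
    obtain ⟨v, hv, h1, h2, -⟩ := OneD_BB hb hz hz' hzz (X := A.biUnion (out S L)) (fun u hu => by
      obtain ⟨c, hc⟩ := h0 u hu
      exact ⟨c, hc, mem_biUnion.2 ⟨u, hu, hc⟩⟩)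
    refine ⟨v, mem_filter.2 ⟨hv, fun e => ?_⟩, h1, h2⟩
    rw [OneD_card hb hv] at e
    exact hzz (card_le_one.1 e.le z (mem_sdiff.2 ⟨hz, h1⟩) z' (mem_sdiff.2 ⟨hz', h2⟩))
  have hother : ∀ x ∈ S, ∃ y ∈ S, x ≠ y := fun x hx => by
    obtain ⟨y, hy⟩ : (S.erase x).Nonempty := by
      rw [← card_pos, card_erase_of_mem hx, hb.hS]; omega
    exact ⟨y, mem_of_mem_erase hy, (ne_of_mem_erase hy).symm⟩
  obtain ⟨x0, hx0⟩ : S.Nonempty := card_pos.1 (by rw [hb.hS]; omega)
  have hstar : ∃ v ∈ N2, ∀ z ∈ S, z ∉ M v := by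
    by_contra hn
    push Not at hn
    obtain ⟨y0, hy0, hxy⟩ := hother x0 hx0
    obtain ⟨v1, hv1, -⟩ := hpair x0 hx0 y0 hy0 hxy
    obtain ⟨a, ha, ha1⟩ := hn v1 hv1
    obtain ⟨a', ha', haa⟩ := hother a ha
    obtain ⟨v2, hv2, h21, -⟩ := hpair a ha a' ha' haa
    obtain ⟨b, hbS, hb2⟩ := hn v2 hv2
    have hab : a ≠ b := fun e => h21 (e ▸ hb2)
    obtain ⟨v3, hv3, h31, h32⟩ := hpair a ha b hbS hab
    have n12 : v1 ≠ v2 := fun e => h21 (e ▸ ha1)
    have n13 : v1 ≠ v3 := fun e => h31 (e ▸ ha1)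
    have n23 : v2 ≠ v3 := fun e => h32 (e ▸ hb2)
    have : 2 < N2.card := two_lt_card.2 ⟨v1, hv1, v2, hv2, v3, hv3, n12, n13, n23⟩
    omega
  obtain ⟨vs, hvs, hall⟩ := hstar
  have hvsB := (mem_filter.1 hvs).1
  have cs : (out S M vs).card = k := by
    rw [OneD_card hb hvsB, sdiff_eq_left.2 (disjoint_left.2 hall), hb.hS]
  have s1 : ∑ v ∈ N1, (out S M v).card = N1.card := by
    rw [card_eq_sum_ones N1]
    exact sum_congr rfl fun v hv => (mem_filter.1 hv).2
  have hN2pos : 0 < N2.card := card_pos.2 ⟨vs, hvs⟩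
  by_cases h1 : N2.card = 1
  · have := OneD_cover hb Subset.rfl (V := N1) (filter_subset _ _) (by
      intro y hy
      obtain ⟨x, hx, hyx⟩ := hother y hy
      obtain ⟨v, hv, hm, hs⟩ := OneD_AB hb hx hy hyx.symm (hX x hx).2.2.2.1
      refine ⟨v, mem_filter.2 ⟨hv, ?_⟩, hm⟩
      by_contra hn
      have e := card_le_one.1 h1.le v (mem_filter.2 ⟨hv, hn⟩) vs hvs
      have := (card_le_card hs).trans (hX x hx).1
      rw [e] at this
      omega)
    rw [s1, hb.hS] at this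
    omega
  · have key : ∀ X : Finset ℕ, X.card ≤ 3 → (∀ u ∈ miss A L x0, ∃ c ∈ out S L u, c ∈ X) →
        ∃ v ∈ N2.erase vs, out S M v ⊆ X := by
      intro X hX3 hXt
      by_contra hn
      push Not at hn
      have := OneD_cover hb (erase_subset x0 S) (V := N1) (filter_subset _ _) (by
        intro y hy
        obtain ⟨v, hv, hm, hs⟩ := OneD_AB hb hx0 (mem_of_mem_erase hy) (ne_of_mem_erase hy).symm hXt
        refine ⟨v, mem_filter.2 ⟨hv, ?_⟩, hm⟩
        by_contra hn'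
        refine hn v (mem_erase.2 ⟨fun e => ?_, mem_filter.2 ⟨hv, hn'⟩⟩) hs
        have := (card_le_card hs).trans hX3
        rw [e] at this
        omega)
      rw [s1, card_erase_of_mem hx0, hb.hS] at this
      omega
    obtain ⟨v1, m1, t1⟩ := key _ ((hX x0 hx0).1.trans (by norm_num)) (hX x0 hx0).2.2.2.1
    obtain ⟨v2, m2, t2⟩ := key _ (hX x0 hx0).2.1 (hX x0 hx0).2.2.2.2
    have e : v1 = v2 := card_le_one.1 (by rw [card_erase_of_mem hvs]; omega) v1 m1 v2 m2
    subst e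
    have a1 := (card_le_card (subset_inter t1 t2)).trans (hX x0 hx0).2.2.1
    have m := mem_filter.1 (mem_of_mem_erase m1)
    have a2 := card_pos.2 (hne v1 m.1)
    have := m.2
    omega

theorem Bad.lemmaThree (hb : Bad k w S A B L M) (hk : k = 3) (hB : B.card = 3)
    (hne : ∀ v ∈ B, (out S M v).Nonempty) (X1 X2 : ℕ → Finset ℕ)
    (hX : ∀ x ∈ S, (X1 x).card ≤ 2 ∧ (X2 x).card ≤ 3 ∧ (X1 x ∩ X2 x).card ≤ 1 ∧
      (∀ u ∈ miss A L x, ∃ c ∈ out S L u, c ∈ X1 x) ∧
      (∀ u ∈ miss A L x, ∃ c ∈ out S L u, c ∈ X2 x))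
    (h1 : (B.filter fun v => (out S M v).card = 1).card ≤ 1) : False := by
  have hd : ∀ v ∈ B, ∀ v' ∈ B, v ≠ v' → Disjoint (out S M v) (out S M v') := by
    intro v hv v' hv' hvv
    rw [disjoint_left]
    intro c hc hc'
    have h2 := hb.miss2 hne (mem_out.1 hc).2
    have h3 : miss B M c ⊆ (B.erase v).erase v' := by
      intro t ht
      rw [mem_miss] at ht
      exact mem_erase.2 ⟨fun e => ht.2 (e ▸ (mem_out.1 hc').1),
        mem_erase.2 ⟨fun e => ht.2 (e ▸ (mem_out.1 hc).1), ht.1⟩⟩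
    have h4 := card_le_card h3
    rw [card_erase_of_mem (mem_erase.2 ⟨hvv.symm, hv'⟩), card_erase_of_mem hv] at h4
    omega
  have hS3 : S.card = 3 := hb.hS.trans hk
  have two : ∀ x ∈ S, ∀ X : Finset ℕ, (∀ u ∈ miss A L x, ∃ c ∈ out S L u, c ∈ X) →
      (∀ v ∈ B, ∀ v' ∈ B, v ≠ v' → X.card < (out S M v).card + (out S M v').card) →
      ∃ v ∈ B, S.erase x ⊆ S \ M v ∧ out S M v ⊆ X := by
    intro x hx X hXt hbig
    obtain ⟨z, z', hzz, e⟩ := card_eq_two.1 (show (S.erase x).card = 2 by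
      rw [card_erase_of_mem hx, hS3])
    have hz : z ∈ S.erase x := by rw [e]; simp
    have hz' : z' ∈ S.erase x := by rw [e]; simp
    obtain ⟨v, hv, hm, hs⟩ := OneD_AB hb hx (mem_of_mem_erase hz) (ne_of_mem_erase hz).symm hXt
    obtain ⟨v', hv', hm', hs'⟩ := OneD_AB hb hx (mem_of_mem_erase hz') (ne_of_mem_erase hz').symm hXt
    have : v = v' := by
      by_contra hvv
      have a1 := hbig v hv v' hv' hvv
      have a2 := card_le_card (union_subset hs hs')
      rw [card_union_of_disjoint (hd v hv v' hv' hvv)] at a2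
      omega
    subst this
    refine ⟨v, hv, ?_, hs⟩
    rw [e]
    exact insert_subset (mem_sdiff.2 ⟨mem_of_mem_erase hz, hm⟩)
      (singleton_subset_iff.2 (mem_sdiff.2 ⟨mem_of_mem_erase hz', hm'⟩))
  have one : ∀ x, ∃ v, x ∈ S → v ∈ B ∧ S \ M v = S.erase x ∧ out S M v ⊆ X1 x := by
    intro x
    by_cases hx : x ∈ S
    · obtain ⟨v, hv, a1, a2⟩ := two x hx (X1 x) (hX x hx).2.2.2.1 (by
        intro v hv v' hv' hvv
        have b1 := card_pos.2 (hne v hv)
        have b2 := card_pos.2 (hne v' hv')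
        have b3 := (hX x hx).1
        by_contra hn
        exact hvv (card_le_one.1 h1 v (mem_filter.2 ⟨hv, by omega⟩) v' (mem_filter.2 ⟨hv', by omega⟩)))
      refine ⟨v, fun _ => ⟨hv, (eq_of_subset_of_card_le a1 ?_).symm, a2⟩⟩
      rw [← OneD_card hb hv, card_erase_of_mem hx, hS3]
      exact (card_le_card a2).trans (hX x hx).1
    · obtain ⟨v, -⟩ : B.Nonempty := card_pos.1 (by omega)
      exact ⟨v, fun h => absurd h hx⟩
  choose g hg using one
  have ginj : Set.InjOn g S := by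
    intro x hx y hy e
    have a1 := (hg x hx).2.1
    rw [e, (hg y hy).2.1] at a1
    exact ((erase_inj S hy).1 a1).symm
  have himg : S.image g = B := by
    refine eq_of_subset_of_card_le (fun v hv => ?_) (by rw [card_image_of_injOn ginj]; omega)
    obtain ⟨x, hx, rfl⟩ := mem_image.1 hv
    exact (hg x hx).1
  have all2 : ∀ v ∈ B, (out S M v).card = 2 := by
    intro v hv
    rw [OneD_card hb hv]
    rw [← himg] at hv
    obtain ⟨x, hx, rfl⟩ := mem_image.1 hv
    rw [(hg x hx).2.1, card_erase_of_mem hx, hS3]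
  obtain ⟨x, hx⟩ : S.Nonempty := card_pos.1 (by omega)
  obtain ⟨v, hv, a1, a2⟩ := two x hx (X2 x) (hX x hx).2.2.2.2 (by
    intro v hv v' hv' _
    have := (hX x hx).2.1
    rw [all2 v hv, all2 v' hv']
    omega)
  have hv' := hv
  rw [← himg] at hv'
  obtain ⟨y, hy, rfl⟩ := mem_image.1 hv'
  have e : y = x := by
    by_contra hn
    rw [(hg y hy).2.1] at a1
    exact notMem_erase y S (a1 (mem_erase.2 ⟨hn, hy⟩))
  subst e
  have a3 := (card_le_card (subset_inter (hg y hy).2.2 a2)).trans (hX y hy).2.2.1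
  rw [all2 _ hv] at a3
  omega

end Pool.Agent.P.MP_a09be5_co
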