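import Pool.Agent.P.MP_a09be5_co.OneB
import Pool.Agent.P.MP_a09be5_co.OneC
import Pool.Agent.P.MP_a09be5_co.OneD

/-! End of the analysis of case one. -/

namespace Pool.Agent.P.MP_a09be5_co
open Finset

variable {ι : Type} [DecidableEq ι]

variable {k w : ℕ} {S : Finset ℕ} {A B : Finset ι} {L M : ι → Finset ℕ}

theorem OneE_ne (hb : Bad k w S A B L M) {x : ℕ} (hx : x ∈ S) :
    ∀ u ∈ miss A L x, (out S L u).Nonempty := by
  intro u hu
  rw [mem_miss] at hu
  rw [← card_pos, card_out ((hb.hL u hu.1).trans hb.hS.symm), card_pos]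
  exact ⟨x, mem_sdiff.2 ⟨hx, hu.2⟩⟩

theorem OneE_sub {A T : Finset ι} {E : ι → Finset ℕ} (hT : T ⊆ A)
    (hne : ∀ u ∈ A, (E u).Nonempty) (h : wt A E ≤ wt T E) : A ⊆ T := by
  intro u hu
  by_contra hn
  have h1 : wt (insert u T) E ≤ wt A E := wt_mono (insert_subset hu hT) E
  have h2 : wt (insert u T) E = 1 / ((E u).card : ℚ) + wt T E := sum_insert hn
  have h3 : (0 : ℚ) < 1 / ((E u).card : ℚ) := by
    have := card_pos.2 (hne u hu)
    positivity
  linarith

omit [DecidableEq ι] in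
theorem OneE_wt_pairs {T : Finset ι} {E : ι → Finset ℕ} (h : ∀ u ∈ T, (E u).card = 2) :
    wt T E = T.card / 2 := by
  unfold wt
  rw [sum_congr rfl (fun u hu => by rw [h u hu])]
  simp [div_eq_mul_inv]

theorem OneE_star {A : Finset ι} {E : ι → Finset ℕ} (h : TypeS A E) :
    ∃ y f q r u1 u2, u1 ∈ A ∧ u2 ∈ A ∧ u1 ≠ u2 ∧ E u1 = {f, q} ∧ E u2 = {f, r} ∧ f ≠ q ∧ f ≠ r ∧
      y ≠ f ∧ y ≠ q ∧ (∃ u ∈ A, y ∈ E u) ∧ ∀ u ∈ A, y ∈ E u ∨ u = u1 ∨ u = u2 := by
  obtain ⟨y, ⟨h2, hc, f, hf⟩, hd⟩ := h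
  obtain ⟨u1, u2, hne, he⟩ := card_eq_two.1 h2
  have m1 : u1 ∈ rest A E {y} := by rw [he]; simp
  have m2 : u2 ∈ rest A E {y} := by rw [he]; simp
  have pr : ∀ u ∈ rest A E {y}, ∃ q, E u = {f, q} ∧ f ≠ q := by
    intro u hu
    obtain ⟨a, b, hab, e⟩ := card_eq_two.1 (hc u hu)
    have := hf u hu
    rw [e, mem_insert, mem_singleton] at this
    rcases this with rfl | rfl
    · exact ⟨b, e, hab⟩
    · exact ⟨a, by rw [e, pair_comm], hab.symm⟩
  obtain ⟨q, e1, hq⟩ := pr u1 m1
  obtain ⟨r, e2, hr⟩ := pr u2 m2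
  have d1 := (mem_rest.1 m1).2
  rw [disjoint_singleton_right, e1, mem_insert, mem_singleton, not_or] at d1
  refine ⟨y, f, q, r, u1, u2, (mem_rest.1 m1).1, (mem_rest.1 m2).1, hne, e1, e2, hq, hr, d1.1, d1.2,
    ?_, ?_⟩
  · by_contra hn
    push Not at hn
    have : A.filter (fun u => y ∈ E u) = ∅ := filter_eq_empty_iff.2 hn
    rw [deg, this] at hd
    simp [wt] at hd
    linarith
  · intro u hu
    by_cases hy : y ∈ E u
    · exact Or.inl hy
    · have : u ∈ rest A E {y} := mem_rest.2 ⟨hu, disjoint_singleton_right.2 hy⟩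
      rw [he] at this
      simpa using Or.inr this

theorem OneE_X {A : Finset ι} {E : ι → Finset ℕ} (h : TypeS A E) :
    ∃ X1 X2 : Finset ℕ, X1.card ≤ 2 ∧ X2.card ≤ 3 ∧ (X1 ∩ X2).card ≤ 1 ∧
      (∀ u ∈ A, ∃ c ∈ E u, c ∈ X1) ∧ (∀ u ∈ A, ∃ c ∈ E u, c ∈ X2) := by
  obtain ⟨y, f, q, r, u1, u2, -, -, -, e1, e2, hq, hr, hy, -, -, hall⟩ := OneE_star h
  refine ⟨{y, f}, {y, q, r}, card_le_two, card_le_three, ?_, ?_, ?_⟩
  · refine (card_le_card (t := {y}) ?_).trans (by simp)
    intro c hc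
    simp only [mem_inter, mem_insert, mem_singleton] at hc ⊢
    obtain ⟨h1 | h1, h2⟩ := hc
    · exact h1
    · subst h1
      rcases h2 with h2 | h2 | h2
      · exact h2
      · exact absurd h2 hq
      · exact absurd h2 hr
  · intro u hu
    rcases hall u hu with h | rfl | rfl
    · exact ⟨y, h, by simp⟩
    · exact ⟨f, by simp [e1], by simp⟩
    · exact ⟨f, by simp [e2], by simp⟩
  · intro u hu
    rcases hall u hu with h | rfl | rfl
    · exact ⟨y, h, by simp⟩
    · exact ⟨q, by simp [e1], by simp⟩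
    · exact ⟨r, by simp [e2], by simp⟩

theorem OneE_small (hb : Bad k w S A B L M) (hw : w = 2) {x : ℕ} (hx : x ∈ S)
    (hα : wt (miss A L x) (out S L) ≤ 2) (hT : TypeS (miss A L x) (out S L)) :
    ∀ u ∈ miss A L x, (out S L u).card ≤ 2 := by
  obtain ⟨y, f, q, r, u1, u2, m1, m2, hne, e1, e2, hq, hr, -, -, -, -⟩ := OneE_star hT
  have hE := OneE_ne hb hx
  set A' := miss A L x with hA'
  set E := out S L with hEd
  have c1 : (E u1).card = 2 := by rw [e1, card_pair hq]
  have c2 : (E u2).card = 2 := by rw [e2, card_pair hr]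
  have f1 : f ∈ E u1 := by simp [e1]
  have f2 : f ∈ E u2 := by simp [e2]
  have hfS : f ∉ S := (mem_out.1 f1).2
  have w12 : wt {u1, u2} E = 1 := by
    rw [OneE_wt_pairs (by simp [c1, c2]), card_pair hne]; norm_num
  have hR : ∀ T ⊆ rest A' E {f}, wt ({u1, u2} ∪ T) E = 1 + wt T E := by
    intro T hT
    rw [← w12]
    refine sum_union ?_
    rw [disjoint_left]
    intro u hu hu'
    have := (mem_rest.1 (hT hu')).2
    rw [disjoint_singleton_right] at this
    simp only [mem_insert, mem_singleton] at hu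
    rcases hu with rfl | rfl
    · exact this f1
    · exact this f2
  have hsub : ∀ T ⊆ rest A' E {f}, ({u1, u2} ∪ T) ⊆ A' := by
    intro T hT
    refine union_subset ?_ (hT.trans (filter_subset _ _))
    intro u hu
    simp only [mem_insert, mem_singleton] at hu
    rcases hu with rfl | rfl
    · exact m1
    · exact m2
  have fin : ∀ T ⊆ rest A' E {f}, wt T E = 1 → (∀ u ∈ T, (E u).card ≤ 2) →
      ∀ u ∈ A', (E u).card ≤ 2 := by
    intro T hT h1 h2 u hu
    have := OneE_sub (hsub T hT) hE (by rw [hR T hT, h1]; linarith) hu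
    simp only [mem_union, mem_insert, mem_singleton] at this
    rcases this with (rfl | rfl) | h
    · exact c1.le
    · exact c2.le
    · exact h2 u h
  by_cases h2 : ∀ u ∈ rest A' E {f}, 2 ≤ (E u).card
  · by_cases hs : Star2 (rest A' E {f}) E
    · refine fin _ Subset.rfl ?_ fun u hu => (hs.2.1 u hu).le
      rw [OneE_wt_pairs hs.2.1, hs.1]; norm_num
    · exfalso
      refine hb.noO1H hw hx (K := {f}) (disjoint_singleton_left.2 hfS) (card_singleton _) h2 ?_ hs
      have := wt_mono (hsub _ Subset.rfl) E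
      rw [hR _ Subset.rfl] at this
      linarith
  · push Not at h2
    obtain ⟨u, hu, hlt⟩ := h2
    have h1 : (E u).card = 1 := by
      have := card_pos.2 (hE u (mem_rest.1 hu).1)
      omega
    refine fin {u} (singleton_subset_iff.2 hu) (by simp [wt, h1]) ?_
    intro u' hu'
    rw [mem_singleton] at hu'
    subst hu'
    omega

omit [DecidableEq ι] in
theorem OneE_singles (T : Finset ℕ) (h : ∀ c ∈ T, ∃ v ∈ B, out S M v = {c}) :
    T.card ≤ (B.filter fun v => (out S M v).card = 1).card := by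
  rcases T.eq_empty_or_nonempty with rfl | ⟨c0, hc0⟩
  · simp
  obtain ⟨v0, -, -⟩ := h c0 hc0
  have : Nonempty ι := ⟨v0⟩
  choose! g hg using h
  refine card_le_card_of_injOn g ?_ ?_
  · intro c hc
    have := hg c hc
    simp [this.1, this.2]
  · intro c hc c' hc' e
    have h1 := (hg c hc).2
    rw [e, (hg c' hc').2] at h1
    exact (singleton_injective h1).symm

theorem OneE_class (hb : Bad k w S A B L M) (hne : ∀ v ∈ B, (out S M v).Nonempty) {x x' : ℕ}
    (hx : x ∈ S) (hx' : x' ∈ S) (hxx : x ≠ x') {u : ι} (hu : u ∈ miss (miss A L x) L x')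
    (h1 : (miss (miss A L x) L x').card ≤ 1) {c : ℕ} (hc : c ∈ out S L u) :
    ∃ v ∈ B, out S M v = {c} := by
  by_contra hn
  push Not at hn
  refine hb.bad (optAA hx hx' hxx (split_of_transversal {c} ?_ ?_))
  · intro u' hu'
    rw [card_le_one.1 h1 u' hu' u hu]
    exact ⟨c, hc, mem_singleton_self c⟩
  · intro v hv hs
    rcases subset_singleton_iff.1 hs with h | h
    · exact (hne v hv).ne_empty h
    · exact hn v hv h

theorem Bad.rest_hard (hb : Bad k w S A B L M) (hw : w = 2) (he : ¬ Easy k w S B M)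
    (h0 : ∀ u ∈ A, (out S L u).Nonempty)
    (hα : ∀ x ∈ S, wt (miss A L x) (out S L) ≤ 2)
    (hT : ∀ x ∈ S, TypeS (miss A L x) (out S L)) : False := by
  obtain ⟨hne, hkB⟩ := hb.hard_ne he
  have hk := hb.hk
  have hBk : B.card = k := by
    have := hb.hB
    subst hw
    omega
  have hX0 : ∀ x, ∃ X1 X2 : Finset ℕ, x ∈ S → X1.card ≤ 2 ∧ X2.card ≤ 3 ∧ (X1 ∩ X2).card ≤ 1 ∧
      (∀ u ∈ miss A L x, ∃ c ∈ out S L u, c ∈ X1) ∧
      (∀ u ∈ miss A L x, ∃ c ∈ out S L u, c ∈ X2) := by
    intro x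
    by_cases hx : x ∈ S
    · obtain ⟨X1, X2, h⟩ := OneE_X (hT x hx)
      exact ⟨X1, X2, fun _ => h⟩
    · exact ⟨∅, ∅, fun h => absurd h hx⟩
  choose X1 X2 hX using hX0
  have Z := hb.lemmaZ hBk hne h0 X1 X2 hX
  rcases Nat.lt_or_ge k 4 with h4 | h4
  · have hk3 : k = 3 := by omega
    by_cases h1 : (B.filter fun v => (out S M v).card = 1).card ≤ 1
    · exact hb.lemmaThree hk3 (by omega) hne X1 X2 hX h1
    · exact Z (by omega) (by omega)
  obtain ⟨x, hx⟩ : S.Nonempty := card_pos.1 (by rw [hb.hS]; omega)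
  have hsm := OneE_small hb hw hx (hα x hx) (hT x hx)
  set A' := miss A L x with hA'
  set Pr := A'.filter fun u => (out S L u).card = 2 with hPr
  have hPw : wt Pr (out S L) = Pr.card / 2 := OneE_wt_pairs fun u hu => (mem_filter.1 hu).2
  have hP4 : Pr.card ≤ 4 := by
    have h1 := wt_mono (filter_subset (fun u => (out S L u).card = 2) A') (out S L)
    have h2 := hα x hx
    have : (Pr.card : ℚ) ≤ 4 := by linarith
    exact_mod_cast this
  have hco : ∀ u ∈ A', (out S L u).card = (S \ L u).card := fun u hu =>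
    card_out ((hb.hL u (mem_miss.1 hu).1).trans hb.hS.symm)
  have hCne : ∀ x' ∈ S.erase x, 1 ≤ (miss A' L x').card := by
    intro x' hx'
    by_contra hn
    have h : miss A' L x' = ∅ := card_eq_zero.1 (by omega)
    refine hb.bad (optAA hx (mem_of_mem_erase hx') (ne_of_mem_erase hx').symm ?_)
    rw [← hA', h]
    refine split_of_transversal ∅ (by simp) fun v hv hs => (hne v hv).ne_empty (subset_empty.1 hs)
  have hCP : ∀ x' ∈ S.erase x, miss A' L x' ⊆ Pr := by
    intro x' hx' u hu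
    rw [mem_miss] at hu
    refine mem_filter.2 ⟨hu.1, le_antisymm (hsm u hu.1) ?_⟩
    rw [hco u hu.1, ← card_pair (ne_of_mem_erase hx')]
    refine card_le_card ?_
    intro c hc
    simp only [mem_insert, mem_singleton] at hc
    rcases hc with rfl | rfl
    · exact mem_sdiff.2 ⟨mem_of_mem_erase hx', hu.2⟩
    · exact mem_sdiff.2 ⟨hx, (mem_miss.1 hu.1).2⟩
  have hsum : ∑ x' ∈ S.erase x, (miss A' L x').card ≤ Pr.card := by
    rw [← card_biUnion]
    · exact card_le_card (biUnion_subset.2 hCP)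
    · intro a ha b hb' hab
      rw [Function.onFun, disjoint_left]
      intro u hu hu'
      rw [mem_miss] at hu hu'
      have h3 : ({x, a, b} : Finset ℕ) ⊆ S \ L u := by
        intro c hc
        simp only [mem_insert, mem_singleton] at hc
        rcases hc with rfl | rfl | rfl
        · exact mem_sdiff.2 ⟨hx, (mem_miss.1 hu.1).2⟩
        · exact mem_sdiff.2 ⟨mem_of_mem_erase ha, hu.2⟩
        · exact mem_sdiff.2 ⟨mem_of_mem_erase hb', hu'.2⟩
      have h4 := card_le_card h3
      rw [card_eq_three.2 ⟨x, a, b, (ne_of_mem_erase ha).symm, (ne_of_mem_erase hb').symm, hab, rfl⟩,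
        ← hco u hu.1] at h4
      have := hsm u hu.1
      omega
  have hSe : (S.erase x).card = k - 1 := by rw [card_erase_of_mem hx, hb.hS]
  have hlow : ∀ x' ∈ S.erase x, (miss A' L x').card + (k - 2) ≤ Pr.card := by
    intro x' hx'
    have h1 := add_sum_erase (S.erase x) (fun z => (miss A' L z).card) hx'
    have h2 : ((S.erase x).erase x').card • 1 ≤ ∑ z ∈ (S.erase x).erase x', (miss A' L z).card :=
      card_nsmul_le_sum _ _ _ fun z hz => hCne z (mem_of_mem_erase hz)
    rw [card_erase_of_mem hx', hSe, smul_eq_mul] at h2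
    omega
  rcases Nat.lt_or_ge k 5 with h5 | h5
  · have : ∃ x' ∈ S.erase x, (miss A' L x').card ≤ 1 := by
      by_contra hn
      push Not at hn
      have h2 : (S.erase x).card • 2 ≤ ∑ z ∈ S.erase x, (miss A' L z).card :=
        card_nsmul_le_sum _ _ _ fun z hz => hn z hz
      rw [hSe, smul_eq_mul] at h2
      omega
    obtain ⟨x', hx', h1⟩ := this
    obtain ⟨u, hu⟩ := card_pos.1 (hCne x' hx')
    have h2 := OneE_singles (B := B) (S := S) (M := M) (out S L u) fun c hc =>
      OneE_class hb hne hx (mem_of_mem_erase hx') (ne_of_mem_erase hx').symm hu h1 hc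
    rw [(mem_filter.1 (hCP x' hx' hu)).2] at h2
    exact Z h2 (by omega)
  · obtain ⟨x0, hx0⟩ : (S.erase x).Nonempty := card_pos.1 (by omega)
    have l0 := hlow x0 hx0
    have c0 := hCne x0 hx0
    have hk5 : k = 5 := by omega
    have hAP : A' ⊆ Pr := by
      refine OneE_sub (filter_subset _ _) (OneE_ne hb hx) ?_
      rw [hPw, show Pr.card = 4 by omega]
      have := hα x hx
      norm_num
      exact this
    have hall : ∀ u ∈ A', ∀ c ∈ out S L u, ∃ v ∈ B, out S M v = {c} := by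
      intro u hu c hc
      have h2 : ((S \ L u).erase x).card = 1 := by
        rw [card_erase_of_mem (mem_sdiff.2 ⟨hx, (mem_miss.1 hu).2⟩), ← hco u hu,
          (mem_filter.1 (hAP hu)).2]
      obtain ⟨x', hx'⟩ := card_pos.1 (h2 ▸ Nat.one_pos)
      have m1 := mem_sdiff.1 (mem_of_mem_erase hx')
      have m2 : x' ∈ S.erase x := mem_erase.2 ⟨ne_of_mem_erase hx', m1.1⟩
      have := hlow x' m2
      exact OneE_class hb hne hx m1.1 (ne_of_mem_erase hx').symm (mem_miss.2 ⟨hu, m1.2⟩)
        (by rw [← hA']; omega) hc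
    obtain ⟨y, f, q, r, u1, u2, m1, -, -, e1, -, hq, -, hy, hyq, ⟨u3, m3, y3⟩, -⟩ :=
      OneE_star (hT x hx)
    have h3 := OneE_singles (B := B) (S := S) (M := M) {y, f, q} (by
      intro c hc
      simp only [mem_insert, mem_singleton] at hc
      rcases hc with rfl | rfl | rfl
      · exact hall u3 m3 _ y3
      · exact hall u1 m1 _ (by simp [e1])
      · exact hall u1 m1 _ (by simp [e1]))
    rw [card_eq_three.2 ⟨y, f, q, hy, hyq, hq, rfl⟩] at h3
    exact Z (by omega) (by omega)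

theorem Bad.types (hb : Bad k w S A B L M) {x : ℕ} (hx : x ∈ S)
    (hα : wt (miss A L x) (out S L) ≤ w) :
    TypeC w (miss A L x) (out S L) ∨ (w = 2 ∧ TypeS (miss A L x) (out S L)) := by
  have hw := hb.hw
  rcases greedy hw (OneE_ne hb hx) with h | ⟨K, hK, hc, hwt, h2, hlast⟩
  · exact Or.inl h
  have hKS : Disjoint K S := by
    rw [disjoint_left]
    intro c hc
    obtain ⟨u, -, hu⟩ := hK c hc
    exact (mem_out.1 hu).2
  by_cases e1 : K.card = w - 1
  · have hw1 : wt (rest (miss A L x) (out S L) K) (out S L) ≤ 1 := by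
      have : (K.card : ℚ) = w - 1 := by rw [e1, Nat.cast_sub (by omega)]; simp
      linarith
    rcases Nat.lt_or_ge w 3 with h3 | h3
    · have hw2 : w = 2 := by omega
      have k1 : K.card = 1 := by omega
      by_cases hs : Star2 (rest (miss A L x) (out S L) K) (out S L)
      · obtain ⟨y, rfl⟩ := card_eq_one.1 k1
        refine Or.inr ⟨hw2, y, hs, ?_⟩
        have h1 := wt_filter_add (miss A L x) (out S L) (fun u => y ∈ out S L u)
        have h2 : rest (miss A L x) (out S L) {y} =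
            (miss A L x).filter fun u => ¬ y ∈ out S L u := by
          ext u; simp only [mem_rest, disjoint_singleton_right, mem_filter]
        rw [h2] at hwt
        simp only [card_singleton, Nat.cast_one] at hwt
        unfold deg
        linarith
      · exact (hb.noO1H hw2 hx hKS k1 h2 hw1 hs).elim
    · exact (hb.noO1F h3 hx hKS e1 h2 hw1).elim
  have hd := hlast.resolve_left e1
  exfalso
  by_cases e2 : K.card = w - 2
  · have hw2 : wt (rest (miss A L x) (out S L) K) (out S L) ≤ 2 := by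
      have : (K.card : ℚ) = w - 2 := by rw [e2, Nat.cast_sub hw]; simp
      linarith
    by_cases h3 : 3 ≤ w ∨ Easy k w S B M
    · exact hb.noO2 h3 hx hKS e2 hd hw2
    · push Not at h3
      have hK0 : K = ∅ := card_eq_zero.1 (by omega)
      subst hK0
      have hr : rest (miss A L x) (out S L) ∅ = miss A L x := by
        ext u; simp only [mem_rest, disjoint_empty_right, and_true]
      rw [hr] at hd hw2
      exact hb.noO2hard (by omega) h3.2 hx hd hw2
  · exact hb.noO3 hx hKS (by omega) hd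

theorem Bad.false (hb : Bad k w S A B L M) : False := by
  have hge : ∀ x ∈ S, (w : ℚ) ≤ wt (miss A L x) (out S L) := by
    intro x hx
    by_contra hn
    rcases hb.types hx (le_of_not_ge hn) with h | ⟨hw, h⟩
    · exact hn h.le_wt
    · exact hn (by rw [hw]; exact_mod_cast h.le_wt)
  have hsum := sum_miss (S := S) (B := A) (M := L) (fun u hu => (hb.hL u hu).trans hb.hS.symm)
    (fun u => 1 / ((out S L u).card : ℚ))
  have hone : ∀ u ∈ A, ((out S L u).card : ℚ) * (1 / ((out S L u).card : ℚ)) ≤ 1 := by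
    intro u _
    rcases Nat.eq_zero_or_pos (out S L u).card with h | h
    · simp [h]
    · rw [mul_one_div_cancel (by positivity)]
  have hAk : (A.card : ℚ) ≤ k * w := by exact_mod_cast hb.hA
  have hlo : ∑ x ∈ S, (w : ℚ) = k * w := by rw [sum_const, hb.hS, nsmul_eq_mul]
  have hup : ∑ u ∈ A, (1 : ℚ) = A.card := by simp
  have hle : ∀ x ∈ S, wt (miss A L x) (out S L) ≤ w := by
    intro x hx
    by_contra hn
    have h1 : ∑ x ∈ S, (w : ℚ) < ∑ x ∈ S, wt (miss A L x) (out S L) :=
      sum_lt_sum hge ⟨x, hx, lt_of_not_ge hn⟩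
    have h2 := sum_le_sum hone
    unfold wt at h1
    linarith
  have h0 : ∀ u ∈ A, (out S L u).Nonempty := by
    intro u hu
    by_contra hn
    have h1 : ∑ x ∈ S, (w : ℚ) ≤ ∑ x ∈ S, wt (miss A L x) (out S L) := sum_le_sum hge
    have h2 := sum_lt_sum hone ⟨u, hu, by simp [not_nonempty_iff_eq_empty.1 hn]⟩
    unfold wt at h1
    linarith
  have hty := fun x hx => hb.types (x := x) hx (hle x hx)
  by_cases he : Easy k w S B M
  · have hK : ∀ x, ∃ K : Finset ℕ, x ∈ S →
        K.card ≤ w ∧ ∀ u ∈ miss A L x, ∃ c ∈ out S L u, c ∈ K := by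
      intro x
      by_cases hx : x ∈ S
      · rcases hty x hx with h | ⟨hw, h⟩
        · obtain ⟨K, h1, h2⟩ := h.trans (OneE_ne hb hx) (hle x hx)
          refine ⟨K, fun _ => ⟨h1.le, fun u hu => ?_⟩⟩
          obtain ⟨c, hc, e⟩ := h2 u hu
          exact ⟨c, by simp [e], hc⟩
        · obtain ⟨K, h1, h2⟩ := h.trans
          exact ⟨K, fun _ => ⟨by omega, h2⟩⟩
      · exact ⟨∅, fun h => absurd h hx⟩
    choose K hK using hK
    exact hb.rest_easy he h0 K hK
  · obtain ⟨hne, -⟩ := hb.hard_ne he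
    have hnc : ∀ x ∈ S, w = 2 ∧ TypeS (miss A L x) (out S L) := by
      intro x hx
      refine (hty x hx).resolve_left fun h => ?_
      obtain ⟨K, -, h2⟩ := h.trans (OneE_ne hb hx) (hle x hx)
      obtain ⟨x', hx'⟩ : (S.erase x).Nonempty := by
        rw [← card_pos, card_erase_of_mem hx, hb.hS]
        have := hb.hk
        omega
      refine hb.bad (optAA hx (mem_of_mem_erase hx') (ne_of_mem_erase hx').symm ?_)
      refine split_of_transversal ∅ ?_ fun v hv hs => (hne v hv).ne_empty (subset_empty.1 hs)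
      intro u hu
      exfalso
      rw [mem_miss] at hu
      obtain ⟨c, -, e⟩ := h2 u hu.1
      have h1 := card_out (S := S) (L := L) (u := u) ((hb.hL u (mem_miss.1 hu.1).1).trans hb.hS.symm)
      rw [e, card_singleton] at h1
      exact ne_of_mem_erase hx' (card_le_one.1 h1.ge x' (mem_sdiff.2 ⟨mem_of_mem_erase hx', hu.2⟩) x
        (mem_sdiff.2 ⟨hx, (mem_miss.1 hu.1).2⟩))
    obtain ⟨x, hx⟩ : S.Nonempty := card_pos.1 (by have := hb.hk; rw [hb.hS]; omega)
    have hw := (hnc x hx).1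
    exact hb.rest_hard hw he h0 (fun x hx => by have := hle x hx; rw [hw] at this; exact_mod_cast this)
      fun x hx => (hnc x hx).2

theorem caseOne (hS : S.card = k) (hk : 3 ≤ k) (hw : 2 ≤ w) (hwk : 2 * w ≤ k + 1)
    (hL : ∀ u ∈ A, (L u).card = k) (hM : ∀ v ∈ B, (M v).card = k) (hA : A.card ≤ k * w)
    (hB : (B.card - 1) * (w - 1) ≤ k - 1) : Good S A B L M := by
  by_contra h
  exact Bad.false ⟨hS, hk, hw, hwk, hL, hM, hA, hB, h⟩

end Pool.Agent.P.MP_a09be5_co
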