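import Pool.Agent.P.MP_a09be5_co.Setup

/-! The random order lemma. -/

namespace Pool.Agent.P.MP_a09be5_co
open Finset

variable {ι : Type} [DecidableEq ι]

theorem W_succ (e h : ℕ) (hh : 1 ≤ h) : W (e + 2) h * ((e : ℚ) + 1 + h) = (e + 1) * W (e + 1) h := by
  obtain ⟨g, rfl⟩ : ∃ g, h = g + 1 := ⟨h - 1, by omega⟩
  unfold W
  have e1 : e + 2 + (g + 1) - 1 = (e + g + 1) + 1 := by omega
  have e2 : e + 1 + (g + 1) - 1 = e + g + 1 := by omega
  rw [e1, e2, show e + 2 - 1 = e + 1 by omega, Nat.add_sub_cancel, Nat.add_sub_cancel,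
    Nat.factorial_succ (e + g + 1), Nat.factorial_succ e]
  have : ((e + g + 1).factorial : ℚ) ≠ 0 := by positivity
  push_cast
  field_simp
  ring

theorem W_one (h : ℕ) (hh : 1 ≤ h) : W 1 h * h = 1 := by
  obtain ⟨g, rfl⟩ : ∃ g, h = g + 1 := ⟨h - 1, by omega⟩
  unfold W
  rw [show 1 + (g + 1) - 1 = g + 1 by omega, Nat.add_sub_cancel, Nat.factorial_succ g]
  have : (g.factorial : ℚ) ≠ 0 := by positivity
  simp only [Nat.sub_self, Nat.factorial_zero]
  push_cast
  field_simp

/-- The conflict weight after the colour `c` has been placed first. -/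
def plT (c : ℕ) (E H : Finset ℕ) : ℚ :=
  if E = {c} then (if c ∈ H then 1 else 0)
  else if c ∈ H then 0
  else if (E.erase c ∩ H).card = 1 then W (E.erase c).card H.card else 0

theorem plT_nonneg (c : ℕ) (E H : Finset ℕ) : 0 ≤ plT c E H := by
  unfold plT
  split_ifs <;> first | exact W_nonneg _ _ | norm_num

theorem plT_sum {Ω E H : Finset ℕ} (hE : E ⊆ Ω) (hH : H ⊆ Ω) :
    ∑ c ∈ Ω, plT c E H ≤ Ω.card * if (E ∩ H).card = 1 then W E.card H.card else 0 := by
  have hi : ∀ c, c ∉ H → E.erase c ∩ H = E ∩ H := by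
    intro c hc
    ext x
    simp only [mem_inter, mem_erase]
    constructor
    · exact fun h => ⟨h.1.2, h.2⟩
    · exact fun h => ⟨⟨fun e => hc (e ▸ h.2), h.1⟩, h.2⟩
  split_ifs with h1
  swap
  · rw [mul_zero]
    refine le_of_eq (sum_eq_zero fun c _ => ?_)
    unfold plT
    split_ifs with a b d e
    · exact absurd (by rw [a, singleton_inter_of_mem b, card_singleton]) h1
    · rfl
    · rfl
    · exact absurd (by rwa [hi c d] at e) h1
    · rfl
  obtain ⟨z, hz⟩ := card_eq_one.1 h1
  have hzm : z ∈ E ∩ H := hz ▸ mem_singleton_self z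
  have hzE := (mem_inter.1 hzm).1
  have hzH := (mem_inter.1 hzm).2
  have hh : 1 ≤ H.card := card_pos.2 ⟨z, hzH⟩
  have hU : E ∪ H ⊆ Ω := union_subset hE hH
  have cU : (E ∪ H).card + 1 = E.card + H.card := by rw [← h1]; exact card_union_add_card_inter E H
  have s1 : ∑ c ∈ Ω \ (E ∪ H), plT c E H = (Ω \ (E ∪ H)).card * W E.card H.card := by
    rw [← nsmul_eq_mul, ← sum_const]
    refine sum_congr rfl fun c hc => ?_
    simp only [mem_sdiff, mem_union, not_or] at hc
    unfold plT
    rw [if_neg (fun e : E = {c} => hc.2.1 (e ▸ mem_singleton_self c)), if_neg hc.2.2, erase_eq_of_notMem hc.2.1,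
      if_pos h1]
  have s2 : ∑ c ∈ E ∪ H, plT c E H = (E ∪ H).card * W E.card H.card := by
    by_cases hs : E = {z}
    · subst hs
      rw [singleton_union, insert_eq_of_mem hzH, card_singleton, mul_comm, W_one _ hh,
        sum_eq_single z]
      · simp [plT, hzH]
      · intro c hc hne
        unfold plT
        rw [if_neg (fun e => hne (singleton_injective e).symm), if_pos hc]
      · exact fun h => absurd hzH h
    · have h2 : 2 ≤ E.card := by
        by_contra hn
        have : E.card ≤ 1 := by omega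
        exact hs (eq_singleton_iff_unique_mem.2 ⟨hzE, fun x hx => card_le_one.1 this x hx z hzE⟩)
      obtain ⟨e, he⟩ : ∃ e, E.card = e + 2 := ⟨E.card - 2, by omega⟩
      have hns : ∀ c, E ≠ {c} := fun c e' => by rw [e', card_singleton] at h2; omega
      rw [← sdiff_union_self_eq_union, sum_union sdiff_disjoint, sdiff_union_self_eq_union]
      have t1 : ∑ c ∈ H, plT c E H = 0 :=
        sum_eq_zero fun c hc => by unfold plT; rw [if_neg (hns c), if_pos hc]
      have t2 : ∑ c ∈ E \ H, plT c E H = (E \ H).card * W (e + 1) H.card := by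
        rw [← nsmul_eq_mul, ← sum_const]
        refine sum_congr rfl fun c hc => ?_
        rw [mem_sdiff] at hc
        unfold plT
        rw [if_neg (hns c), if_neg hc.2, hi c hc.2, if_pos h1, card_erase_of_mem hc.1, he]
        rfl
      have c1 : (E \ H).card = e + 1 := by
        have := card_sdiff_add_card_inter E H
        omega
      have c2 : (E ∪ H).card = e + 1 + H.card := by omega
      rw [t1, t2, c1, c2, he, add_zero]
      push_cast
      rw [← W_succ e _ hh, mul_comm]
  rw [← sum_sdiff hU, s1, s2, ← add_mul, ← Nat.cast_add, card_sdiff_add_card_eq_card hU]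

theorem pluhar_aux (n : ℕ) : ∀ (Ω : Finset ℕ) (A B : Finset ι) (E H : ι → Finset ℕ), Ω.card = n →
    (∀ u ∈ A, E u ⊆ Ω) → (∀ v ∈ B, H v ⊆ Ω) → (∀ u ∈ A, (E u).Nonempty) →
    (∀ v ∈ B, (H v).Nonempty) →
    ∑ v ∈ B, ∑ u ∈ A, (if (E u ∩ H v).card = 1 then W (E u).card (H v).card else 0) < 1 →
    Split A B E H := by
  induction n with
  | zero =>
    intro Ω A B E H hn hA hB hE hH _
    rw [card_eq_zero] at hn
    subst hn
    exact ⟨∅, fun u hu => absurd (subset_empty.1 (hA u hu)) (hE u hu).ne_empty,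
      fun v hv => absurd (subset_empty.1 (hB v hv)) (hH v hv).ne_empty⟩
  | succ n ih =>
    intro Ω A B E H hn hA hB hE hH h
    have hne : Ω.Nonempty := card_pos.1 (by omega)
    have hs : ∑ c ∈ Ω, ∑ v ∈ B, ∑ u ∈ A, plT c (E u) (H v) < ∑ _c ∈ Ω, (1 : ℚ) := by
      rw [sum_comm]
      calc ∑ v ∈ B, ∑ c ∈ Ω, ∑ u ∈ A, plT c (E u) (H v)
          ≤ ∑ v ∈ B, ∑ u ∈ A, (Ω.card : ℚ) *
            (if (E u ∩ H v).card = 1 then W (E u).card (H v).card else 0) := by
            refine sum_le_sum fun v hv => ?_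
            rw [sum_comm]
            exact sum_le_sum fun u hu => plT_sum (hA u hu) (hB v hv)
        _ = (Ω.card : ℚ) * ∑ v ∈ B, ∑ u ∈ A,
            (if (E u ∩ H v).card = 1 then W (E u).card (H v).card else 0) := by
            simp only [mul_sum]
        _ < Ω.card * 1 := by
            refine mul_lt_mul_of_pos_left h ?_
            rw [hn]; positivity
        _ = _ := by simp
    obtain ⟨c, hc, hlt⟩ := exists_lt_of_sum_lt hs
    have key : Split (A.filter fun u => E u ≠ {c}) (B.filter fun v => c ∉ H v)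
        (fun u => (E u).erase c) H := by
      refine ih (Ω.erase c) _ _ _ _ (by rw [card_erase_of_mem hc, hn]; rfl) ?_ ?_ ?_ ?_ ?_
      · exact fun u hu => erase_subset_erase c (hA u (mem_filter.1 hu).1)
      · intro v hv x hx
        rw [mem_filter] at hv
        exact mem_erase.2 ⟨fun e => hv.2 (e ▸ hx), hB v hv.1 hx⟩
      · intro u hu
        rw [mem_filter] at hu
        by_contra hn'
        rcases (erase_eq_empty_iff _ _).1 (not_nonempty_iff_eq_empty.1 hn') with e | e
        · exact (hE u hu.1).ne_empty e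
        · exact hu.2 e
      · exact fun v hv => hH v (mem_filter.1 hv).1
      · refine lt_of_le_of_lt ?_ hlt
        refine le_trans (sum_le_sum fun v hv => ?_) (sum_le_sum_of_subset_of_nonneg
          (filter_subset (fun v => c ∉ H v) B) fun v _ _ => sum_nonneg fun u _ => plT_nonneg _ _ _)
        refine le_trans (le_of_eq (sum_congr rfl fun u hu => ?_)) (sum_le_sum_of_subset_of_nonneg
          (filter_subset (fun u => E u ≠ {c}) A) fun u _ _ => plT_nonneg _ _ _)
        unfold plT
        rw [if_neg (mem_filter.1 hu).2, if_neg (mem_filter.1 hv).2]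
    by_cases hs : ∃ u ∈ A, E u = {c}
    · obtain ⟨u0, hu0, e0⟩ := hs
      have hno : ∀ v ∈ B, c ∉ H v := by
        intro v hv hcv
        have h1 : plT c (E u0) (H v) ≤ ∑ u ∈ A, plT c (E u) (H v) :=
          single_le_sum (f := fun u => plT c (E u) (H v)) (fun u _ => plT_nonneg _ _ _) hu0
        have h2 : ∑ u ∈ A, plT c (E u) (H v) ≤ ∑ v ∈ B, ∑ u ∈ A, plT c (E u) (H v) :=
          single_le_sum (f := fun v => ∑ u ∈ A, plT c (E u) (H v))
            (fun v _ => sum_nonneg fun u _ => plT_nonneg _ _ _) hv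
        have h3 : plT c (E u0) (H v) = 1 := by unfold plT; rw [if_pos e0, if_pos hcv]
        linarith
      refine split_takeA1 c (key.mono ?_ ?_ (fun u _ => erase_subset _ _) ?_)
      · intro u hu
        rw [mem_filter] at hu ⊢
        exact ⟨hu.1, fun e => hu.2 (e ▸ mem_singleton_self c)⟩
      · exact fun v hv => mem_filter.2 ⟨hv, hno v hv⟩
      · exact fun v hv => (erase_eq_of_notMem (hno v hv)).ge
    · push Not at hs
      refine split_takeB1 c (key.mono ?_ Subset.rfl (fun _ _ => Subset.rfl) fun _ _ => Subset.rfl)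
      exact fun u hu => mem_filter.2 ⟨hu, hs u hu⟩

theorem pluhar {A B : Finset ι} {E H : ι → Finset ℕ}
    (hE : ∀ u ∈ A, (E u).Nonempty) (hH : ∀ v ∈ B, (H v).Nonempty)
    (h : ∑ v ∈ B, ∑ u ∈ A,
      (if (E u ∩ H v).card = 1 then W (E u).card (H v).card else 0) < 1) :
    Split A B E H :=
  pluhar_aux _ (A.biUnion E ∪ B.biUnion H) A B E H rfl
    (fun _ hu => (subset_biUnion_of_mem E hu).trans subset_union_left)
    (fun _ hv => (subset_biUnion_of_mem H hv).trans subset_union_right) hE hH h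

theorem W_step {e h : ℕ} (hh : 1 ≤ h) :
    ((e : ℚ) + 2) * W (e + 2) h ≤ (e + 1) * W (e + 1) h := by
  rw [← W_succ e h hh]
  have : (1 : ℚ) ≤ h := by exact_mod_cast hh
  nlinarith [W_nonneg (e + 2) h]

theorem W_anti {d e h : ℕ} (hh : 1 ≤ h) (hde : d ≤ e) :
    ((e : ℚ) + 1) * W (e + 1) h ≤ (d + 1) * W (d + 1) h := by
  induction e, hde using Nat.le_induction with
  | base => exact le_rfl
  | succ e _ ih =>
    refine le_trans ?_ ih
    have := W_step (e := e) hh
    push_cast
    rw [show (e : ℚ) + 1 + 1 = e + 2 by ring]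
    exact this

theorem W_two {h : ℕ} (hh : 1 ≤ h) : W 2 h = 1 / ((h : ℚ) * (h + 1)) := by
  have h1 := W_succ 0 h hh
  have h2 := W_one h hh
  have : (0 : ℚ) < h := by exact_mod_cast hh
  rw [eq_div_iff (by positivity)]
  simp only [zero_add, Nat.cast_zero, one_mul] at h1
  calc W 2 h * (h * (h + 1)) = W 2 h * (1 + h) * h := by ring
    _ = 1 := by rw [h1, h2]

theorem W_three {h : ℕ} (hh : 1 ≤ h) : W 3 h = 2 / ((h : ℚ) * (h + 1) * (h + 2)) := by
  have h1 := W_succ 1 h hh
  have : (0 : ℚ) < h := by exact_mod_cast hh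
  rw [eq_div_iff (by positivity)]
  simp only [Nat.cast_one, Nat.reduceAdd] at h1
  rw [W_two hh] at h1
  calc W 3 h * (h * (h + 1) * (h + 2)) = W 3 h * (1 + 1 + h) * (h * (h + 1)) := by ring
    _ = 2 := by rw [h1]; field_simp; norm_num

theorem W_le_two {e h : ℕ} (he : 2 ≤ e) (hh : 1 ≤ h) :
    W e h ≤ 1 / (e : ℚ) * (2 / ((h : ℚ) * (h + 1))) := by
  obtain ⟨d, rfl⟩ : ∃ d, e = d + 1 := ⟨e - 1, by omega⟩
  have := W_anti (d := 1) (e := d) hh (by omega)
  rw [W_two hh] at this
  rw [one_div, ← div_eq_inv_mul, le_div_iff₀ (by positivity)]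
  push_cast at this ⊢
  calc W (d + 1) h * (d + 1) = (d + 1) * W (d + 1) h := by ring
    _ ≤ _ := this
    _ = _ := by ring

theorem W_le_three {e h : ℕ} (he : 3 ≤ e) (hh : 1 ≤ h) :
    W e h ≤ 1 / (e : ℚ) * (6 / ((h : ℚ) * (h + 1) * (h + 2))) := by
  obtain ⟨d, rfl⟩ : ∃ d, e = d + 1 := ⟨e - 1, by omega⟩
  have := W_anti (d := 2) (e := d) hh (by omega)
  rw [W_three hh] at this
  rw [one_div, ← div_eq_inv_mul, le_div_iff₀ (by positivity)]
  push_cast at this ⊢
  calc W (d + 1) h * (d + 1) = (d + 1) * W (d + 1) h := by ring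
    _ ≤ _ := this
    _ = _ := by ring

/-- Convenient form: a bound `φ v` on the conflict weight of every `v`. -/
theorem pluhar_of_le {A B : Finset ι} {E H : ι → Finset ℕ}
    (hE : ∀ u ∈ A, (E u).Nonempty) (hH : ∀ v ∈ B, (H v).Nonempty) (φ : ι → ℚ)
    (hφ : ∀ v ∈ B, ∑ u ∈ A.filter (fun u => (E u ∩ H v).card = 1),
      W (E u).card (H v).card ≤ φ v)
    (h : ∑ v ∈ B, φ v < 1) : Split A B E H := by
  refine pluhar hE hH (lt_of_le_of_lt (sum_le_sum fun v hv => ?_) h)
  rw [← sum_filter]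
  exact hφ v hv

end Pool.Agent.P.MP_a09be5_co
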