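import Pool.Agent.P.MP_a09be5_co.Setup

/-! Numerical inequalities for `k ≥ 20`. -/

namespace Pool.Agent.P.MP_a09be5_co
open Finset

/-- `d y^d (1 - y) ≤ 3/8`. -/
theorem mul_pow_le {y : ℚ} (h0 : 0 ≤ y) (h1 : y ≤ 1) (d : ℕ) :
    (d : ℚ) * y ^ d * (1 - y) ≤ 3 / 8 := by
  have h0' : (0 : ℝ) ≤ y := by exact_mod_cast h0
  have h1' : (y : ℝ) ≤ 1 := by exact_mod_cast h1
  have a1 : (y : ℝ) ≤ Real.exp (y - 1) := by linarith [Real.add_one_le_exp ((y : ℝ) - 1)]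
  have a2 : (y : ℝ) ^ d ≤ Real.exp (d * (y - 1)) := by
    rw [Real.exp_nat_mul]; exact pow_le_pow_left₀ h0' a1 d
  have a3 : (d : ℝ) * (1 - y) ≤ Real.exp (d * (1 - y) - 1) := by
    linarith [Real.add_one_le_exp ((d : ℝ) * (1 - y) - 1)]
  have a4 : Real.exp (d * (1 - y) - 1) * Real.exp (d * (y - 1)) = Real.exp (-1) := by
    rw [← Real.exp_add]; congr 1; ring
  have a5 : Real.exp (-1) ≤ 3 / 8 := by
    rw [Real.exp_neg, inv_le_comm₀ (Real.exp_pos 1) (by norm_num)]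
    linarith [Real.exp_one_gt_d9]
  have a6 : (d : ℝ) * (1 - y) * y ^ d ≤ Real.exp (d * (1 - y) - 1) * Real.exp (d * (y - 1)) :=
    mul_le_mul a3 a2 (by positivity) (Real.exp_pos _).le
  have : ((d : ℝ) * y ^ d * (1 - y)) ≤ 3 / 8 := by linarith
  have h : (((d : ℚ) * y ^ d * (1 - y) : ℚ) : ℝ) ≤ ((3 / 8 : ℚ) : ℝ) := by push_cast; exact this
  exact_mod_cast h

/-- An upper bound for `d * y ^ d` over all `d`. -/
def Mb (y : ℚ) : ℚ :=
  if y ≤ 1 / 2 then y else if y ≤ 2 / 3 then 2 * y ^ 2 else if y ≤ 3 / 4 then 3 * y ^ 3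
  else 3 / (8 * (1 - y))

theorem tail_down {y : ℚ} (h0 : 0 ≤ y) (h1 : y ≤ 1) {D : ℕ} (hD : ((D : ℚ) + 1) * y ≤ D) {d : ℕ}
    (hd : D ≤ d) : (d : ℚ) * y ^ d ≤ D * y ^ D := by
  induction d, hd using Nat.le_induction with
  | base => exact le_rfl
  | succ d hd ih =>
    refine le_trans ?_ ih
    have hd' : (D : ℚ) ≤ d := by exact_mod_cast hd
    have : ((d : ℚ) + 1) * y ≤ d := by nlinarith
    rw [pow_succ]
    push_cast
    nlinarith [pow_nonneg h0 d]

theorem le_Mb {y : ℚ} (h0 : 0 ≤ y) (h1 : y < 1) (d : ℕ) : (d : ℚ) * y ^ d ≤ Mb y := by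
  unfold Mb
  split_ifs with a b c
  · rcases Nat.eq_zero_or_pos d with rfl | hd
    · simpa using h0
    · simpa using tail_down h0 h1.le (D := 1) (by push_cast; linarith) hd
  · rcases Nat.lt_or_ge d 2 with hd | hd
    · interval_cases d
      · simp only [Nat.cast_zero, zero_mul]; positivity
      · simp only [Nat.cast_one, one_mul, pow_one]; nlinarith
    · simpa using tail_down h0 h1.le (D := 2) (by push_cast; linarith) hd
  · rcases Nat.lt_or_ge d 3 with hd | hd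
    · interval_cases d
      · simp only [Nat.cast_zero, zero_mul]; positivity
      · simp only [Nat.cast_one, one_mul, pow_one]; nlinarith [mul_nonneg h0 h0]
      · push_cast; nlinarith [mul_nonneg h0 h0]
    · simpa using tail_down h0 h1.le (D := 3) (by push_cast; linarith) hd
  · rw [le_div_iff₀ (by linarith)]
    linarith [mul_pow_le h0 h1.le d]

theorem tail_bound {y y0 n m : ℚ} (h0 : 0 ≤ y) (hy : y ≤ y0) (hn : 0 < n)
    (hm : ∀ d : ℕ, (d : ℚ) * y0 ^ d ≤ m) (j d : ℕ) :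
    (d : ℚ) / n * y ^ (j + d) ≤ m * y0 ^ j / n := by
  have h1 : y ^ (j + d) ≤ y0 ^ (j + d) := pow_le_pow_left₀ h0 hy _
  have h2 : (d : ℚ) * y0 ^ d * y0 ^ j ≤ m * y0 ^ j :=
    mul_le_mul_of_nonneg_right (hm d) (pow_nonneg (h0.trans hy) j)
  have h3 : (d : ℚ) * y ^ (j + d) ≤ d * y0 ^ (j + d) := mul_le_mul_of_nonneg_left h1 (by positivity)
  rw [div_mul_eq_mul_div]
  refine div_le_div_of_nonneg_right ?_ hn.le
  rw [pow_add y0] at h3
  linarith

theorem ySeq_eq (p : ℚ) {N : ℕ} (hN : 0 < N) (j : ℕ) : ySeq p N j = p + (1 - p) * (j / N) := by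
  unfold ySeq
  have : (N : ℚ) ≠ 0 := by positivity
  field_simp
  ring

theorem ySeq_anti {p : ℚ} (hp : p ≤ 1) {N N' : ℕ} (hN : 0 < N) (h : N ≤ N') (j : ℕ) :
    ySeq p N' j ≤ ySeq p N j := by
  rw [ySeq_eq p hN, ySeq_eq p (hN.trans_le h)]
  have : (j : ℚ) / N' ≤ j / N :=
    div_le_div_of_nonneg_left (by positivity) (by exact_mod_cast hN) (by exact_mod_cast h)
  nlinarith

/-- The bias, in fortieths. -/
def tab (w : ℕ) : ℕ :=
  [18, 15, 12, 11, 10, 9, 9, 8, 8, 8, 7, 7, 6, 6, 6, 5, 5, 5, 5, 5, 5, 4, 4, 4, 4, 4, 4, 4, 3, 3, 3,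
    3, 3, 3, 3].getD (w - 2) 2

def gridK (w j : ℕ) : ℕ := max 20 (max (2 * w - 1) ((3 * j + 4) / 2 + 1))

def gridOK (w j : ℕ) : Bool :=
  decide (tab w ≤ 40) && decide (ySeq (tab w / 40) (gridK w j - 1) j < 1) &&
  decide (ySeq (1 - tab w / 40) (gridK w j - 1) j < 1) &&
  decide ((w : ℚ) * (gridK w j / ((gridK w j : ℚ) - j)) *
      (Mb (ySeq (tab w / 40) (gridK w j - 1) j) * ySeq (tab w / 40) (gridK w j - 1) j ^ j) +
    ((gridK w j : ℚ) + w - 2) / ((gridK w j : ℚ) - j) / ((w : ℚ) - 1) *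
      (Mb (ySeq (1 - tab w / 40) (gridK w j - 1) j) *
        ySeq (1 - tab w / 40) (gridK w j - 1) j ^ j) < 1)

theorem grid_all :
    ((List.range' 2 68).all fun w => (List.range' 1 34).all fun j => gridOK w j) = true := by
  decide +kernel

theorem tail_beta {j : ℕ} (hj : 35 ≤ j) : (27 / 4 : ℚ) * (2 * j + 1) * (5 / 6) ^ j < 1 := by
  induction j, hj using Nat.le_induction with
  | base => norm_num
  | succ j hj ih =>
    have : (35 : ℚ) ≤ j := by exact_mod_cast hj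
    rw [pow_succ]
    push_cast
    nlinarith [pow_pos (show (0 : ℚ) < 5 / 6 by norm_num) j]

theorem tail_alpha (i : ℕ) : ((i : ℚ) + 6) ^ 2 * (3 / 10) ^ i ≤ 36 := by
  induction i with
  | zero => norm_num
  | succ i ih =>
    have : (0 : ℚ) ≤ i := by positivity
    rw [pow_succ (3 / 10 : ℚ)]
    push_cast
    have h : ((i : ℚ) + 1 + 6) ^ 2 * (3 / 10) ≤ (i + 6) ^ 2 := by nlinarith
    nlinarith [pow_pos (show (0 : ℚ) < 3 / 10 by norm_num) i]

theorem tail_num {k w j b : ℕ} (hk : 20 ≤ k) (hw : 2 ≤ w) (hwk : 2 * w ≤ k + 1) (hj : 1 ≤ j)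
    (h3 : 3 * j + 4 < 2 * k) (hb : (b - 1) * (w - 1) ≤ k - 1) :
    ∃ p MA MB : ℚ, 0 ≤ p ∧ p ≤ 1 ∧
      (∀ d : ℕ, (d : ℚ) / (k - j : ℕ) * ySeq p (k - 1) j ^ (j + d) ≤ MA) ∧
      (∀ d : ℕ, (d : ℚ) / (k - j : ℕ) * ySeq (1 - p) (k - 1) j ^ (j + d) ≤ MB) ∧
      (k * w : ℕ) * MA + (b : ℚ) * MB < 1 := by
  have hjk : j < k - 1 := by omega
  have hn : ((k - j : ℕ) : ℚ) = k - j := Nat.cast_sub (by omega)
  have hN : ((k - 1 : ℕ) : ℚ) = k - 1 := by rw [Nat.cast_sub (by omega)]; simp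
  have hk' : (20 : ℚ) ≤ k := by exact_mod_cast hk
  have hw' : (2 : ℚ) ≤ w := by exact_mod_cast hw
  have hwk' : 2 * (w : ℚ) ≤ k + 1 := by exact_mod_cast hwk
  have hj' : (1 : ℚ) ≤ j := by exact_mod_cast hj
  have h3' : 3 * (j : ℚ) + 5 ≤ 2 * k := by exact_mod_cast h3
  have hb' : (b : ℚ) * (w - 1) ≤ k + w - 2 := by
    have h1 : b * (w - 1) ≤ k - 1 + (w - 1) := by
      rcases Nat.eq_zero_or_pos b with rfl | h
      · simp
      · have : b * (w - 1) = (b - 1) * (w - 1) + (w - 1) := by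
          rw [← Nat.succ_mul]; congr 1; omega
        omega
    have h2 : ((b * (w - 1) : ℕ) : ℚ) ≤ ((k - 1 + (w - 1) : ℕ) : ℚ) := by exact_mod_cast h1
    push_cast [Nat.cast_sub (show 1 ≤ w by omega), Nat.cast_sub (show 1 ≤ k by omega)] at h2
    linarith
  have hb0 : (0 : ℚ) ≤ b := by positivity
  have hnpos : (0 : ℚ) < k - j := by linarith
  rw [hn]
  push_cast
  by_cases c1 : w < 70 ∧ j < 35
  · have g := grid_all
    rw [List.all_eq_true] at g
    have g1 := g w (by rw [List.mem_range'_1]; omega)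
    rw [List.all_eq_true] at g1
    have g2 := g1 j (by rw [List.mem_range'_1]; omega)
    simp only [gridOK, Bool.and_eq_true, decide_eq_true_eq] at g2
    obtain ⟨⟨⟨t1, t2⟩, t3⟩, t4⟩ := g2
    set k0 := gridK w j with hk0
    have l1 : k0 ≤ k := by rw [hk0, gridK]; omega
    have l2 : j < k0 - 1 := by rw [hk0, gridK]; omega
    have l1' : (k0 : ℚ) ≤ k := by exact_mod_cast l1
    have l2' : (j : ℚ) < k0 := by exact_mod_cast (show j < k0 by omega)
    set p : ℚ := tab w / 40 with hp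
    have hp0 : 0 ≤ p := by positivity
    have hp1 : p ≤ 1 := by
      rw [hp, div_le_one (by norm_num)]; exact_mod_cast t1
    have yA0 := ySeq_nonneg hp0 hp1 l2
    have yB0 := ySeq_nonneg (p := 1 - p) (by linarith) (by linarith) l2
    refine ⟨p, _, _, hp0, hp1,
      tail_bound (ySeq_nonneg hp0 hp1 hjk) (ySeq_anti hp1 (N := k0 - 1) (by omega) (by omega) j) hnpos
        (le_Mb yA0 t2) j,
      tail_bound (ySeq_nonneg (by linarith) (by linarith) hjk)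
        (ySeq_anti (by linarith) (N := k0 - 1) (by omega) (by omega) j) hnpos (le_Mb yB0 t3) j, ?_⟩
    refine lt_of_le_of_lt (add_le_add ?_ ?_) t4
    · have m0 : 0 ≤ Mb (ySeq p (k0 - 1) j) * ySeq p (k0 - 1) j ^ j :=
        mul_nonneg (by simpa using le_Mb yA0 t2 0) (pow_nonneg yA0 j)
      have : (k : ℚ) / (k - j) ≤ k0 / (k0 - j) := by
        rw [div_le_div_iff₀ hnpos (by linarith)]; nlinarith
      calc _ = (w : ℚ) * (k / (k - j)) * (Mb (ySeq p (k0 - 1) j) * ySeq p (k0 - 1) j ^ j) := by ring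
        _ ≤ _ := by gcongr
    · have m0 : 0 ≤ Mb (ySeq (1 - p) (k0 - 1) j) * ySeq (1 - p) (k0 - 1) j ^ j :=
        mul_nonneg (by simpa using le_Mb yB0 t3 0) (pow_nonneg yB0 j)
      have e1 : ((k : ℚ) + w - 2) / (k - j) ≤ (k0 + w - 2) / (k0 - j) := by
        rw [div_le_div_iff₀ hnpos (by linarith)]; nlinarith
      have e2 : (b : ℚ) / (k - j) ≤ (k0 + w - 2) / (k0 - j) / (w - 1) := by
        rw [le_div_iff₀ (by linarith), div_mul_eq_mul_div]
        exact (div_le_div_of_nonneg_right hb' hnpos.le).trans e1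
      calc _ = (b : ℚ) / (k - j) *
            (Mb (ySeq (1 - p) (k0 - 1) j) * ySeq (1 - p) (k0 - 1) j ^ j) := by ring
        _ ≤ _ := by gcongr
  by_cases c2 : w ≤ 2 * j
  · have hj35 : 35 ≤ j := by omega
    have c2' : (w : ℚ) ≤ 2 * j := by exact_mod_cast c2
    have hy : ySeq (1 / 2) (k - 1) j ≤ 5 / 6 := by
      rw [ySeq_eq _ (by omega), hN]
      have : (j : ℚ) / (k - 1) ≤ 2 / 3 := by
        rw [div_le_div_iff₀ (by linarith) (by norm_num)]; linarith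
      linarith
    have hm : ∀ d : ℕ, (d : ℚ) * (5 / 6) ^ d ≤ 9 / 4 := fun d => by
      linarith [mul_pow_le (y := 5 / 6) (by norm_num) (by norm_num) d]
    have t := tail_bound (ySeq_nonneg (by norm_num) (by norm_num) hjk) hy hnpos hm j
    refine ⟨1 / 2, _, _, by norm_num, by norm_num, t, by rw [show (1 - 1 / 2 : ℚ) = 1 / 2 by norm_num]; exact t, ?_⟩
    refine lt_of_le_of_lt ?_ (tail_beta hj35)
    have hbk : (b : ℚ) ≤ k := by
      by_contra hc
      push Not at hc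
      nlinarith
    have e1 : ((k : ℚ) * w + b) / (k - j) ≤ 3 * (2 * j + 1) := by
      rw [div_le_iff₀ hnpos]; nlinarith
    have pp := pow_pos (show (0 : ℚ) < 5 / 6 by norm_num) j
    calc _ = ((k : ℚ) * w + b) / (k - j) * (9 / 4 * (5 / 6) ^ j) := by ring
      _ ≤ 3 * (2 * j + 1) * (9 / 4 * (5 / 6) ^ j) := by gcongr
      _ = _ := by ring
  · have hw70 : (70 : ℚ) ≤ w := by exact_mod_cast (show 70 ≤ w by omega)
    have c2' : 2 * (j : ℚ) + 1 ≤ w := by exact_mod_cast (show 2 * j + 1 ≤ w by omega)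
    have hwpos : (0 : ℚ) < w := by linarith
    have hp0 : (0 : ℚ) ≤ 2 / w := by positivity
    have hp35 : (2 : ℚ) / w ≤ 1 / 35 := by
      rw [div_le_div_iff₀ hwpos (by norm_num)]; linarith
    have hp1 : (2 : ℚ) / w ≤ 1 := by linarith
    have r0 : (0 : ℚ) ≤ j / (k - 1) := div_nonneg (by linarith) (by linarith)
    have r1 : (j : ℚ) / (k - 1) ≤ 1 / 4 := by
      rw [div_le_div_iff₀ (by linarith) (by norm_num)]; linarith
    have r2 : (j : ℚ) / (k - 1) ≤ (j + 1) / (2 * w) := by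
      rw [div_le_div_iff₀ (by linarith) (by linarith)]; nlinarith
    set yA := ySeq (2 / w) (k - 1) j with hyA
    set yB := ySeq (1 - 2 / w) (k - 1) j with hyB
    have eA : yA = 2 / w + (1 - 2 / w) * (j / (k - 1)) := by rw [hyA, ySeq_eq _ (by omega), hN]
    have eB : 1 - yB = 2 / w * (1 - j / (k - 1)) := by rw [hyB, ySeq_eq _ (by omega), hN]; ring
    have yA0 : 0 ≤ yA := ySeq_nonneg hp0 hp1 hjk
    have yB0 : 0 ≤ yB := ySeq_nonneg (by linarith) (by linarith) hjk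
    have yA1 : yA ≤ 3 / 10 := by rw [eA]; nlinarith
    have yA2 : yA ≤ (j + 5) / (2 * w) := by
      have : ((j : ℚ) + 5) / (2 * w) = 2 / w + (j + 1) / (2 * w) := by field_simp; ring
      rw [this, eA]; nlinarith
    have yB1 : 3 / (2 * w) ≤ 1 - yB := by
      have : (3 : ℚ) / (2 * w) = 2 / w * (3 / 4) := by field_simp; ring
      rw [this, eB]; gcongr; linarith
    have yB2 : yB ≤ 1 := by
      have : (0 : ℚ) ≤ 3 / (2 * w) := by positivity
      linarith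
    have mA : ∀ d : ℕ, (d : ℚ) * yA ^ d ≤ yA := fun d => by
      have := le_Mb yA0 (by linarith) d
      rwa [Mb, if_pos (by linarith)] at this
    have mB : ∀ d : ℕ, (d : ℚ) * yB ^ d ≤ w / 4 := fun d => by
      have h1 := mul_pow_le yB0 yB2 d
      have h2 : (d : ℚ) * yB ^ d * (3 / (2 * w)) ≤ 3 / 8 :=
        le_trans (mul_le_mul_of_nonneg_left yB1 (by positivity)) h1
      rw [← mul_div_assoc, div_le_iff₀ (by positivity)] at h2
      linarith
    refine ⟨2 / w, _, _, hp0, hp1, tail_bound yA0 le_rfl hnpos mA j,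
      tail_bound yB0 le_rfl hnpos mB j, ?_⟩
    have kn : (k : ℚ) / (k - j) ≤ 4 / 3 := by
      rw [div_le_div_iff₀ hnpos (by norm_num)]; linarith
    have s1 : (w : ℚ) * (yA * yA ^ j) ≤ 9 / 70 := by
      obtain ⟨i, rfl⟩ : ∃ i, j = i + 1 := ⟨j - 1, by omega⟩
      have a1 : yA ^ i ≤ (3 / 10) ^ i := pow_le_pow_left₀ yA0 yA1 i
      have a2 : yA ^ 2 ≤ ((((i + 1 : ℕ) : ℚ) + 5) / (2 * w)) ^ 2 := pow_le_pow_left₀ yA0 yA2 2
      have a3 := tail_alpha i
      calc (w : ℚ) * (yA * yA ^ (i + 1)) = w * (yA ^ 2 * yA ^ i) := by ring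
        _ ≤ w * (((((i + 1 : ℕ) : ℚ) + 5) / (2 * w)) ^ 2 * (3 / 10) ^ i) := by gcongr
        _ = ((i : ℚ) + 6) ^ 2 * (3 / 10) ^ i / (4 * w) := by push_cast; field_simp; ring
        _ ≤ 36 / (4 * w) := by gcongr
        _ ≤ 9 / 70 := by rw [div_le_div_iff₀ (by positivity) (by norm_num)]; linarith
    have s2 : (b : ℚ) * w ≤ 105 / 69 * k := by
      have : (b : ℚ) * (69 * w) ≤ b * (70 * (w - 1)) := mul_le_mul_of_nonneg_left (by linarith) hb0
      nlinarith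
    have s3 : yB ^ j ≤ 1 := pow_le_one₀ yB0 yB2
    have kn0 : (0 : ℚ) ≤ k / (k - j) := by positivity
    have u1 : (k : ℚ) * w * (yA * yA ^ j / (k - j)) ≤ 4 / 3 * (9 / 70) := by
      calc _ = (k : ℚ) / (k - j) * (w * (yA * yA ^ j)) := by ring
        _ ≤ _ := by gcongr
    have u2 : (b : ℚ) * (w / 4 * yB ^ j / (k - j)) ≤ 105 / 69 * (4 / 3) / 4 := by
      calc _ = (b : ℚ) * w * yB ^ j / (k - j) / 4 := by ring
        _ ≤ 105 / 69 * k * 1 / (k - j) / 4 := by gcongr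
        _ = 105 / 69 * (k / (k - j)) / 4 := by ring
        _ ≤ _ := by gcongr
    linarith

theorem tail_prod {k t c : ℕ} (hk : 20 ≤ k) (ht : 1 ≤ t) (h3 : 3 * t ≤ k - 2)
    (hc : 2 * c ≤ k ^ 2 + 3 * k) : c ^ t * 2 ^ (k - 2) < 4 ^ t * (t + 2) ^ (k - 2) := by
  obtain ⟨T, rfl⟩ : ∃ T, k = T + 2 := ⟨k - 2, by omega⟩
  rw [Nat.add_sub_cancel] at h3 ⊢
  have hT : (18 : ℝ) ≤ T := by exact_mod_cast (show 18 ≤ T by omega)
  have h3' : 3 * (t : ℝ) ≤ T := by exact_mod_cast h3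
  have hc' : 2 * (c : ℝ) ≤ (T + 2) ^ 2 + 3 * (T + 2) := by exact_mod_cast hc
  have a1 : (c : ℝ) < 4 * (1 + T / 6) ^ 3 := by nlinarith [mul_nonneg (sub_nonneg.2 hT) (sq_nonneg (T : ℝ))]
  have a2 : (1 + (T : ℝ) / 6) ^ (3 * t / T : ℝ) ≤ 1 + 3 * t / T * (T / 6) :=
    rpow_one_add_le_one_add_mul_self (by linarith) (by positivity)
      (by rw [div_le_one (by linarith)]; exact h3')
  have a3 : (1 : ℝ) + 3 * t / T * (T / 6) = (t + 2) / 2 := by field_simp; ring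
  have a4 : ((1 + (T : ℝ) / 6) ^ 3) ^ t ≤ ((t + 2) / 2) ^ T := by
    rw [← a3]
    refine le_trans (le_of_eq ?_) (pow_le_pow_left₀ (by positivity) a2 T)
    rw [← Real.rpow_mul_natCast (by positivity), ← pow_mul, ← Real.rpow_natCast]
    congr 1
    push_cast
    field_simp
  have a5 : (c : ℝ) ^ t < (4 * (1 + T / 6) ^ 3) ^ t := pow_lt_pow_left₀ a1 (by positivity) (by omega)
  have a6 : (c : ℝ) ^ t * 2 ^ T < 4 ^ t * (t + 2) ^ T := by
    rw [mul_pow] at a5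
    rw [div_pow, le_div_iff₀ (by positivity)] at a4
    calc (c : ℝ) ^ t * 2 ^ T < 4 ^ t * ((1 + (T : ℝ) / 6) ^ 3) ^ t * 2 ^ T := by gcongr
      _ = 4 ^ t * (((1 + (T : ℝ) / 6) ^ 3) ^ t * 2 ^ T) := by ring
      _ ≤ _ := by gcongr
  exact_mod_cast a6

end Pool.Agent.P.MP_a09be5_co
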