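import Pool.Agent.P.MP_a09be5_co.Setup

/-! Certificates for the search tree, 5 ≤ k ≤ 19. -/

namespace Pool.Agent.P.MP_a09be5_co

theorem tree_5_2 : tree 5 10 5
  [([3,3,3], [(21,[1,1,1],8), (52,[1,1,1],9), (1,[0,2,1],0), (1,[2,1,0],20), (2,[0,2,2],13), (5,[0,2,2],14), (8,[2,0,2],13), (8,[2,2,0],13)]),
   ([3,4], [(71,[1,1],7), (18,[1,1],8), (18,[2,0],5), (6,[2,0],4), (33,[2,1],13), (14,[1,2],15), (1,[0,1],3), (5,[0,1],2), (17,[0,2],10), (16,[0,2],11)])]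
    5 [] 3 2 = true := by decide +kernel

theorem tree_5_3 : tree 5 15 3
  [([3,3,3], [(36,[1,1,1],5), (1,[0,2,2],0), (1,[2,1,1],20), (3,[2,0,1],9), (10,[2,1,0],9), (12,[1,0,2],9), (4,[0,2,2],11), (7,[1,2,0],9), (7,[2,1,2],10), (18,[1,2,1],13)]),
   ([3,4], [(6,[1,1],4), (4,[1,1],5), (2,[0,2],4), (2,[2,0],3), (9,[2,1],10), (3,[1,2],11), (4,[1,2],10), (1,[0,2],15)])]
    5 [] 3 2 = true := by decide +kernel

theorem tree_6_2 : tree 6 12 6
  [([3,3,4], [(12,[1,1,1],9), (32,[1,1,1],10), (1,[0,2,2],20), (1,[2,0,1],0), (2,[1,0,2],15)]),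
   ([4,4], [(50,[1,1],9), (6,[2,1],18), (2,[0,2],10), (19,[0,2],9), (3,[1,0],0), (2,[2,0],8), (17,[2,0],9), (1,[0,1],0)]),
   ([3,5], [(15,[1,1],7), (1,[1,2],17), (1,[0,2],11), (3,[2,0],3), (4,[0,2],12), (6,[2,1],12)])]
    6 [] 4 3 = true := by decide +kernel

theorem tree_6_3 : tree 6 18 3
  [([3,3,3,3], [(50,[1,1,1,1],9), (32,[1,1,1,1],10), (4,[0,2,0,2],10), (4,[0,2,2,0],10), (4,[0,0,2,2],10), (1,[2,0,0,2],20), (1,[2,0,2,0],20), (1,[2,2,0,0],20), (1,[2,0,0,0],15)]),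
   ([3,4], [(8,[1,1],5), (4,[1,1],6), (6,[2,2],9), (9,[1,2],9), (1,[2,0],5), (12,[2,1],7), (3,[2,0],4), (5,[0,2],7), (1,[0,1],4)]),
   ([4,4], [(2,[1,1],4), (1,[1,1],5), (1,[0,2],3), (2,[1,2],12), (1,[2,0],5), (2,[2,1],10)]),
   ([3,5], [(1,[1,1],2), (1,[1,1],3), (1,[0,2],8), (1,[0,2],7), (1,[1,2],13), (4,[2,1],9)])]
    6 [] 4 3 = true := by decide +kernel

theorem tree_7_2 : tree 7 14 7
  [([4,5], [(4,[1,1],7), (2,[1,1],8), (2,[0,2],10), (1,[2,0],9)]),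
   ([3,6], [(5,[1,1],7), (1,[1,1],8), (1,[2,0],2), (2,[0,2],13), (2,[2,1],14)])]
    7 [] 5 4 = true := by decide +kernel

theorem tree_7_3 : tree 7 21 4
  [([4,4], [(12,[1,1],6), (4,[1,1],7), (1,[2,2],13), (4,[1,2],12)]),
   ([3,5], [(4,[1,1],6), (3,[1,1],7), (3,[1,2],12)]),
   ([4,5], [(4,[1,1],6), (7,[1,1],7), (1,[1,2],16), (1,[2,1],17), (3,[2,0],6), (4,[0,2],8)]),
   ([3,6], [(7,[1,1],6), (3,[1,1],7), (1,[2,0],2), (4,[0,2],12), (4,[2,1],12)])]
    7 [] 5 4 = true := by decide +kernel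

theorem tree_7_4 : tree 7 28 3
  [([3,3,3,3], [(6,[1,1,1,1],6), (2,[2,2,0,2],7), (1,[1,1,2,2],7), (3,[1,1,2,2],6), (3,[2,1,2,1],7), (2,[1,2,2,1],6), (2,[2,2,1,1],6)]),
   ([3,3,4], [(13,[1,1,1],6), (2,[1,1,1],7), (3,[1,2,2],10), (3,[2,1,2],10)]),
   ([4,4], [(3,[1,1],5), (2,[1,2],9), (2,[2,1],9), (1,[0,2],6), (1,[2,0],6)]),
   ([3,5], [(7,[1,1],5), (1,[2,2],13), (1,[1,2],14), (7,[2,1],7), (1,[2,0],4), (3,[0,2],9)]),
   ([4,5], [(1,[1,1],3), (4,[1,1],7), (1,[0,2],6), (1,[0,2],7), (1,[2,0],5), (2,[2,1],11)]),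
   ([6], [(7,[1],4), (3,[2],10)])]
    7 [] 5 4 = true := by decide +kernel

theorem tree_8_2 : tree 8 16 8
  [([4,6], [(15,[1,1],9), (10,[1,1],10), (1,[0,2],17), (1,[1,2],19), (2,[2,0],3)]),
   ([3,7], [(2,[1,1],6), (10,[1,1],7), (1,[2,0],2), (3,[0,2],14), (1,[2,1],14), (3,[2,1],13)])]
    8 [] 6 5 = true := by decide +kernel

theorem tree_8_3 : tree 8 24 4
  [([5,5], [(7,[1,1],7), (1,[0,2],7), (1,[0,2],8), (1,[2,1],17)]),
   ([6], [(7,[1],6), (2,[2],11), (1,[2],10)]),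
   ([7], [(7,[1],5), (1,[2],13), (2,[2],12)])]
    8 [] 6 5 = true := by decide +kernel

theorem tree_8_4 : tree 8 32 3
  [([4,4], [(4,[1,1],5), (1,[2,2],8), (1,[1,2],7), (3,[2,1],7)]),
   ([3,5], [(12,[1,1],5), (3,[2,2],9), (4,[1,2],9)]),
   ([4,5], [(1,[1,1],7)]),
   ([5,5], [(5,[1,1],6), (1,[0,2],6), (1,[0,2],7), (1,[2,0],6), (1,[2,0],7), (1,[2,1],12)]),
   ([6], [(2,[1],4), (4,[1],5), (4,[2],9)]),
   ([7], [(7,[1],4), (3,[2],11)])]
    8 [] 6 5 = true := by decide +kernel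

theorem tree_9_2 : tree 9 18 9
  [([8], [(22,[1],8), (1,[2],16), (4,[2],15), (1,[0],1), (1,[0],2)])]
    9 [] 7 6 = true := by decide +kernel

theorem tree_9_3 : tree 9 27 5
  [([5,6], [(3,[1,1],7), (14,[1,1],8), (1,[1,2],18), (2,[0,2],14)]),
   ([7], [(6,[1],6), (1,[2],12), (2,[2],11), (1,[0],2)]),
   ([8], [(1,[1],5), (7,[1],6), (2,[2],14), (1,[2],13)])]
    9 [] 7 6 = true := by decide +kernel

theorem tree_9_4 : tree 9 36 3
  [([5,5], [(1,[1,1],7)]),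
   ([6], [(7,[1],5), (3,[2],8)]),
   ([7], [(1,[1],6)]),
   ([8], [(1,[1],5)])]
    9 [] 7 6 = true := by decide +kernel

theorem tree_9_5 : tree 9 45 3
  [([4,4,4], [(1,[1,1,1],8)]),
   ([4,5], [(1,[1,1],6)]),
   ([5,5], [(1,[1,1],6)]),
   ([3,6], [(1,[1,1],6)]),
   ([4,6], [(96,[1,1],6), (1,[0,2],19), (2,[2,0],17)]),
   ([5,6], [(48,[1,1],5), (3,[1,2],18), (8,[2,0],5), (8,[2,0],4), (8,[0,2],6), (16,[0,2],7), (9,[1,2],14)]),
   ([7], [(6,[1],4), (1,[2],10), (3,[2],9)]),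
   ([8], [(7,[1],4), (3,[2],12)])]
    9 [] 7 6 = true := by decide +kernel

theorem tree_10_2 : tree 10 20 10
  [([9], [(14,[1],8), (1,[1],9), (2,[2],16), (1,[2],15), (1,[0],1)])]
    10 [] 8 7 = true := by decide +kernel

theorem tree_10_3 : tree 10 30 5
  [([7], [(1,[1],7)]),
   ([8], [(1,[1],7)]),
   ([9], [(1,[1],6)])]
    10 [] 8 7 = true := by decide +kernel

theorem tree_10_4 : tree 10 40 4
  [([6,6], [(4,[1,1],6), (9,[1,1],7), (1,[0,2],7), (3,[0,2],8), (1,[2,1],18), (1,[2,0],14)]),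
   ([7], [(1,[1],6)]),
   ([8], [(1,[1],6)]),
   ([9], [(3,[1],4), (4,[1],5), (3,[2],13)])]
    10 [] 8 7 = true := by decide +kernel

theorem tree_10_5 : tree 10 50 3
  [([5,5], [(1,[1,1],6)]),
   ([4,6], [(1,[1,1],6)]),
   ([5,6], [(1,[1,1],6)]),
   ([6,6], [(2,[1,1],6), (4,[1,1],7), (1,[0,2],6), (2,[0,2],7), (1,[2,0],6), (2,[2,0],7)]),
   ([7], [(1,[1],5)]),
   ([8], [(1,[1],5)]),
   ([9], [(1,[1],4)])]
    10 [] 8 7 = true := by decide +kernel

theorem tree_11_2 : tree 11 22 11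
  [([10], [(10,[1],8), (5,[1],9), (3,[2],16), (1,[0],1)])]
    11 [] 9 8 = true := by decide +kernel

theorem tree_11_3 : tree 11 33 6
  [([9], [(1,[1],7)]),
   ([10], [(1,[1],6)])]
    11 [] 9 8 = true := by decide +kernel

theorem tree_11_4 : tree 11 44 4
  [([7], [(1,[1],6)]),
   ([8], [(1,[1],6)]),
   ([9], [(1,[1],6)]),
   ([10], [(1,[1],5)])]
    11 [] 9 8 = true := by decide +kernel

theorem tree_11_5 : tree 11 55 3
  [([6,6], [(1,[1,1],6)]),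
   ([7], [(1,[1],5)]),
   ([8], [(1,[1],5)]),
   ([9], [(1,[1],5)]),
   ([10], [(1,[1],4)])]
    11 [] 9 8 = true := by decide +kernel

theorem tree_11_6 : tree 11 66 3
  [([5,5], [(1,[1,1],6)]),
   ([4,6], [(1,[1,1],6)]),
   ([5,6], [(1,[1,1],6)]),
   ([6,6], [(1,[1,1],5)]),
   ([7], [(5,[1],4), (4,[2],8), (1,[2],7)]),
   ([8], [(1,[1],5)]),
   ([9], [(1,[1],5)]),
   ([10], [(1,[1],4)])]
    11 [] 9 8 = true := by decide +kernel

theorem tree_12_2 : tree 12 24 12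
  [([11], [(7,[1],8), (9,[1],9), (1,[2],17), (2,[2],16), (1,[0],1)])]
    12 [] 10 9 = true := by decide +kernel

theorem tree_12_3 : tree 12 36 6
  [([10], [(1,[1],7)]),
   ([11], [(1,[1],6)])]
    12 [] 10 9 = true := by decide +kernel

theorem tree_12_4 : tree 12 48 4
  [([7], [(1,[1],6)]),
   ([8], [(1,[1],6)]),
   ([9], [(1,[1],6)]),
   ([10], [(1,[1],6)]),
   ([11], [(1,[1],5)])]
    12 [] 10 9 = true := by decide +kernel

theorem tree_12_5 : tree 12 60 3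
  [([7], [(1,[1],5)]),
   ([8], [(1,[1],5)]),
   ([9], [(1,[1],5)]),
   ([10], [(1,[1],5)]),
   ([11], [(1,[1],4)])]
    12 [] 10 9 = true := by decide +kernel

theorem tree_12_6 : tree 12 72 3
  [([5,6], [(1,[1,1],6)]),
   ([6,6], [(1,[1,1],6)]),
   ([7], [(5,[1],4), (5,[2],7)]),
   ([8], [(1,[1],5)]),
   ([9], [(1,[1],5)]),
   ([10], [(1,[1],5)]),
   ([11], [(1,[1],4)])]
    12 [] 10 9 = true := by decide +kernel

theorem tree_13_2 : tree 13 26 13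
  [([12], [(1,[1],9)])]
    13 [] 11 10 = true := by decide +kernel

theorem tree_13_3 : tree 13 39 7
  [([11], [(1,[1],7)]),
   ([12], [(1,[1],6)])]
    13 [] 11 10 = true := by decide +kernel

theorem tree_13_4 : tree 13 52 5
  [([8], [(1,[1],7)]),
   ([9], [(1,[1],6)]),
   ([10], [(1,[1],6)]),
   ([11], [(1,[1],6)]),
   ([12], [(1,[1],5)])]
    13 [] 11 10 = true := by decide +kernel

theorem tree_13_5 : tree 13 65 4
  [([7], [(6,[1],5), (4,[2],7)]),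
   ([8], [(1,[1],6)]),
   ([9], [(1,[1],6)]),
   ([10], [(1,[1],6)]),
   ([11], [(1,[1],5)]),
   ([12], [(1,[1],4)])]
    13 [] 11 10 = true := by decide +kernel

theorem tree_13_6 : tree 13 78 3
  [([7], [(6,[1],5), (4,[2],7)]),
   ([8], [(1,[1],5)]),
   ([9], [(1,[1],5)]),
   ([10], [(1,[1],5)]),
   ([11], [(1,[1],5)]),
   ([12], [(1,[1],4)])]
    13 [] 11 10 = true := by decide +kernel

theorem tree_13_7 : tree 13 91 3
  [([6,6], [(1,[1,1],6)]),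
   ([7], [(5,[1],4), (1,[2],7), (4,[2],6)]),
   ([8], [(1,[1],5)]),
   ([9], [(1,[1],5)]),
   ([10], [(1,[1],5)]),
   ([11], [(1,[1],4)]),
   ([12], [(1,[1],3)])]
    13 [] 11 10 = true := by decide +kernel

theorem tree_14_2 : tree 14 28 14
  [([13], [(1,[1],9)])]
    14 [] 12 11 = true := by decide +kernel

theorem tree_14_3 : tree 14 42 7
  [([12], [(1,[1],7)]),
   ([13], [(1,[1],6)])]
    14 [] 12 11 = true := by decide +kernel

theorem tree_14_4 : tree 14 56 5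
  [([10], [(1,[1],6)]),
   ([11], [(1,[1],6)]),
   ([12], [(1,[1],6)]),
   ([13], [(1,[1],5)])]
    14 [] 12 11 = true := by decide +kernel

theorem tree_14_5 : tree 14 70 4
  [([8], [(1,[1],6)]),
   ([9], [(1,[1],6)]),
   ([10], [(1,[1],6)]),
   ([11], [(1,[1],6)]),
   ([12], [(1,[1],5)]),
   ([13], [(1,[1],4)])]
    14 [] 12 11 = true := by decide +kernel

theorem tree_14_6 : tree 14 84 3
  [([7], [(6,[1],5), (4,[2],7)]),
   ([8], [(1,[1],5)]),
   ([9], [(1,[1],5)]),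
   ([10], [(1,[1],5)]),
   ([11], [(1,[1],5)]),
   ([12], [(1,[1],4)]),
   ([13], [(1,[1],4)])]
    14 [] 12 11 = true := by decide +kernel

theorem tree_14_7 : tree 14 98 3
  [([7], [(5,[1],4), (5,[2],6)]),
   ([8], [(1,[1],5)]),
   ([9], [(1,[1],5)]),
   ([10], [(1,[1],5)]),
   ([11], [(1,[1],5)]),
   ([12], [(1,[1],4)]),
   ([13], [(1,[1],3)])]
    14 [] 12 11 = true := by decide +kernel

theorem tree_15_2 : tree 15 30 15
  [([14], [(1,[1],9)])]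
    15 [] 13 12 = true := by decide +kernel

theorem tree_15_3 : tree 15 45 8
  [([13], [(1,[1],7)]),
   ([14], [(1,[1],6)])]
    15 [] 13 12 = true := by decide +kernel

theorem tree_15_4 : tree 15 60 5
  [([12], [(1,[1],6)]),
   ([13], [(1,[1],6)]),
   ([14], [(1,[1],5)])]
    15 [] 13 12 = true := by decide +kernel

theorem tree_15_5 : tree 15 75 4
  [([9], [(1,[1],6)]),
   ([10], [(1,[1],6)]),
   ([11], [(1,[1],6)]),
   ([12], [(1,[1],6)]),
   ([13], [(1,[1],5)]),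
   ([14], [(1,[1],4)])]
    15 [] 13 12 = true := by decide +kernel

theorem tree_15_6 : tree 15 90 3
  [([8], [(1,[1],5)]),
   ([9], [(1,[1],5)]),
   ([10], [(1,[1],5)]),
   ([11], [(1,[1],5)]),
   ([12], [(1,[1],5)]),
   ([13], [(1,[1],4)]),
   ([14], [(1,[1],3)])]
    15 [] 13 12 = true := by decide +kernel

theorem tree_15_7 : tree 15 105 3
  [([7], [(3,[1],4), (1,[1],5), (6,[2],6), (1,[0],3)]),
   ([8], [(1,[1],5)]),
   ([9], [(1,[1],5)]),
   ([10], [(1,[1],5)]),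
   ([11], [(1,[1],5)]),
   ([12], [(1,[1],5)]),
   ([13], [(1,[1],4)]),
   ([14], [(1,[1],3)])]
    15 [] 13 12 = true := by decide +kernel

theorem tree_15_8 : tree 15 120 3
  [([7,7], [(1,[1,1],5)]),
   ([8], [(1,[1],5)]),
   ([9], [(1,[1],5)]),
   ([10], [(1,[1],5)]),
   ([11], [(1,[1],5)]),
   ([12], [(1,[1],5)]),
   ([13], [(1,[1],4)]),
   ([14], [(1,[1],3)])]
    15 [] 13 12 = true := by decide +kernel

theorem tree_16_2 : tree 16 32 16
  [([15], [(1,[1],9)])]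
    16 [] 14 13 = true := by decide +kernel

theorem tree_16_3 : tree 16 48 8
  [([14], [(1,[1],7)]),
   ([15], [(1,[1],6)])]
    16 [] 14 13 = true := by decide +kernel

theorem tree_16_4 : tree 16 64 6
  [([13], [(1,[1],7)]),
   ([14], [(1,[1],6)]),
   ([15], [(1,[1],5)])]
    16 [] 14 13 = true := by decide +kernel

theorem tree_16_5 : tree 16 80 4
  [([9], [(1,[1],6)]),
   ([10], [(1,[1],6)]),
   ([11], [(1,[1],6)]),
   ([12], [(1,[1],6)]),
   ([13], [(1,[1],6)]),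
   ([14], [(1,[1],5)]),
   ([15], [(1,[1],4)])]
    16 [] 14 13 = true := by decide +kernel

theorem tree_16_6 : tree 16 96 4
  [([9], [(1,[1],6)]),
   ([10], [(1,[1],6)]),
   ([11], [(1,[1],6)]),
   ([12], [(1,[1],6)]),
   ([13], [(1,[1],5)]),
   ([14], [(1,[1],5)]),
   ([15], [(1,[1],4)])]
    16 [] 14 13 = true := by decide +kernel

theorem tree_16_7 : tree 16 112 3
  [([8], [(1,[1],5)]),
   ([9], [(1,[1],5)]),
   ([10], [(1,[1],5)]),
   ([11], [(1,[1],5)]),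
   ([12], [(1,[1],5)]),
   ([13], [(1,[1],5)]),
   ([14], [(1,[1],4)]),
   ([15], [(1,[1],3)])]
    16 [] 14 13 = true := by decide +kernel

theorem tree_16_8 : tree 16 128 3
  [([8], [(1,[1],5)]),
   ([9], [(1,[1],5)]),
   ([10], [(1,[1],5)]),
   ([11], [(1,[1],5)]),
   ([12], [(1,[1],5)]),
   ([13], [(1,[1],5)]),
   ([14], [(1,[1],4)]),
   ([15], [(1,[1],3)])]
    16 [] 14 13 = true := by decide +kernel

theorem tree_17_2 : tree 17 34 17
  [([16], [(1,[1],9)])]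
    17 [] 15 14 = true := by decide +kernel

theorem tree_17_3 : tree 17 51 9
  [([15], [(1,[1],7)]),
   ([16], [(1,[1],6)])]
    17 [] 15 14 = true := by decide +kernel

theorem tree_17_4 : tree 17 68 6
  [([14], [(1,[1],6)]),
   ([15], [(1,[1],6)]),
   ([16], [(1,[1],5)])]
    17 [] 15 14 = true := by decide +kernel

theorem tree_17_5 : tree 17 85 5
  [([10], [(1,[1],6)]),
   ([11], [(1,[1],6)]),
   ([12], [(1,[1],6)]),
   ([13], [(1,[1],6)]),
   ([14], [(1,[1],6)]),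
   ([15], [(1,[1],5)]),
   ([16], [(1,[1],4)])]
    17 [] 15 14 = true := by decide +kernel

theorem tree_17_6 : tree 17 102 4
  [([9], [(1,[1],6)]),
   ([10], [(1,[1],6)]),
   ([11], [(1,[1],6)]),
   ([12], [(1,[1],6)]),
   ([13], [(1,[1],6)]),
   ([14], [(1,[1],5)]),
   ([15], [(1,[1],5)]),
   ([16], [(1,[1],4)])]
    17 [] 15 14 = true := by decide +kernel

theorem tree_17_7 : tree 17 119 3
  [([9], [(1,[1],5)]),
   ([10], [(1,[1],5)]),
   ([11], [(1,[1],5)]),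
   ([12], [(1,[1],5)]),
   ([13], [(1,[1],5)]),
   ([14], [(1,[1],5)]),
   ([15], [(1,[1],4)]),
   ([16], [(1,[1],3)])]
    17 [] 15 14 = true := by decide +kernel

theorem tree_17_8 : tree 17 136 3
  [([8], [(1,[1],5)]),
   ([9], [(1,[1],5)]),
   ([10], [(1,[1],5)]),
   ([11], [(1,[1],5)]),
   ([12], [(1,[1],5)]),
   ([13], [(1,[1],5)]),
   ([14], [(1,[1],5)]),
   ([15], [(1,[1],4)]),
   ([16], [(1,[1],3)])]
    17 [] 15 14 = true := by decide +kernel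

theorem tree_17_9 : tree 17 153 3
  [([8], [(1,[1],5)]),
   ([9], [(1,[1],5)]),
   ([10], [(1,[1],5)]),
   ([11], [(1,[1],5)]),
   ([12], [(1,[1],5)]),
   ([13], [(1,[1],5)]),
   ([14], [(1,[1],4)]),
   ([15], [(1,[1],4)]),
   ([16], [(1,[1],3)])]
    17 [] 15 14 = true := by decide +kernel

theorem tree_18_2 : tree 18 36 18
  [([17], [(1,[1],9)])]
    18 [] 16 15 = true := by decide +kernel

theorem tree_18_3 : tree 18 54 9
  [([17], [(1,[1],6)])]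
    18 [] 16 15 = true := by decide +kernel

theorem tree_18_4 : tree 18 72 6
  [([15], [(1,[1],6)]),
   ([16], [(1,[1],6)]),
   ([17], [(1,[1],5)])]
    18 [] 16 15 = true := by decide +kernel

theorem tree_18_5 : tree 18 90 5
  [([13], [(1,[1],6)]),
   ([14], [(1,[1],6)]),
   ([15], [(1,[1],6)]),
   ([16], [(1,[1],5)]),
   ([17], [(1,[1],4)])]
    18 [] 16 15 = true := by decide +kernel

theorem tree_18_6 : tree 18 108 4
  [([10], [(1,[1],6)]),
   ([11], [(1,[1],6)]),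
   ([12], [(1,[1],6)]),
   ([13], [(1,[1],6)]),
   ([14], [(1,[1],6)]),
   ([15], [(1,[1],5)]),
   ([16], [(1,[1],5)]),
   ([17], [(1,[1],4)])]
    18 [] 16 15 = true := by decide +kernel

theorem tree_18_7 : tree 18 126 3
  [([9], [(1,[1],5)]),
   ([10], [(1,[1],6)]),
   ([11], [(1,[1],6)]),
   ([12], [(1,[1],5)]),
   ([13], [(1,[1],5)]),
   ([14], [(1,[1],5)]),
   ([15], [(1,[1],5)]),
   ([16], [(1,[1],4)]),
   ([17], [(1,[1],3)])]
    18 [] 16 15 = true := by decide +kernel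

theorem tree_18_8 : tree 18 144 3
  [([9], [(1,[1],5)]),
   ([10], [(1,[1],5)]),
   ([11], [(1,[1],5)]),
   ([12], [(1,[1],5)]),
   ([13], [(1,[1],5)]),
   ([14], [(1,[1],5)]),
   ([15], [(1,[1],5)]),
   ([16], [(1,[1],4)]),
   ([17], [(1,[1],3)])]
    18 [] 16 15 = true := by decide +kernel

theorem tree_18_9 : tree 18 162 3
  [([8], [(1,[1],5)]),
   ([9], [(1,[1],5)]),
   ([10], [(1,[1],5)]),
   ([11], [(1,[1],5)]),
   ([12], [(1,[1],5)]),
   ([13], [(1,[1],5)]),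
   ([14], [(1,[1],5)]),
   ([15], [(1,[1],4)]),
   ([16], [(1,[1],4)]),
   ([17], [(1,[1],3)])]
    18 [] 16 15 = true := by decide +kernel

theorem tree_19_2 : tree 19 38 19
  [([18], [(1,[1],9)])]
    19 [] 17 16 = true := by decide +kernel

theorem tree_19_3 : tree 19 57 10
  [([18], [(1,[1],6)])]
    19 [] 17 16 = true := by decide +kernel

theorem tree_19_4 : tree 19 76 7
  [([16], [(1,[1],7)]),
   ([17], [(1,[1],6)]),
   ([18], [(1,[1],5)])]
    19 [] 17 16 = true := by decide +kernel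

theorem tree_19_5 : tree 19 95 5
  [([14], [(1,[1],6)]),
   ([15], [(1,[1],6)]),
   ([16], [(1,[1],6)]),
   ([17], [(1,[1],5)]),
   ([18], [(1,[1],4)])]
    19 [] 17 16 = true := by decide +kernel

theorem tree_19_6 : tree 19 114 4
  [([11], [(1,[1],6)]),
   ([12], [(1,[1],6)]),
   ([13], [(1,[1],6)]),
   ([14], [(1,[1],6)]),
   ([15], [(1,[1],6)]),
   ([16], [(1,[1],5)]),
   ([17], [(1,[1],5)]),
   ([18], [(1,[1],4)])]
    19 [] 17 16 = true := by decide +kernel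

theorem tree_19_7 : tree 19 133 4
  [([10], [(1,[1],6)]),
   ([11], [(1,[1],6)]),
   ([12], [(1,[1],6)]),
   ([13], [(1,[1],6)]),
   ([14], [(1,[1],6)]),
   ([15], [(1,[1],6)]),
   ([16], [(1,[1],5)]),
   ([17], [(1,[1],4)]),
   ([18], [(1,[1],3)])]
    19 [] 17 16 = true := by decide +kernel

theorem tree_19_8 : tree 19 152 3
  [([9], [(1,[1],5)]),
   ([10], [(1,[1],5)]),
   ([11], [(1,[1],6)]),
   ([12], [(1,[1],5)]),
   ([13], [(1,[1],5)]),
   ([14], [(1,[1],5)]),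
   ([15], [(1,[1],5)]),
   ([16], [(1,[1],5)]),
   ([17], [(1,[1],4)]),
   ([18], [(1,[1],3)])]
    19 [] 17 16 = true := by decide +kernel

theorem tree_19_9 : tree 19 171 3
  [([9], [(1,[1],5)]),
   ([10], [(1,[1],5)]),
   ([11], [(1,[1],5)]),
   ([12], [(1,[1],5)]),
   ([13], [(1,[1],5)]),
   ([14], [(1,[1],5)]),
   ([15], [(1,[1],5)]),
   ([16], [(1,[1],4)]),
   ([17], [(1,[1],4)]),
   ([18], [(1,[1],3)])]
    19 [] 17 16 = true := by decide +kernel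

theorem tree_19_10 : tree 19 190 3
  [([9], [(1,[1],5)]),
   ([10], [(1,[1],5)]),
   ([11], [(1,[1],5)]),
   ([12], [(1,[1],5)]),
   ([13], [(1,[1],5)]),
   ([14], [(1,[1],5)]),
   ([15], [(1,[1],5)]),
   ([16], [(1,[1],4)]),
   ([17], [(1,[1],4)]),
   ([18], [(1,[1],3)])]
    19 [] 17 16 = true := by decide +kernel

theorem tree_all {k w : ℕ} (h5 : 5 ≤ k) (h19 : k ≤ 19) (hw : 2 ≤ w) (hwk : 2 * w ≤ k + 1) :
    ∃ db, tree k (k * w) (1 + (k - 1) / (w - 1)) db k [] (k - 2) (k - 3) = true := by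
  have hw10 : w ≤ 10 := by omega
  interval_cases k
  · have hw' : w ≤ 3 := by omega
    clear hw10
    interval_cases w
    · exact ⟨_, tree_5_2⟩
    · exact ⟨_, tree_5_3⟩
  · have hw' : w ≤ 3 := by omega
    clear hw10
    interval_cases w
    · exact ⟨_, tree_6_2⟩
    · exact ⟨_, tree_6_3⟩
  · have hw' : w ≤ 4 := by omega
    clear hw10
    interval_cases w
    · exact ⟨_, tree_7_2⟩
    · exact ⟨_, tree_7_3⟩
    · exact ⟨_, tree_7_4⟩
  · have hw' : w ≤ 4 := by omega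
    clear hw10
    interval_cases w
    · exact ⟨_, tree_8_2⟩
    · exact ⟨_, tree_8_3⟩
    · exact ⟨_, tree_8_4⟩
  · have hw' : w ≤ 5 := by omega
    clear hw10
    interval_cases w
    · exact ⟨_, tree_9_2⟩
    · exact ⟨_, tree_9_3⟩
    · exact ⟨_, tree_9_4⟩
    · exact ⟨_, tree_9_5⟩
  · have hw' : w ≤ 5 := by omega
    clear hw10
    interval_cases w
    · exact ⟨_, tree_10_2⟩
    · exact ⟨_, tree_10_3⟩
    · exact ⟨_, tree_10_4⟩
    · exact ⟨_, tree_10_5⟩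
  · have hw' : w ≤ 6 := by omega
    clear hw10
    interval_cases w
    · exact ⟨_, tree_11_2⟩
    · exact ⟨_, tree_11_3⟩
    · exact ⟨_, tree_11_4⟩
    · exact ⟨_, tree_11_5⟩
    · exact ⟨_, tree_11_6⟩
  · have hw' : w ≤ 6 := by omega
    clear hw10
    interval_cases w
    · exact ⟨_, tree_12_2⟩
    · exact ⟨_, tree_12_3⟩
    · exact ⟨_, tree_12_4⟩
    · exact ⟨_, tree_12_5⟩
    · exact ⟨_, tree_12_6⟩
  · have hw' : w ≤ 7 := by omega
    clear hw10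
    interval_cases w
    · exact ⟨_, tree_13_2⟩
    · exact ⟨_, tree_13_3⟩
    · exact ⟨_, tree_13_4⟩
    · exact ⟨_, tree_13_5⟩
    · exact ⟨_, tree_13_6⟩
    · exact ⟨_, tree_13_7⟩
  · have hw' : w ≤ 7 := by omega
    clear hw10
    interval_cases w
    · exact ⟨_, tree_14_2⟩
    · exact ⟨_, tree_14_3⟩
    · exact ⟨_, tree_14_4⟩
    · exact ⟨_, tree_14_5⟩
    · exact ⟨_, tree_14_6⟩
    · exact ⟨_, tree_14_7⟩
  · have hw' : w ≤ 8 := by omega
    clear hw10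
    interval_cases w
    · exact ⟨_, tree_15_2⟩
    · exact ⟨_, tree_15_3⟩
    · exact ⟨_, tree_15_4⟩
    · exact ⟨_, tree_15_5⟩
    · exact ⟨_, tree_15_6⟩
    · exact ⟨_, tree_15_7⟩
    · exact ⟨_, tree_15_8⟩
  · have hw' : w ≤ 8 := by omega
    clear hw10
    interval_cases w
    · exact ⟨_, tree_16_2⟩
    · exact ⟨_, tree_16_3⟩
    · exact ⟨_, tree_16_4⟩
    · exact ⟨_, tree_16_5⟩
    · exact ⟨_, tree_16_6⟩
    · exact ⟨_, tree_16_7⟩
    · exact ⟨_, tree_16_8⟩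
  · have hw' : w ≤ 9 := by omega
    clear hw10
    interval_cases w
    · exact ⟨_, tree_17_2⟩
    · exact ⟨_, tree_17_3⟩
    · exact ⟨_, tree_17_4⟩
    · exact ⟨_, tree_17_5⟩
    · exact ⟨_, tree_17_6⟩
    · exact ⟨_, tree_17_7⟩
    · exact ⟨_, tree_17_8⟩
    · exact ⟨_, tree_17_9⟩
  · have hw' : w ≤ 9 := by omega
    clear hw10
    interval_cases w
    · exact ⟨_, tree_18_2⟩
    · exact ⟨_, tree_18_3⟩
    · exact ⟨_, tree_18_4⟩
    · exact ⟨_, tree_18_5⟩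
    · exact ⟨_, tree_18_6⟩
    · exact ⟨_, tree_18_7⟩
    · exact ⟨_, tree_18_8⟩
    · exact ⟨_, tree_18_9⟩
  · have hw' : w ≤ 10 := by omega
    clear hw10
    interval_cases w
    · exact ⟨_, tree_19_2⟩
    · exact ⟨_, tree_19_3⟩
    · exact ⟨_, tree_19_4⟩
    · exact ⟨_, tree_19_5⟩
    · exact ⟨_, tree_19_6⟩
    · exact ⟨_, tree_19_7⟩
    · exact ⟨_, tree_19_8⟩
    · exact ⟨_, tree_19_9⟩
    · exact ⟨_, tree_19_10⟩

end Pool.Agent.P.MP_a09be5_co
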