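import Pool.Agent.P.MP_a09be5_co.Cert
import Pool.Agent.P.MP_a09be5_co.TailNum
import Pool.Agent.P.MP_a09be5_co.TreeData
import Pool.Agent.P.MP_a09be5_co.KFour
import Pool.Agent.P.MP_a09be5_co.OneE

/-! The upper bound: colourability when `|A| ≤ k w` and `(|B| - 1)(w - 1) ≤ k - 1`. -/

namespace Pool.Agent.P.MP_a09be5_co
open Finset

variable {ι : Type} [DecidableEq ι]

theorem val_one (y : ℚ) (R L : Finset ℕ) {j : ℕ} (h : R.card + j = L.card) :
    val y [(R, 1)] L = ((R \ L).card : ℚ) / (R.card : ℕ) * y ^ (j + (R \ L).card) := by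
  have h1 : (L \ R).card = j + (R \ L).card := by
    have := card_sdiff_add_card_inter L R
    have := card_sdiff_add_card_inter R L
    rw [inter_comm] at this
    omega
  simp [val, rho, h1]

theorem upper_tail {k w : ℕ} (hk : 20 ≤ k) (hw : 2 ≤ w) (hwk : 2 * w ≤ k + 1)
    {I A B : Finset ι} {F E H : ι → Finset ℕ} (hI : I.card + 2 = k)
    (hP : Pre k (k - 3) [] I I F)
    (hE : ∀ u ∈ A, (E u).card = k) (hH : ∀ v ∈ B, (H v).card = k) (hA : A.card ≤ k * w)
    (hB : (B.card - 1) * (w - 1) ≤ k - 1) : Col I A B F E H := by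
  obtain ⟨I', hI', R, h1, hm, hR, hP'⟩ := hP.extend (card_pos.1 (by omega))
  have hJ : (I \ I').card + I'.card = I.card := by
    rw [card_sdiff_of_subset hI']; have := card_le_card hI'; omega
  by_cases h3 : 3 * I'.card ≤ k - 2
  · refine hP'.lbound h1 hA le_rfl hE hH ?_
    have hbk : B.card ≤ k := by
      have : (B.card - 1) * 1 ≤ (B.card - 1) * (w - 1) := Nat.mul_le_mul_left _ (by omega)
      omega
    have hc : 2 * (k * w + B.card) ≤ k ^ 2 + 3 * k := by nlinarith
    have := tail_prod hk h1 h3 hc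
    have e1 : k - 2 = I'.card + (I \ I').card := by omega
    simp only [List.length_cons, List.length_nil, List.map_cons, List.map_nil, List.prod_cons,
      List.prod_nil, mul_one, zero_add, one_mul, hR]
    rw [e1] at this
    rw [mul_pow, mul_assoc, ← pow_add]
    exact this
  · obtain ⟨p, MA, MB, hp0, hp1, hMA, hMB, hlt⟩ :=
      tail_num (j := (I \ I').card) hk hw hwk (by omega) (by omega) hB
    have hn : k - (I \ I').card = R.card := by omega
    rw [hn] at hMA hMB
    refine hP'.cert [1] rfl (by simp) hp0 hp1 ?_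
    simp only [List.length_cons, List.length_nil, List.map_cons, List.map_nil, List.zip_cons_cons,
      List.zip_nil_right, zero_add]
    have hMA0 : 0 ≤ MA := by simpa using hMA 0
    have s1 : ∑ u ∈ A, val (ySeq p (k - 1) (I \ I').card) [(R, 1)] (E u) ≤ A.card • MA := by
      refine sum_le_card_nsmul _ _ _ fun u hu => ?_
      rw [val_one _ _ _ (j := (I \ I').card) (by rw [hE u hu]; omega)]
      exact hMA _
    have s2 : ∑ v ∈ B, val (ySeq (1 - p) (k - 1) (I \ I').card) [(R, 2 - 1)] (H v) ≤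
        B.card • MB := by
      refine sum_le_card_nsmul _ _ _ fun v hv => ?_
      rw [show 2 - 1 = 1 from rfl, val_one _ _ _ (j := (I \ I').card) (by rw [hH v hv]; omega)]
      exact hMB _
    rw [nsmul_eq_mul] at s1 s2
    have s3 : (A.card : ℚ) * MA ≤ (k * w : ℕ) * MA :=
      mul_le_mul_of_nonneg_right (by exact_mod_cast hA) hMA0
    linarith

theorem upper {k w : ℕ} (hk : 3 ≤ k) (hw : 2 ≤ w) (hwk : 2 * w ≤ k + 1)
    {I A B : Finset ι} {F E H : ι → Finset ℕ} (hI : I.card + 2 = k)
    (hF : ∀ s ∈ I, (F s).card = k)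
    (hE : ∀ u ∈ A, (E u).card = k) (hH : ∀ v ∈ B, (H v).card = k) (hA : A.card ≤ k * w)
    (hB : (B.card - 1) * (w - 1) ≤ k - 1) : Col I A B F E H := by
  by_cases hc : ∃ R, Cluster I R F
  · obtain ⟨R, hR⟩ := hc
    exact col_of_good hR (caseOne (hR.1.trans hI) hk hw hwk hE hH hA hB)
  push Not at hc
  have hP := Pre.root hI hF hc
  rcases Nat.lt_or_ge k 4 with h4 | h4
  · obtain ⟨I', -, R, h1, hm, -⟩ := hP.extend (card_pos.1 (by omega))
    omega
  rcases Nat.lt_or_ge k 5 with h5 | h5
  · have hk4 : k = 4 := by omega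
    subst hk4
    obtain ⟨s1, s2, hne, rfl⟩ := card_eq_two.1 (show I.card = 2 by omega)
    have hw2 : w = 2 := by omega
    subst hw2
    have h1 := hF s1 (by simp)
    have h2 := hF s2 (by simp)
    refine col_four hne h1 h2 ?_ hE hH hA (by omega)
    by_contra h
    obtain ⟨R, hR⟩ := cluster_four hne h1 h2 (by omega)
    exact hc R hR
  rcases Nat.lt_or_ge k 20 with h20 | h20
  · obtain ⟨db, hdb⟩ := tree_all h5 (by omega) hw hwk
    refine tree_sound (db := db) (b := 1 + (k - 1) / (w - 1)) hA ?_ hE hH k hP ?_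
    · have := (Nat.le_div_iff_mul_le (show 0 < w - 1 by omega)).2 hB
      omega
    · rw [show I.card = k - 2 by omega]
      exact hdb
  · exact upper_tail h20 hw hwk hI hP hE hH hA hB

end Pool.Agent.P.MP_a09be5_co
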