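import Pool.Agent.P.MP_a09be5_co.Pluhar
import Pool.Agent.P.MP_a09be5_co.Bias

namespace Pool.Agent.P.MP_a09be5_co
open Finset

variable {ι : Type} [DecidableEq ι]

omit [DecidableEq ι] in
theorem WA_single_le_wt {A : Finset ι} {E : ι → Finset ℕ} {u : ι} (hu : u ∈ A) :
    1 / ((E u).card : ℚ) ≤ wt A E :=
  single_le_sum (f := fun u => 1 / ((E u).card : ℚ)) (fun _ _ => by positivity) hu

omit [DecidableEq ι] in
theorem WA_two_le {A : Finset ι} {E : ι → Finset ℕ} (hE : ∀ u ∈ A, (E u).Nonempty)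
    (hα : wt A E < 1) : ∀ u ∈ A, 2 ≤ (E u).card := by
  intro u hu
  have h1 := (hE u hu).card_pos
  by_contra h
  have h2 : (E u).card = 1 := by omega
  have h3 := WA_single_le_wt (E := E) hu
  rw [h2] at h3
  norm_num at h3
  linarith

omit [DecidableEq ι] in
theorem WA_conf {A : Finset ι} {E : ι → Finset ℕ} (hE : ∀ u ∈ A, 2 ≤ (E u).card)
    (T : Finset ℕ) (hT : 2 ≤ T.card) :
    ∑ u ∈ A.filter (fun u => (E u ∩ T).card = 1), W (E u).card T.card ≤
      wt A E * (1 / ((T.card : ℚ) + 1)) := by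
  have hT' : (2 : ℚ) ≤ T.card := by exact_mod_cast hT
  calc ∑ u ∈ A.filter (fun u => (E u ∩ T).card = 1), W (E u).card T.card
      ≤ ∑ u ∈ A, W (E u).card T.card :=
        sum_le_sum_of_subset_of_nonneg (filter_subset _ _) fun _ _ _ => W_nonneg _ _
    _ ≤ ∑ u ∈ A, 1 / ((E u).card : ℚ) * (1 / ((T.card : ℚ) + 1)) := by
        refine sum_le_sum fun u hu => (W_le_two (hE u hu) (by omega)).trans ?_
        refine mul_le_mul_of_nonneg_left ?_ (by positivity)
        rw [div_le_div_iff₀ (by positivity) (by positivity)]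
        nlinarith
    _ = wt A E * (1 / ((T.card : ℚ) + 1)) := by
        rw [wt, sum_mul]

omit [DecidableEq ι] in
theorem WA_erase_sum {A : Finset ι} {E : ι → Finset ℕ} (hE : ∀ u ∈ A, (E u).Nonempty) (y : ℕ) :
    ∑ u ∈ A, 1 / ((((E u).erase y).card : ℚ) + 1) ≤ wt A E := by
  refine sum_le_sum fun u hu => ?_
  have h1 : (0 : ℚ) < (E u).card := by exact_mod_cast (hE u hu).card_pos
  have h2 : (E u).card ≤ ((E u).erase y).card + 1 := by
    have := pred_card_le_card_erase (s := E u) (a := y)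
    omega
  have h3 : ((E u).card : ℚ) ≤ (((E u).erase y).card : ℚ) + 1 := by exact_mod_cast h2
  exact one_div_le_one_div_of_le h1 h3

omit [DecidableEq ι] in
theorem WA_drop {B : Finset ι} {H : ι → Finset ℕ} {v : ι} (hv : v ∈ B) {y : ℕ}
    (hy : H v = {y}) :
    ∑ v ∈ B.filter (fun v => y ∉ H v), 1 / (((H v).card : ℚ) + 1) + 1 / 2 ≤
      ∑ v ∈ B, 1 / (((H v).card : ℚ) + 1) := by
  rw [← sum_filter_add_sum_filter_not B (fun v => y ∉ H v)]
  have hv' : v ∈ B.filter (fun v => ¬ (y ∉ H v)) := by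
    simp [hv, hy]
  have := single_le_sum (f := fun v => 1 / (((H v).card : ℚ) + 1))
    (fun _ _ => by positivity) hv'
  simp only [hy, card_singleton] at this
  norm_num at this ⊢
  linarith

theorem WA_pow_le {e : ℕ} (he : 3 ≤ e) : (1 / 2 : ℚ) ^ e ≤ 3 / 8 * (1 / (e : ℚ)) := by
  induction e, he using Nat.le_induction with
  | base => norm_num
  | succ n hn ih =>
    have hn' : (3 : ℚ) ≤ n := by exact_mod_cast hn
    rw [pow_succ]
    have h2 : 3 / 8 * (1 / (n : ℚ)) * (1 / 2) ≤ 3 / 8 * (1 / ((n + 1 : ℕ) : ℚ)) := by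
      push_cast
      rw [mul_assoc, div_mul_div_comm, one_mul]
      refine mul_le_mul_of_nonneg_left ?_ (by norm_num)
      exact one_div_le_one_div_of_le (by positivity) (by linarith)
    calc (1 / 2 : ℚ) ^ n * (1 / 2) ≤ 3 / 8 * (1 / (n : ℚ)) * (1 / 2) :=
          mul_le_mul_of_nonneg_right ih (by norm_num)
      _ ≤ _ := h2

theorem WA_W0_aux (n : ℕ) : ∀ (A B : Finset ι) (E H : ι → Finset ℕ), A.card + B.card = n →
    (∀ u ∈ A, (E u).Nonempty) → wt A E < 1 →
    ∑ v ∈ B, 1 / (((H v).card : ℚ) + 1) < 1 → Split A B E H := by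
  induction n using Nat.strong_induction_on with
  | _ n ih =>
  intro A B E H hn hE hα hβ
  have hH : ∀ v ∈ B, (H v).Nonempty := by
    intro v hv
    rw [nonempty_iff_ne_empty]
    intro h0
    have := single_le_sum (f := fun v => 1 / (((H v).card : ℚ) + 1))
      (fun _ _ => by positivity) hv
    simp only [h0, card_empty] at this
    norm_num at this hβ
    linarith
  by_cases hs : ∃ v ∈ B, (H v).card = 1
  · obtain ⟨v, hv, h1⟩ := hs
    obtain ⟨y, hy⟩ := card_eq_one.1 h1
    apply split_takeB1 y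
    apply Split.symm
    have hlt : (B.filter fun v => y ∉ H v).card < B.card := by
      apply card_lt_card
      refine ⟨filter_subset _ _, fun h => ?_⟩
      have := (mem_filter.1 (h hv)).2
      simp [hy] at this
    refine ih _ (by omega) _ _ _ _ rfl (fun w hw => hH w (mem_filter.1 hw).1) ?_ ?_
    · have h2 := WA_drop hv hy
      have h3 : wt (B.filter fun v => y ∉ H v) H ≤
          2 * ∑ v ∈ B.filter (fun v => y ∉ H v), 1 / (((H v).card : ℚ) + 1) := by
        rw [mul_sum]
        refine sum_le_sum fun w hw => ?_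
        have h4 : (1 : ℚ) ≤ (H w).card := by
          exact_mod_cast (hH w (mem_filter.1 hw).1).card_pos
        rw [mul_one_div, div_le_div_iff₀ (by positivity) (by positivity)]
        linarith
      linarith
    · exact (WA_erase_sum hE y).trans_lt hα
  · have hH2 : ∀ v ∈ B, 2 ≤ (H v).card := by
      intro v hv
      have h1 := (hH v hv).card_pos
      have h2 : (H v).card ≠ 1 := fun h => hs ⟨v, hv, h⟩
      omega
    refine pluhar_of_le hE hH (fun v => 1 / (((H v).card : ℚ) + 1)) (fun v hv => ?_) hβ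
    refine (WA_conf (WA_two_le hE hα) (H v) (hH2 v hv)).trans ?_
    exact mul_le_of_le_one_left (by positivity) hα.le

/- SKETCH.  Induct on |A| + |B| (both roles).  wt < 1 forces all |E u| ≥ 2; hβ forces H v nonempty.
If some H v = {y}: split_takeB1 y.  B' = {v | y ∉ H v} has ∑ 1/(h+1) < 1/2, so wt B' H < 1
(1/h ≤ 2/(h+1)); the sets (E u).erase y have ∑ 1/(e'+1) ≤ wt A E < 1.  Use the hypothesis with the
roles exchanged (Split.symm).  Otherwise all h ≥ 2: pluhar_of_le with φ v = 1/(h+1), since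
W e h ≤ (1/e) 2/(h(h+1)) ≤ (1/e)/(h+1). -/
theorem W0 {A B : Finset ι} {E H : ι → Finset ℕ} (hE : ∀ u ∈ A, (E u).Nonempty)
    (hα : wt A E < 1) (hβ : ∑ v ∈ B, 1 / (((H v).card : ℚ) + 1) < 1) : Split A B E H := by
  exact WA_W0_aux _ A B E H rfl hE hα hβ

/- SKETCH.  No singleton H v: pluhar_of_le with φ v = wt A E / (h+1).  One singleton {z}:
split_takeB1 z, B' has ∑ 1/(h+1) ≤ 1/2 and h ≥ 2, so wt B' H ≤ 3/4; W0 with roles exchanged. -/
theorem W0' {A B : Finset ι} {E H : ι → Finset ℕ} (hE : ∀ u ∈ A, (E u).Nonempty)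
    (hα : wt A E < 1) (hH : ∀ v ∈ B, (H v).Nonempty)
    (hβ : ∑ v ∈ B, 1 / (((H v).card : ℚ) + 1) ≤ 1)
    (h1 : ∀ v ∈ B, ∀ v' ∈ B, (H v).card = 1 → (H v').card = 1 → v = v') : Split A B E H := by
  by_cases hs : ∃ v ∈ B, (H v).card = 1
  · obtain ⟨v, hv, hv1⟩ := hs
    obtain ⟨y, hy⟩ := card_eq_one.1 hv1
    apply split_takeB1 y
    apply Split.symm
    refine W0 (fun w hw => hH w (mem_filter.1 hw).1) ?_ ((WA_erase_sum hE y).trans_lt hα)
    have h2 := WA_drop hv hy
    have h3 : wt (B.filter fun v => y ∉ H v) H ≤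
        3 / 2 * ∑ v ∈ B.filter (fun v => y ∉ H v), 1 / (((H v).card : ℚ) + 1) := by
      rw [mul_sum]
      refine sum_le_sum fun w hw => ?_
      obtain ⟨hwB, hwy⟩ := mem_filter.1 hw
      have h5 := (hH w hwB).card_pos
      have h6 : (H w).card ≠ 1 := by
        intro h
        have := h1 w hwB v hv h hv1
        subst this
        simp [hy] at hwy
      have h4 : (2 : ℚ) ≤ (H w).card := by
        exact_mod_cast (show 2 ≤ (H w).card by omega)
      rw [mul_one_div, div_le_div_iff₀ (by positivity) (by positivity)]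
      linarith
    linarith
  · have hH2 : ∀ v ∈ B, 2 ≤ (H v).card := by
      intro v hv
      have h3 := (hH v hv).card_pos
      have h2 : (H v).card ≠ 1 := fun h => hs ⟨v, hv, h⟩
      omega
    refine pluhar_of_le hE hH (fun v => wt A E * (1 / (((H v).card : ℚ) + 1)))
      (fun v hv => WA_conf (WA_two_le hE hα) (H v) (hH2 v hv)) ?_
    rw [← mul_sum]
    exact (mul_le_of_le_one_right (wt_nonneg A E) hβ).trans_lt hα

/-- With all degrees below one there are no singletons. -/
theorem two_le_of_deg {A : Finset ι} {E : ι → Finset ℕ} (hE : ∀ u ∈ A, (E u).Nonempty)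
    (hd : ∀ c, deg A E c < 1) : ∀ u ∈ A, 2 ≤ (E u).card := by
  intro u hu
  have h1 := (hE u hu).card_pos
  by_contra h
  have h2 : (E u).card = 1 := by omega
  obtain ⟨c, hc⟩ := card_eq_one.1 h2
  have hu' : u ∈ A.filter fun u => c ∈ E u := by simp [hu, hc]
  have h3 := WA_single_le_wt (E := E) hu'
  rw [h2] at h3
  have h4 := hd c
  unfold deg at h4
  norm_num at h3
  linarith

/-- With all degrees below one, two different pairs are disjoint. -/
theorem pair_unique {A : Finset ι} {E : ι → Finset ℕ} (hd : ∀ c, deg A E c < 1) {u u' : ι}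
    (hu : u ∈ A) (hu' : u' ∈ A) (h2 : (E u).card = 2) (h2' : (E u').card = 2) {c : ℕ}
    (hc : c ∈ E u) (hc' : c ∈ E u') : u = u' := by
  by_contra hne
  have hsub : ({u, u'} : Finset ι) ⊆ A.filter fun u => c ∈ E u := by
    intro x hx
    rcases mem_insert.1 hx with rfl | hx
    · exact mem_filter.2 ⟨hu, hc⟩
    · rw [mem_singleton.1 hx]
      exact mem_filter.2 ⟨hu', hc'⟩
  have h3 := wt_mono hsub E
  have h4 := hd c
  unfold deg at h4
  rw [wt, sum_pair hne, h2, h2'] at h3
  norm_num at h3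
  linarith

theorem WA_R3a {A B : Finset ι} {E H : ι → Finset ℕ} (hE : ∀ u ∈ A, (E u).Nonempty)
    (hd : ∀ c, deg A E c < 1) (hH : ∀ v ∈ B, 2 ≤ (H v).card) (c : ℕ)
    (hc : (B.filter fun v => c ∉ H v).card ≤ 1) : Split A B E H := by
  have hE2 := two_le_of_deg hE hd
  apply Split.symm
  rcases (B.filter fun v => c ∉ H v).eq_empty_or_nonempty with h0 | ⟨v', hv'⟩
  · refine split_of_transversal {c} (fun v hv => ⟨c, ?_, mem_singleton_self c⟩) ?_
    · by_contra h
      have : v ∈ B.filter fun v => c ∉ H v := mem_filter.2 ⟨hv, h⟩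
      rw [h0] at this
      exact notMem_empty _ this
    · intro u hu h
      have h1 := card_le_card h
      have h2 := hE2 u hu
      rw [card_singleton] at h1
      omega
  · obtain ⟨hv'B, hv'c⟩ := mem_filter.1 hv'
    have key : ∀ d ∈ H v', (∀ u ∈ A, ¬ E u ⊆ {c, d}) → Split B A H E := by
      intro d hdH hA
      refine split_of_transversal {c, d} (fun v hv => ?_) hA
      by_cases h : c ∈ H v
      · exact ⟨c, h, by simp⟩
      · have : v = v' := card_le_one.1 hc v (mem_filter.2 ⟨hv, h⟩) v' hv'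
        subst this
        exact ⟨d, hdH, by simp⟩
    obtain ⟨d1, hd1, d2, hd2, hne⟩ := one_lt_card.1 (hH v' hv'B)
    by_cases h1 : ∀ u ∈ A, ¬ E u ⊆ {c, d1}
    · exact key d1 hd1 h1
    by_cases h2 : ∀ u ∈ A, ¬ E u ⊆ {c, d2}
    · exact key d2 hd2 h2
    exfalso
    push Not at h1 h2
    obtain ⟨u1, hu1, hs1⟩ := h1
    obtain ⟨u2, hu2, hs2⟩ := h2
    have e1 : E u1 = {c, d1} :=
      eq_of_subset_of_card_le hs1 (card_le_two.trans (hE2 u1 hu1))
    have e2 : E u2 = {c, d2} :=
      eq_of_subset_of_card_le hs2 (card_le_two.trans (hE2 u2 hu2))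
    have hc1 : c ≠ d1 := fun h => hv'c (h ▸ hd1)
    have hc2 : c ≠ d2 := fun h => hv'c (h ▸ hd2)
    have huu : u1 = u2 :=
      pair_unique hd hu1 hu2 (by rw [e1, card_pair hc1]) (by rw [e2, card_pair hc2])
        (c := c) (by simp [e1]) (by simp [e2])
    subst huu
    have : d1 ∈ ({c, d2} : Finset ℕ) := by
      rw [← e2, e1]
      simp
    rcases mem_insert.1 this with h | h
    · exact hc1 h.symm
    · exact hne (mem_singleton.1 h)

theorem WA_R3b {A B : Finset ι} {E H : ι → Finset ℕ} (hE : ∀ u ∈ A, (E u).Nonempty)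
    (hα : wt A E ≤ 2) (hd : ∀ c, deg A E c < 1) (hB : B.card ≤ 3)
    (hH : ∀ v ∈ B, 2 ≤ (H v).card)
    (hdis : ∀ v ∈ B, ∀ v' ∈ B, v ≠ v' → Disjoint (H v) (H v')) : Split A B E H := by
  have hE2 := two_le_of_deg hE hd
  have hP : ∀ v, ∃ P : Finset ℕ, v ∈ B → P ⊆ H v ∧ P.card = 2 := by
    intro v
    by_cases hv : v ∈ B
    · obtain ⟨P, h1, h2⟩ := exists_subset_card_eq (hH v hv)
      exact ⟨P, fun _ => ⟨h1, h2⟩⟩
    · exact ⟨∅, fun h => absurd h hv⟩
  choose P hP using hP
  have hU : (B.biUnion P).card ≤ 6 := by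
    refine card_biUnion_le.trans ?_
    rw [sum_congr rfl fun v hv => (hP v hv).2]
    simp only [sum_const, smul_eq_mul]
    omega
  have hn2 : ((A.filter fun u => E u ⊆ B.biUnion P).filter fun u => (E u).card = 2).card ≤ 3 := by
    have h1 : (((A.filter fun u => E u ⊆ B.biUnion P).filter
        fun u => (E u).card = 2).biUnion E).card ≤ (B.biUnion P).card := by
      apply card_le_card
      intro x hx
      obtain ⟨u, hu, hxu⟩ := mem_biUnion.1 hx
      exact (mem_filter.1 (mem_filter.1 hu).1).2 hxu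
    rw [card_biUnion, sum_congr rfl fun u hu => (mem_filter.1 hu).2] at h1
    · simp only [sum_const, smul_eq_mul] at h1
      omega
    · intro u hu u' hu' hne
      have hu := mem_filter.1 (mem_coe.1 hu)
      have hu' := mem_filter.1 (mem_coe.1 hu')
      refine disjoint_left.2 fun x hx hx' => hne ?_
      exact pair_unique hd (mem_filter.1 hu.1).1 (mem_filter.1 hu'.1).1 hu.2 hu'.2 hx hx'
  have hs : Split (A.filter fun u => E u ⊆ B.biUnion P) B E P := by
    apply lemmaU (B.image P)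
    · intro Q hQ
      obtain ⟨v, hv, rfl⟩ := mem_image.1 hQ
      exact (hP v hv).2
    · intro Q hQ Q' hQ' hne
      obtain ⟨v, hv, rfl⟩ := mem_image.1 hQ
      obtain ⟨v', hv', rfl⟩ := mem_image.1 hQ'
      have : v ≠ v' := fun h => hne (h ▸ rfl)
      exact (hdis v hv v' hv' this).mono (hP v hv).1 (hP v' hv').1
    · have h0 : B.filter (fun v => P v ∉ B.image P) = ∅ := by
        apply filter_eq_empty_iff.2
        intro v hv h
        exact h (mem_image_of_mem P hv)
      rw [h0, sum_empty, add_zero]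
      have hw : wt (A.filter fun u => E u ⊆ B.biUnion P) E ≤ 2 :=
        (wt_mono (filter_subset _ _) E).trans hα
      have hn2' : ((((A.filter fun u => E u ⊆ B.biUnion P).filter
          fun u => (E u).card = 2).card : ℕ) : ℚ) ≤ 3 := by exact_mod_cast hn2
      calc _ ≤ ∑ u ∈ A.filter (fun u => E u ⊆ B.biUnion P), (1 / 2 : ℚ) ^ (E u).card :=
            sum_le_sum_of_subset_of_nonneg (filter_subset _ _) fun _ _ _ => by positivity
        _ ≤ ∑ u ∈ A.filter (fun u => E u ⊆ B.biUnion P),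
              (3 / 8 * (1 / ((E u).card : ℚ)) + if (E u).card = 2 then 1 / 16 else 0) := by
            refine sum_le_sum fun u hu => ?_
            have h2 := hE2 u (mem_filter.1 hu).1
            split_ifs with h
            · rw [h]; norm_num
            · rw [add_zero]
              exact WA_pow_le (by omega)
        _ = 3 / 8 * wt (A.filter fun u => E u ⊆ B.biUnion P) E +
              (((A.filter fun u => E u ⊆ B.biUnion P).filter
                fun u => (E u).card = 2).card : ℚ) * (1 / 16) := by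
            rw [sum_add_distrib, ← mul_sum, ← sum_filter, sum_const, nsmul_eq_mul, wt]
        _ < 1 := by linarith
  obtain ⟨X, h1, h2⟩ := hs
  refine ⟨X ∪ {c | c ∉ B.biUnion P}, fun u hu => ?_, fun v hv => ?_⟩
  · by_cases h : E u ⊆ B.biUnion P
    · obtain ⟨c, hc, hx⟩ := h1 u (mem_filter.2 ⟨hu, h⟩)
      exact ⟨c, hc, Or.inl hx⟩
    · obtain ⟨c, hc, hx⟩ := not_subset.1 h
      exact ⟨c, hc, Or.inr hx⟩
  · obtain ⟨c, hc, hx⟩ := h2 v hv
    refine ⟨c, (hP v hv).1 hc, fun h => h.elim hx fun h => h ?_⟩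
    exact mem_biUnion.2 ⟨v, hv, hc⟩

/- SKETCH.  (a) Some colour c lies in all H v except at most one H v'.  If no exception, side B is
{c}.  Otherwise H v' has two colours d1 ≠ d2 (both ≠ c); side B = {c, d}, fails only if some
E u = {c, d}; both choices fail only if {c,d1}, {c,d2} both occur, against pair_unique.
(b) Otherwise |B| = 3 and the H v are pairwise disjoint.  Shrink them to pairs P1 P2 P3 (Split.mono),
U = their union.  A' = {u | E u ⊆ U} contains at most 3 pairs (pairwise disjoint inside 6 colours).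
lemmaU with Ps = {P1,P2,P3} for A': ∑ 2^-e ≤ n2/4 + (3/8)(2 - n2/2) ≤ 15/16 (2^-e ≤ (3/8)/e for
e ≥ 3).  Finally give all colours outside U to side A. -/
theorem R3 {A B : Finset ι} {E H : ι → Finset ℕ} (hE : ∀ u ∈ A, (E u).Nonempty)
    (hα : wt A E ≤ 2) (hd : ∀ c, deg A E c < 1) (hB : B.card ≤ 3)
    (hH : ∀ v ∈ B, 2 ≤ (H v).card) : Split A B E H := by
  by_cases hdis : ∀ v ∈ B, ∀ v' ∈ B, v ≠ v' → Disjoint (H v) (H v')
  · exact WA_R3b hE hα hd hB hH hdis
  · push Not at hdis
    obtain ⟨v, hv, v', hv', hne, hnd⟩ := hdis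
    obtain ⟨c, hc, hc'⟩ := not_disjoint_iff.1 hnd
    refine WA_R3a hE hd hH c ?_
    have hsub : (B.filter fun v => c ∉ H v) ⊆ (B.erase v).erase v' := by
      intro w hw
      obtain ⟨hwB, hwc⟩ := mem_filter.1 hw
      refine mem_erase.2 ⟨fun h => hwc (h ▸ hc'), mem_erase.2 ⟨fun h => hwc (h ▸ hc), hwB⟩⟩
    have h1 := card_le_card hsub
    rw [card_erase_of_mem (mem_erase.2 ⟨hne.symm, hv'⟩), card_erase_of_mem hv] at h1
    omega

theorem WA_fix {A : Finset ι} {E : ι → Finset ℕ} (hE : ∀ u ∈ A, (E u).Nonempty)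
    (hd : ∀ c, deg A E c < 1) {h : ℕ} (hh : 1 ≤ h) (c : ℕ) :
    ∑ u ∈ A.filter (fun u => c ∈ E u), W (E u).card h ≤
      ((h : ℚ) + 5) / ((h : ℚ) * (h + 1) * (h + 2)) := by
  have hE2 := two_le_of_deg hE hd
  have hh' : (1 : ℚ) ≤ h := by exact_mod_cast hh
  have hn2 : ((A.filter fun u => c ∈ E u).filter fun u => (E u).card = 2).card ≤ 1 := by
    refine card_le_one.2 fun u hu u' hu' => ?_
    have hu := mem_filter.1 hu
    have hu' := mem_filter.1 hu'
    exact pair_unique hd (mem_filter.1 hu.1).1 (mem_filter.1 hu'.1).1 hu.2 hu'.2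
      (mem_filter.1 hu.1).2 (mem_filter.1 hu'.1).2
  have hn2' : ((((A.filter fun u => c ∈ E u).filter fun u => (E u).card = 2).card : ℕ) : ℚ) ≤ 1 := by
    exact_mod_cast hn2
  have hD : (0 : ℚ) < (h : ℚ) * (h + 1) * (h + 2) := by positivity
  have hT : (0 : ℚ) ≤ 6 / ((h : ℚ) * (h + 1) * (h + 2)) := by positivity
  have hR : (0 : ℚ) ≤ ((h : ℚ) - 1) / ((h : ℚ) * (h + 1) * (h + 2)) :=
    div_nonneg (by linarith) hD.le
  calc ∑ u ∈ A.filter (fun u => c ∈ E u), W (E u).card h
      ≤ ∑ u ∈ A.filter (fun u => c ∈ E u),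
          (1 / ((E u).card : ℚ) * (6 / ((h : ℚ) * (h + 1) * (h + 2))) +
            if (E u).card = 2 then ((h : ℚ) - 1) / ((h : ℚ) * (h + 1) * (h + 2)) else 0) := by
        refine sum_le_sum fun u hu => ?_
        have h2 := hE2 u (mem_filter.1 hu).1
        split_ifs with he
        · refine (W_le_two h2 hh).trans (le_of_eq ?_)
          rw [he]
          field_simp
          push_cast
          ring
        · rw [add_zero]
          exact W_le_three (by omega) hh
    _ = deg A E c * (6 / ((h : ℚ) * (h + 1) * (h + 2))) +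
          (((A.filter fun u => c ∈ E u).filter fun u => (E u).card = 2).card : ℚ) *
            (((h : ℚ) - 1) / ((h : ℚ) * (h + 1) * (h + 2))) := by
        rw [sum_add_distrib, ← sum_mul, ← sum_filter, sum_const, nsmul_eq_mul, deg, wt]
    _ ≤ 1 * (6 / ((h : ℚ) * (h + 1) * (h + 2))) +
          1 * (((h : ℚ) - 1) / ((h : ℚ) * (h + 1) * (h + 2))) :=
        add_le_add (mul_le_mul_of_nonneg_right (hd c).le hT) (mul_le_mul_of_nonneg_right hn2' hR)
    _ = _ := by
        field_simp
        ring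

omit [DecidableEq ι] in
theorem WA_swap (A : Finset ι) (E : ι → Finset ℕ) (T : Finset ℕ) (f : ι → ℚ)
    (hf : ∀ u, 0 ≤ f u) :
    ∑ u ∈ A.filter (fun u => (E u ∩ T).card = 1), f u ≤
      ∑ c ∈ T, ∑ u ∈ A.filter (fun u => c ∈ E u), f u := by
  simp only [sum_filter]
  rw [sum_comm]
  refine sum_le_sum fun u _ => ?_
  rw [← sum_filter, sum_const, nsmul_eq_mul]
  have : T.filter (fun c => c ∈ E u) = E u ∩ T := by
    ext c; simp [and_comm]
  rw [this]
  split_ifs with h
  · rw [h]; simp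
  · exact mul_nonneg (Nat.cast_nonneg _) (hf u)

/- SKETCH.  H v is nonempty (lamB 0 = 1).  pluhar_of_le with φ v = lamB h: the conflict weight of v is
at most ∑_{c ∈ H v} ∑_{u ∋ c} W e h.  For fixed c: at most one pair through c (pair_unique); with a
pair: 1/(h(h+1)) + (1/2) 6/(h(h+1)(h+2)), without: 6/(h(h+1)(h+2)); both ≤ (h+5)/(h(h+1)(h+2)). -/
theorem W3 {A B : Finset ι} {E H : ι → Finset ℕ} (hE : ∀ u ∈ A, (E u).Nonempty)
    (hd : ∀ c, deg A E c < 1) (hβ : ∑ v ∈ B, lamB (H v).card < 1) : Split A B E H := by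
  have hl : ∀ h : ℕ, 0 ≤ lamB h := by
    intro h
    unfold lamB
    split_ifs
    · norm_num
    · positivity
  have hH : ∀ v ∈ B, (H v).Nonempty := by
    intro v hv
    rw [nonempty_iff_ne_empty]
    intro h0
    have := single_le_sum (f := fun v => lamB (H v).card) (fun _ _ => hl _) hv
    simp only [h0, card_empty] at this
    have h1 : lamB 0 = 1 := by simp [lamB]
    linarith
  refine pluhar_of_le hE hH (fun v => lamB (H v).card) (fun v hv => ?_) hβ
  have hpos := (hH v hv).card_pos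
  refine (WA_swap A E (H v) (fun u => W (E u).card (H v).card) fun _ => W_nonneg _ _).trans ?_
  refine (sum_le_sum fun c _ => WA_fix hE hd hpos c).trans (le_of_eq ?_)
  have hq : ((H v).card : ℚ) ≠ 0 := by exact_mod_cast hpos.ne'
  rw [sum_const, nsmul_eq_mul]
  simp only [lamB, if_neg hpos.ne']
  field_simp

end Pool.Agent.P.MP_a09be5_co
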